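import Mathlib

/-! Subgroups containing the alternating group of a subset. -/

set_option linter.unusedSectionVars false
set_option linter.unusedVariables false

open Equiv Equiv.Perm

namespace Pool.Agent.Helper32.Had

variable {α : Type*} [Fintype α] [DecidableEq α]

/-- `K` contains all even permutations supported in `Ω`. -/
def FxK (K : Subgroup (Perm α)) (Ω : Finset α) : Prop :=
  ∀ g ∈ alternatingGroup α, g.support ⊆ Ω → g ∈ K

/-- the `3`-cycle `a → b → c → a` -/
def tri (a b c : α) : Perm α := swap a b * swap b c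

theorem conj_tri (h : Perm α) (a b c : α) : h * tri a b c * h⁻¹ = tri (h a) (h b) (h c) := by
  unfold tri
  rw [swap_apply_apply, swap_apply_apply]
  group

theorem tri_apply_1 {a b c : α} (hab : a ≠ b) (hac : a ≠ c) : tri a b c a = b := by
  simp [tri, swap_apply_of_ne_of_ne hab hac]

theorem tri_apply_2 {a b c : α} (hac : a ≠ c) (hbc : b ≠ c) : tri a b c b = c := by
  simp [tri, swap_apply_of_ne_of_ne hac.symm hbc.symm]

theorem tri_apply_3 {a b c : α} : tri a b c c = a := by
  simp [tri]

theorem tri_apply_ne {a b c x : α} (ha : x ≠ a) (hb : x ≠ b) (hc : x ≠ c) : tri a b c x = x := by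
  simp [tri, swap_apply_of_ne_of_ne hb hc, swap_apply_of_ne_of_ne ha hb]

theorem tri_rot {a b c : α} (hab : a ≠ b) (hac : a ≠ c) (hbc : b ≠ c) :
    tri a b c = tri b c a := by
  ext x
  by_cases h1 : x = a
  · subst h1; rw [tri_apply_1 hab hac, tri_apply_3]
  · by_cases h2 : x = b
    · subst h2; rw [tri_apply_2 hac hbc, tri_apply_1 hbc hab.symm]
    · by_cases h3 : x = c
      · subst h3; rw [tri_apply_3, tri_apply_2 hab.symm hac.symm]
      · rw [tri_apply_ne h1 h2 h3, tri_apply_ne h2 h3 h1]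

theorem tri_support_subset {a b c : α} {Ω : Finset α} (ha : a ∈ Ω) (hb : b ∈ Ω) (hc : c ∈ Ω) :
    (tri a b c).support ⊆ Ω := by
  intro x hx
  by_contra hxΩ
  rw [mem_support] at hx
  apply hx
  apply tri_apply_ne <;> rintro rfl <;> exact hxΩ (by assumption)

theorem tri_isThreeCycle {a b c : α} (hab : a ≠ b) (hac : a ≠ c) (hbc : b ≠ c) :
    (tri a b c).IsThreeCycle := by
  have := isThreeCycle_swap_mul_swap_same hab.symm hbc hac
  unfold tri
  rw [swap_comm a b]
  exact this

theorem tri_mem_alt {a b c : α} (hab : a ≠ b) (hac : a ≠ c) (hbc : b ≠ c) :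
    tri a b c ∈ alternatingGroup α := (tri_isThreeCycle hab hac hbc).mem_alternatingGroup

theorem exists_tri {g : Perm α} (hg : g.IsThreeCycle) {x : α} (hx : x ∈ g.support) :
    g = tri x (g x) (g (g x)) ∧ x ≠ g x ∧ x ≠ g (g x) ∧ g x ≠ g (g x) := by
  have h1 := hg.eq_swap_mul_swap_iff_mem_support.mpr hx
  have h2 := hg.nodup_iff_mem_support.mpr hx
  refine ⟨h1, ?_, ?_, ?_⟩ <;> grind

theorem fxK_of_tri {K : Subgroup (Perm α)} {Ω : Finset α}
    (h : ∀ a ∈ Ω, ∀ b ∈ Ω, ∀ c ∈ Ω, a ≠ b → a ≠ c → b ≠ c → tri a b c ∈ K) : FxK K Ω := by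
  intro g hg hgs
  have h1 : (⟨g, hg⟩ : alternatingGroup α) ∈ (alternatingGroup.ofSubtype (α := α) Ω).range :=
    (alternatingGroup.mem_range_ofSubtype_iff Ω _).mpr hgs
  obtain ⟨⟨g', hg'⟩, h2⟩ := h1
  have h3 : Perm.ofSubtype g' = g := by
    have := congrArg (fun z : alternatingGroup α => (z : Perm α)) h2
    simpa using! this
  rw [← h3]
  have h4 : alternatingGroup Ω ≤ K.comap (Perm.ofSubtype (p := (· ∈ Ω))) := by
    rw [← closure_three_cycles_eq_alternating, Subgroup.closure_le]
    intro σ hσ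
    have hσ3 : (Perm.ofSubtype σ).IsThreeCycle := by
      have : (Perm.ofSubtype σ).cycleType = σ.cycleType := cycleType_ofSubtype
      unfold IsThreeCycle
      rw [this]
      exact hσ
    have hsub : (Perm.ofSubtype σ).support ⊆ Ω := by
      intro x hx
      by_contra hxΩ
      rw [mem_support] at hx
      exact hx (ofSubtype_apply_of_not_mem _ hxΩ)
    obtain ⟨x, hx⟩ : (Perm.ofSubtype σ).support.Nonempty := by
      rw [← Finset.card_pos, hσ3.card_support]; norm_num
    obtain ⟨h5, h6, h7, h8⟩ := exists_tri hσ3 hx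
    have hx1 : (Perm.ofSubtype σ) x ∈ (Perm.ofSubtype σ).support := by
      rwa [apply_mem_support]
    have hx2 : (Perm.ofSubtype σ) ((Perm.ofSubtype σ) x) ∈ (Perm.ofSubtype σ).support := by
      rwa [apply_mem_support]
    show Perm.ofSubtype σ ∈ K
    rw [h5]
    exact h _ (hsub hx) _ (hsub hx1) _ (hsub hx2) h6 h7 h8
  exact h4 hg'

theorem FxK.tri_mem {K : Subgroup (Perm α)} {Ω : Finset α} (h : FxK K Ω) {a b c : α}
    (ha : a ∈ Ω) (hb : b ∈ Ω) (hc : c ∈ Ω) (hab : a ≠ b) (hac : a ≠ c) (hbc : b ≠ c) :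
    tri a b c ∈ K := h _ (tri_mem_alt hab hac hbc) (tri_support_subset ha hb hc)

theorem FxK.mono {K : Subgroup (Perm α)} {Ω Ω' : Finset α} (h : FxK K Ω) (hs : Ω' ⊆ Ω) :
    FxK K Ω' := fun g hg hgs => h g hg (hgs.trans hs)

theorem FxK.le {K L : Subgroup (Perm α)} {Ω : Finset α} (h : FxK K Ω) (hs : K ≤ L) :
    FxK L Ω := fun g hg hgs => hs (h g hg hgs)

/-! ### Even permutations with prescribed values -/

theorem support_mul_subset {g h : Perm α} {X : Finset α} (hg : g.support ⊆ X)
    (hh : h.support ⊆ X) : (g * h).support ⊆ X := by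
  refine (support_mul_le g h).trans ?_
  exact sup_le hg hh

theorem support_swap_subset {a b : α} {X : Finset α} (ha : a ∈ X) (hb : b ∈ X) :
    (swap a b).support ⊆ X := by
  intro x hx
  by_contra hxX
  rw [mem_support] at hx
  apply hx
  apply swap_apply_of_ne_of_ne <;> rintro rfl <;> exact hxX (by assumption)

theorem apply_mem_of_support_subset {g : Perm α} {X : Finset α} (hg : g.support ⊆ X) {x : α}
    (hx : x ∈ X) : g x ∈ X := by
  by_cases h : x ∈ g.support
  · exact hg (apply_mem_support.mpr h)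
  · rw [notMem_support.mp h]; exact hx

theorem exists_map3 {X : Finset α} {a b c u v w : α} (ha : a ∈ X) (hb : b ∈ X) (hc : c ∈ X)
    (hu : u ∈ X) (hv : v ∈ X) (hw : w ∈ X) (hab : a ≠ b) (hac : a ≠ c) (hbc : b ≠ c)
    (huv : u ≠ v) (huw : u ≠ w) (hvw : v ≠ w) :
    ∃ h : Perm α, h.support ⊆ X ∧ h a = u ∧ h b = v ∧ h c = w := by
  set h1 : Perm α := swap a u with hh1
  have s1 : h1.support ⊆ X := support_swap_subset ha hu
  have e1 : h1 a = u := swap_apply_left _ _
  set b1 := h1 b with hb1
  have b1X : b1 ∈ X := apply_mem_of_support_subset s1 hb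
  have b1u : b1 ≠ u := by
    rw [← e1]
    exact fun h => hab (h1.injective h).symm
  set h2 : Perm α := swap b1 v * h1 with hh2
  have s2 : h2.support ⊆ X := support_mul_subset (support_swap_subset b1X hv) s1
  have e2 : h2 a = u := by
    rw [hh2, Perm.mul_apply, e1]
    exact swap_apply_of_ne_of_ne b1u.symm huv
  have e3 : h2 b = v := by
    rw [hh2, Perm.mul_apply, ← hb1]
    exact swap_apply_left _ _
  set c2 := h2 c with hc2
  have c2X : c2 ∈ X := apply_mem_of_support_subset s2 hc
  have c2u : c2 ≠ u := by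
    rw [← e2]
    exact fun h => hac (h2.injective h).symm
  have c2v : c2 ≠ v := by
    rw [← e3]
    exact fun h => hbc (h2.injective h).symm
  refine ⟨swap c2 w * h2, support_mul_subset (support_swap_subset c2X hw) s2, ?_, ?_, ?_⟩
  · rw [Perm.mul_apply, e2]
    exact swap_apply_of_ne_of_ne c2u.symm huw
  · rw [Perm.mul_apply, e3]
    exact swap_apply_of_ne_of_ne c2v.symm hvw
  · rw [Perm.mul_apply, ← hc2]
    exact swap_apply_left _ _

theorem exists_even_map3 {X : Finset α} (hX : 5 ≤ X.card) {a b c u v w : α} (ha : a ∈ X)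
    (hb : b ∈ X) (hc : c ∈ X)
    (hu : u ∈ X) (hv : v ∈ X) (hw : w ∈ X) (hab : a ≠ b) (hac : a ≠ c) (hbc : b ≠ c)
    (huv : u ≠ v) (huw : u ≠ w) (hvw : v ≠ w) :
    ∃ h ∈ alternatingGroup α, h.support ⊆ X ∧ h a = u ∧ h b = v ∧ h c = w := by
  obtain ⟨h, hs, h1, h2, h3⟩ := exists_map3 ha hb hc hu hv hw hab hac hbc huv huw hvw
  rcases Int.units_eq_one_or (sign h) with hsg | hsg
  · exact ⟨h, mem_alternatingGroup.mpr hsg, hs, h1, h2, h3⟩
  · have hcard : 1 < (X \ {a, b, c}).card := by
      have h4 : ({a, b, c} : Finset α).card ≤ 3 := Finset.card_le_three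
      have h5 := Finset.le_card_sdiff ({a, b, c} : Finset α) X
      omega
    obtain ⟨d, hd, e, he, hde⟩ := Finset.one_lt_card.mp hcard
    simp only [Finset.mem_sdiff, Finset.mem_insert, Finset.mem_singleton, not_or] at hd he
    refine ⟨h * swap d e, ?_, support_mul_subset hs (support_swap_subset hd.1 he.1), ?_, ?_, ?_⟩
    · rw [mem_alternatingGroup, map_mul, hsg, sign_swap hde, Int.units_mul_self]
    · rw [Perm.mul_apply, swap_apply_of_ne_of_ne (Ne.symm hd.2.1) (Ne.symm he.2.1), h1]
    · rw [Perm.mul_apply, swap_apply_of_ne_of_ne (Ne.symm hd.2.2.1) (Ne.symm he.2.2.1), h2]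
    · rw [Perm.mul_apply, swap_apply_of_ne_of_ne (Ne.symm hd.2.2.2) (Ne.symm he.2.2.2), h3]

theorem exists_even_map2 {X : Finset α} (hX : 4 ≤ X.card) {a b u v : α} (ha : a ∈ X)
    (hb : b ∈ X) (hu : u ∈ X) (hv : v ∈ X) (hab : a ≠ b) (huv : u ≠ v) :
    ∃ h ∈ alternatingGroup α, h.support ⊆ X ∧ h a = u ∧ h b = v := by
  have h0 : ∃ h : Perm α, h.support ⊆ X ∧ h a = u ∧ h b = v := by
    obtain ⟨c, hc⟩ : (X \ {a, b}).Nonempty := by
      rw [← Finset.card_pos]
      have h4 : ({a, b} : Finset α).card ≤ 2 := Finset.card_le_two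
      have h5 := Finset.le_card_sdiff ({a, b} : Finset α) X
      omega
    obtain ⟨w, hw⟩ : (X \ {u, v}).Nonempty := by
      rw [← Finset.card_pos]
      have h4 : ({u, v} : Finset α).card ≤ 2 := Finset.card_le_two
      have h5 := Finset.le_card_sdiff ({u, v} : Finset α) X
      omega
    simp only [Finset.mem_sdiff, Finset.mem_insert, Finset.mem_singleton, not_or] at hc hw
    obtain ⟨h, h1, h2, h3, -⟩ := exists_map3 ha hb hc.1 hu hv hw.1 hab (Ne.symm hc.2.1)
      (Ne.symm hc.2.2) huv (Ne.symm hw.2.1) (Ne.symm hw.2.2)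
    exact ⟨h, h1, h2, h3⟩
  obtain ⟨h, hs, h1, h2⟩ := h0
  rcases Int.units_eq_one_or (sign h) with hsg | hsg
  · exact ⟨h, mem_alternatingGroup.mpr hsg, hs, h1, h2⟩
  · have hcard : 1 < (X \ {a, b}).card := by
      have h4 : ({a, b} : Finset α).card ≤ 2 := Finset.card_le_two
      have h5 := Finset.le_card_sdiff ({a, b} : Finset α) X
      omega
    obtain ⟨d, hd, e, he, hde⟩ := Finset.one_lt_card.mp hcard
    simp only [Finset.mem_sdiff, Finset.mem_insert, Finset.mem_singleton, not_or] at hd he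
    refine ⟨h * swap d e, ?_, support_mul_subset hs (support_swap_subset hd.1 he.1), ?_, ?_⟩
    · rw [mem_alternatingGroup, map_mul, hsg, sign_swap hde, Int.units_mul_self]
    · rw [Perm.mul_apply, swap_apply_of_ne_of_ne (Ne.symm hd.2.1) (Ne.symm he.2.1), h1]
    · rw [Perm.mul_apply, swap_apply_of_ne_of_ne (Ne.symm hd.2.2) (Ne.symm he.2.2), h2]

/-! ### Insertion and unions -/

theorem FxK.ins {K : Subgroup (Perm α)} {X : Finset α} (h : FxK K X) (hX : 4 ≤ X.card)
    {g : Perm α} (hg : g ∈ K) {a b x : α} (ha : a ∈ X) (hb : b ∈ X) (hx : x ∈ X)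
    (hab : a ≠ b) (hxa : x ≠ a) (hxb : x ≠ b) (hga : g a = a) (hgb : g b = b)
    (hgx : g x ∉ X) : FxK K (insert (g x) X) := by
  set z := g x with hz
  have hza : z ≠ a := by rintro rfl; exact hgx ha
  have hzb : z ≠ b := by rintro rfl; exact hgx hb
  have h1 : tri z a b ∈ K := by
    have h2 := conj_tri g x a b
    rw [hga, hgb, ← hz] at h2
    rw [← h2]
    exact K.mul_mem (K.mul_mem hg (h.tri_mem hx ha hb hxa hxb hab)) (K.inv_mem hg)
  have h3 : ∀ u ∈ X, ∀ w ∈ X, u ≠ w → tri z u w ∈ K := by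
    intro u hu w hw huw
    obtain ⟨k, hk, hks, hka, hkb⟩ := exists_even_map2 hX ha hb hu hw hab huw
    have hkK := h k hk hks
    have hkz : k z = z := notMem_support.mp (fun hh => hgx (hks hh))
    have h2 := conj_tri k z a b
    rw [hka, hkb, hkz] at h2
    rw [← h2]
    exact K.mul_mem (K.mul_mem hkK h1) (K.inv_mem hkK)
  apply fxK_of_tri
  intro p hp q hq r hr hpq hpr hqr
  rw [Finset.mem_insert] at hp hq hr
  rcases hp with hp | hp
  · subst hp
    have hq' : q ∈ X := hq.resolve_left (Ne.symm hpq)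
    have hr' : r ∈ X := hr.resolve_left (Ne.symm hpr)
    exact h3 q hq' r hr' hqr
  · rcases hq with hq | hq
    · subst hq
      have hr' : r ∈ X := hr.resolve_left (Ne.symm hqr)
      rw [tri_rot hpq hpr hqr]
      exact h3 r hr' p hp (Ne.symm hpr)
    · rcases hr with hr | hr
      · subst hr
        rw [tri_rot hpq hpr hqr, tri_rot hqr (Ne.symm hpq) (Ne.symm hpr)]
        exact h3 p hp q hq hpq
      · exact h.tri_mem hp hq hr hpq hpr hqr

theorem FxK.union {K : Subgroup (Perm α)} {X Y : Finset α} (h : FxK K X) (hX : 4 ≤ X.card)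
    (h' : FxK K Y) (hY : 3 ≤ Y.card) (hXY : (X ∩ Y).Nonempty) : FxK K (X ∪ Y) := by
  induction hn : (Y \ X).card generalizing X with
  | zero =>
    have : Y ⊆ X := by
      rw [← Finset.sdiff_eq_empty_iff_subset]
      exact Finset.card_eq_zero.mp hn
    rwa [Finset.union_eq_left.mpr this]
  | succ n ih =>
    obtain ⟨z, hz⟩ : (Y \ X).Nonempty := by rw [← Finset.card_pos]; omega
    obtain ⟨x, hx⟩ := hXY
    rw [Finset.mem_sdiff] at hz
    rw [Finset.mem_inter] at hx
    have hxz : x ≠ z := by rintro rfl; exact hz.2 hx.1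
    obtain ⟨y, hy⟩ : (Y \ {x, z}).Nonempty := by
      rw [← Finset.card_pos]
      have h4 : ({x, z} : Finset α).card ≤ 2 := Finset.card_le_two
      have h5 := Finset.le_card_sdiff ({x, z} : Finset α) Y
      omega
    simp only [Finset.mem_sdiff, Finset.mem_insert, Finset.mem_singleton, not_or] at hy
    have hcard : 1 < (X \ {x, y}).card := by
      have h4 : ({x, y} : Finset α).card ≤ 2 := Finset.card_le_two
      have h5 := Finset.le_card_sdiff ({x, y} : Finset α) X
      omega
    obtain ⟨a, ha, b, hb, hab⟩ := Finset.one_lt_card.mp hcard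
    simp only [Finset.mem_sdiff, Finset.mem_insert, Finset.mem_singleton, not_or] at ha hb
    have haz : a ≠ z := by rintro rfl; exact hz.2 ha.1
    have hbz : b ≠ z := by rintro rfl; exact hz.2 hb.1
    have hg : tri x z y ∈ K :=
      h'.tri_mem hx.2 hz.1 hy.1 hxz (Ne.symm hy.2.1) (Ne.symm hy.2.2)
    have hgx : tri x z y x = z := tri_apply_1 hxz (Ne.symm hy.2.1)
    have hins := h.ins hX hg ha.1 hb.1 hx.1 hab (Ne.symm ha.2.1) (Ne.symm hb.2.1)
      (tri_apply_ne ha.2.1 haz ha.2.2) (tri_apply_ne hb.2.1 hbz hb.2.2) (by rw [hgx]; exact hz.2)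
    rw [hgx] at hins
    have hih := ih hins (by rw [Finset.card_insert_of_notMem hz.2]; omega)
      ⟨x, by simp [hx.1, hx.2]⟩ (by
        have : Y \ insert z X = (Y \ X).erase z := by
          ext w; simp only [Finset.mem_sdiff, Finset.mem_insert, Finset.mem_erase]; tauto
        rw [this, Finset.card_erase_of_mem (by simp [hz.1, hz.2]), hn]
        rfl)
    have : insert z X ∪ Y = X ∪ Y := by
      ext w; simp only [Finset.mem_union, Finset.mem_insert]
      constructor
      · rintro ((rfl | h) | h)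
        · exact Or.inr hz.1
        · exact Or.inl h
        · exact Or.inr h
      · rintro (h | h)
        · exact Or.inl (Or.inr h)
        · exact Or.inr h
    rwa [this] at hih

theorem FxK.union_support {K : Subgroup (Perm α)} {X : Finset α} (h : FxK K X)
    {s : Perm α} (hs : s ∈ K) (hc : s.IsCycle) (hX : s.support.card + 2 ≤ X.card)
    (hsX : (s.support ∩ X).Nonempty) : FxK K (X ∪ s.support) := by
  have hs2 : 2 ≤ s.support.card := hc.two_le_card_support
  induction hn : (s.support \ X).card generalizing X with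
  | zero =>
    have : s.support ⊆ X := by
      rw [← Finset.sdiff_eq_empty_iff_subset]
      exact Finset.card_eq_zero.mp hn
    rwa [Finset.union_eq_left.mpr this]
  | succ n ih =>
    obtain ⟨z0, hz0⟩ : (s.support \ X).Nonempty := by rw [← Finset.card_pos]; omega
    rw [Finset.mem_sdiff] at hz0
    obtain ⟨x, hx, hxX, hgx⟩ : ∃ x ∈ s.support, x ∈ X ∧ s x ∉ X := by
      by_contra hcon
      push Not at hcon
      obtain ⟨x0, hx0⟩ := hsX
      rw [Finset.mem_inter] at hx0
      obtain ⟨k, hk⟩ := hc.exists_pow_eq (mem_support.mp hx0.1) (mem_support.mp hz0.1)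
      have key : ∀ k : ℕ, (s ^ k) x0 ∈ s.support ∧ (s ^ k) x0 ∈ X := by
        intro k
        induction k with
        | zero => simpa using hx0
        | succ k ihk =>
          rw [pow_succ', Perm.mul_apply]
          exact ⟨apply_mem_support.mpr ihk.1, hcon _ ihk.1 ihk.2⟩
      exact hz0.2 (hk ▸ (key k).2)
    have hcard : 1 < (X \ s.support).card := by
      have h5 := Finset.le_card_sdiff s.support X
      omega
    obtain ⟨a, ha, b, hb, hab⟩ := Finset.one_lt_card.mp hcard
    rw [Finset.mem_sdiff] at ha hb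
    have hins := h.ins (by omega) hs ha.1 hb.1 hxX hab (by rintro rfl; exact ha.2 hx)
      (by rintro rfl; exact hb.2 hx) (notMem_support.mp ha.2) (notMem_support.mp hb.2) hgx
    have hsx : s x ∈ s.support := apply_mem_support.mpr hx
    have hih := ih hins (by rw [Finset.card_insert_of_notMem hgx]; omega)
      ⟨x, by simp only [Finset.mem_inter, Finset.mem_insert]; exact ⟨hx, Or.inr hxX⟩⟩ (by
        have : s.support \ insert (s x) X = (s.support \ X).erase (s x) := by
          ext w; simp only [Finset.mem_sdiff, Finset.mem_insert, Finset.mem_erase]; tauto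
        rw [this, Finset.card_erase_of_mem (Finset.mem_sdiff.mpr ⟨hsx, hgx⟩), hn]
        rfl)
    have : insert (s x) X ∪ s.support = X ∪ s.support := by
      ext w; simp only [Finset.mem_union, Finset.mem_insert]
      constructor
      · rintro ((rfl | h) | h)
        · exact Or.inr hsx
        · exact Or.inl h
        · exact Or.inr h
      · rintro (h | h)
        · exact Or.inl (Or.inr h)
        · exact Or.inr h
    rwa [this] at hih

end Pool.Agent.Helper32.Had
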