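import Mathlib

/-! Definitions for problem MP_d4104f_co (minimum Hadwiger number of graphs with given
automorphism group). -/

namespace Pool.Agent.Helper32.Had

/-- `X` has a `K_k` minor: there are `k` nonempty connected, pairwise disjoint and pairwise
adjacent vertex sets (branch sets). -/
def HasCliqueMinor {V : Type*} (X : SimpleGraph V) (k : ℕ) : Prop :=
  ∃ B : Fin k → Set V, (∀ i, (X.induce (B i)).Connected) ∧
    (∀ i j, i ≠ j → Disjoint (B i) (B j)) ∧
    ∀ i j, i ≠ j → ∃ a ∈ B i, ∃ b ∈ B j, X.Adj a b

/-- The Hadwiger number of a (finite) graph. -/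
noncomputable def hadwiger {V : Type*} (X : SimpleGraph V) : ℕ :=
  sSup {k | HasCliqueMinor X k}

/-- `m(G)`: the least Hadwiger number of a finite graph whose automorphism group is isomorphic
to `G`. -/
noncomputable def minHadwiger (G : Type*) [Group G] : ℕ :=
  sInf {h | ∃ (N : ℕ) (X : SimpleGraph (Fin N)), Nonempty ((X ≃g X) ≃* G) ∧ hadwiger X = h}

end Pool.Agent.Helper32.Had
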