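import Mathlib
import Pool.Agent.Helper32.HadDefs

/-! Connected sets and `K_{p,p}` minors. -/

namespace Pool.Agent.Helper32.Had

variable {V : Type*}

/-- `b` can be reached from `a` by a walk inside `S` (for `a ∈ S`). -/
def Reach (Γ : SimpleGraph V) (S : Set V) : V → V → Prop :=
  Relation.ReflTransGen (fun x y => Γ.Adj x y ∧ x ∈ S ∧ y ∈ S)

/-- `S` is nonempty and induces a connected subgraph. -/
def Conn (Γ : SimpleGraph V) (S : Set V) : Prop :=
  S.Nonempty ∧ ∀ a ∈ S, ∀ b ∈ S, Reach Γ S a b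

/-- `Γ` has a `K_{p,p}` minor. -/
def HasBip (Γ : SimpleGraph V) (p : ℕ) : Prop :=
  ∃ P Q : Fin p → Set V, (∀ i, Conn Γ (P i)) ∧ (∀ i, Conn Γ (Q i)) ∧
    (∀ i j, i ≠ j → Disjoint (P i) (P j)) ∧ (∀ i j, i ≠ j → Disjoint (Q i) (Q j)) ∧
    (∀ i j, Disjoint (P i) (Q j)) ∧ ∀ i j, ∃ a ∈ P i, ∃ b ∈ Q j, Γ.Adj a b

variable {Γ : SimpleGraph V} {S T : Set V} {a b c : V}

theorem Reach.refl (a : V) : Reach Γ S a a := Relation.ReflTransGen.refl

theorem Reach.trans (h : Reach Γ S a b) (h' : Reach Γ S b c) : Reach Γ S a c :=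
  Relation.ReflTransGen.trans h h'

theorem Reach.symm (h : Reach Γ S a b) : Reach Γ S b a := by
  induction h with
  | refl => exact Relation.ReflTransGen.refl
  | tail _ h ih => exact Relation.ReflTransGen.head ⟨h.1.symm, h.2.2, h.2.1⟩ ih

theorem Reach.single (h : Γ.Adj a b) (ha : a ∈ S) (hb : b ∈ S) : Reach Γ S a b :=
  Relation.ReflTransGen.single ⟨h, ha, hb⟩

theorem Reach.mono (hST : S ⊆ T) (h : Reach Γ S a b) : Reach Γ T a b := by
  refine Relation.ReflTransGen.mono ?_ _ _ h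
  intro x y ⟨h1, h2, h3⟩
  exact ⟨h1, hST h2, hST h3⟩

theorem Reach.mem (h : Reach Γ S a b) (ha : a ∈ S) : b ∈ S := by
  induction h with
  | refl => exact ha
  | tail _ h _ => exact h.2.2

/-- criterion with a centre -/
theorem Conn.of_center (ha : a ∈ S) (h : ∀ b ∈ S, Reach Γ S a b) : Conn Γ S :=
  ⟨⟨a, ha⟩, fun x hx y hy => (h x hx).symm.trans (h y hy)⟩

theorem Conn.singleton (a : V) : Conn Γ {a} :=
  Conn.of_center (Set.mem_singleton a) (by
    intro b hb
    rw [Set.mem_singleton_iff] at hb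
    subst hb
    exact Reach.refl _)

theorem Conn.reach (h : Conn Γ S) (ha : a ∈ S) (hb : b ∈ S) : Reach Γ S a b := h.2 a ha b hb

/-- union of two connected sets joined by an edge -/
theorem Conn.union_adj (hS : Conn Γ S) (hT : Conn Γ T) (ha : a ∈ S) (hb : b ∈ T)
    (h : Γ.Adj a b) : Conn Γ (S ∪ T) := by
  refine Conn.of_center (a := a) (Or.inl ha) ?_
  intro x hx
  rcases hx with hx | hx
  · exact (hS.reach ha hx).mono Set.subset_union_left
  · exact (Reach.single h (Or.inl ha) (Or.inr hb)).trans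
      ((hT.reach hb hx).mono Set.subset_union_right)

theorem Conn.union_inter (hS : Conn Γ S) (hT : Conn Γ T) (ha : a ∈ S) (hb : a ∈ T) :
    Conn Γ (S ∪ T) := by
  refine Conn.of_center (a := a) (Or.inl ha) ?_
  intro x hx
  rcases hx with hx | hx
  · exact (hS.reach ha hx).mono Set.subset_union_left
  · exact (hT.reach hb hx).mono Set.subset_union_right

theorem Conn.connected (h : Conn Γ S) : (Γ.induce S).Connected := by
  obtain ⟨⟨a, ha⟩, hr⟩ := h
  have key : ∀ x y, Reach Γ S x y → ∀ (hx : x ∈ S) (hy : y ∈ S),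
      (Γ.induce S).Reachable ⟨x, hx⟩ ⟨y, hy⟩ := by
    intro x y hxy
    induction hxy with
    | refl => intro hx hy; exact SimpleGraph.Reachable.refl _
    | tail _ h ih =>
      intro hx hy
      refine (ih hx h.2.1).trans ?_
      exact SimpleGraph.Adj.reachable (by simpa using h.1)
  have : Nonempty S := ⟨⟨a, ha⟩⟩
  exact ⟨fun x y => key x y (hr x x.2 y y.2) x.2 y.2⟩

theorem Conn.of_connected (h : (Γ.induce S).Connected) : Conn Γ S := by
  obtain ⟨⟨a, ha⟩⟩ := h.nonempty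
  refine ⟨⟨a, ha⟩, ?_⟩
  intro x hx y hy
  obtain ⟨w⟩ := h.preconnected ⟨x, hx⟩ ⟨y, hy⟩
  have key : ∀ (u v : S) (_ : (Γ.induce S).Walk u v), Reach Γ S u v := by
    intro u v w
    induction w with
    | nil => exact Reach.refl _
    | cons h _ ih => exact (Reach.single (by simpa using h) (Subtype.prop _) (Subtype.prop _)).trans ih
  exact key _ _ w

theorem conn_iff : Conn Γ S ↔ (Γ.induce S).Connected :=
  ⟨Conn.connected, Conn.of_connected⟩

theorem HasBip.hasCliqueMinor {p : ℕ} (h : HasBip Γ p) : HasCliqueMinor Γ p := by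
  obtain ⟨P, Q, hP, hQ, hPP, hQQ, hPQ, hadj⟩ := h
  refine ⟨fun i => P i ∪ Q i, ?_, ?_, ?_⟩
  · intro i
    obtain ⟨a, ha, b, hb, hab⟩ := hadj i i
    exact ((hP i).union_adj (hQ i) ha hb hab).connected
  · intro i j hij
    rw [Set.disjoint_union_left, Set.disjoint_union_right, Set.disjoint_union_right]
    exact ⟨⟨hPP i j hij, hPQ i j⟩, (hPQ j i).symm, hQQ i j hij⟩
  · intro i j hij
    obtain ⟨a, ha, b, hb, hab⟩ := hadj i j
    exact ⟨a, Or.inl ha, b, Or.inr hb, hab⟩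

theorem HasBip.mono {p q : ℕ} (h : HasBip Γ p) (hqp : q ≤ p) : HasBip Γ q := by
  obtain ⟨P, Q, hP, hQ, hPP, hQQ, hPQ, hadj⟩ := h
  refine ⟨fun i => P (Fin.castLE hqp i), fun i => Q (Fin.castLE hqp i), fun i => hP _,
    fun i => hQ _, ?_, ?_, fun i j => hPQ _ _, fun i j => hadj _ _⟩
  · intro i j hij
    exact hPP _ _ (fun h => hij (Fin.castLE_injective hqp h))
  · intro i j hij
    exact hQQ _ _ (fun h => hij (Fin.castLE_injective hqp h))

theorem Reach.of_le {Γ' : SimpleGraph V} (hle : Γ' ≤ Γ) (h : Reach Γ' S a b) :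
    Reach Γ S a b := by
  refine Relation.ReflTransGen.mono ?_ _ _ h
  intro x y ⟨h1, h2, h3⟩
  exact ⟨hle h1, h2, h3⟩

theorem Conn.of_le {Γ' : SimpleGraph V} (hle : Γ' ≤ Γ) (h : Conn Γ' S) : Conn Γ S :=
  ⟨h.1, fun a ha b hb => (h.2 a ha b hb).of_le hle⟩

theorem HasBip.of_le {Γ' : SimpleGraph V} {p : ℕ} (hle : Γ' ≤ Γ) (h : HasBip Γ' p) :
    HasBip Γ p := by
  obtain ⟨P, Q, hP, hQ, hPP, hQQ, hPQ, hadj⟩ := h
  refine ⟨P, Q, fun i => (hP i).of_le hle, fun i => (hQ i).of_le hle, hPP, hQQ, hPQ, ?_⟩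
  intro i j
  obtain ⟨a, ha, b, hb, hab⟩ := hadj i j
  exact ⟨a, ha, b, hb, hle hab⟩

end Pool.Agent.Helper32.Had
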