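import Mathlib
import Pool.Agent.Helper32.HadBip

/-! Reduction to edge-transitive graphs. -/

set_option linter.style.haveILetI false

universe u

namespace Pool.Agent.Helper32.Had

/-- lifting minors along a family of disjoint connected sets -/
theorem Conn.lift {V W : Type*} {Γ : SimpleGraph V} {ΓW : SimpleGraph W} {f : W → Set V}
    (hf : ∀ w, Conn Γ (f w))
    (ha : ∀ w w', ΓW.Adj w w' → ∃ x ∈ f w, ∃ y ∈ f w', Γ.Adj x y) {S : Set W}
    (hS : Conn ΓW S) : Conn Γ (⋃ w ∈ S, f w) := by
  obtain ⟨⟨w0, hw0⟩, hr⟩ := hS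
  obtain ⟨x0, hx0⟩ := (hf w0).1
  have hmem : ∀ w ∈ S, f w ⊆ ⋃ w ∈ S, f w := fun w hw => Set.subset_biUnion_of_mem hw
  refine Conn.of_center (hmem w0 hw0 hx0) ?_
  intro y hy
  simp only [Set.mem_iUnion, exists_prop] at hy
  obtain ⟨w, hw, hyw⟩ := hy
  have key : ∀ w, Reach ΓW S w0 w → ∀ y ∈ f w, Reach Γ (⋃ w ∈ S, f w) x0 y := by
    intro w hw
    induction hw with
    | refl => intro y hy; exact ((hf w0).reach hx0 hy).mono (hmem w0 hw0)
    | tail _ h ih =>
      intro y hy
      obtain ⟨a, ha', b, hb', hab⟩ := ha _ _ h.1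
      refine (ih a ha').trans ((Reach.single hab (hmem _ h.2.1 ha') (hmem _ h.2.2 hb')).trans ?_)
      exact ((hf _).reach hb' hy).mono (hmem _ h.2.2)
  exact key w (hr w0 hw0 w hw) y hyw

theorem HasBip.lift {V W : Type*} {Γ : SimpleGraph V} {ΓW : SimpleGraph W} {f : W → Set V}
    (hf : ∀ w, Conn Γ (f w)) (hd : ∀ w w', w ≠ w' → Disjoint (f w) (f w'))
    (ha : ∀ w w', ΓW.Adj w w' → ∃ x ∈ f w, ∃ y ∈ f w', Γ.Adj x y) {p : ℕ}
    (h : HasBip ΓW p) : HasBip Γ p := by
  obtain ⟨P, Q, hP, hQ, hPP, hQQ, hPQ, hadj⟩ := h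
  have hdis : ∀ S T : Set W, Disjoint S T → Disjoint (⋃ w ∈ S, f w) (⋃ w ∈ T, f w) := by
    intro S T hST
    rw [Set.disjoint_left]
    intro x hx hx'
    simp only [Set.mem_iUnion, exists_prop] at hx hx'
    obtain ⟨w, hw, hxw⟩ := hx
    obtain ⟨w', hw', hxw'⟩ := hx'
    have hne : w ≠ w' := by
      rintro rfl
      exact Set.disjoint_left.mp hST hw hw'
    exact Set.disjoint_left.mp (hd w w' hne) hxw hxw'
  refine ⟨fun i => ⋃ w ∈ P i, f w, fun i => ⋃ w ∈ Q i, f w, fun i => (hP i).lift hf ha,
    fun i => (hQ i).lift hf ha, fun i j hij => hdis _ _ (hPP i j hij),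
    fun i j hij => hdis _ _ (hQQ i j hij), fun i j => hdis _ _ (hPQ i j), ?_⟩
  intro i j
  obtain ⟨a, haP, b, hbQ, hab⟩ := hadj i j
  obtain ⟨x, hx, y, hy, hxy⟩ := ha a b hab
  exact ⟨x, Set.mem_biUnion haP hx, y, Set.mem_biUnion hbQ hy, hxy⟩

theorem HasBip.of_induce {V : Type*} {Γ : SimpleGraph V} {S : Set V} {p : ℕ}
    (h : HasBip (Γ.induce S) p) : HasBip Γ p := by
  refine HasBip.lift (f := fun w : S => {(w : V)}) (fun w => Conn.singleton _) ?_ ?_ h
  · intro w w' hne
    rw [Set.disjoint_singleton]
    exact fun h => hne (Subtype.ext h)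
  · intro w w' hadj
    exact ⟨w, rfl, w', rfl, by simpa using hadj⟩

theorem reduce_edge_transitive {G : Type*} [Group G] {p : ℕ}
    (hB : ∀ (V : Type u) [Finite V] [MulAction G V] (Γ : SimpleGraph V),
      (∀ (g : G) u v, Γ.Adj u v → Γ.Adj (g • u) (g • v)) → Γ.Connected →
      (∀ v : V, ∃ g : G, g • v ≠ v) →
      (∀ a b c d, Γ.Adj a b → Γ.Adj c d → ∃ g : G,
        (g • a = c ∧ g • b = d) ∨ (g • a = d ∧ g • b = c)) → HasBip Γ p)
    (V : Type u) [Finite V] [MulAction G V] (Γ : SimpleGraph V)
    (hΓ : ∀ (g : G) u v, Γ.Adj u v → Γ.Adj (g • u) (g • v)) (hconn : Γ.Connected)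
    (hfix : ∀ v : V, ∃ g : G, g • v ≠ v) : HasBip Γ p := by
  induction hn : Nat.card V using Nat.strong_induction_on generalizing V Γ with
  | _ n IH =>
  classical
  -- a minimal invariant connected subgraph
  let 𝒮 : Set (SimpleGraph V) := {Δ | Δ ≤ Γ ∧ (∀ (g : G) u v, Δ.Adj u v → Δ.Adj (g • u) (g • v)) ∧
    Δ.Connected}
  haveI : Finite (SimpleGraph V) := by
    haveI := Fintype.ofFinite V
    infer_instance
  obtain ⟨Δ, hΔm⟩ := (Set.toFinite 𝒮).exists_minimal ⟨Γ, le_rfl, hΓ, hconn⟩
  obtain ⟨hΔΓ, hΔ, hΔc⟩ : Δ ≤ Γ ∧ (∀ (g : G) u v, Δ.Adj u v → Δ.Adj (g • u) (g • v)) ∧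
    Δ.Connected := hΔm.1
  refine HasBip.of_le hΔΓ ?_
  by_cases het : ∀ a b c d, Δ.Adj a b → Δ.Adj c d → ∃ g : G,
        (g • a = c ∧ g • b = d) ∨ (g • a = d ∧ g • b = c)
  · exact hB V Δ hΔ hΔc hfix het
  · push Not at het
    obtain ⟨a, b, c, d, hab, hcd, hno⟩ := het
    let Λ : SimpleGraph V :=
      { Adj := fun x y => ∃ g : G, (g • a = x ∧ g • b = y) ∨ (g • a = y ∧ g • b = x)
        symm := ⟨by
          rintro x y ⟨g, hg | hg⟩
          · exact ⟨g, Or.inr hg⟩
          · exact ⟨g, Or.inl hg⟩⟩
        loopless := ⟨by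
          rintro x ⟨g, hg | hg⟩
          · exact hab.ne (MulAction.injective g (hg.1.trans hg.2.symm))
          · exact hab.ne (MulAction.injective g (hg.1.trans hg.2.symm))⟩ }
    have hΛadj : ∀ x y, Λ.Adj x y ↔
      ∃ g : G, (g • a = x ∧ g • b = y) ∨ (g • a = y ∧ g • b = x) := fun _ _ => Iff.rfl
    have hΛΔ : Λ ≤ Δ := by
      intro x y hxy
      obtain ⟨g, hg | hg⟩ := (hΛadj x y).mp hxy
      · rw [← hg.1, ← hg.2]; exact hΔ g _ _ hab
      · rw [← hg.1, ← hg.2]; exact (hΔ g _ _ hab).symm
    have hΛ : ∀ (g : G) u v, Λ.Adj u v → Λ.Adj (g • u) (g • v) := by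
      intro g u v huv
      obtain ⟨k, hk | hk⟩ := (hΛadj u v).mp huv
      · exact (hΛadj _ _).mpr ⟨g * k, Or.inl ⟨by rw [mul_smul, hk.1], by rw [mul_smul, hk.2]⟩⟩
      · exact (hΛadj _ _).mpr ⟨g * k, Or.inr ⟨by rw [mul_smul, hk.1], by rw [mul_smul, hk.2]⟩⟩
    have hΛnc : ¬ Λ.Connected := by
      intro h
      have h1 : Δ ≤ Λ := hΔm.2 ⟨hΛΔ.trans hΔΓ, hΛ, h⟩ hΛΔ
      obtain ⟨g, hg⟩ := (hΛadj c d).mp (h1 hcd)
      rcases hg with hg | hg
      · exact (hno g).1 hg.1 hg.2
      · exact (hno g).2 hg.1 hg.2
    -- the action preserves reachability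
    have hreach : ∀ (g : G) x y, Λ.Reachable x y → Λ.Reachable (g • x) (g • y) := by
      intro g x y hxy
      let φ : Λ →g Λ := ⟨fun x => g • x, fun {x y} h => hΛ g x y h⟩
      exact hxy.map φ
    by_cases hinv : ∃ x0 : V, ∀ g : G, Λ.Reachable x0 (g • x0)
    · -- an invariant component
      obtain ⟨x0, hx0⟩ := hinv
      let W : Set V := {x | Λ.Reachable x0 x}
      have hW : ∀ (g : G) (x : V), x ∈ W → g • x ∈ W := fun g x hx =>
        (hx0 g).trans (hreach g _ _ hx)
      letI : MulAction G W :=
        { smul := fun g x => ⟨g • x.1, hW g x.1 x.2⟩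
          one_smul := fun x => Subtype.ext (one_smul G x.1)
          mul_smul := fun g k x => Subtype.ext (mul_smul g k x.1) }
      have hWsmul : ∀ (g : G) (x : W), ((g • x : W) : V) = g • (x : V) := fun _ _ => rfl
      have hWne : W ≠ Set.univ := by
        intro h
        apply hΛnc
        haveI : Nonempty V := ⟨x0⟩
        refine ⟨fun x y => ?_⟩
        have hx : x ∈ W := h ▸ Set.mem_univ x
        have hy : y ∈ W := h ▸ Set.mem_univ y
        exact (SimpleGraph.Reachable.symm hx).trans hy
      have hcard : Nat.card W < n := by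
        rw [← hn]
        exact Set.ncard_lt_card hWne
      have hconnW : (Λ.induce W).Connected := by
        rw [← conn_iff]
        refine Conn.of_center (a := x0) (SimpleGraph.Reachable.refl _) ?_
        intro y hy
        obtain ⟨w⟩ := (hy : Λ.Reachable x0 y)
        have key : ∀ (u v : V) (w : Λ.Walk u v), u ∈ W → Reach Λ W u v := by
          intro u v w
          induction w with
          | nil => intro _; exact Reach.refl _
          | cons h _ ih =>
            intro hu
            have hv : _ ∈ W := (hu : Λ.Reachable x0 _).trans h.reachable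
            exact (Reach.single h hu hv).trans (ih hv)
        exact key _ _ w (SimpleGraph.Reachable.refl _)
      have := IH (Nat.card W) hcard W (Λ.induce W) (by
          intro g x y hxy
          simp only [SimpleGraph.comap_adj, Function.Embedding.subtype_apply] at hxy ⊢
          exact hΛ g _ _ hxy) hconnW (by
          intro x
          obtain ⟨g, hg⟩ := hfix x
          exact ⟨g, fun h => hg (congrArg Subtype.val h)⟩) rfl
      exact (HasBip.of_induce this).of_le hΛΔ
    · -- the quotient graph
      push Not at hinv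
      letI : MulAction G Λ.ConnectedComponent :=
        { smul := fun g C => C.map (⟨fun x => g • x, fun {x y} h => hΛ g x y h⟩ : Λ →g Λ)
          one_smul := by
            intro C
            induction C using SimpleGraph.ConnectedComponent.ind with
            | _ x =>
              show Λ.connectedComponentMk ((1 : G) • x) = _
              rw [one_smul]
          mul_smul := by
            intro g k C
            induction C using SimpleGraph.ConnectedComponent.ind with
            | _ x =>
              show Λ.connectedComponentMk ((g * k) • x) = Λ.connectedComponentMk (g • (k • x))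
              rw [mul_smul] }
      have hQsmul : ∀ (g : G) (x : V), g • Λ.connectedComponentMk x =
        Λ.connectedComponentMk (g • x) := fun _ _ => rfl
      let ΓQ : SimpleGraph Λ.ConnectedComponent :=
        { Adj := fun C D => C ≠ D ∧ ∃ x y, Λ.connectedComponentMk x = C ∧
            Λ.connectedComponentMk y = D ∧ Δ.Adj x y
          symm := ⟨by
            rintro C D ⟨hne, x, y, hx, hy, hxy⟩
            exact ⟨hne.symm, y, x, hy, hx, hxy.symm⟩⟩
          loopless := ⟨by
            rintro C ⟨hne, -⟩
            exact hne rfl⟩ }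
      have hΓQ : ∀ C D, ΓQ.Adj C D ↔ C ≠ D ∧ ∃ x y, Λ.connectedComponentMk x = C ∧
            Λ.connectedComponentMk y = D ∧ Δ.Adj x y := fun _ _ => Iff.rfl
      have hcard : Nat.card Λ.ConnectedComponent < n := by
        rw [← hn]
        haveI := Fintype.ofFinite V
        haveI : Finite Λ.ConnectedComponent := inferInstance
        haveI := Fintype.ofFinite Λ.ConnectedComponent
        rw [Nat.card_eq_fintype_card, Nat.card_eq_fintype_card]
        apply Fintype.card_lt_of_surjective_not_injective Λ.connectedComponentMk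
        · intro C
          induction C using SimpleGraph.ConnectedComponent.ind with
          | _ x => exact ⟨x, rfl⟩
        · intro hinj
          apply hab.ne
          apply hinj
          rw [SimpleGraph.ConnectedComponent.eq]
          exact SimpleGraph.Adj.reachable ((hΛadj a b).mpr ⟨1, Or.inl ⟨one_smul _ _, one_smul _ _⟩⟩)
      have hconnQ : ΓQ.Connected := by
        haveI := hΔc.nonempty
        haveI : Nonempty Λ.ConnectedComponent := ⟨Λ.connectedComponentMk (Classical.arbitrary V)⟩
        refine ⟨fun C D => ?_⟩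
        induction C using SimpleGraph.ConnectedComponent.ind with
        | _ x =>
        induction D using SimpleGraph.ConnectedComponent.ind with
        | _ y =>
          obtain ⟨w⟩ := hΔc.preconnected x y
          induction w with
          | nil => exact SimpleGraph.Reachable.refl _
          | @cons u v w h _ ih =>
            refine SimpleGraph.Reachable.trans ?_ ih
            by_cases huv : Λ.connectedComponentMk u = Λ.connectedComponentMk v
            · rw [huv]
            · exact SimpleGraph.Adj.reachable ((hΓQ _ _).mpr ⟨huv, u, v, rfl, rfl, h⟩)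
      have hinvQ : ∀ (g : G) C D, ΓQ.Adj C D → ΓQ.Adj (g • C) (g • D) := by
        intro g C D hCD
        obtain ⟨hne, x, y, hx, hy, hxy⟩ := (hΓQ C D).mp hCD
        refine (hΓQ _ _).mpr ⟨fun h => hne (MulAction.injective g h), g • x, g • y, ?_, ?_,
          hΔ g _ _ hxy⟩
        · rw [← hx, hQsmul]
        · rw [← hy, hQsmul]
      have hfixQ : ∀ C : Λ.ConnectedComponent, ∃ g : G, g • C ≠ C := by
        intro C
        induction C using SimpleGraph.ConnectedComponent.ind with
        | _ x =>
          obtain ⟨g, hg⟩ := hinv x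
          refine ⟨g, ?_⟩
          rw [hQsmul]
          intro h
          exact hg (SimpleGraph.ConnectedComponent.eq.mp h).symm
      have := IH (Nat.card Λ.ConnectedComponent) hcard Λ.ConnectedComponent ΓQ hinvQ hconnQ hfixQ rfl
      refine HasBip.lift (f := fun C => {x | Λ.connectedComponentMk x = C}) ?_ ?_ ?_ this
      · intro C
        induction C using SimpleGraph.ConnectedComponent.ind with
        | _ x =>
          refine Conn.of_le hΛΔ ?_
          refine Conn.of_center (a := x) rfl ?_
          intro y hy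
          have hxy : Λ.Reachable x y := (SimpleGraph.ConnectedComponent.eq.mp hy).symm
          obtain ⟨w⟩ := hxy
          have key : ∀ (u v : V) (w : Λ.Walk u v),
              Reach Λ {z | Λ.connectedComponentMk z = Λ.connectedComponentMk u} u v := by
            intro u v w
            induction w with
            | nil => exact Reach.refl _
            | @cons u v w h _ ih =>
              have huv : Λ.connectedComponentMk v = Λ.connectedComponentMk u :=
                (SimpleGraph.ConnectedComponent.eq.mpr h.reachable).symm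
              rw [huv] at ih
              refine Reach.trans (b := v) (Reach.single h ?_ ?_) ih
              · exact rfl
              · exact huv
          exact key _ _ w
      · intro C D hne
        rw [Set.disjoint_left]
        intro x hx hx'
        exact hne (hx.symm.trans hx')
      · intro C D hCD
        obtain ⟨-, x, y, hx, hy, hxy⟩ := (hΓQ C D).mp hCD
        exact ⟨x, hx, y, hy, hxy⟩

end Pool.Agent.Helper32.Had
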