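import Mathlib
import Pool.Agent.Helper32.HadRed

/-! From the automorphism group to a connected invariant piece without fixed vertices. -/

set_option linter.style.haveILetI false

universe u

open Equiv Equiv.Perm

namespace Pool.Agent.Helper32.Had

theorem Reach.map_iso {V : Type*} {X : SimpleGraph V} (a : X ≃g X) {S : Set V}
    (hS : ∀ x ∈ S, a x ∈ S) {x y : V} (h : Reach X S x y) : Reach X S (a x) (a y) := by
  induction h with
  | refl => exact Reach.refl _
  | tail _ h ih =>
    exact ih.trans (Reach.single (a.map_rel_iff.mpr h.1) (hS _ h.2.1) (hS _ h.2.2))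

/-- every homomorphism from `A_n`, `n ≥ 5`, to `ℤˣ` is trivial -/
theorem alt_hom_trivial {n : ℕ} (h5 : 5 ≤ n) (f : alternatingGroup (Fin n) →* ℤˣ)
    (g : alternatingGroup (Fin n)) : f g = 1 := by
  have h1 := commutator_alternatingGroup_eq_top (α := Fin n) (by simpa using h5)
  have h2 : g ∈ commutator (alternatingGroup (Fin n)) := by rw [h1]; trivial
  exact Abelianization.commutator_subset_ker f h2

theorem hasBip_of_aut {n p : ℕ} (h5 : 5 ≤ n)
    (hB : ∀ (V : Type u) [Finite V] [MulAction (alternatingGroup (Fin n)) V] (Γ : SimpleGraph V),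
      (∀ (g : alternatingGroup (Fin n)) u v, Γ.Adj u v → Γ.Adj (g • u) (g • v)) → Γ.Connected →
      (∀ v : V, ∃ g : alternatingGroup (Fin n), g • v ≠ v) → HasBip Γ p)
    {V : Type u} [Finite V] (X : SimpleGraph V) (e : (X ≃g X) ≃* alternatingGroup (Fin n)) :
    HasBip X p := by
  classical
  letI : MulAction (alternatingGroup (Fin n)) V :=
    { smul := fun g v => e.symm g v
      one_smul := fun v => by
        show e.symm 1 v = v
        rw [map_one]; rfl
      mul_smul := fun g k v => by
        show e.symm (g * k) v = e.symm g (e.symm k v)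
        rw [map_mul]; rfl }
  have hsmul : ∀ (g : alternatingGroup (Fin n)) (v : V), g • v = e.symm g v := fun _ _ => rfl
  have hadjG : ∀ (g : alternatingGroup (Fin n)) u v, X.Adj u v → X.Adj (g • u) (g • v) :=
    fun g u v h => (e.symm g).map_rel_iff.mpr h
  let S : Set V := {v | ∃ g : alternatingGroup (Fin n), g • v ≠ v}
  have hSG : ∀ (g : alternatingGroup (Fin n)) (v : V), v ∈ S → g • v ∈ S := by
    rintro g v ⟨k, hk⟩
    refine ⟨g * k * g⁻¹, fun h => hk ?_⟩
    rw [← mul_smul, inv_mul_cancel_right, mul_smul] at h
    exact MulAction.injective g h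
  have hnS : ∀ (g : alternatingGroup (Fin n)) (v : V), v ∉ S → g • v = v := by
    intro g v hv
    by_contra h
    exact hv ⟨g, h⟩
  have hSa : ∀ (a : X ≃g X) (v : V), v ∈ S → a v ∈ S := by
    intro a v hv
    have := hSG (e a) v hv
    rwa [hsmul, MulEquiv.symm_apply_apply] at this
  -- a moved vertex
  obtain ⟨u0, hu0⟩ : S.Nonempty := by
    by_contra hcon
    rw [Set.not_nonempty_iff_eq_empty] at hcon
    haveI : Nontrivial (alternatingGroup (Fin n)) :=
      alternatingGroup.nontrivial_of_three_le_card (by simp; omega)
    obtain ⟨g, hg⟩ := exists_ne (1 : alternatingGroup (Fin n))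
    apply hg
    apply e.symm.injective
    rw [map_one]
    ext v
    exact hnS g v (by rw [hcon]; exact Set.notMem_empty v)
  have hreachG : ∀ (g : alternatingGroup (Fin n)) x y, Reach X S x y →
      Reach X S (g • x) (g • y) := fun g x y h => h.map_iso (e.symm g) (hSa _)
  -- the component of `u0` is invariant
  have hinv : ∀ g : alternatingGroup (Fin n), Reach X S u0 (g • u0) := by
    by_contra hcon
    push Not at hcon
    obtain ⟨g, hg⟩ := hcon
    let D : Set V := {x | Reach X S u0 x}
    let D' : Set V := {x | Reach X S (g • u0) x}
    have hDS : ∀ x ∈ D, x ∈ S := fun x hx => Reach.mem hx hu0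
    have hD'S : ∀ x ∈ D', x ∈ S := fun x hx => Reach.mem hx (hSG g u0 hu0)
    have hDD' : ∀ x ∈ D, x ∉ D' := fun x hx hx' => hg (Reach.trans hx (Reach.symm hx'))
    have hgD : ∀ x ∈ D, g • x ∈ D' := fun x hx => hreachG g _ _ hx
    have hgD' : ∀ x ∈ D', g⁻¹ • x ∈ D := by
      intro x hx
      have := hreachG g⁻¹ _ _ hx
      rwa [inv_smul_smul] at this
    let t : V → V := fun x => if x ∈ D then g • x else if x ∈ D' then g⁻¹ • x else x
    have ht1 : ∀ x ∈ D, t x = g • x := fun x hx => if_pos hx
    have ht2 : ∀ x ∈ D', t x = g⁻¹ • x := by
      intro x hx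
      have : x ∉ D := fun h => hDD' x h hx
      show (if x ∈ D then g • x else if x ∈ D' then g⁻¹ • x else x) = _
      rw [if_neg this, if_pos hx]
    have ht3 : ∀ x, x ∉ D → x ∉ D' → t x = x := by
      intro x hx hx'
      show (if x ∈ D then g • x else if x ∈ D' then g⁻¹ • x else x) = _
      rw [if_neg hx, if_neg hx']
    have htt : ∀ x, t (t x) = x := by
      intro x
      by_cases h1 : x ∈ D
      · rw [ht1 x h1, ht2 _ (hgD x h1), inv_smul_smul]
      · by_cases h2 : x ∈ D'
        · rw [ht2 x h2, ht1 _ (hgD' x h2), smul_inv_smul]
        · rw [ht3 x h1 h2, ht3 x h1 h2]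
    have hstepD : ∀ x y, x ∈ D → X.Adj x y → y ∈ D ∨ (y ∉ S) := by
      intro x y hx hxy
      by_cases hy : y ∈ S
      · left
        exact Reach.trans hx (Reach.single hxy (hDS x hx) hy)
      · exact Or.inr hy
    have hstepD' : ∀ x y, x ∈ D' → X.Adj x y → y ∈ D' ∨ (y ∉ S) := by
      intro x y hx hxy
      by_cases hy : y ∈ S
      · left
        exact Reach.trans hx (Reach.single hxy (hD'S x hx) hy)
      · exact Or.inr hy
    have hnSt : ∀ y, y ∉ S → t y = y := fun y hy =>
      ht3 y (fun h => hy (hDS y h)) (fun h => hy (hD'S y h))
    have hcase : ∀ x y, X.Adj x y → (x ∈ D ∨ x ∈ D') → X.Adj (t x) (t y) := by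
      intro x y hxy hx
      rcases hx with hx | hx
      · rw [ht1 x hx]
        rcases hstepD x y hx hxy with hy | hy
        · rw [ht1 y hy]; exact hadjG g _ _ hxy
        · rw [hnSt y hy]
          have := hadjG g _ _ hxy
          rwa [hnS g y hy] at this
      · rw [ht2 x hx]
        rcases hstepD' x y hx hxy with hy | hy
        · rw [ht2 y hy]; exact hadjG g⁻¹ _ _ hxy
        · rw [hnSt y hy]
          have := hadjG g⁻¹ _ _ hxy
          rwa [hnS g⁻¹ y hy] at this
    have htadj : ∀ x y, X.Adj x y → X.Adj (t x) (t y) := by
      intro x y hxy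
      by_cases hx : x ∈ D ∨ x ∈ D'
      · exact hcase x y hxy hx
      · by_cases hy : y ∈ D ∨ y ∈ D'
        · exact (hcase y x hxy.symm hy).symm
        · rw [not_or] at hx hy
          rw [ht3 x hx.1 hx.2, ht3 y hy.1 hy.2]
          exact hxy
    let T : X ≃g X :=
      { toFun := t
        invFun := t
        left_inv := htt
        right_inv := htt
        map_rel_iff' := by
          intro x y
          constructor
          · intro h
            have := htadj _ _ h
            simp only [Equiv.coe_fn_mk] at this
            rwa [htt, htt] at this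
          · exact htadj x y }
    have hT : ∀ x, T x = t x := fun _ => rfl
    -- the action on the components
    let r : Setoid V := ⟨Reach X S, ⟨fun x => Reach.refl x, fun h => h.symm, fun h h' => h.trans h'⟩⟩
    let ψ : (X ≃g X) →* Perm (Quotient r) :=
      { toFun := fun a =>
          { toFun := Quotient.map a (fun x y h => Reach.map_iso a (hSa a) h)
            invFun := Quotient.map a.symm (fun x y h => Reach.map_iso a.symm (hSa a.symm) h)
            left_inv := by
              intro q
              induction q using Quotient.ind with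
              | _ x => simp [Quotient.map_mk]
            right_inv := by
              intro q
              induction q using Quotient.ind with
              | _ x => simp [Quotient.map_mk] }
        map_one' := by
          ext q
          induction q using Quotient.ind with
          | _ x => rfl
        map_mul' := by
          intro a b
          ext q
          induction q using Quotient.ind with
          | _ x => rfl }
    have hψ : ∀ (a : X ≃g X) (x : V), ψ a (Quotient.mk r x) = Quotient.mk r (a x) :=
      fun _ _ => rfl
    haveI : Finite (Quotient r) := Quotient.finite r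
    haveI : Fintype (Quotient r) := Fintype.ofFinite _
    have hsg : ∀ a : X ≃g X, sign (ψ a) = 1 := by
      intro a
      have := alt_hom_trivial h5 ((sign.comp ψ).comp e.symm.toMonoidHom) (e a)
      simpa using this
    have hswap : ψ T = swap (Quotient.mk r u0) (Quotient.mk r (g • u0)) := by
      ext q
      induction q using Quotient.ind with
      | _ x =>
        rw [hψ, hT]
        by_cases h1 : x ∈ D
        · have e1 : Quotient.mk r x = Quotient.mk r u0 := Quotient.sound (Reach.symm h1)
          rw [ht1 x h1, e1, swap_apply_left]
          exact Quotient.sound (Reach.symm (hgD x h1))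
        · by_cases h2 : x ∈ D'
          · have e1 : Quotient.mk r x = Quotient.mk r (g • u0) := Quotient.sound (Reach.symm h2)
            rw [ht2 x h2, e1, swap_apply_right]
            exact Quotient.sound (Reach.symm (hgD' x h2))
          · rw [ht3 x h1 h2, swap_apply_of_ne_of_ne]
            · intro h
              exact h1 (Reach.symm (Quotient.exact h))
            · intro h
              exact h2 (Reach.symm (Quotient.exact h))
    have hne : Quotient.mk r u0 ≠ Quotient.mk r (g • u0) := fun h => hg (Quotient.exact h)
    have h1 := hsg T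
    rw [hswap, sign_swap hne] at h1
    exact absurd h1 (by decide)
  -- the invariant component
  let W : Set V := {x | Reach X S u0 x}
  have hW : ∀ (g : alternatingGroup (Fin n)) (x : V), x ∈ W → g • x ∈ W := fun g x hx =>
    Reach.trans (hinv g) (hreachG g _ _ hx)
  letI : MulAction (alternatingGroup (Fin n)) W :=
    { smul := fun g x => ⟨g • x.1, hW g x.1 x.2⟩
      one_smul := fun x => Subtype.ext (one_smul _ x.1)
      mul_smul := fun g k x => Subtype.ext (mul_smul g k x.1) }
  have hconnW : (X.induce W).Connected := by
    rw [← conn_iff]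
    refine Conn.of_center (a := u0) (Reach.refl _) ?_
    intro y hy
    have key : ∀ z, Reach X S u0 z → Reach X W u0 z := by
      intro z hz
      induction hz with
      | refl => exact Reach.refl _
      | @tail b c hb h ih =>
        refine Reach.trans (b := b) ih (Reach.single h.1 ?_ ?_)
        · exact hb
        · exact Reach.trans hb (Reach.single h.1 h.2.1 h.2.2)
    exact key y hy
  exact (hB W (X.induce W) (by
      intro g x y hxy
      simp only [SimpleGraph.comap_adj, Function.Embedding.subtype_apply] at hxy ⊢
      exact hadjG g _ _ hxy) hconnW (by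
      intro x
      obtain ⟨g, hg⟩ := Reach.mem x.2 hu0
      exact ⟨g, fun h => hg (congrArg Subtype.val h)⟩)).of_induce

end Pool.Agent.Helper32.Had
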