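import Mathlib
import Pool.Agent.Helper32.HadAlt

/-! Lemma G1: subgroups and `p`-cycles. -/

set_option linter.unusedSectionVars false
set_option linter.unusedVariables false

open Equiv Equiv.Perm

namespace Pool.Agent.Helper32.Had

variable {α : Type*} [Fintype α] [DecidableEq α]

/-- `s` is a `p`-cycle with support contained in `Ω` -/
structure PCyc (p : ℕ) (Ω : Finset α) (s : Perm α) : Prop where
  cyc : s.IsCycle
  card : s.support.card = p
  sub : s.support ⊆ Ω

theorem PCyc.mono {p : ℕ} {Ω Ω' : Finset α} {s : Perm α} (h : PCyc p Ω s) (hs : Ω ⊆ Ω') :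
    PCyc p Ω' s := ⟨h.cyc, h.card, h.sub.trans hs⟩

theorem PCyc.mem_alt {p : ℕ} (hp : Odd p) {Ω : Finset α} {s : Perm α} (h : PCyc p Ω s) :
    s ∈ alternatingGroup α := by
  rw [mem_alternatingGroup, h.cyc.sign, h.card, hp.neg_one_pow, neg_neg]

theorem PCyc.pow {p : ℕ} {Ω : Finset α} {s : Perm α} (h : PCyc p Ω s) : s ^ p = 1 := by
  rw [← h.card, ← h.cyc.orderOf, pow_orderOf_eq_one]

theorem PCyc.conj {p : ℕ} {Ω Ω' : Finset α} {s : Perm α} (h : PCyc p Ω s) (g : Perm α)
    (hg : ∀ x ∈ Ω, g x ∈ Ω') : PCyc p Ω' (g * s * g⁻¹) := by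
  refine ⟨h.cyc.conj, ?_, ?_⟩
  · rw [card_support_conj]; exact h.card
  · intro x hx
    rw [mem_support] at hx
    have h1 : g⁻¹ x ∈ s.support := by
      rw [mem_support]
      intro h2
      apply hx
      rw [Perm.mul_apply, Perm.mul_apply, h2]
      simp
    have h2 := hg _ (h.sub h1)
    simpa using h2

/-- a cycle with prescribed support and one prescribed value -/
theorem exists_cycle {S : Finset α} {x y : α} (hx : x ∈ S) (hy : y ∈ S) (hxy : x ≠ y) :
    ∃ c : Perm α, c.IsCycle ∧ c.support = S ∧ c x = y := by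
  set l : List α := x :: y :: ((S.erase x).erase y).toList with hl
  have hnd : l.Nodup := by
    rw [hl, List.nodup_cons, List.nodup_cons]
    refine ⟨?_, ?_, Finset.nodup_toList _⟩
    · simp [hxy]
    · simp
  refine ⟨l.formPerm, List.isCycle_formPerm hnd (by simp [hl]), ?_, ?_⟩
  · rw [List.support_formPerm_of_nodup l hnd (by intro z hz; simp [hl] at hz)]
    ext z
    rw [List.mem_toFinset, hl]
    simp only [List.mem_cons, Finset.mem_toList, Finset.mem_erase]
    constructor
    · rintro (rfl | rfl | h)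
      · exact hx
      · exact hy
      · exact h.2.2
    · intro hz
      by_cases h1 : z = x
      · exact Or.inl h1
      · by_cases h2 : z = y
        · exact Or.inr (Or.inl h2)
        · exact Or.inr (Or.inr ⟨h2, h1, hz⟩)
  · exact List.formPerm_apply_head x y _ hnd

/-- a `p`-cycle in `Ω` with support containing a given set and avoiding another one. -/
theorem exists_pcyc {p : ℕ} (hp : 2 ≤ p) {Ω A B : Finset α} (hA : A ⊆ Ω) (hAB : Disjoint A B)
    (hAp : A.card ≤ p) (hB : p + (B ∩ Ω).card ≤ Ω.card) :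
    ∃ s : Perm α, PCyc p Ω s ∧ A ⊆ s.support ∧ Disjoint s.support B := by
  have h1 : p ≤ (Ω \ B).card := by
    rw [Finset.card_sdiff]
    omega
  have h2 : A ⊆ Ω \ B := by
    intro x hx
    rw [Finset.mem_sdiff]
    exact ⟨hA hx, Finset.disjoint_left.mp hAB hx⟩
  obtain ⟨S, hAS, hS, hSc⟩ := Finset.exists_subsuperset_card_eq h2 hAp h1
  obtain ⟨x, hx, y, hy, hxy⟩ := Finset.one_lt_card.mp (show 1 < S.card by omega)
  obtain ⟨c, hc, hcS, -⟩ := exists_cycle hx hy hxy
  refine ⟨c, ⟨hc, by rw [hcS, hSc], ?_⟩, by rw [hcS]; exact hAS, ?_⟩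
  · rw [hcS]; exact hS.trans Finset.sdiff_subset
  · rw [hcS]
    exact Finset.disjoint_of_subset_left hS Finset.sdiff_disjoint

theorem tri_eq_cycles {p : ℕ} (hp : 3 ≤ p) {Ω : Finset α} (hΩ : p + 1 ≤ Ω.card) {a b c : α}
    (ha : a ∈ Ω) (hb : b ∈ Ω) (hc : c ∈ Ω) (hab : a ≠ b) (hac : a ≠ c) (hbc : b ≠ c) :
    ∃ s t : Perm α, PCyc p Ω s ∧ PCyc p Ω t ∧ tri a b c = t * s⁻¹ := by
  have h2 : ({a, c} : Finset α) ⊆ Ω \ {b} := by
    intro x hx
    simp only [Finset.mem_insert, Finset.mem_singleton] at hx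
    rw [Finset.mem_sdiff, Finset.mem_singleton]
    rcases hx with rfl | rfl
    · exact ⟨ha, hab⟩
    · exact ⟨hc, Ne.symm hbc⟩
  have h3 : ({a, c} : Finset α).card ≤ p := by
    have : ({a, c} : Finset α).card ≤ 2 := Finset.card_le_two
    omega
  have h4 : p ≤ (Ω \ {b}).card := by
    have h5 := Finset.le_card_sdiff ({b} : Finset α) Ω
    rw [Finset.card_singleton] at h5
    omega
  obtain ⟨S, hAS, hS, hSc⟩ := Finset.exists_subsuperset_card_eq h2 h3 h4
  have haS : a ∈ S := hAS (by simp)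
  have hcS : c ∈ S := hAS (by simp)
  have hbS : b ∉ S := fun h => by simpa using hS h
  obtain ⟨s, hs, hsS, hsac⟩ := exists_cycle haS hcS hac
  have hs' : PCyc p Ω s := ⟨hs, by rw [hsS, hSc], by rw [hsS]; exact hS.trans Finset.sdiff_subset⟩
  refine ⟨s, swap a b * s * (swap a b)⁻¹, hs', hs'.conj _ (fun x hx => ?_), ?_⟩
  · exact apply_mem_of_support_subset (support_swap_subset ha hb) hx
  · have hsb : s b = b := notMem_support.mp (by rw [hsS]; exact hbS)
    have h5 : s * swap a b * s⁻¹ = swap b c := by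
      rw [← swap_apply_apply, hsac, hsb, swap_comm]
    unfold tri
    rw [← h5, swap_inv]
    group

/-- Lemma G1. -/
theorem lemmaG1 {p : ℕ} (hp : 3 ≤ p) (hodd : Odd p) {Ω : Finset α} (hΩ : p + 2 ≤ Ω.card)
    {K L : Subgroup (Perm α)} (h : ∀ s, PCyc p Ω s → s ∉ K → s ∈ L) (hK : ¬ FxK K Ω) :
    FxK L Ω := by
  set N : Subgroup (Perm α) := Subgroup.closure {s | PCyc p Ω s ∧ s ∉ K} with hN
  have hNL : N ≤ L := by
    rw [hN, Subgroup.closure_le]
    rintro s ⟨h1, h2⟩
    exact h s h1 h2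
  refine FxK.le ?_ hNL
  -- the generators are permuted by all `p`-cycles
  have hconjg : ∀ t, PCyc p Ω t → t ∈ K → ∀ g, (g = t ∨ g = t⁻¹) → ∀ n ∈ N, g * n * g⁻¹ ∈ N := by
    intro t ht htK g hg n hn
    have hgK : g ∈ K := by
      rcases hg with rfl | rfl
      · exact htK
      · exact K.inv_mem htK
    have hgs : g.support ⊆ Ω := by
      rcases hg with rfl | rfl
      · exact ht.sub
      · rw [support_inv]; exact ht.sub
    have h1 : N ≤ N.comap (MulAut.conj g).toMonoidHom := by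
      rw [hN, Subgroup.closure_le, ← hN]
      rintro s ⟨h1, h2⟩
      show g * s * g⁻¹ ∈ N
      refine Subgroup.subset_closure ⟨h1.conj g (fun x hx => apply_mem_of_support_subset hgs hx), ?_⟩
      intro h3
      apply h2
      have := K.mul_mem (K.mul_mem (K.inv_mem hgK) h3) hgK
      have e : g⁻¹ * (g * s * g⁻¹) * g = s := by group
      rwa [e] at this
    exact h1 hn
  have hnorm : ∀ t, PCyc p Ω t → t ∈ Subgroup.normalizer (N : Set (Perm α)) := by
    intro t ht
    by_cases htK : t ∈ K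
    · rw [Subgroup.mem_normalizer_iff]
      intro n
      constructor
      · intro hn
        exact hconjg t ht htK t (Or.inl rfl) n hn
      · intro hn
        have := hconjg t ht htK t⁻¹ (Or.inr rfl) _ hn
        have e : t⁻¹ * (t * n * t⁻¹) * t⁻¹⁻¹ = n := by group
        rwa [e] at this
    · have htN : t ∈ N := Subgroup.subset_closure ⟨ht, htK⟩
      exact Subgroup.le_normalizer htN
  have hnormΩ : FxK (Subgroup.normalizer (N : Set (Perm α))) Ω := by
    apply fxK_of_tri
    intro a ha b hb c hc hab hac hbc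
    obtain ⟨s, t, hs, ht, he⟩ := tri_eq_cycles hp (by omega) ha hb hc hab hac hbc
    rw [he]
    exact Subgroup.mul_mem _ (hnorm t ht) (Subgroup.inv_mem _ (hnorm s hs))
  have hconj : ∀ g ∈ alternatingGroup α, g.support ⊆ Ω → ∀ n ∈ N, g * n * g⁻¹ ∈ N := by
    intro g hg hgs n hn
    exact (Subgroup.mem_normalizer_iff.mp (hnormΩ g hg hgs) n).mp hn
  -- there is a generator
  obtain ⟨k, hk, hkK⟩ : ∃ k, PCyc p Ω k ∧ k ∉ K := by
    by_contra hcon
    push Not at hcon
    apply hK
    apply fxK_of_tri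
    intro a ha b hb c hc hab hac hbc
    obtain ⟨s, t, hs, ht, he⟩ := tri_eq_cycles hp (by omega) ha hb hc hab hac hbc
    rw [he]
    exact K.mul_mem (hcon t ht) (K.inv_mem (hcon s hs))
  have hkN : k ∈ N := Subgroup.subset_closure ⟨hk, hkK⟩
  -- a three cycle in `N`
  obtain ⟨x1, hx1⟩ : k.support.Nonempty := by rw [← Finset.card_pos, hk.card]; omega
  have hcard : 1 < (Ω \ k.support).card := by
    have h5 := Finset.le_card_sdiff k.support Ω
    rw [hk.card] at h5
    omega
  obtain ⟨c, hc, d, hd, hcd⟩ := Finset.one_lt_card.mp hcard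
  rw [Finset.mem_sdiff] at hc hd
  have hkc : k c = c := notMem_support.mp hc.2
  have hkd : k d = d := notMem_support.mp hd.2
  have hx1c : x1 ≠ c := by rintro rfl; exact hc.2 hx1
  have hx1d : x1 ≠ d := by rintro rfl; exact hd.2 hx1
  have hx2 : k x1 ∈ k.support := apply_mem_support.mpr hx1
  have hx12 : x1 ≠ k x1 := fun h => (mem_support.mp hx1) h.symm
  have hx2c : k x1 ≠ c := by intro h; rw [h] at hx2; exact hc.2 hx2
  have hx2d : k x1 ≠ d := by intro h; rw [h] at hx2; exact hd.2 hx2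
  have htriN : tri x1 (k x1) c ∈ N := by
    have hτ : tri x1 c d ∈ alternatingGroup α := tri_mem_alt hx1c hx1d hcd
    have hτs : (tri x1 c d).support ⊆ Ω := tri_support_subset (hk.sub hx1) hc.1 hd.1
    have h1 : tri x1 c d * k⁻¹ * (tri x1 c d)⁻¹ ∈ N := hconj _ hτ hτs _ (N.inv_mem hkN)
    have h2 : k * (tri x1 c d * k⁻¹ * (tri x1 c d)⁻¹) ∈ N := N.mul_mem hkN h1
    have h3 : k * (tri x1 c d * k⁻¹ * (tri x1 c d)⁻¹) = tri (k x1) c d * (tri x1 c d)⁻¹ := by
      have h4 := conj_tri k x1 c d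
      rw [hkc, hkd] at h4
      rw [← h4]
      group
    have h5 : tri (k x1) c d * (tri x1 c d)⁻¹ = tri x1 (k x1) c := by
      rw [mul_inv_eq_iff_eq_mul]
      ext y
      rw [Perm.mul_apply]
      by_cases hy1 : y = x1
      · subst hy1
        rw [tri_apply_1 hx1c hx1d, tri_apply_3, tri_apply_ne hx12 hx1c hx1d]
      · by_cases hyc : y = c
        · subst hyc
          rw [tri_apply_2 hx2d hcd, tri_apply_2 hx1d hcd,
            tri_apply_ne (Ne.symm hx1d) (Ne.symm hx2d) (Ne.symm hcd)]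
        · by_cases hyd : y = d
          · subst hyd
            rw [tri_apply_3, tri_apply_3, tri_apply_1 hx12 hx1c]
          · rw [tri_apply_ne hy1 hyc hyd]
            by_cases hy2 : y = k x1
            · rw [hy2, tri_apply_1 hx2c hx2d, tri_apply_2 hx1c hx2c]
            · rw [tri_apply_ne hy2 hyc hyd, tri_apply_ne hy1 hy2 hyc]
    rw [h3, h5] at h2
    exact h2
  apply fxK_of_tri
  intro u hu v hv w hw huv huw hvw
  obtain ⟨g, hg, hgs, h1, h2, h3⟩ := exists_even_map3 (by omega) (hk.sub hx1) (hk.sub hx2) hc.1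
    hu hv hw hx12 hx1c hx2c huv huw hvw
  have := hconj g hg hgs _ htriN
  rwa [conj_tri, h1, h2, h3] at this

end Pool.Agent.Helper32.Had
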