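import Mathlib
import Pool.Agent.Helper32.HadBip

/-! Lemma P: commuting elements of prime order and a short walk give a `K_{p,p}` minor. -/

namespace Pool.Agent.Helper32.Had

variable {G V : Type*} [Group G] [MulAction G V]

/-- If `h ^ a` fixes `z`, `h ^ p = 1`, and `p` does not divide `a`, then `h` fixes `z`
(stated for the stabiliser subgroup). -/
theorem mem_of_zpow_mem {p : ℕ} (hp : p.Prime) {H : Subgroup G} {h : G} (hh : h ^ p = 1)
    {a : ℤ} (ha : ¬ (p : ℤ) ∣ a) (hm : h ^ a ∈ H) : h ∈ H := by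
  have hp' : Prime (p : ℤ) := Nat.prime_iff_prime_int.mp hp
  obtain ⟨u, v, huv⟩ := (hp'.coprime_iff_not_dvd).mpr ha
  have h1 : h = (h ^ a) ^ v := by
    rw [← zpow_mul]
    have : a * v = 1 - p * u := by linarith
    rw [this, zpow_sub, zpow_one, zpow_mul, zpow_natCast, hh]
    simp
  rw [h1]
  exact H.zpow_mem hm v

/-- If `r ^ a * t ^ b` lies in `H`, `r`, `t` commute, `r ^ p = t ^ p = 1`, `p ∤ a`, then
`r * t ^ c ∈ H` for some `c`. -/
theorem exists_mul_zpow_mem {p : ℕ} (hp : p.Prime) {H : Subgroup G} {r t : G}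
    (hrt : Commute r t) (hr : r ^ p = 1) {a b : ℤ} (ha : ¬ (p : ℤ) ∣ a)
    (hm : r ^ a * t ^ b ∈ H) : ∃ c : ℤ, r * t ^ c ∈ H := by
  have hp' : Prime (p : ℤ) := Nat.prime_iff_prime_int.mp hp
  obtain ⟨u, v, huv⟩ := (hp'.coprime_iff_not_dvd).mpr ha
  refine ⟨b * v, ?_⟩
  have h1 : r * t ^ (b * v) = (r ^ a * t ^ b) ^ v := by
    have hc : Commute (r ^ a) (t ^ b) := hrt.zpow_zpow a b
    rw [hc.mul_zpow, ← zpow_mul, ← zpow_mul]
    have : a * v = 1 - p * u := by linarith
    rw [this, zpow_sub, zpow_one, zpow_mul r, zpow_natCast, hr]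
    simp
  rw [h1]
  exact H.zpow_mem hm v

/-- the walks considered in Lemma P -/
structure PWalk (Γ : SimpleGraph V) (s t : G) (f : ℕ → V) (m : ℕ) : Prop where
  adj : ∀ i < m, Γ.Adj (f i) (f (i + 1))
  avoid : ∀ i ≤ m, ¬ (s • f i = f i ∧ t • f i = f i)
  t0 : t • f 0 = f 0
  endm : ∃ c : ℤ, (s * t ^ c) • f m = f m
  tm : t • f m ≠ f m

theorem hasBip_of_pwalk {p : ℕ} (hp : p.Prime) {Γ : SimpleGraph V}
    (hΓ : ∀ (g : G) u v, Γ.Adj u v → Γ.Adj (g • u) (g • v)) {s t : G} (hst : Commute s t)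
    (hs : s ^ p = 1) (ht : t ^ p = 1) {f : ℕ → V} {m : ℕ} (hf : PWalk Γ s t f m) :
    HasBip Γ p := by
  classical
  have hex : ∃ m, ∃ f : ℕ → V, PWalk Γ s t f m := ⟨m, f, hf⟩
  clear hf f m
  obtain ⟨f, hf⟩ := Nat.find_spec hex
  have hmin : ∀ m' < Nat.find hex, ∀ f' : ℕ → V, ¬ PWalk Γ s t f' m' :=
    fun m' hm' f' hf' => Nat.find_min hex hm' ⟨f', hf'⟩
  generalize Nat.find hex = m at hf hmin
  clear hex
  -- `m > 0`
  have hm0 : 0 < m := by
    rcases Nat.eq_zero_or_pos m with h | h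
    · exfalso
      subst h
      exact hf.tm hf.t0
    · exact h
  -- the first vertex is not fixed by `s`
  have hzp : ∀ (c : ℤ) (z : V), t • z = z → t ^ c • z = z := by
    intro c z hz
    have : t ∈ MulAction.stabilizer G z := hz
    exact (MulAction.stabilizer G z).zpow_mem this c
  -- Claim 1
  have claim1 : ∀ k < m, ∀ c : ℤ, (s * t ^ c) • f k ≠ f k := by
    intro k hk c hc
    by_cases htk : t • f k = f k
    · apply hf.avoid k hk.le
      refine ⟨?_, htk⟩
      rw [mul_smul, hzp c _ htk] at hc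
      exact hc
    · exact hmin k hk f ⟨fun i hi => hf.adj i (hi.trans hk), fun i hi => hf.avoid i (hi.trans hk.le),
        hf.t0, ⟨c, hc⟩, htk⟩
  -- Claim 2
  have claim2 : ∀ (e : G), Commute e s → Commute e t → ∀ i j, i < j → j ≤ m → e • f i ≠ f j := by
    intro e hes het i j hij hjm he
    have hcomm : ∀ (g : G), Commute e g → ∀ z : V, g • z = z → g • (e • z) = e • z := by
      intro g hg z hz
      rw [← mul_smul, ← hg.eq, mul_smul, hz]
    have hcomm' : ∀ (g : G), Commute e g → ∀ z : V, g • (e • z) = e • z → g • z = z := by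
      intro g hg z hz
      rw [← mul_smul, ← hg.eq, mul_smul] at hz
      exact (MulAction.injective e) hz
    have hlt : m - (j - i) < m := by omega
    refine hmin (m - (j - i)) hlt (fun k => if k ≤ i then e • f k else f (k + (j - i))) ?_
    constructor
    · intro k hk
      by_cases h1 : k + 1 ≤ i
      · have h2 : k ≤ i := by omega
        simp only [h1, h2, if_true]
        exact hΓ e _ _ (hf.adj k (by omega))
      · by_cases h2 : k ≤ i
        · have h3 : k = i := by omega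
          subst h3
          simp only [le_refl, if_true, h1, if_false]
          rw [he]
          have h4 : k + 1 + (j - k) = j + 1 := by omega
          rw [h4]
          exact hf.adj j (by omega)
        · simp only [h1, h2, if_false]
          have h4 : k + 1 + (j - i) = (k + (j - i)) + 1 := by omega
          rw [h4]
          exact hf.adj _ (by omega)
    · intro k hk
      by_cases h2 : k ≤ i
      · simp only [h2, if_true]
        rintro ⟨h3, h4⟩
        exact hf.avoid k (by omega) ⟨hcomm' s hes _ h3, hcomm' t het _ h4⟩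
      · simp only [h2, if_false]
        exact hf.avoid _ (by omega)
    · simp only [zero_le, if_true]
      exact hcomm t het _ hf.t0
    · by_cases h2 : m - (j - i) ≤ i
      · have h3 : j = m := by omega
        subst h3
        have h4 : j - (j - i) = i := by omega
        simp only [h4, le_refl, if_true, he]
        exact hf.endm
      · simp only [h2, if_false]
        have h4 : m - (j - i) + (j - i) = m := by omega
        rw [h4]
        exact hf.endm
    · by_cases h2 : m - (j - i) ≤ i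
      · have h3 : j = m := by omega
        subst h3
        have h4 : j - (j - i) = i := by omega
        simp only [h4, le_refl, if_true, he]
        exact hf.tm
      · simp only [h2, if_false]
        have h4 : m - (j - i) + (j - i) = m := by omega
        rw [h4]
        exact hf.tm
  obtain ⟨c, hc⟩ := hf.endm
  set r : G := s * t ^ c with hr
  have hrt : Commute r t := (hst.mul_left (Commute.refl t |>.zpow_left c))
  have hrs : Commute r s := (Commute.refl s).mul_left (hst.symm.zpow_left c)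
  have hrp : r ^ p = 1 := by
    rw [hr, (hst.zpow_right c).mul_pow, hs, one_mul, ← zpow_natCast, ← zpow_mul, mul_comm,
      zpow_mul, zpow_natCast, ht, one_zpow]
  -- the stabiliser of `f k`, `k < m`, contains no `r ^ a * t ^ b` with `p ∤ a`
  have claim3 : ∀ k < m, ∀ a b : ℤ, (r ^ a * t ^ b) • f k = f k → (p : ℤ) ∣ a := by
    intro k hk a b hab
    by_contra ha
    obtain ⟨c', hc'⟩ := exists_mul_zpow_mem hp hrt hrp ha
      (show r ^ a * t ^ b ∈ MulAction.stabilizer G (f k) from hab)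
    have h5 : (r * t ^ c') • f k = f k := hc'
    rw [hr, mul_assoc, ← zpow_add] at h5
    exact claim1 k hk _ h5
  have habs : ∀ i i' : Fin p, (p : ℤ) ∣ ((i : ℕ) : ℤ) - ((i' : ℕ) : ℤ) → i = i' := by
    intro i i' hd
    obtain ⟨q, hq⟩ := hd
    have h1 := i.2
    have h2 := i'.2
    have hq0 : q = 0 := by
      by_contra hne
      have : 1 ≤ |q| := Int.one_le_abs hne
      have h3 : |((i : ℕ) : ℤ) - ((i' : ℕ) : ℤ)| < p := by
        rw [abs_lt]; constructor <;> omega
      rw [hq, abs_mul] at h3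
      have h4 : |(p : ℤ)| = p := abs_of_nonneg (by positivity)
      rw [h4] at h3
      have h5 : (0 : ℤ) < p := by exact_mod_cast hp.pos
      nlinarith
    rw [hq0, mul_zero] at hq
    apply Fin.ext
    omega
  -- moving group elements around
  have hdiv : ∀ (a b a' b' : ℤ) (z z' : V), (r ^ a * t ^ b) • z = (r ^ a' * t ^ b') • z' →
      (r ^ (a - a') * t ^ (b - b')) • z = z' := by
    intro a b a' b' z z' h
    have h1 : r ^ (a - a') * t ^ (b - b') = (r ^ a' * t ^ b')⁻¹ * (r ^ a * t ^ b) := by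
      rw [zpow_sub, zpow_sub, mul_inv_rev]
      have c1 : Commute (t ^ b')⁻¹ (r ^ a') := (hrt.symm.zpow_zpow b' a').inv_left
      have c2 : Commute (t ^ b')⁻¹ (r ^ a) := (hrt.symm.zpow_zpow b' a).inv_left
      have c3 : Commute (r ^ a) (r ^ a')⁻¹ := (Commute.refl r).zpow_zpow a a' |>.inv_right
      calc r ^ a * (r ^ a')⁻¹ * (t ^ b * (t ^ b')⁻¹)
          = (r ^ a')⁻¹ * r ^ a * ((t ^ b')⁻¹ * t ^ b) := by
            rw [c3.eq, ((Commute.refl t).zpow_zpow b b' |>.inv_right).eq]
        _ = (t ^ b')⁻¹ * (r ^ a')⁻¹ * (r ^ a * t ^ b) := by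
            have c4 : Commute ((r ^ a')⁻¹ * r ^ a) (t ^ b')⁻¹ :=
              (c1.symm.inv_left).mul_left c2.symm
            rw [← mul_assoc, c4.eq, mul_assoc, mul_assoc, mul_assoc]
    rw [h1, mul_smul, h, ← mul_smul, inv_mul_cancel, one_smul]
  have hE : ∀ a b : ℤ, Commute (r ^ a * t ^ b) s ∧ Commute (r ^ a * t ^ b) t := by
    intro a b
    exact ⟨(hrs.zpow_left a).mul_left (hst.symm.zpow_left b),
      (hrt.zpow_left a).mul_left ((Commute.refl t).zpow_left b)⟩
  refine ⟨fun i => {z | ∃ (b : ℤ) (k : ℕ), k < m ∧ z = (r ^ ((i : ℕ) : ℤ) * t ^ b) • f k},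
    fun j => {t ^ ((j : ℕ) : ℤ) • f m}, ?_, fun j => Conn.singleton _, ?_, ?_, ?_, ?_⟩
  · intro i
    refine Conn.of_center (a := (r ^ ((i : ℕ) : ℤ)) • f 0) ⟨0, 0, hm0, by simp⟩ ?_
    rintro z ⟨b, k, hk, rfl⟩
    induction k with
    | zero =>
      rw [mul_smul, hzp b _ hf.t0]
      exact Reach.refl _
    | succ k ih =>
      refine (ih (by omega)).trans (Reach.single (hΓ _ _ _ (hf.adj k (by omega))) ?_ ?_)
      · exact ⟨b, k, by omega, rfl⟩
      · exact ⟨b, k + 1, hk, rfl⟩
  · intro i i' hii'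
    rw [Set.disjoint_left]
    rintro z ⟨b, k, hk, rfl⟩ ⟨b', k', hk', h⟩
    rcases lt_trichotomy k k' with hlt | heq | hgt
    · exact claim2 _ (hE _ _).1 (hE _ _).2 k k' hlt hk'.le (hdiv _ _ _ _ _ _ h)
    · subst heq
      exact hii' (habs _ _ (claim3 k hk _ _ (hdiv _ _ _ _ _ _ h)))
    · exact claim2 _ (hE _ _).1 (hE _ _).2 k' k hgt hk.le (hdiv _ _ _ _ _ _ h.symm)
  · intro j j' hjj'
    rw [Set.disjoint_singleton]
    intro h
    have h1 : t ^ (((j : ℕ) : ℤ) - ((j' : ℕ) : ℤ)) • f m = f m := by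
      have := hdiv 0 ((j : ℕ) : ℤ) 0 ((j' : ℕ) : ℤ) (f m) (f m) (by simpa using h)
      simpa using this
    apply hjj'
    apply habs
    by_contra hnd
    exact hf.tm (mem_of_zpow_mem (H := MulAction.stabilizer G (f m)) hp ht hnd h1)
  · intro i j
    rw [Set.disjoint_left]
    rintro z ⟨b, k, hk, rfl⟩ h
    rw [Set.mem_singleton_iff] at h
    have h1 := hdiv ((i : ℕ) : ℤ) b 0 ((j : ℕ) : ℤ) (f k) (f m) (by simpa using h)
    exact claim2 _ (hE _ _).1 (hE _ _).2 k m hk le_rfl h1
  · intro i j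
    refine ⟨(r ^ ((i : ℕ) : ℤ) * t ^ ((j : ℕ) : ℤ)) • f (m - 1),
      ⟨_, m - 1, by omega, rfl⟩, _, rfl, ?_⟩
    have h1 : t ^ ((j : ℕ) : ℤ) • f m = (r ^ ((i : ℕ) : ℤ) * t ^ ((j : ℕ) : ℤ)) • f m := by
      rw [(hrt.zpow_zpow _ _).eq, mul_smul]
      congr 1
      exact ((MulAction.stabilizer G (f m)).zpow_mem
        (show r ∈ MulAction.stabilizer G (f m) from hc) _).symm
    rw [h1]
    have h2 := hf.adj (m - 1) (by omega)
    rw [Nat.sub_add_cancel hm0] at h2
    exact hΓ _ _ _ h2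

/-- Lemma P. -/
theorem lemmaP {p : ℕ} (hp : p.Prime) {Γ : SimpleGraph V}
    (hΓ : ∀ (g : G) u v, Γ.Adj u v → Γ.Adj (g • u) (g • v)) {s t : G} (hst : Commute s t)
    (hs : s ^ p = 1) (ht : t ^ p = 1) {f : ℕ → V} {m : ℕ}
    (hadj : ∀ i < m, Γ.Adj (f i) (f (i + 1)))
    (havoid : ∀ i ≤ m, ¬ (s • f i = f i ∧ t • f i = f i))
    (ht0 : t • f 0 = f 0) (hsm : s • f m = f m) : HasBip Γ p := by
  refine hasBip_of_pwalk hp hΓ hst hs ht (f := f) (m := m) ⟨hadj, havoid, ht0, ⟨0, by simpa using hsm⟩, ?_⟩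
  intro h
  exact havoid m le_rfl ⟨hsm, h⟩

end Pool.Agent.Helper32.Had
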