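import Mathlib
import Pool.Agent.Helper32.HadP
import Pool.Agent.Helper32.HadG1

/-! Stabilisers and consequences of Lemma P. -/

set_option linter.unusedSectionVars false
set_option linter.unusedVariables false

open Equiv Equiv.Perm

namespace Pool.Agent.Helper32.Had

variable {α : Type*} [Fintype α] [DecidableEq α]

section St

variable {V : Type*} [MulAction (alternatingGroup α) V]

/-- the even permutations fixing `u`, as a subgroup of `Perm α` -/
def St (α : Type*) [Fintype α] [DecidableEq α] {V : Type*} [MulAction (alternatingGroup α) V]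
    (u : V) : Subgroup (Perm α) :=
  (MulAction.stabilizer (alternatingGroup α) u).map (alternatingGroup α).subtype

theorem mem_St {u : V} {g : Perm α} :
    g ∈ St α u ↔ ∃ hg : g ∈ alternatingGroup α, (⟨g, hg⟩ : alternatingGroup α) • u = u := by
  unfold St
  rw [Subgroup.mem_map]
  constructor
  · rintro ⟨h, h1, h2⟩
    subst h2
    exact ⟨h.2, h1⟩
  · rintro ⟨hg, h⟩
    exact ⟨⟨g, hg⟩, h, rfl⟩

theorem coe_mem_St {u : V} {g : alternatingGroup α} : (g : Perm α) ∈ St α u ↔ g • u = u := by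
  rw [mem_St]
  constructor
  · rintro ⟨_, h⟩; exact h
  · intro h; exact ⟨g.2, h⟩

theorem St_le (u : V) : St α u ≤ alternatingGroup α := by
  intro g hg
  exact (mem_St.mp hg).1

theorem mem_St_smul {u : V} {g : alternatingGroup α} {h : Perm α} :
    h ∈ St α (g • u) ↔ (g : Perm α)⁻¹ * h * g ∈ St α u := by
  constructor
  · intro hh
    obtain ⟨h1, h2⟩ := mem_St.mp hh
    have : (g⁻¹ * (⟨h, h1⟩ : alternatingGroup α) * g) • u = u := by
      rw [mul_smul, mul_smul, h2, inv_smul_smul]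
    exact coe_mem_St.mpr this
  · intro hh
    obtain ⟨h1, h2⟩ := mem_St.mp hh
    have h3 : h ∈ alternatingGroup α := by
      have := Subgroup.mul_mem _ (Subgroup.mul_mem _ g.2 h1) (Subgroup.inv_mem _ g.2)
      have e : (g : Perm α) * ((g : Perm α)⁻¹ * h * g) * (g : Perm α)⁻¹ = h := by group
      rwa [e] at this
    refine mem_St.mpr ⟨h3, ?_⟩
    have e : (⟨(g : Perm α)⁻¹ * h * g, h1⟩ : alternatingGroup α) = g⁻¹ * ⟨h, h3⟩ * g := rfl
    rw [e, mul_smul, mul_smul, inv_smul_eq_iff] at h2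
    exact h2

variable {Γ : SimpleGraph V} {p : ℕ}

theorem lemmaPS (hp : p.Prime) (hodd : Odd p)
    (hΓ : ∀ (g : alternatingGroup α) u v, Γ.Adj u v → Γ.Adj (g • u) (g • v)) {Ω₁ Ω₂ : Finset α}
    {s t : Perm α} (hs : PCyc p Ω₁ s) (ht : PCyc p Ω₂ t) (hst : Commute s t) {f : ℕ → V} {m : ℕ}
    (hadj : ∀ i < m, Γ.Adj (f i) (f (i + 1)))
    (havoid : ∀ i ≤ m, ¬ (s ∈ St α (f i) ∧ t ∈ St α (f i)))
    (ht0 : t ∈ St α (f 0)) (hsm : s ∈ St α (f m)) : HasBip Γ p := by
  have hsA := hs.mem_alt hodd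
  have htA := ht.mem_alt hodd
  refine lemmaP hp hΓ (s := (⟨s, hsA⟩ : alternatingGroup α)) (t := ⟨t, htA⟩) ?_ ?_ ?_ hadj ?_ ?_ ?_
  · exact Subtype.ext hst
  · exact Subtype.ext hs.pow
  · exact Subtype.ext ht.pow
  · rintro i hi ⟨h1, h2⟩
    exact havoid i hi ⟨mem_St.mpr ⟨hsA, h1⟩, mem_St.mpr ⟨htA, h2⟩⟩
  · exact (mem_St.mp ht0).2
  · exact (mem_St.mp hsm).2

theorem PE (hp : p.Prime) (hodd : Odd p)
    (hΓ : ∀ (g : alternatingGroup α) u v, Γ.Adj u v → Γ.Adj (g • u) (g • v))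
    (hno : ¬ HasBip Γ p) {Ω₁ Ω₂ : Finset α} {s t : Perm α} (hs : PCyc p Ω₁ s) (ht : PCyc p Ω₂ t)
    (hst : Commute s t) {v x : V} (hvx : Γ.Adj v x) (hsv : s ∈ St α v) (htx : t ∈ St α x) :
    s ∈ St α x ∨ t ∈ St α v := by
  by_contra hcon
  push Not at hcon
  apply hno
  refine lemmaPS hp hodd hΓ hs ht hst (f := fun i => if i = 0 then x else v) (m := 1) ?_ ?_ ?_ ?_
  · intro i hi
    have : i = 0 := by omega
    subst this
    simpa using hvx.symm
  · intro i hi
    rcases (show i = 0 ∨ i = 1 by omega) with rfl | rfl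
    · simp [hcon.1]
    · simp [hcon.2]
  · simpa using htx
  · simpa using hsv

theorem PV (hp : p.Prime) (hodd : Odd p)
    (hΓ : ∀ (g : alternatingGroup α) u v, Γ.Adj u v → Γ.Adj (g • u) (g • v))
    (hno : ¬ HasBip Γ p) {Ω₁ Ω₂ : Finset α} {s t : Perm α} (hs : PCyc p Ω₁ s) (ht : PCyc p Ω₂ t)
    (hst : Commute s t) {x v x' : V} (h1 : Γ.Adj x v) (h2 : Γ.Adj v x') (htx : t ∈ St α x)
    (hsx' : s ∈ St α x') :
    s ∈ St α x ∨ t ∈ St α x' ∨ (s ∈ St α v ∧ t ∈ St α v) := by
  by_contra hcon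
  rw [not_or, not_or] at hcon
  obtain ⟨hc1, hc2, hc3⟩ := hcon
  apply hno
  refine lemmaPS hp hodd hΓ hs ht hst
    (f := fun i => if i = 0 then x else if i = 1 then v else x') (m := 2) ?_ ?_ ?_ ?_
  · intro i hi
    rcases (show i = 0 ∨ i = 1 by omega) with rfl | rfl
    · simpa using h1
    · simpa using h2
  · intro i hi
    rcases (show i = 0 ∨ i = 1 ∨ i = 2 by omega) with rfl | rfl | rfl
    · simp [hc1]
    · simpa using hc3
    · simp [hc2]
  · simpa using htx
  · simpa using hsx'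

theorem P4 (hp : p.Prime) (hodd : Odd p)
    (hΓ : ∀ (g : alternatingGroup α) u v, Γ.Adj u v → Γ.Adj (g • u) (g • v))
    (hno : ¬ HasBip Γ p) {Ω₁ Ω₂ : Finset α} {s t : Perm α} (hs : PCyc p Ω₁ s) (ht : PCyc p Ω₂ t)
    (hst : Commute s t) {a b c d e : V} (h1 : Γ.Adj a b) (h2 : Γ.Adj b c) (h3 : Γ.Adj c d)
    (h4 : Γ.Adj d e) (hta : t ∈ St α a) (hse : s ∈ St α e) :
    s ∈ St α a ∨ t ∈ St α e ∨ (s ∈ St α b ∧ t ∈ St α b) ∨ (s ∈ St α c ∧ t ∈ St α c) ∨
      (s ∈ St α d ∧ t ∈ St α d) := by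
  by_contra hcon
  rw [not_or, not_or, not_or, not_or] at hcon
  obtain ⟨hc1, hc2, hc3, hc4, hc5⟩ := hcon
  apply hno
  refine lemmaPS hp hodd hΓ hs ht hst
    (f := fun i => if i = 0 then a else if i = 1 then b else if i = 2 then c else
      if i = 3 then d else e) (m := 4) ?_ ?_ ?_ ?_
  · intro i hi
    rcases (show i = 0 ∨ i = 1 ∨ i = 2 ∨ i = 3 by omega) with rfl | rfl | rfl | rfl
    · simpa using h1
    · simpa using h2
    · simpa using h3
    · simpa using h4
  · intro i hi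
    rcases (show i = 0 ∨ i = 1 ∨ i = 2 ∨ i = 3 ∨ i = 4 by omega) with rfl | rfl | rfl | rfl | rfl
    · simp [hc1]
    · simpa using hc3
    · simpa using hc4
    · simpa using hc5
    · simp [hc2]
  · simpa using hta
  · simpa using hse

end St

/-! ### Maximal sets -/

/-- `M` is maximal among the sets `Ω` with `FxK K Ω` -/
def MaxFx (K : Subgroup (Perm α)) (M : Finset α) : Prop :=
  FxK K M ∧ ∀ M', FxK K M' → M ⊆ M' → M' ⊆ M

theorem FxK.exists_max {K : Subgroup (Perm α)} {Ω : Finset α} (h : FxK K Ω) :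
    ∃ M, Ω ⊆ M ∧ MaxFx K M := by
  classical
  obtain ⟨M, hM, hmax⟩ := (Set.toFinite {M : Finset α | FxK K M ∧ Ω ⊆ M}).exists_maximal
    ⟨Ω, h, Finset.Subset.refl _⟩
  refine ⟨M, hM.2, hM.1, ?_⟩
  intro M' h1 h2
  exact hmax ⟨h1, hM.2.trans h2⟩ h2

theorem MaxFx.subset {K : Subgroup (Perm α)} {M : Finset α} (hM : MaxFx K M) (h4 : 4 ≤ M.card)
    {Ω : Finset α} (h : FxK K Ω) (h3 : 3 ≤ Ω.card) (hne : (M ∩ Ω).Nonempty) : Ω ⊆ M := by
  have h1 := hM.1.union h4 h h3 hne
  exact Finset.subset_union_right.trans (hM.2 _ h1 Finset.subset_union_left)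

theorem MaxFx.support_subset {K : Subgroup (Perm α)} {M : Finset α} (hM : MaxFx K M)
    {s : Perm α} (hs : s ∈ K) {p : ℕ} {Ω : Finset α} (hc : PCyc p Ω s) (h : p + 2 ≤ M.card)
    (hne : (s.support ∩ M).Nonempty) : s.support ⊆ M := by
  have h1 := hM.1.union_support hs hc.cyc (by rw [hc.card]; exact h) hne
  exact Finset.subset_union_right.trans (hM.2 _ h1 Finset.subset_union_left)

/-- if all `p`-cycles in `X` lie in `K` then so do all even permutations of `X` -/
theorem fxK_of_pcyc {p : ℕ} (hp : 3 ≤ p) {K : Subgroup (Perm α)} {X : Finset α}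
    (hX : p + 1 ≤ X.card) (h : ∀ s, PCyc p X s → s ∈ K) : FxK K X := by
  apply fxK_of_tri
  intro a ha b hb c hc hab hac hbc
  obtain ⟨s, t, hs, ht, he⟩ := tri_eq_cycles hp hX ha hb hc hab hac hbc
  rw [he]
  exact K.mul_mem (h t ht) (K.inv_mem (h s hs))

theorem FxK.pcyc_mem {p : ℕ} (hodd : Odd p) {K : Subgroup (Perm α)} {X : Finset α}
    (h : FxK K X) {s : Perm α} (hs : PCyc p X s) : s ∈ K := h s (hs.mem_alt hodd) hs.sub

/-- Lemma A -/
theorem lemmaA {p : ℕ} (hp : 3 ≤ p) (hodd : Odd p) {K K' : Subgroup (Perm α)} {X X' : Finset α}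
    (hX : MaxFx K X) (hXc : 2 * p + 2 ≤ X.card) (hXK' : ¬ FxK K' X)
    (hX' : MaxFx K' X') (hXc' : 2 * p + 2 ≤ X'.card) (hXK : ¬ FxK K X')
    (H : ∀ t, PCyc p Finset.univ t → t ∈ K → t ∉ K' → FxK K (X' \ t.support)) :
    ∃ y ∈ X, y ∈ X' ∧ MaxFx K (X'.erase y) ∧ FxK K' (X.erase y) := by
  -- a first `p`-cycle
  obtain ⟨t0, ht0, ht0K'⟩ : ∃ t, PCyc p X t ∧ t ∉ K' := by
    by_contra hcon
    push Not at hcon
    exact hXK' (fxK_of_pcyc hp (by omega) hcon)
  have ht0K : t0 ∈ K := hX.1.pcyc_mem hodd ht0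
  obtain ⟨M, hM0, hM⟩ := (H t0 (ht0.mono (Finset.subset_univ _)) ht0K ht0K').exists_max
  have hc0 : p + 2 ≤ (X' \ t0.support).card := by
    have := Finset.le_card_sdiff t0.support X'
    rw [ht0.card] at this
    omega
  have hMc : p + 2 ≤ M.card := hc0.trans (Finset.card_le_card hM0)
  have hi : ∀ t, PCyc p Finset.univ t → t ∈ K → t ∉ K' → ∀ z ∈ X', z ∉ M → z ∈ t.support := by
    intro t ht htK htK' z hz hzM
    by_contra hzt
    have h1 := H t ht htK htK'
    have h2 : (M ∩ (X' \ t.support)).Nonempty := by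
      have h3 : 0 < ((X' \ t0.support) \ t.support).card := by
        have := Finset.le_card_sdiff t.support (X' \ t0.support)
        rw [ht.card] at this
        omega
      obtain ⟨w, hw⟩ := Finset.card_pos.mp h3
      rw [Finset.mem_sdiff] at hw
      exact ⟨w, Finset.mem_inter.mpr ⟨hM0 hw.1, Finset.mem_sdiff.mpr
        ⟨(Finset.mem_sdiff.mp hw.1).1, hw.2⟩⟩⟩
    have h3 : 3 ≤ (X' \ t.support).card := by
      have := Finset.le_card_sdiff t.support X'
      rw [ht.card] at this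
      omega
    exact hzM (hM.subset (by omega) h1 h3 h2 (Finset.mem_sdiff.mpr ⟨hz, hzt⟩))
  obtain ⟨y, hyX', hyM⟩ : ∃ y ∈ X', y ∉ M := by
    by_contra hcon
    push Not at hcon
    exact hXK (hM.1.mono hcon)
  have herase : ∀ y ∈ X', y ∉ M → y ∈ X ∧ FxK K' (X.erase y) := by
    intro y hyX' hyM
    have hyX : y ∈ X := ht0.sub (hi t0 (ht0.mono (Finset.subset_univ _)) ht0K ht0K' y hyX' hyM)
    refine ⟨hyX, fxK_of_pcyc hp (by rw [Finset.card_erase_of_mem hyX]; omega) ?_⟩
    intro s hs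
    by_contra hsK'
    have hsX : PCyc p X s := hs.mono (Finset.erase_subset _ _)
    have := hi s (hs.mono (Finset.subset_univ _)) (hX.1.pcyc_mem hodd hsX) hsK' y hyX' hyM
    exact Finset.notMem_erase y X (hs.sub this)
  have huniq : ∀ z ∈ X', z ∉ M → z = y := by
    intro z hzX' hzM
    by_contra hzy
    obtain ⟨hyX, hy⟩ := herase y hyX' hyM
    obtain ⟨hzX, hz⟩ := herase z hzX' hzM
    apply hXK'
    have hu : X.erase y ∪ X.erase z = X := by
      ext w
      simp only [Finset.mem_union, Finset.mem_erase]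
      constructor
      · rintro (h | h) <;> exact h.2
      · intro hw
        by_cases hwy : w = y
        · right
          exact ⟨fun h => hzy (h.symm.trans hwy), hw⟩
        · left; exact ⟨hwy, hw⟩
    rw [← hu]
    refine hy.union ?_ hz ?_ ?_
    · rw [Finset.card_erase_of_mem hyX]; omega
    · rw [Finset.card_erase_of_mem hzX]; omega
    · have h1 : 0 < ((X.erase y).erase z).card := by
        rw [Finset.card_erase_of_mem (Finset.mem_erase.mpr ⟨hzy, hzX⟩),
          Finset.card_erase_of_mem hyX]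
        omega
      obtain ⟨w, hw⟩ := Finset.card_pos.mp h1
      simp only [Finset.mem_erase] at hw
      exact ⟨w, by simp only [Finset.mem_inter, Finset.mem_erase]; exact ⟨hw.2, hw.1, hw.2.2⟩⟩
  have hsub : X'.erase y ⊆ M := by
    intro z hz
    rw [Finset.mem_erase] at hz
    by_contra hzM
    exact hz.1 (huniq z hz.2 hzM)
  have hMeq : M = X'.erase y := by
    apply Finset.Subset.antisymm _ hsub
    intro z hz
    by_contra hzX'
    have hzy : z ≠ y := by rintro rfl; exact hyM hz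
    have hzX'' : z ∉ X' := fun h => hzX' (Finset.mem_erase.mpr ⟨hzy, h⟩)
    obtain ⟨w, hw⟩ : (X'.erase y).Nonempty := by
      rw [← Finset.card_pos, Finset.card_erase_of_mem hyX']; omega
    obtain ⟨t, ht, hAt, -⟩ := exists_pcyc (p := p) (Ω := M) (A := {z, w}) (B := ∅) (by omega)
      (by
        intro a ha
        simp only [Finset.mem_insert, Finset.mem_singleton] at ha
        rcases ha with rfl | rfl
        · exact hz
        · exact hsub hw)
      (Finset.disjoint_empty_right _)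
      ((Finset.card_le_two).trans (by omega)) (by simp; omega)
    have htK : t ∈ K := hM.1.pcyc_mem hodd ht
    have htK' : t ∉ K' := by
      intro htK'
      have h1 : t.support ⊆ X' := hX'.support_subset htK' ht (by omega)
        ⟨w, Finset.mem_inter.mpr ⟨hAt (by simp), (Finset.mem_erase.mp hw).2⟩⟩
      exact hzX'' (h1 (hAt (by simp)))
    have := hi t (ht.mono (Finset.subset_univ _)) htK htK' y hyX' hyM
    exact hyM (ht.sub this)
  obtain ⟨hyX, hy⟩ := herase y hyX' hyM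
  exact ⟨y, hyX, hyX', hMeq ▸ hM, hy⟩

end Pool.Agent.Helper32.Had
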