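import Mathlib
import Pool.Agent.Helper32.HadSt

/-! The two crossing lemmas. -/

set_option linter.unusedSectionVars false
set_option linter.unusedVariables false

open Equiv Equiv.Perm

namespace Pool.Agent.Helper32.Had

variable {α : Type*} [Fintype α] [DecidableEq α]
variable {V : Type*} [MulAction (alternatingGroup α) V]
variable {Γ : SimpleGraph V} {p : ℕ}

theorem commute_of_disjoint_support {s t : Perm α} (h : _root_.Disjoint s.support t.support) :
    Commute s t := by
  rw [← Perm.disjoint_iff_disjoint_support] at h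
  exact h.commute

theorem mem_support_conj {g t : Perm α} {x : α} : x ∈ (g * t * g⁻¹).support ↔ g⁻¹ x ∈ t.support := by
  rw [mem_support, mem_support, Perm.mul_apply, Perm.mul_apply]
  constructor
  · intro h h1
    apply h
    rw [h1]
    simp
  · intro h h1
    apply h
    have := congrArg (g⁻¹ : Perm α) h1
    simpa using this

theorem mem_support_conj' {g t : Perm α} {x : α} : x ∈ (g⁻¹ * t * g).support ↔ g x ∈ t.support := by
  have := mem_support_conj (g := g⁻¹) (t := t) (x := x)
  rwa [inv_inv] at this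

/-- `p`-cycles `t` in `M ∪ ..` moving a point outside a maximal set `M` and a point in it are not
in `K` -/
theorem MaxFx.notMem {K : Subgroup (Perm α)} {M : Finset α} (hM : MaxFx K M) {t : Perm α}
    {Ω : Finset α} (ht : PCyc p Ω t) (hMc : p + 2 ≤ M.card) {z w : α} (hz : z ∈ t.support)
    (hzM : z ∉ M) (hw : w ∈ t.support) (hwM : w ∈ M) : t ∉ K := by
  intro h
  exact hzM (hM.support_subset h ht hMc ⟨w, Finset.mem_inter.mpr ⟨hw, hwM⟩⟩ hz)

theorem exists_ne_support {t : Perm α} {Ω : Finset α} (ht : PCyc p Ω t) (hp : 2 ≤ p) (y : α) :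
    ∃ w ∈ t.support, w ≠ y := by
  have : 1 < t.support.card := by rw [ht.card]; omega
  obtain ⟨w, hw, hne⟩ := Finset.exists_mem_ne this y
  exact ⟨w, hw, hne⟩

/-- crossing: `x` has a large set that is not a set of `x'` -/
def Cr (α : Type*) [Fintype α] [DecidableEq α] {V : Type*} [MulAction (alternatingGroup α) V]
    (β : ℕ) (x x' : V) : Prop :=
  ∃ Ω : Finset α, β ≤ Ω.card ∧ FxK (St α x) Ω ∧ ¬ FxK (St α x') Ω

theorem Cr.max {β : ℕ} {x x' : V} (h : Cr α β x x') :
    ∃ X : Finset α, β ≤ X.card ∧ MaxFx (St α x) X ∧ ¬ FxK (St α x') X := by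
  obtain ⟨Ω, h1, h2, h3⟩ := h
  obtain ⟨M, hM, hmax⟩ := h2.exists_max
  exact ⟨M, h1.trans (Finset.card_le_card hM), hmax, fun h => h3 (h.mono hM)⟩

theorem Cr.mono {β β' : ℕ} {x x' : V} (h : Cr α β x x') (hβ : β' ≤ β) : Cr α β' x x' := by
  obtain ⟨Ω, h1, h2, h3⟩ := h
  exact ⟨Ω, hβ.trans h1, h2, h3⟩

/-- Lemma E3: adjacent vertices do not cross each other. -/
theorem lemmaE3 (hp : p.Prime) (hodd : Odd p)
    (hΓ : ∀ (g : alternatingGroup α) u v, Γ.Adj u v → Γ.Adj (g • u) (g • v))
    (hno : ¬ HasBip Γ p) {β : ℕ} (hβ : 2 * p + 2 ≤ β) {v x : V} (hvx : Γ.Adj v x)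
    (h1 : Cr α β v x) (h2 : Cr α β x v) : False := by
  have hp3 : 3 ≤ p := by
    rcases hodd with ⟨k, hk⟩
    have := hp.two_le
    omega
  obtain ⟨W, hWc, hW, hWx⟩ := h1.max
  obtain ⟨X, hXc, hX, hXv⟩ := h2.max
  -- hypothesis `(H)` of Lemma A, for both orders
  have H : ∀ (a b : V) (W : Finset α), Γ.Adj a b → 2 * p + 2 ≤ W.card → FxK (St α a) W →
      ∀ t, PCyc p Finset.univ t → t ∈ St α b → t ∉ St α a → FxK (St α b) (W \ t.support) := by
    intro a b W hab hWc hW t ht htb hta
    have hc : p + 1 ≤ (W \ t.support).card := by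
      have := Finset.le_card_sdiff t.support W
      rw [ht.card] at this
      omega
    refine fxK_of_pcyc hp3 hc ?_
    intro s hs
    have hsW : PCyc p W s := hs.mono Finset.sdiff_subset
    have hcomm : Commute s t := commute_of_disjoint_support
      (Finset.disjoint_of_subset_left hs.sub Finset.sdiff_disjoint)
    rcases PE hp hodd hΓ hno hs ht hcomm hab (hW.pcyc_mem hodd hsW) htb with h | h
    · exact h
    · exact absurd h hta
  obtain ⟨y, hyX, hyW, hWmax, hXfix⟩ := lemmaA hp3 hodd hX (by omega) hXv hW (by omega) hWx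
    (H v x W hvx (by omega) hW.1)
  obtain ⟨y', hyW', hyX', hXmax, hWfix⟩ := lemmaA hp3 hodd hW (by omega) hWx hX (by omega) hXv
    (H x v X hvx.symm (by omega) hX.1)
  -- `y = y'`
  have hyy : y' = y := by
    by_contra hne
    apply hWx
    have h3 : W.erase y ∪ W.erase y' = W := by
      ext w
      simp only [Finset.mem_union, Finset.mem_erase]
      constructor
      · rintro (h | h) <;> exact h.2
      · intro hw
        by_cases hwy : w = y
        · right
          exact ⟨fun h => hne (h.symm.trans hwy), hw⟩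
        · left; exact ⟨hwy, hw⟩
    rw [← h3]
    refine hWmax.1.union ?_ hWfix ?_ ?_
    · rw [Finset.card_erase_of_mem hyW]; omega
    · rw [Finset.card_erase_of_mem hyW']; omega
    · have h4 : 0 < ((W.erase y).erase y').card := by
        rw [Finset.card_erase_of_mem (Finset.mem_erase.mpr ⟨hne, hyW'⟩),
          Finset.card_erase_of_mem hyW]
        omega
      obtain ⟨w, hw⟩ := Finset.card_pos.mp h4
      simp only [Finset.mem_erase] at hw
      exact ⟨w, by simp only [Finset.mem_inter, Finset.mem_erase]; exact ⟨hw.2, hw.1, hw.2.2⟩⟩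
  subst hyy
  -- now `X.erase y` is maximal for `v` and disjoint from `W`
  have hdisj : ∀ a ∈ X, a ≠ y' → a ∉ W := by
    intro a ha hay haW
    have h3 : X.erase y' ⊆ W := hW.subset (by omega) hXmax.1
      (by rw [Finset.card_erase_of_mem hyX]; omega)
      ⟨a, Finset.mem_inter.mpr ⟨haW, Finset.mem_erase.mpr ⟨hay, ha⟩⟩⟩
    have h4 : W ⊆ X.erase y' := hXmax.2 W hW.1 h3
    exact Finset.notMem_erase y' X (h4 hyW)
  obtain ⟨a, ha, a', ha', haa'⟩ := Finset.one_lt_card.mp
    (show 1 < (X.erase y').card by rw [Finset.card_erase_of_mem hyX]; omega)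
  rw [Finset.mem_erase] at ha ha'
  have haW := hdisj a ha.2 ha.1
  have haW' := hdisj a' ha'.2 ha'.1
  set g : Perm α := tri y' a a' with hg
  have hgA : g ∈ alternatingGroup α := tri_mem_alt (Ne.symm ha.1) (Ne.symm ha'.1) haa'
  have hgx : (⟨g, hgA⟩ : alternatingGroup α) • x = x :=
    coe_mem_St.mp (hX.1.tri_mem hyX ha.2 ha'.2 (Ne.symm ha.1) (Ne.symm ha'.1) haa')
  have hgy : g y' = a := tri_apply_1 (Ne.symm ha.1) (Ne.symm ha'.1)
  have hga' : g a' = y' := tri_apply_3
  have hgW : ∀ w ∈ W, w ≠ y' → g w = w := by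
    intro w hw hwy
    exact tri_apply_ne hwy (fun h => haW (h ▸ hw)) (fun h => haW' (h ▸ hw))
  -- two `p`-cycles in `W` meeting exactly in `y`
  obtain ⟨s, hs, hys, -⟩ := exists_pcyc (p := p) (Ω := W) (A := {y'}) (B := ∅) (by omega)
    (by simpa using hyW) (Finset.disjoint_empty_right _) (by simp; omega) (by simp; omega)
  have hys : y' ∈ s.support := hys (by simp)
  obtain ⟨t, ht, hyt, hst⟩ := exists_pcyc (p := p) (Ω := W) (A := {y'}) (B := s.support.erase y')
    (by omega) (by simpa using hyW) (by simp) (by simp; omega) (by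
      have h5 : (s.support.erase y' ∩ W).card ≤ p - 1 := by
        refine (Finset.card_le_card Finset.inter_subset_left).trans ?_
        rw [Finset.card_erase_of_mem hys, hs.card]
      omega)
  have hyt : y' ∈ t.support := hyt (by simp)
  have hsv : s ∈ St α v := hW.1.pcyc_mem hodd hs
  have htv : t ∈ St α v := hW.1.pcyc_mem hodd ht
  obtain ⟨w, hws, hwy⟩ := exists_ne_support hs hp.two_le y'
  obtain ⟨w', hwt, hwy'⟩ := exists_ne_support ht hp.two_le y'
  have hsx : s ∉ St α x := hWmax.notMem hs (by rw [Finset.card_erase_of_mem hyW]; omega) hys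
    (Finset.notMem_erase _ _) hws (Finset.mem_erase.mpr ⟨hwy, hs.sub hws⟩)
  -- conjugate `t`
  have hT : PCyc p Finset.univ (g * t * g⁻¹) := ht.conj g (fun _ _ => Finset.mem_univ _)
  have hTgv : g * t * g⁻¹ ∈ St α ((⟨g, hgA⟩ : alternatingGroup α) • v) := by
    rw [mem_St_smul]
    have e : (g : Perm α)⁻¹ * (g * t * g⁻¹) * g = t := by group
    show (g : Perm α)⁻¹ * (g * t * g⁻¹) * g ∈ St α v
    rw [e]
    exact htv
  have hcomm : Commute s (g * t * g⁻¹) := by
    apply commute_of_disjoint_support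
    rw [Finset.disjoint_left]
    intro z hzs hzt
    rw [mem_support_conj] at hzt
    have hzW := hs.sub hzs
    by_cases h3 : g⁻¹ z = y'
    · have : z = a := by
        rw [← hgy, ← h3]; simp
      exact haW (this ▸ hzW)
    · have h4 := hgW _ (ht.sub hzt) h3
      have h5 : z = g⁻¹ z := by
        conv_rhs => rw [← h4]
        simp
      rw [← h5] at hzt h3
      exact Finset.disjoint_left.mp hst hzt (Finset.mem_erase.mpr ⟨h3, hzs⟩)
  have hadj1 : Γ.Adj ((⟨g, hgA⟩ : alternatingGroup α) • v) x := by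
    have := hΓ ⟨g, hgA⟩ _ _ hvx
    rwa [hgx] at this
  rcases PV hp hodd hΓ hno hs hT hcomm hadj1 hvx.symm hTgv hsv with h | h | h
  · -- `s` fixes `g v`
    rw [mem_St_smul] at h
    have h' : (g : Perm α)⁻¹ * s * g ∈ St α v := h
    have hS : PCyc p Finset.univ (g⁻¹ * s * g) := by
      have := hs.conj (Ω' := Finset.univ) g⁻¹ (fun _ _ => Finset.mem_univ _)
      rwa [inv_inv] at this
    refine hW.notMem hS (by omega) (z := a') (w := w) ?_ haW' ?_ (hs.sub hws) h'
    · rw [mem_support_conj', hga']; exact hys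
    · rw [mem_support_conj', hgW w (hs.sub hws) hwy]; exact hws
  · -- `t` fixes `v`
    refine hW.notMem hT (by omega) (z := a) (w := w') ?_ haW ?_ (ht.sub hwt) h
    · rw [mem_support_conj, ← hgy]; simpa using hyt
    · rw [mem_support_conj]
      have h4 := hgW _ (ht.sub hwt) hwy'
      have h5 : g⁻¹ w' = w' := by
        conv_lhs => rw [← h4]
        simp
      rw [h5]; exact hwt
  · exact hsx h.1

/-- Lemma (★★). -/
theorem lemmaSS (hp : p.Prime) (hodd : Odd p)
    (hΓ : ∀ (g : alternatingGroup α) u v, Γ.Adj u v → Γ.Adj (g • u) (g • v))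
    (hno : ¬ HasBip Γ p) {β : ℕ} (hβ : 2 * p + 2 ≤ β) {x v x' : V} (hxv : Γ.Adj x v)
    (hvx' : Γ.Adj v x') (h1 : Cr α β x x') (h2 : Cr α β x' x) : Cr α (β - p) v x := by
  have hp3 : 3 ≤ p := by
    rcases hodd with ⟨k, hk⟩
    have := hp.two_le
    omega
  obtain ⟨X, hXc, hX, hXx'⟩ := h1.max
  obtain ⟨X', hXc', hX', hXx⟩ := h2.max
  by_contra hNC
  have hNC' : ∀ Ω : Finset α, β - p ≤ Ω.card → ¬ FxK (St α x) Ω →
      (∀ s, PCyc p Ω s → s ∉ St α x → s ∈ St α v) → False := by
    intro Ω hΩ hΩx hs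
    apply hNC
    exact ⟨Ω, hΩ, lemmaG1 hp3 hodd (by omega) hs hΩx, hΩx⟩
  -- Step 1
  have H : ∀ t, PCyc p Finset.univ t → t ∈ St α x → t ∉ St α x' →
      FxK (St α x) (X' \ t.support) := by
    intro t ht htx htx'
    by_contra hcon
    have hc : β - p ≤ (X' \ t.support).card := by
      have := Finset.le_card_sdiff t.support X'
      rw [ht.card] at this
      omega
    refine hNC' _ hc hcon ?_
    intro s hs hsx
    have hsX' : PCyc p X' s := hs.mono Finset.sdiff_subset
    have hcomm : Commute s t := commute_of_disjoint_support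
      (Finset.disjoint_of_subset_left hs.sub Finset.sdiff_disjoint)
    rcases PV hp hodd hΓ hno hs ht hcomm hxv hvx' htx (hX'.1.pcyc_mem hodd hsX') with h | h | h
    · exact absurd h hsx
    · exact absurd h htx'
    · exact h.1
  obtain ⟨y, hyX, hyX', hWmax, hXfix⟩ := lemmaA hp3 hodd hX (by omega) hXx' hX' (by omega) hXx H
  -- Step 2b: `X.erase y` is maximal for `x'`
  have hX1max : MaxFx (St α x') (X.erase y) := by
    obtain ⟨M, hM0, hM⟩ := hXfix.exists_max
    have hMc : 2 * p + 1 ≤ M.card := by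
      have := Finset.card_le_card hM0
      rw [Finset.card_erase_of_mem hyX] at this
      omega
    have hMX' : ∀ z ∈ M, z ∉ X' := by
      intro z hzM hzX'
      have h3 : M ⊆ X' := hX'.subset (by omega) hM.1 (by omega)
        ⟨z, Finset.mem_inter.mpr ⟨hzX', hzM⟩⟩
      apply hXx'
      refine hX'.1.mono ?_
      intro u hu
      by_cases huy : u = y
      · rw [huy]; exact hyX'
      · exact h3 (hM0 (Finset.mem_erase.mpr ⟨huy, hu⟩))
    have hyM : y ∉ M := fun h => hMX' y h hyX'
    have hMeq : M = X.erase y := by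
      apply Finset.Subset.antisymm _ hM0
      intro z hzM
      by_contra hzX
      have hzy : z ≠ y := by rintro rfl; exact hyM hzM
      -- a `p`-cycle in `X` moving `y`
      obtain ⟨t, ht, hyt, -⟩ := exists_pcyc (p := p) (Ω := X) (A := {y}) (B := ∅) (by omega)
        (by simpa using hyX) (Finset.disjoint_empty_right _) (by simp; omega) (by simp; omega)
      have hyt : y ∈ t.support := hyt (by simp)
      have htx : t ∈ St α x := hX.1.pcyc_mem hodd ht
      obtain ⟨w, hwt, hwy⟩ := exists_ne_support ht hp.two_le y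
      have hwM : w ∈ M := hM0 (Finset.mem_erase.mpr ⟨hwy, ht.sub hwt⟩)
      have htx' : t ∉ St α x' := hX'.notMem ht (by omega) hwt (hMX' w hwM) hyt hyX'
      have hzt : z ∉ t.support := fun h => hzX (Finset.mem_erase.mpr ⟨hzy, ht.sub h⟩)
      have hcard0 : β - p ≤ ((X.erase y) \ t.support).card := by
        have h3 : (X.erase y) \ t.support = X \ t.support := by
          ext u
          simp only [Finset.mem_sdiff, Finset.mem_erase]
          constructor
          · rintro ⟨⟨-, h⟩, h'⟩; exact ⟨h, h'⟩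
          · rintro ⟨h, h'⟩; exact ⟨⟨by rintro rfl; exact h' hyt, h⟩, h'⟩
        rw [h3]
        have := Finset.le_card_sdiff t.support X
        rw [ht.card] at this
        omega
      have hcard : β - p ≤ (M \ t.support).card := by
        refine hcard0.trans (Finset.card_le_card ?_)
        exact Finset.sdiff_subset_sdiff hM0 (Finset.Subset.refl _)
      have hnot : ¬ FxK (St α x) (M \ t.support) := by
        intro h
        obtain ⟨u, hu⟩ : ((X.erase y) \ t.support).Nonempty := by
          rw [← Finset.card_pos]; omega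
        rw [Finset.mem_sdiff, Finset.mem_erase] at hu
        have h4 := hX.subset (by omega) h (by omega) ⟨u, Finset.mem_inter.mpr ⟨hu.1.2,
          Finset.mem_sdiff.mpr ⟨hM0 (Finset.mem_erase.mpr hu.1), hu.2⟩⟩⟩
        exact hzX (Finset.mem_erase.mpr ⟨hzy, h4 (Finset.mem_sdiff.mpr ⟨hzM, hzt⟩)⟩)
      refine hNC' _ hcard hnot ?_
      intro s hs hsx
      have hsM : PCyc p M s := hs.mono Finset.sdiff_subset
      have hcomm : Commute s t := commute_of_disjoint_support
        (Finset.disjoint_of_subset_left hs.sub Finset.sdiff_disjoint)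
      rcases PV hp hodd hΓ hno hs ht hcomm hxv hvx' htx (hM.1.pcyc_mem hodd hsM) with h | h | h
      · exact absurd h hsx
      · exact absurd h htx'
      · exact h.1
    exact hMeq ▸ hM
  -- Step 2c
  have hdisj : ∀ a ∈ X, a ≠ y → a ∉ X' := by
    intro a ha hay haX'
    have h3 : X.erase y ⊆ X' := hX'.subset (by omega) hX1max.1
      (by rw [Finset.card_erase_of_mem hyX]; omega)
      ⟨a, Finset.mem_inter.mpr ⟨haX', Finset.mem_erase.mpr ⟨hay, ha⟩⟩⟩
    have h4 : X' ⊆ X.erase y := hX1max.2 X' hX'.1 h3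
    exact Finset.notMem_erase y X (h4 hyX')
  obtain ⟨a, ha, a', ha', haa'⟩ := Finset.one_lt_card.mp
    (show 1 < (X.erase y).card by rw [Finset.card_erase_of_mem hyX]; omega)
  rw [Finset.mem_erase] at ha ha'
  have haX' := hdisj a ha.2 ha.1
  have haX'' := hdisj a' ha'.2 ha'.1
  set g : Perm α := tri y a a' with hg
  have hgA : g ∈ alternatingGroup α := tri_mem_alt (Ne.symm ha.1) (Ne.symm ha'.1) haa'
  have hgx : (⟨g, hgA⟩ : alternatingGroup α) • x = x :=
    coe_mem_St.mp (hX.1.tri_mem hyX ha.2 ha'.2 (Ne.symm ha.1) (Ne.symm ha'.1) haa')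
  have hgy : g y = a := tri_apply_1 (Ne.symm ha.1) (Ne.symm ha'.1)
  have hga' : g a' = y := tri_apply_3
  have hgW : ∀ w ∈ X', w ≠ y → g w = w := by
    intro w hw hwy
    exact tri_apply_ne hwy (fun h => haX' (h ▸ hw)) (fun h => haX'' (h ▸ hw))
  have claim : ∀ s t, PCyc p X' s → PCyc p X' t → y ∈ s.support → y ∈ t.support →
      (∀ z, z ∈ s.support → z ∈ t.support → z = y) → s ∈ St α v ∨ t ∈ St α v := by
    intro s t hs ht hys hyt hst
    obtain ⟨w, hws, hwy⟩ := exists_ne_support hs hp.two_le y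
    obtain ⟨w', hwt, hwy'⟩ := exists_ne_support ht hp.two_le y
    have hS : PCyc p Finset.univ (g * s * g⁻¹) := hs.conj g (fun _ _ => Finset.mem_univ _)
    have hcomm : Commute (g * s * g⁻¹) t := by
      apply commute_of_disjoint_support
      rw [Finset.disjoint_left]
      intro z hzs hzt
      rw [mem_support_conj] at hzs
      have hzW := ht.sub hzt
      by_cases h3 : g⁻¹ z = y
      · have : z = a := by
          rw [← hgy, ← h3]; simp
        exact haX' (this ▸ hzW)
      · have h4 := hgW _ (hs.sub hzs) h3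
        have h5 : z = g⁻¹ z := by
          conv_rhs => rw [← h4]
          simp
        rw [← h5] at hzs h3
        exact h3 (hst z hzs hzt)
    have hadj1 : Γ.Adj x ((⟨g, hgA⟩ : alternatingGroup α) • v) := by
      have := hΓ ⟨g, hgA⟩ _ _ hxv
      rwa [hgx] at this
    have hadj2 : Γ.Adj ((⟨g, hgA⟩ : alternatingGroup α) • v)
        ((⟨g, hgA⟩ : alternatingGroup α) • x') := hΓ _ _ _ hvx'
    have htx' : t ∈ St α x' := hX'.1.pcyc_mem hodd ht
    have hSx'' : g * s * g⁻¹ ∈ St α ((⟨g, hgA⟩ : alternatingGroup α) • x') := by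
      rw [mem_St_smul]
      have e : (g : Perm α)⁻¹ * (g * s * g⁻¹) * g = s := by group
      show (g : Perm α)⁻¹ * (g * s * g⁻¹) * g ∈ St α x'
      rw [e]
      exact hX'.1.pcyc_mem hodd hs
    rcases P4 hp hodd hΓ hno hS ht hcomm hvx'.symm hxv.symm hadj1 hadj2 htx' hSx'' with
      h | h | h | h | h
    · exfalso
      refine hX'.notMem hS (by omega) (z := a) (w := w) ?_ haX' ?_ (hs.sub hws) h
      · rw [mem_support_conj, ← hgy]; simpa using hys
      · rw [mem_support_conj]
        have h4 := hgW _ (hs.sub hws) hwy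
        have h5 : g⁻¹ w = w := by
          conv_lhs => rw [← h4]
          simp
        rw [h5]; exact hws
    · exfalso
      rw [mem_St_smul] at h
      have h' : (g : Perm α)⁻¹ * t * g ∈ St α x' := h
      have hS : PCyc p Finset.univ (g⁻¹ * t * g) := by
        have := ht.conj (Ω' := Finset.univ) g⁻¹ (fun _ _ => Finset.mem_univ _)
        rwa [inv_inv] at this
      refine hX'.notMem hS (by omega) (z := a') (w := w') ?_ haX'' ?_ (ht.sub hwt) h'
      · rw [mem_support_conj', hga']; exact hyt
      · rw [mem_support_conj', hgW w' (ht.sub hwt) hwy']; exact hwt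
    · exact Or.inr h.2
    · exfalso
      exact hWmax.notMem ht (by rw [Finset.card_erase_of_mem hyX']; omega) hyt
        (Finset.notMem_erase _ _) hwt (Finset.mem_erase.mpr ⟨hwy', ht.sub hwt⟩) h.2
    · left
      have h' := h.1
      rw [mem_St_smul] at h'
      have e : (g : Perm α)⁻¹ * (g * s * g⁻¹) * g = s := by group
      have h'' : (g : Perm α)⁻¹ * (g * s * g⁻¹) * g ∈ St α v := h'
      rwa [e] at h''
  -- choose the final set
  obtain ⟨Ω, hΩX', hyΩ, hΩc, hΩ⟩ : ∃ Ω : Finset α, Ω ⊆ X' ∧ y ∈ Ω ∧ β - p + 1 ≤ Ω.card ∧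
      ∀ t, PCyc p Ω t → y ∈ t.support → t ∈ St α v := by
    by_cases hall : ∀ t, PCyc p X' t → y ∈ t.support → t ∈ St α v
    · exact ⟨X', Finset.Subset.refl _, hyX', by omega, hall⟩
    · push Not at hall
      obtain ⟨s0, hs0, hys0, hs0v⟩ := hall
      refine ⟨insert y (X' \ s0.support), ?_, Finset.mem_insert_self _ _, ?_, ?_⟩
      · intro z hz
        rw [Finset.mem_insert] at hz
        rcases hz with rfl | hz
        · exact hyX'
        · exact (Finset.mem_sdiff.mp hz).1
      · rw [Finset.card_insert_of_notMem (by simp [hys0] : y ∉ X' \ s0.support)]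
        have := Finset.le_card_sdiff s0.support X'
        rw [hs0.card] at this
        omega
      · intro t ht hyt
        have htX' : PCyc p X' t := ht.mono (by
          intro z hz
          rw [Finset.mem_insert] at hz
          rcases hz with rfl | hz
          · exact hyX'
          · exact (Finset.mem_sdiff.mp hz).1)
        refine (claim s0 t hs0 htX' hys0 hyt ?_).resolve_left hs0v
        intro z hz1 hz2
        have := ht.sub hz2
        rw [Finset.mem_insert] at this
        rcases this with h | h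
        · exact h
        · exact absurd hz1 (Finset.mem_sdiff.mp h).2
  have hΩx : ¬ FxK (St α x) Ω := by
    intro h
    obtain ⟨u, hu, huy⟩ := Finset.exists_mem_ne (show 1 < Ω.card by omega) y
    have h4 := hWmax.subset (by rw [Finset.card_erase_of_mem hyX']; omega) h (by omega)
      ⟨u, Finset.mem_inter.mpr ⟨Finset.mem_erase.mpr ⟨huy, hΩX' hu⟩, hu⟩⟩
    exact Finset.notMem_erase y X' (h4 hyΩ)
  refine hNC' Ω (by omega) hΩx ?_
  intro s hs hsx
  by_cases hys : y ∈ s.support
  · exact hΩ s hs hys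
  · exfalso
    apply hsx
    refine hWmax.1.pcyc_mem hodd (⟨hs.cyc, hs.card, ?_⟩ : PCyc p (X'.erase y) s)
    intro z hz
    exact Finset.mem_erase.mpr ⟨by rintro rfl; exact hys hz, hΩX' (hs.sub hz)⟩

end Pool.Agent.Helper32.Had
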