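import Mathlib
import Pool.Agent.Helper32.HadP

/-! Lemma F3: a free action of an elementary abelian group of rank at least three on a connected
graph gives a `K_{p,p}` minor. -/

namespace Pool.Agent.Helper32.Had

theorem exists_boundary {V : Type*} {Γ : SimpleGraph V} (h : Γ.Preconnected) {U : Set V} {a b : V}
    (ha : a ∈ U) (hb : b ∉ U) : ∃ x ∈ U, ∃ y, y ∉ U ∧ Γ.Adj x y := by
  obtain ⟨w⟩ := h a b
  obtain ⟨d, _, h1, h2⟩ := w.exists_boundary_dart U ha hb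
  exact ⟨d.fst, h1, d.snd, h2, d.adj⟩

variable {E V : Type*} [CommGroup E] [MulAction E V]

theorem Conn.line {Γ : SimpleGraph V}
    (hΓ : ∀ (g : E) u v, Γ.Adj u v → Γ.Adj (g • u) (g • v)) {D : Set V} (hD : Conn Γ D)
    {t : E} {x0 y0 : V} (hx0 : x0 ∈ D) (hy0 : y0 ∈ D) (ht : Γ.Adj x0 (t • y0)) (u : E) :
    Conn Γ {v | ∃ y : ℕ, ∃ d ∈ D, v = (u * t ^ y) • d} := by
  have htr : ∀ (e : E) (a b : V), Reach Γ D a b → ∀ (W : Set V), (∀ d ∈ D, e • d ∈ W) →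
      Reach Γ W (e • a) (e • b) := by
    intro e a b hab W hW
    induction hab with
    | refl => exact Reach.refl _
    | tail _ h ih => exact ih.trans (Reach.single (hΓ e _ _ h.1) (hW _ h.2.1) (hW _ h.2.2))
  refine Conn.of_center (a := (u * t ^ 0) • x0) ⟨0, x0, hx0, rfl⟩ ?_
  rintro v ⟨y, d, hd, rfl⟩
  induction y generalizing d with
  | zero => exact htr _ _ _ (hD.reach hx0 hd) _ (fun d hd => ⟨0, d, hd, rfl⟩)
  | succ y ih =>
    refine (ih x0 hx0).trans ?_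
    have h1 : Γ.Adj ((u * t ^ y) • x0) ((u * t ^ (y + 1)) • y0) := by
      have h2 := hΓ (u * t ^ y) _ _ ht
      rw [← mul_smul, mul_assoc, ← pow_succ] at h2
      exact h2
    refine Reach.trans (b := (u * t ^ (y + 1)) • y0) (Reach.single h1 ?_ ?_) ?_
    · exact ⟨y, x0, hx0, rfl⟩
    · exact ⟨y + 1, y0, hy0, rfl⟩
    · exact htr _ _ _ (hD.reach hy0 hd) _ (fun d hd => ⟨y + 1, d, hd, rfl⟩)

theorem lemmaF3 [Finite V] {p : ℕ} (hp : p.Prime) {Γ : SimpleGraph V}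
    (hΓ : ∀ (g : E) u v, Γ.Adj u v → Γ.Adj (g • u) (g • v)) (hconn : Γ.Connected)
    (hexp : ∀ e : E, e ^ p = 1) (hfree : ∀ (e : E) (v : V), e • v = v → e = 1)
    (hgen : ∀ a b : E, ∃ e, e ∉ Subgroup.closure ({a, b} : Set E)) : HasBip Γ p := by
  classical
  -- a maximal connected partial transversal
  obtain ⟨v0⟩ := hconn.nonempty
  let 𝒟 : Set (Set V) := {D | Conn Γ D ∧ ∀ x ∈ D, ∀ y ∈ D, ∀ e : E, e • x = y → e = 1}
  have h𝒟 : ({v0} : Set V) ∈ 𝒟 := by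
    refine ⟨Conn.singleton v0, ?_⟩
    intro x hx y hy e he
    rw [Set.mem_singleton_iff] at hx hy
    subst hx; subst hy
    exact hfree e _ he
  obtain ⟨D, hDm⟩ := (Set.toFinite 𝒟).exists_maximal ⟨_, h𝒟⟩
  obtain ⟨hD, hDt⟩ : Conn Γ D ∧ ∀ x ∈ D, ∀ y ∈ D, ∀ e : E, e • x = y → e = 1 := hDm.1
  obtain ⟨d0, hd0⟩ := hD.1
  -- Claim A
  have claimA : ∀ v : V, ∃ e : E, ∃ d ∈ D, v = e • d := by
    intro v
    by_contra hv
    obtain ⟨a, ⟨e, d, hd, rfl⟩, b, hb, hab⟩ := exists_boundary (U := {v | ∃ e : E, ∃ d ∈ D, v = e • d})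
      hconn.preconnected (a := d0) (b := v) ⟨1, d0, hd0, (one_smul _ _).symm⟩ hv
    have hb' : ∀ (e' : E) (y : V), y ∈ D → e' • (e⁻¹ • b) ≠ y := by
      intro e' y hy h
      apply hb
      refine ⟨e * e'⁻¹, y, hy, ?_⟩
      rw [← h, ← mul_smul, ← mul_smul]
      simp
    have hadj : Γ.Adj d (e⁻¹ • b) := by
      have := hΓ e⁻¹ _ _ hab
      rwa [inv_smul_smul] at this
    have hmem : D ∪ {e⁻¹ • b} ∈ 𝒟 := by
      refine ⟨hD.union_adj (Conn.singleton _) hd rfl hadj, ?_⟩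
      intro x hx y hy e' he'
      rcases hx with hx | hx
      · rcases hy with hy | hy
        · exact hDt x hx y hy e' he'
        · rw [Set.mem_singleton_iff] at hy
          exfalso
          subst hy
          refine hb' e'⁻¹ x hx ?_
          rw [← he', inv_smul_smul]
      · rw [Set.mem_singleton_iff] at hx
        subst hx
        rcases hy with hy | hy
        · exact absurd he' (hb' e' y hy)
        · rw [Set.mem_singleton_iff] at hy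
          subst hy
          exact hfree _ _ he'
    have h1 : e⁻¹ • b ∈ D := hDm.2 hmem Set.subset_union_left (Or.inr rfl)
    exact hb' 1 _ h1 (one_smul _ _)
  let T : Set E := {e | e ≠ 1 ∧ ∃ x ∈ D, ∃ y ∈ D, Γ.Adj x (e • y)}
  -- Claim B
  have claimB : ∀ e : E, e ∈ Subgroup.closure T := by
    have hU : ∀ v : V, ∃ h ∈ Subgroup.closure T, ∃ d ∈ D, v = h • d := by
      intro v
      by_contra hv
      obtain ⟨a, ⟨h, hh, d, hd, rfl⟩, b, hb, hab⟩ :=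
        exists_boundary (U := {v | ∃ h ∈ Subgroup.closure T, ∃ d ∈ D, v = h • d})
        hconn.preconnected (a := d0) (b := v) ⟨1, Subgroup.one_mem _, d0, hd0,
          (one_smul _ _).symm⟩ hv
      obtain ⟨e, d', hd', rfl⟩ := claimA b
      apply hb
      refine ⟨e, ?_, d', hd', rfl⟩
      have h2 : Γ.Adj d ((h⁻¹ * e) • d') := by
        have := hΓ h⁻¹ _ _ hab
        rwa [inv_smul_smul, ← mul_smul] at this
      have h3 : h⁻¹ * e ∈ Subgroup.closure T := by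
        by_cases h4 : h⁻¹ * e = 1
        · rw [h4]; exact Subgroup.one_mem _
        · exact Subgroup.subset_closure ⟨h4, d, hd, d', hd', h2⟩
      have h5 := Subgroup.mul_mem _ hh h3
      rwa [mul_inv_cancel_left] at h5
    intro e
    obtain ⟨h, hh, d, hd, hed⟩ := hU (e • d0)
    have h1 : (h⁻¹ * e) • d0 = d := by
      rw [mul_smul, hed, inv_smul_smul]
    have h2 := hDt d0 hd0 d hd _ h1
    rw [inv_mul_eq_one] at h2
    rw [← h2]
    exact hh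
  have hT : ∀ a b : E, ∃ t ∈ T, t ∉ Subgroup.closure ({a, b} : Set E) := by
    intro a b
    by_contra hcon
    push Not at hcon
    obtain ⟨e, he⟩ := hgen a b
    exact he ((Subgroup.closure_le _).mpr hcon (claimB e))
  obtain ⟨t1, ht1, -⟩ := hT 1 1
  obtain ⟨t2, ht2, ht12⟩ := hT t1 t1
  obtain ⟨t3, ht3, ht123⟩ := hT t1 t2
  have ht1m : ∀ x : ℤ, t1 ^ x ∈ Subgroup.closure ({t1, t1} : Set E) := fun x =>
    Subgroup.zpow_mem _ (Subgroup.subset_closure (by simp)) x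
  have ht1m' : ∀ x : ℤ, t1 ^ x ∈ Subgroup.closure ({t1, t2} : Set E) := fun x =>
    Subgroup.zpow_mem _ (Subgroup.subset_closure (by simp)) x
  have ht2m' : ∀ x : ℤ, t2 ^ x ∈ Subgroup.closure ({t1, t2} : Set E) := fun x =>
    Subgroup.zpow_mem _ (Subgroup.subset_closure (by simp)) x
  -- independence
  have hind2 : ∀ a b : ℤ, t1 ^ a * t2 ^ b = 1 → (p : ℤ) ∣ b := by
    intro a b hab
    by_contra hb
    apply ht12
    refine mem_of_zpow_mem hp (hexp t2) hb ?_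
    have : t2 ^ b = t1 ^ (-a) := by
      rw [zpow_neg]
      exact eq_inv_of_mul_eq_one_right hab
    rw [this]
    exact ht1m _
  have hind1 : ∀ a b : ℤ, t1 ^ a * t2 ^ b = 1 → (p : ℤ) ∣ a := by
    intro a b hab
    by_contra ha
    obtain ⟨q, hq⟩ := hind2 a b hab
    have h1 : t2 ^ b = 1 := by
      rw [hq, zpow_mul, zpow_natCast, hexp, one_zpow]
    rw [h1, mul_one] at hab
    apply ht1.1
    have h2 : t1 ∈ (⊥ : Subgroup E) := mem_of_zpow_mem hp (hexp t1) ha (by rw [hab]; exact Subgroup.one_mem _)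
    exact Subgroup.mem_bot.mp h2
  have habs : ∀ i i' : Fin p, (p : ℤ) ∣ ((i : ℕ) : ℤ) - ((i' : ℕ) : ℤ) → i = i' := by
    intro i i' hd
    obtain ⟨q, hq⟩ := hd
    have h1 := i.2
    have h2 := i'.2
    have hq0 : q = 0 := by
      by_contra hne
      have : 1 ≤ |q| := Int.one_le_abs hne
      have h3 : |((i : ℕ) : ℤ) - ((i' : ℕ) : ℤ)| < p := by
        rw [abs_lt]; constructor <;> omega
      rw [hq, abs_mul] at h3
      have h4 : |(p : ℤ)| = p := abs_of_nonneg (by positivity)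
      rw [h4] at h3
      have h5 : (0 : ℤ) < p := by exact_mod_cast hp.pos
      nlinarith
    rw [hq0, mul_zero] at hq
    apply Fin.ext
    omega
  -- transversality
  have htr : ∀ (a b : E) (d d' : V), d ∈ D → d' ∈ D → a • d = b • d' → a = b := by
    intro a b d d' hd hd' h
    have h1 : (b⁻¹ * a) • d = d' := by rw [mul_smul, h, inv_smul_smul]
    have h2 := hDt d hd d' hd' _ h1
    rw [inv_mul_eq_one] at h2
    exact h2.symm
  obtain ⟨x1, hx1, y1, hy1, ha1⟩ := ht1.2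
  obtain ⟨x2, hx2, y2, hy2, ha2⟩ := ht2.2
  obtain ⟨x3, hx3, y3, hy3, ha3⟩ := ht3.2
  refine ⟨fun i => {v | ∃ y : ℕ, ∃ d ∈ D, v = (t1 ^ ((i : ℕ) : ℤ) * t2 ^ y) • d},
    fun j => {v | ∃ x : ℕ, ∃ d ∈ D, v = (t2 ^ ((j : ℕ) : ℤ) * t3 * t1 ^ x) • d},
    fun i => hD.line hΓ hx2 hy2 ha2 _, fun j => hD.line hΓ hx1 hy1 ha1 _, ?_, ?_, ?_, ?_⟩
  · intro i i' hii'
    rw [Set.disjoint_left]
    rintro v ⟨y, d, hd, rfl⟩ ⟨y', d', hd', h⟩
    have h1 := htr _ _ _ _ hd hd' h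
    apply hii'
    apply habs
    apply hind1 _ ((y : ℤ) - (y' : ℤ))
    rw [zpow_sub, zpow_sub, zpow_natCast t2, zpow_natCast t2]
    calc t1 ^ ((i : ℕ) : ℤ) * (t1 ^ ((i' : ℕ) : ℤ))⁻¹ * (t2 ^ y * (t2 ^ y')⁻¹)
        = (t1 ^ ((i : ℕ) : ℤ) * t2 ^ y) * (t1 ^ ((i' : ℕ) : ℤ) * t2 ^ y')⁻¹ := by
          rw [mul_inv_rev]
          simp only [mul_comm, mul_left_comm, mul_assoc]
      _ = 1 := by rw [h1, mul_inv_cancel]
  · intro j j' hjj'
    rw [Set.disjoint_left]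
    rintro v ⟨x, d, hd, rfl⟩ ⟨x', d', hd', h⟩
    have h1 := htr _ _ _ _ hd hd' h
    apply hjj'
    apply habs
    apply hind2 ((x : ℤ) - (x' : ℤ))
    rw [zpow_sub, zpow_sub, zpow_natCast t1, zpow_natCast t1]
    calc t1 ^ x * (t1 ^ x')⁻¹ * (t2 ^ ((j : ℕ) : ℤ) * (t2 ^ ((j' : ℕ) : ℤ))⁻¹)
        = (t2 ^ ((j : ℕ) : ℤ) * t3 * t1 ^ x) * (t2 ^ ((j' : ℕ) : ℤ) * t3 * t1 ^ x')⁻¹ := by
          rw [mul_inv_rev, mul_inv_rev]
          have : t3 * t3⁻¹ = 1 := mul_inv_cancel t3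
          calc t1 ^ x * (t1 ^ x')⁻¹ * (t2 ^ ((j : ℕ) : ℤ) * (t2 ^ ((j' : ℕ) : ℤ))⁻¹)
              = t1 ^ x * (t1 ^ x')⁻¹ * (t2 ^ ((j : ℕ) : ℤ) * (t2 ^ ((j' : ℕ) : ℤ))⁻¹) * (t3 * t3⁻¹) := by
                rw [this, mul_one]
            _ = _ := by simp only [mul_comm, mul_left_comm, mul_assoc]
      _ = 1 := by rw [h1, mul_inv_cancel]
  · intro i j
    rw [Set.disjoint_left]
    rintro v ⟨y, d, hd, rfl⟩ ⟨x, d', hd', h⟩
    have h1 := htr _ _ _ _ hd hd' h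
    apply ht123
    have h2 : t3 = (t1 ^ ((i : ℕ) : ℤ) * t2 ^ (y : ℤ)) * (t2 ^ ((j : ℕ) : ℤ) * t1 ^ (x : ℤ))⁻¹ := by
      rw [zpow_natCast t2 y, h1, zpow_natCast t1 x, mul_inv_rev]
      have e1 : t1 ^ x * (t1 ^ x)⁻¹ = 1 := mul_inv_cancel _
      have e2 : t2 ^ ((j : ℕ) : ℤ) * (t2 ^ ((j : ℕ) : ℤ))⁻¹ = 1 := mul_inv_cancel _
      calc t3 = t3 * (t1 ^ x * (t1 ^ x)⁻¹) * (t2 ^ ((j : ℕ) : ℤ) * (t2 ^ ((j : ℕ) : ℤ))⁻¹) := by
            rw [e1, e2, mul_one, mul_one]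
        _ = _ := by simp only [mul_comm, mul_left_comm, mul_assoc]
    rw [h2]
    exact Subgroup.mul_mem _ (Subgroup.mul_mem _ (ht1m' _) (ht2m' _))
      (Subgroup.inv_mem _ (Subgroup.mul_mem _ (ht2m' _) (ht1m' _)))
  · intro i j
    refine ⟨(t1 ^ ((i : ℕ) : ℤ) * t2 ^ (j : ℕ)) • x3, ⟨j, x3, hx3, rfl⟩,
      (t2 ^ ((j : ℕ) : ℤ) * t3 * t1 ^ (i : ℕ)) • y3, ⟨i, y3, hy3, rfl⟩, ?_⟩
    have h1 := hΓ (t1 ^ ((i : ℕ) : ℤ) * t2 ^ (j : ℕ)) _ _ ha3
    rw [← mul_smul] at h1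
    have h2 : t1 ^ ((i : ℕ) : ℤ) * t2 ^ (j : ℕ) * t3 = t2 ^ ((j : ℕ) : ℤ) * t3 * t1 ^ (i : ℕ) := by
      rw [zpow_natCast, zpow_natCast]
      simp only [mul_comm, mul_left_comm]
    rw [h2] at h1
    exact h1

end Pool.Agent.Helper32.Had
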