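import Mathlib
import Pool.Agent.Helper32.HadF3
import Pool.Agent.Helper32.HadSt

/-! A large elementary abelian group has a fixed vertex. -/

set_option linter.unusedSectionVars false
set_option linter.unusedVariables false

open Equiv Equiv.Perm

namespace Pool.Agent.Helper32.Had

/-- first visit of a set by a walk -/
theorem exists_walk_to {V : Type*} {Γ : SimpleGraph V} (h : Γ.Preconnected) {B : Set V} {a b : V}
    (ha : a ∉ B) (hb : b ∈ B) : ∃ (m : ℕ) (f : ℕ → V), f 0 = a ∧ f m ∈ B ∧
      (∀ i < m, f i ∉ B) ∧ ∀ i < m, Γ.Adj (f i) (f (i + 1)) := by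
  classical
  obtain ⟨w⟩ := h a b
  have hex : ∃ i, w.getVert i ∈ B := ⟨w.length, by rw [w.getVert_length]; exact hb⟩
  refine ⟨Nat.find hex, w.getVert, w.getVert_zero, Nat.find_spec hex,
    fun i hi => Nat.find_min hex hi, ?_⟩
  intro i hi
  apply w.adj_getVert_succ
  have : Nat.find hex ≤ w.length := Nat.find_min' hex (by rw [w.getVert_length]; exact hb)
  omega

/-! ### Block shifts -/

/-- translation by `f i` in the `i`-th block -/
def shiftPerm {r p : ℕ} (f : Fin r → ZMod p) : Perm (Fin r × ZMod p) where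
  toFun x := (x.1, x.2 + f x.1)
  invFun x := (x.1, x.2 - f x.1)
  left_inv x := by simp
  right_inv x := by simp

/-- `shiftPerm` as a homomorphism -/
def shiftHom (r p : ℕ) : Multiplicative (Fin r → ZMod p) →* Perm (Fin r × ZMod p) where
  toFun f := shiftPerm f.toAdd
  map_one' := by ext x <;> simp [shiftPerm]
  map_mul' f g := by
    ext x
    · simp [shiftPerm]
    · simp only [shiftPerm, toAdd_mul, Pi.add_apply, coe_fn_mk, Perm.mul_apply]
      ring_nf

/-- multiplication by the unit `u` in block `i` -/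
def scalePerm {r p : ℕ} (i : Fin r) (u : (ZMod p)ˣ) : Perm (Fin r × ZMod p) where
  toFun x := (x.1, if x.1 = i then u * x.2 else x.2)
  invFun x := (x.1, if x.1 = i then ↑(u⁻¹) * x.2 else x.2)
  left_inv x := by
    ext
    · rfl
    · by_cases h : x.1 = i <;> simp [h]
  right_inv x := by
    ext
    · rfl
    · by_cases h : x.1 = i <;> simp [h]

theorem scale_shift {r p : ℕ} (i : Fin r) (u : (ZMod p)ˣ) (f : Fin r → ZMod p) :
    scalePerm i u * shiftPerm f = shiftPerm (Function.update f i (u * f i)) * scalePerm i u := by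
  ext x
  · rfl
  · simp only [scalePerm, shiftPerm, Perm.mul_apply, coe_fn_mk]
    by_cases h : x.1 = i
    · subst h
      simp [mul_add]
    · simp [h, Function.update_of_ne h]

variable {α : Type*} [Fintype α] [DecidableEq α]

/-- the `p`-cycle given by the `j`-th block -/
noncomputable def cyc {r p : ℕ} (ι : Fin r × ZMod p ↪ α) (j : Fin r) : Perm α :=
  viaEmbeddingHom ι (shiftPerm (Pi.single j 1))

theorem cyc_apply {r p : ℕ} (ι : Fin r × ZMod p ↪ α) (j : Fin r) (y : ZMod p) :
    cyc ι j (ι (j, y)) = ι (j, y + 1) := by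
  unfold cyc
  rw [viaEmbeddingHom_apply, viaEmbedding_apply]
  simp [shiftPerm]

theorem cyc_apply_ne {r p : ℕ} (ι : Fin r × ZMod p ↪ α) (j : Fin r) (x : α)
    (hx : ∀ y, x ≠ ι (j, y)) : cyc ι j x = x := by
  unfold cyc
  rw [viaEmbeddingHom_apply]
  by_cases h : x ∈ Set.range ι
  · obtain ⟨⟨i, y⟩, rfl⟩ := h
    rw [viaEmbedding_apply]
    have hij : i ≠ j := by
      rintro rfl
      exact hx y rfl
    simp [shiftPerm, hij]
  · exact viaEmbedding_apply_of_notMem _ _ _ h

theorem mem_support_cyc {r p : ℕ} (hp : 2 ≤ p) (ι : Fin r × ZMod p ↪ α) (j : Fin r) (x : α) :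
    x ∈ (cyc ι j).support ↔ ∃ y, x = ι (j, y) := by
  rw [mem_support]
  constructor
  · intro h
    by_contra hcon
    push Not at hcon
    exact h (cyc_apply_ne ι j x hcon)
  · rintro ⟨y, rfl⟩
    rw [cyc_apply]
    intro h
    have h1 := ι.injective h
    rw [Prod.mk.injEq] at h1
    have h2 : (1 : ZMod p) = 0 := by simpa using h1.2
    haveI : Fact (1 < p) := ⟨by omega⟩
    exact one_ne_zero h2

theorem cyc_pcyc {r p : ℕ} (hp : 2 ≤ p) (ι : Fin r × ZMod p ↪ α) (j : Fin r) :
    PCyc p Finset.univ (cyc ι j) := by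
  haveI : NeZero p := ⟨by omega⟩
  refine ⟨?_, ?_, Finset.subset_univ _⟩
  · refine ⟨ι (j, 0), ?_, ?_⟩
    · rw [← mem_support, mem_support_cyc hp]
      exact ⟨0, rfl⟩
    · intro x hx
      rw [← mem_support, mem_support_cyc hp] at hx
      obtain ⟨y, rfl⟩ := hx
      have key : ∀ k : ℕ, ((cyc ι j) ^ k) (ι (j, 0)) = ι (j, (k : ZMod p)) := by
        intro k
        induction k with
        | zero => simp
        | succ k ih => rw [pow_succ', Perm.mul_apply, ih, cyc_apply]; simp
      refine ⟨(y.val : ℤ), ?_⟩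
      rw [zpow_natCast, key]
      simp
  · have h1 : (cyc ι j).support = Finset.univ.map
        ⟨fun y : ZMod p => ι (j, y), fun a b h => by simpa using h⟩ := by
      ext x
      rw [mem_support_cyc hp]
      simp only [Finset.mem_map, Finset.mem_univ, Function.Embedding.coeFn_mk, true_and]
      constructor
      · rintro ⟨y, rfl⟩; exact ⟨y, rfl⟩
      · rintro ⟨y, h⟩; exact ⟨y, h.symm⟩
    rw [h1, Finset.card_map, Finset.card_univ, ZMod.card]

theorem not_two_gen {r p : ℕ} (hp : 2 ≤ p) (hr : 3 ≤ r)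
    (a b : Multiplicative (Fin r → ZMod p)) : ∃ e, e ∉ Subgroup.closure {a, b} := by
  haveI : NeZero p := ⟨by omega⟩
  by_contra hcon
  push Not at hcon
  have hsurj : Function.Surjective
      (fun x : ZMod p × ZMod p => x.1 • a.toAdd + x.2 • b.toAdd) := by
    intro e
    obtain ⟨m, n, h⟩ := Subgroup.mem_closure_pair.mp (hcon (Multiplicative.ofAdd e))
    refine ⟨((m : ZMod p), (n : ZMod p)), ?_⟩
    have h1 := congrArg Multiplicative.toAdd h
    rw [toAdd_mul, toAdd_zpow, toAdd_zpow, toAdd_ofAdd] at h1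
    rw [← h1]
    ext i
    simp
  have h1 := Fintype.card_le_of_surjective _ hsurj
  rw [Fintype.card_prod, Fintype.card_fun, ZMod.card, Fintype.card_fin] at h1
  have h2 : p ^ 3 ≤ p ^ r := Nat.pow_le_pow_right (by omega) hr
  have h3 : p ^ 3 = p * (p * p) := by ring
  have h4 : 2 * (p * p) ≤ p * (p * p) := Nat.mul_le_mul_right _ hp
  have h5 : 0 < p * p := by positivity
  omega

theorem exists_fixed {p r : ℕ} (hp : p.Prime) (h5 : 5 ≤ p) (hr : 3 ≤ r)
    (ι : Fin r × ZMod p ↪ α) (hcard : p + 2 ≤ Fintype.card α) {V : Type*} [Finite V]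
    [MulAction (alternatingGroup α) V] {Γ : SimpleGraph V}
    (hΓ : ∀ (g : alternatingGroup α) u v, Γ.Adj u v → Γ.Adj (g • u) (g • v))
    (hconn : Γ.Connected) (hno : ¬ HasBip Γ p) : ∃ z : V, ∀ j, cyc ι j ∈ St α z := by
  haveI : Fact p.Prime := ⟨hp⟩
  haveI : NeZero p := ⟨hp.ne_zero⟩
  have hodd : Odd p := hp.odd_of_ne_two (by omega)
  have hpowE : ∀ e : Multiplicative (Fin r → ZMod p), e ^ p = 1 := by
    intro e
    apply Multiplicative.toAdd.injective
    rw [toAdd_pow, toAdd_one]
    ext i
    simp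
  have hsign1 : ∀ g : Perm α, g ^ p = 1 → g ∈ alternatingGroup α := by
    intro g hg
    rw [mem_alternatingGroup]
    have h1 : sign g ^ p = 1 := by rw [← map_pow, hg, map_one]
    rcases Int.units_eq_one_or (sign g) with h | h
    · exact h
    · rw [h, hodd.neg_one_pow] at h1
      exact absurd h1 (by decide)
  let φ0 : Multiplicative (Fin r → ZMod p) →* Perm α := (viaEmbeddingHom ι).comp (shiftHom r p)
  have hφ0 : ∀ e, φ0 e ∈ alternatingGroup α := by
    intro e
    apply hsign1
    rw [← map_pow, hpowE, map_one]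
  let φ : Multiplicative (Fin r → ZMod p) →* alternatingGroup α :=
    φ0.codRestrict (alternatingGroup α) hφ0
  letI : MulAction (Multiplicative (Fin r → ZMod p)) V := MulAction.compHom V φ
  have hsmul : ∀ (e : Multiplicative (Fin r → ZMod p)) (z : V), e • z = φ e • z := fun _ _ => rfl
  have hΓE : ∀ (e : Multiplicative (Fin r → ZMod p)) u v, Γ.Adj u v → Γ.Adj (e • u) (e • v) :=
    fun e u v h => hΓ (φ e) u v h
  haveI := hconn.nonempty
  obtain ⟨z0, hz0⟩ := Finite.exists_max
    (fun z : V => Nat.card (MulAction.stabilizer (Multiplicative (Fin r → ZMod p)) z))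
  -- all stabilisers are contained in that of `z0`
  have hle : ∀ z : V, MulAction.stabilizer (Multiplicative (Fin r → ZMod p)) z ≤
      MulAction.stabilizer (Multiplicative (Fin r → ZMod p)) z0 := by
    by_contra hcon
    push Not at hcon
    obtain ⟨b, hb⟩ := hcon
    obtain ⟨m, f, hf0, hfm, hfi, hadj⟩ := exists_walk_to hconn.preconnected
      (B := {z | ¬ MulAction.stabilizer (Multiplicative (Fin r → ZMod p)) z ≤
        MulAction.stabilizer (Multiplicative (Fin r → ZMod p)) z0}) (a := z0) (b := b)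
      (by simp) hb
    obtain ⟨s, hs1, hs2⟩ := SetLike.not_le_iff_exists.mp hfm
    obtain ⟨t, ht1, ht2⟩ : ∃ t ∈ MulAction.stabilizer (Multiplicative (Fin r → ZMod p)) z0,
        t ∉ MulAction.stabilizer (Multiplicative (Fin r → ZMod p)) (f m) := by
      by_contra hcon
      push Not at hcon
      have h1 : MulAction.stabilizer (Multiplicative (Fin r → ZMod p)) z0 ≤
        MulAction.stabilizer (Multiplicative (Fin r → ZMod p)) (f m) := hcon
      have h2 := Subgroup.eq_of_le_of_card_ge h1 (hz0 (f m))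
      exact hs2 (h2 ▸ hs1)
    apply hno
    refine lemmaP hp hΓE (Commute.all s t) (hpowE s) (hpowE t) hadj ?_ (by rw [hf0]; exact ht1) hs1
    rintro i hi ⟨h1, h2⟩
    rcases Nat.lt_or_eq_of_le hi with h | h
    · have h3 := hfi i h
      simp only [Set.mem_setOf_eq, not_not] at h3
      exact hs2 (h3 h1)
    · rw [h] at h2
      exact ht2 h2
  -- conjugation
  have hconj : ∀ (e e' : Multiplicative (Fin r → ZMod p)) (g : Perm α),
      g ∈ alternatingGroup α → g * φ0 e = φ0 e' * g →
      e ∈ MulAction.stabilizer (Multiplicative (Fin r → ZMod p)) z0 →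
      e' ∈ MulAction.stabilizer (Multiplicative (Fin r → ZMod p)) z0 := by
    intro e e' g hg h he
    apply hle ((⟨g, hg⟩ : alternatingGroup α) • z0)
    show φ e' • ((⟨g, hg⟩ : alternatingGroup α) • z0) = (⟨g, hg⟩ : alternatingGroup α) • z0
    have h1 : φ e' * ⟨g, hg⟩ = ⟨g, hg⟩ * φ e := Subtype.ext h.symm
    rw [← mul_smul, h1, mul_smul]
    have h2 : φ e • z0 = z0 := he
    rw [h2]
  -- `stabilizer z0` is not trivial
  obtain ⟨e, he, hne⟩ : ∃ e ∈ MulAction.stabilizer (Multiplicative (Fin r → ZMod p)) z0, e ≠ 1 := by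
    by_contra hcon
    push Not at hcon
    apply hno
    refine lemmaF3 hp hΓE hconn hpowE ?_ (fun a b => not_two_gen hp.two_le hr a b)
    intro e v hev
    exact hcon e (hle v hev)
  obtain ⟨i, hi⟩ : ∃ i, e.toAdd i ≠ 0 := by
    by_contra hcon
    push Not at hcon
    exact hne (Multiplicative.toAdd.injective (funext hcon))
  -- the line of the `i`-th block
  have hline : Multiplicative.ofAdd (Pi.single i 1) ∈
      MulAction.stabilizer (Multiplicative (Fin r → ZMod p)) z0 := by
    have h2u : IsUnit (2 : ZMod p) := by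
      have : ((2 : ℕ) : ZMod p) ≠ 0 := by
        rw [Ne, ZMod.natCast_eq_zero_iff]
        intro h
        have := Nat.le_of_dvd (by norm_num) h
        omega
      exact isUnit_iff_ne_zero.mpr (by simpa using this)
    obtain ⟨u, hu⟩ := h2u
    have h3 : (3 : ZMod p) ≠ 0 := by
      have : ((3 : ℕ) : ZMod p) ≠ 0 := by
        rw [Ne, ZMod.natCast_eq_zero_iff]
        intro h
        have := Nat.le_of_dvd (by norm_num) h
        omega
      simpa using this
    set g : Perm α := viaEmbeddingHom ι (scalePerm i u) with hg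
    have hgg : g * g ∈ alternatingGroup α := by
      rw [mem_alternatingGroup, map_mul, Int.units_mul_self]
    have hstep : ∀ e : Multiplicative (Fin r → ZMod p),
        g * φ0 e = φ0 (Multiplicative.ofAdd (Function.update e.toAdd i (u * e.toAdd i))) * g := by
      intro e
      show viaEmbeddingHom ι (scalePerm i u) * viaEmbeddingHom ι (shiftPerm e.toAdd) =
        viaEmbeddingHom ι (shiftPerm _) * viaEmbeddingHom ι (scalePerm i u)
      rw [← map_mul, ← map_mul, scale_shift]
      rfl
    have h1 := hconj e _ (g * g) hgg (by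
      rw [mul_assoc, hstep e, ← mul_assoc, hstep, mul_assoc]) he
    have h4 := Subgroup.mul_mem _ h1 (Subgroup.inv_mem _ he)
    have h6 := Subgroup.pow_mem _ h4 ((3 * e.toAdd i)⁻¹ : ZMod p).val
    convert! h6 using 1
    apply Multiplicative.toAdd.injective
    rw [toAdd_pow, toAdd_mul, toAdd_inv, toAdd_ofAdd, toAdd_ofAdd, toAdd_ofAdd]
    ext k
    by_cases hk : k = i
    · subst hk
      simp only [Pi.single_eq_same, Pi.smul_apply, Pi.add_apply, Pi.neg_apply,
        Function.update_self, nsmul_eq_mul, ZMod.natCast_val, ZMod.cast_id', id_eq]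
      rw [hu]
      field_simp
      ring
    · simp [hk, Function.update_of_ne hk]
  refine ⟨z0, fun j => ?_⟩
  have hci := cyc_pcyc hp.two_le ι i
  have hcj := cyc_pcyc hp.two_le ι j
  have hc : IsConj (cyc ι i) (cyc ι j) := hci.cyc.isConj hcj.cyc (hci.card.trans hcj.card.symm)
  have hc' : IsConj (⟨cyc ι i, hci.mem_alt hodd⟩ : alternatingGroup α)
      ⟨cyc ι j, hcj.mem_alt hodd⟩ :=
    alternatingGroup.isConj_of hc (by rw [hci.card]; exact hcard)
  obtain ⟨g, hg⟩ := isConj_iff.mp hc'
  have h1 : g * φ0 (Multiplicative.ofAdd (Pi.single i 1)) =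
      φ0 (Multiplicative.ofAdd (Pi.single j 1)) * g := by
    have h2 := congrArg (fun z : alternatingGroup α => (z : Perm α)) hg
    have h3 : (g : Perm α) * cyc ι i * (g : Perm α)⁻¹ = cyc ι j := h2
    show (g : Perm α) * cyc ι i = cyc ι j * g
    rw [← h3]
    group
  have h2 := hconj _ _ g g.2 h1 hline
  exact mem_St.mpr ⟨hcj.mem_alt hodd, h2⟩

end Pool.Agent.Helper32.Had
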