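import Mathlib
import Pool.Agent.Helper32.HadG1

/-! Two intersecting cycles of prime lengths generate an alternating group. -/

set_option linter.unusedSectionVars false
set_option linter.unusedVariables false

open Equiv Equiv.Perm MulAction

namespace Pool.Agent.Helper32.Had

section

variable {γ : Type*} [Fintype γ] [DecidableEq γ]

theorem isPreprimitive_fixing {G : Subgroup (Perm γ)} {g : Perm γ} (hg : g ∈ G)
    (hc : g.IsCycle) (hp : g.support.card.Prime) :
    IsPreprimitive (fixingSubgroup G (g.support : Set γ)ᶜ)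
      (SubMulAction.ofFixingSubgroup G (g.support : Set γ)ᶜ) := by
  classical
  have := isPretransitive_of_isCycle_mem hc hg
  apply IsPreprimitive.of_prime_card
  convert! hp
  rw [Nat.card_eq_fintype_card, Fintype.card_subtype]
  apply congr_arg
  ext x
  simp [SubMulAction.mem_ofFixingSubgroup_iff]

theorem tri_eq_conj {c : Perm γ} {x b : γ} (hb : c b = b) :
    tri x b (c x) = swap x b * c * (swap x b)⁻¹ * c⁻¹ := by
  have h5 : c * swap x b * c⁻¹ = swap b (c x) := by
    rw [← swap_apply_apply, hb, swap_comm]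
  unfold tri
  rw [← h5, swap_inv]
  group

theorem alt_le_closure {p q : ℕ} (hp : p.Prime) (hq : q.Prime) (hpq : 2 * p ≤ q) {c d : Perm γ}
    (hc : c.IsCycle) (hd : d.IsCycle) (hcp : c.support.card = p) (hdq : d.support.card = q)
    (hcover : ∀ x, x ∈ c.support ∨ x ∈ d.support) {x0 : γ} (hx0 : x0 ∈ c.support)
    (hx0' : x0 ∈ d.support) :
    alternatingGroup γ ≤ Subgroup.closure {c, d} := by
  set G : Subgroup (Perm γ) := Subgroup.closure {c, d} with hG
  have hcG : c ∈ G := Subgroup.subset_closure (by simp)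
  have hdG : d ∈ G := Subgroup.subset_closure (by simp)
  have htrans : IsPretransitive G γ := by
    have key : ∀ x, ∃ g : G, g • x0 = x := by
      intro x
      rcases hcover x with hx | hx
      · obtain ⟨k, hk⟩ := hc.exists_pow_eq (mem_support.mp hx0) (mem_support.mp hx)
        exact ⟨⟨c ^ k, G.pow_mem hcG k⟩, hk⟩
      · obtain ⟨k, hk⟩ := hd.exists_pow_eq (mem_support.mp hx0') (mem_support.mp hx)
        exact ⟨⟨d ^ k, G.pow_mem hdG k⟩, hk⟩
    exact (isPretransitive_iff_base x0).mpr key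
  have hcardγ : Nat.card γ = Fintype.card γ := Nat.card_eq_fintype_card
  have hcard1 : Fintype.card γ < 2 * q := by
    have h1 : (Finset.univ : Finset γ) = c.support ∪ d.support := by
      ext x; simp only [Finset.mem_univ, Finset.mem_union, true_iff]; exact hcover x
    have h2 : (c.support ∩ d.support).Nonempty := ⟨x0, Finset.mem_inter.mpr ⟨hx0, hx0'⟩⟩
    have h3 := Finset.card_union_add_card_inter c.support d.support
    rw [← h1, Finset.card_univ, hcp, hdq] at h3
    have h4 := Finset.card_pos.mpr h2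
    have := hp.pos
    omega
  have hcard2 : q ≤ Fintype.card γ := by
    rw [← hdq]; exact Finset.card_le_univ _
  have hprim : IsPreprimitive G γ := by
    have := isPreprimitive_fixing hdG hd (by rw [hdq]; exact hq)
    let f : SubMulAction.ofFixingSubgroup G ((d.support : Set γ)ᶜ) →ₑ[
      (fixingSubgroup G ((d.support : Set γ)ᶜ)).subtype] γ :=
      { toFun := fun x => x.1
        map_smul' := fun m x => rfl }
    have hrange : Set.range f = (d.support : Set γ) := by
      ext x
      constructor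
      · rintro ⟨⟨y, hy⟩, rfl⟩
        rw [SubMulAction.mem_ofFixingSubgroup_iff] at hy
        simpa using! hy
      · intro hx
        refine ⟨⟨x, ?_⟩, rfl⟩
        rw [SubMulAction.mem_ofFixingSubgroup_iff]
        simpa using! hx
    refine IsPreprimitive.of_card_lt (f := f) ?_
    rw [hrange, Set.ncard_coe_finset, hdq, hcardγ]
    exact hcard1
  -- multiple transitivity
  have hp2 := hp.two_le
  have hcompl : ((c.support : Set γ)ᶜ).ncard = (Fintype.card γ - p - 1) + 1 := by
    rw [Set.ncard_compl, Set.ncard_coe_finset, hcp, hcardγ]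
    omega
  have hmult : IsMultiplyPreprimitive G γ ((Fintype.card γ - p - 1) + 2) := by
    refine hprim.isMultiplyPreprimitive hcompl (by rw [hcardγ]; omega) ?_
    exact isPreprimitive_fixing hcG hc (by rw [hcp]; exact hp)
  have hmt : IsMultiplyPretransitive G γ ((Fintype.card γ - p - 1) + 2) := inferInstance
  have hmtp : IsMultiplyPretransitive G γ p := by
    refine isMultiplyPretransitive_of_le (n := (Fintype.card γ - p - 1) + 2) (by omega) ?_
    rw [hcardγ]; omega
  -- the three cycle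
  obtain ⟨b, hb⟩ : ∃ b, b ∉ c.support := by
    by_contra hcon
    push Not at hcon
    have : c.support = Finset.univ := Finset.eq_univ_iff_forall.mpr hcon
    rw [this, Finset.card_univ] at hcp
    omega
  have hbx : x0 ≠ b := by rintro rfl; exact hb hx0
  have hcb : c b = b := notMem_support.mp hb
  let e0 : Fin p ≃ c.support := (c.support.equivFinOfCardEq hcp).symm
  let e : Fin p ↪ γ := e0.toEmbedding.trans (Function.Embedding.subtype _)
  let e' : Fin p ↪ γ := e.trans (swap x0 b).toEmbedding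
  obtain ⟨g, hg⟩ := hmtp.exists_smul_eq e e'
  have hgs : ∀ y ∈ c.support, (g : Perm γ) y = swap x0 b y := by
    intro y hy
    have h1 : e (e0.symm ⟨y, hy⟩) = y := by
      show ((e0 (e0.symm ⟨y, hy⟩) : c.support) : γ) = y
      simp
    have h2 := congrArg (fun z : Fin p ↪ γ => z (e0.symm ⟨y, hy⟩)) hg
    have h3 : g • e (e0.symm ⟨y, hy⟩) = swap x0 b (e (e0.symm ⟨y, hy⟩)) := h2
    rw [h1] at h3
    exact h3
  have hconj : (g : Perm γ) * c * (g : Perm γ)⁻¹ = swap x0 b * c * (swap x0 b)⁻¹ := by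
    set h : Perm γ := (swap x0 b)⁻¹ * g with hh
    have h1 : Commute h c := by
      have : Perm.Disjoint h c := by
        rw [Perm.disjoint_iff_disjoint_support, Finset.disjoint_right]
        intro y hy
        rw [notMem_support, hh, Perm.mul_apply, hgs y hy]
        simp
      exact this.commute
    have h2 : (g : Perm γ) = swap x0 b * h := by rw [hh]; group
    rw [h2]
    calc swap x0 b * h * c * (swap x0 b * h)⁻¹ = swap x0 b * (h * c) * h⁻¹ * (swap x0 b)⁻¹ := by group
      _ = swap x0 b * (c * h) * h⁻¹ * (swap x0 b)⁻¹ := by rw [h1.eq]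
      _ = _ := by group
  have htri : tri x0 b (c x0) ∈ G := by
    rw [tri_eq_conj hcb, ← hconj]
    exact G.mul_mem (G.mul_mem (G.mul_mem g.2 hcG) (G.inv_mem g.2)) (G.inv_mem hcG)
  have hcx0 : c x0 ∈ c.support := apply_mem_support.mpr hx0
  have h3 : (tri x0 b (c x0)).IsThreeCycle :=
    tri_isThreeCycle hbx (fun h => (mem_support.mp hx0) h.symm) (fun h => hb (h ▸ hcx0))
  exact alternatingGroup_le_of_isPreprimitive_of_isThreeCycle_mem hprim h3 htri

end

variable {α : Type*} [Fintype α] [DecidableEq α]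

/-- Lemma J -/
theorem lemmaJ {p q : ℕ} (hp : p.Prime) (hq : q.Prime) (hpq : 2 * p ≤ q) {K : Subgroup (Perm α)}
    {Ω₁ Ω₂ : Finset α} {c d : Perm α} (hc : PCyc p Ω₁ c) (hd : PCyc q Ω₂ d) (hcK : c ∈ K)
    (hdK : d ∈ K) (hne : (c.support ∩ d.support).Nonempty) : FxK K (c.support ∪ d.support) := by
  obtain ⟨x0, hx0⟩ := hne
  rw [Finset.mem_inter] at hx0
  obtain ⟨Ω, hΩ⟩ : ∃ Ω, Ω = c.support ∪ d.support := ⟨_, rfl⟩
  rw [← hΩ]
  have hΩ' : ∀ x ∈ Ω, x ∈ c.support ∨ x ∈ d.support := by
    intro x hx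
    rw [hΩ, Finset.mem_union] at hx
    exact hx
  have hcΩ : c.support ⊆ Ω := hΩ ▸ Finset.subset_union_left
  have hdΩ : d.support ⊆ Ω := hΩ ▸ Finset.subset_union_right
  have hcr : c ∈ (Perm.ofSubtype (p := (· ∈ Ω))).range := by
    rw [Perm.mem_range_ofSubtype_iff]
    intro x hx
    exact hcΩ (by simpa using hx)
  have hdr : d ∈ (Perm.ofSubtype (p := (· ∈ Ω))).range := by
    rw [Perm.mem_range_ofSubtype_iff]
    intro x hx
    exact hdΩ (by simpa using hx)
  obtain ⟨c', rfl⟩ := hcr
  obtain ⟨d', rfl⟩ := hdr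
  have hcyc : ∀ g : Perm {x // x ∈ Ω}, (Perm.ofSubtype g).IsCycle → g.IsCycle := by
    intro g hg
    rw [← card_cycleType_eq_one] at hg ⊢
    rwa [cycleType_ofSubtype] at hg
  have hcardsupp : ∀ g : Perm {x // x ∈ Ω}, (Perm.ofSubtype g).support.card = g.support.card := by
    intro g
    rw [← sum_cycleType, ← sum_cycleType, cycleType_ofSubtype]
  have hmem : ∀ (g : Perm {x // x ∈ Ω}) (x : {x // x ∈ Ω}),
      (x : α) ∈ (Perm.ofSubtype g).support → x ∈ g.support := by
    intro g x hx
    rw [mem_support] at hx ⊢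
    intro h
    apply hx
    rw [ofSubtype_apply_coe, h]
  have hx0Ω : x0 ∈ Ω := hcΩ hx0.1
  have h1 := alt_le_closure hp hq hpq (hcyc c' hc.cyc) (hcyc d' hd.cyc)
    (by rw [← hcardsupp]; exact hc.card) (by rw [← hcardsupp]; exact hd.card)
    (by
      intro x
      rcases hΩ' x x.2 with hx | hx
      · exact Or.inl (hmem _ _ hx)
      · exact Or.inr (hmem _ _ hx)) (x0 := ⟨x0, hx0Ω⟩) (hmem _ _ hx0.1) (hmem _ _ hx0.2)
  have h2 : Subgroup.closure {c', d'} ≤ K.comap (Perm.ofSubtype (p := (· ∈ Ω))) := by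
    rw [Subgroup.closure_le]
    rintro g hg
    simp only [Set.mem_insert_iff, Set.mem_singleton_iff] at hg
    rcases hg with rfl | rfl
    · exact hcK
    · exact hdK
  apply fxK_of_tri
  intro a ha b hb e he hab hae hbe
  have h3 : tri (⟨a, ha⟩ : {x // x ∈ Ω}) ⟨b, hb⟩ ⟨e, he⟩ ∈ alternatingGroup {x // x ∈ Ω} :=
    tri_mem_alt (by simpa using hab) (by simpa using hae) (by simpa using hbe)
  have h4 := h2 (h1 h3)
  have h5 : Perm.ofSubtype (tri (⟨a, ha⟩ : {x // x ∈ Ω}) ⟨b, hb⟩ ⟨e, he⟩) = tri a b e := by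
    unfold tri
    rw [map_mul, ofSubtype_swap_eq, ofSubtype_swap_eq]
  have h6 : Perm.ofSubtype (tri (⟨a, ha⟩ : {x // x ∈ Ω}) ⟨b, hb⟩ ⟨e, he⟩) ∈ K := h4
  rwa [h5] at h6

end Pool.Agent.Helper32.Had
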