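import Mathlib
import Pool.Agent.Helper32.HadE3
import Pool.Agent.Helper32.HadJ
import Pool.Agent.Helper32.HadFix

/-! Edge-transitive graphs with an action of the alternating group without fixed vertices. -/

set_option linter.unusedSectionVars false
set_option linter.unusedVariables false

open Equiv Equiv.Perm

namespace Pool.Agent.Helper32.Had

variable {α : Type*} [Fintype α] [DecidableEq α]
variable {V : Type*} [MulAction (alternatingGroup α) V]

theorem FxK.smul {u : V} {Ω : Finset α} (h : FxK (St α u) Ω) (g : alternatingGroup α) :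
    FxK (St α (g • u)) (Ω.map (g : Perm α).toEmbedding) := by
  intro k hk hks
  rw [mem_St_smul]
  apply h
  · exact Subgroup.mul_mem _ (Subgroup.mul_mem _ (Subgroup.inv_mem _ g.2) hk) g.2
  · intro x hx
    rw [mem_support_conj'] at hx
    have := hks hx
    rw [Finset.mem_map] at this
    obtain ⟨y, hy, hxy⟩ := this
    have : y = x := (g : Perm α).injective hxy
    rwa [← this]

theorem FxK.of_smul {u : V} {Ω : Finset α} {g : alternatingGroup α}
    (h : FxK (St α (g • u)) (Ω.map (g : Perm α).toEmbedding)) : FxK (St α u) Ω := by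
  have h1 := h.smul g⁻¹
  rw [inv_smul_smul, Finset.map_map] at h1
  convert! h1 using 1
  ext x
  simp

theorem Cr.smul {β : ℕ} {x x' : V} (h : Cr α β x x') (g : alternatingGroup α) :
    Cr α β (g • x) (g • x') := by
  obtain ⟨Ω, h1, h2, h3⟩ := h
  exact ⟨Ω.map (g : Perm α).toEmbedding, by rwa [Finset.card_map], h2.smul g,
    fun h => h3 h.of_smul⟩

open Classical in
/-- the sets with at least `β` elements all of whose even permutations fix `u` -/
noncomputable def Lv (α : Type*) [Fintype α] [DecidableEq α] {V : Type*}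
    [MulAction (alternatingGroup α) V] (β : ℕ) (u : V) : Finset (Finset α) :=
  Finset.univ.filter (fun Ω => β ≤ Ω.card ∧ FxK (St α u) Ω)

theorem mem_Lv {β : ℕ} {u : V} {Ω : Finset α} :
    Ω ∈ Lv α β u ↔ β ≤ Ω.card ∧ FxK (St α u) Ω := by
  simp [Lv]

theorem Lv_card_le (β : ℕ) (u : V) (g : alternatingGroup α) :
    (Lv α β u).card ≤ (Lv α β (g • u)).card := by
  apply Finset.card_le_card_of_injOn (fun Ω => Ω.map (g : Perm α).toEmbedding)
  · intro Ω hΩ
    have h1 := mem_Lv.mp hΩ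
    exact mem_Lv.mpr ⟨by rw [Finset.card_map]; exact h1.1, h1.2.smul g⟩
  · intro Ω _ Ω' _ h
    exact Finset.map_injective _ h

theorem cross_both {β : ℕ} {u : V} {g : alternatingGroup α} (h : Lv α β u ≠ Lv α β (g • u)) :
    Cr α β u (g • u) ∧ Cr α β (g • u) u := by
  have hcard : (Lv α β u).card = (Lv α β (g • u)).card := by
    apply le_antisymm (Lv_card_le β u g)
    have := Lv_card_le β (g • u) g⁻¹
    rwa [inv_smul_smul] at this
  have key : ∀ a b : V, (Lv α β a).card = (Lv α β b).card → Lv α β a ≠ Lv α β b →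
      Cr α β a b := by
    intro a b hab hne
    have h1 : ¬ Lv α β a ⊆ Lv α β b := fun hs => hne (Finset.eq_of_subset_of_card_le hs hab.ge)
    rw [Finset.not_subset] at h1
    obtain ⟨Ω, hΩ, hΩ'⟩ := h1
    rw [mem_Lv] at hΩ hΩ'
    exact ⟨Ω, hΩ.1, hΩ.2, fun h => hΩ' ⟨hΩ.1, h⟩⟩
  exact ⟨key _ _ hcard h, key _ _ hcard.symm h.symm⟩

theorem exists_ne_Lv (h5 : 5 ≤ Fintype.card α) {β : ℕ} (hβ : 3 ≤ β) {u : V}
    (hu : (Lv α β u).Nonempty) (hfix : ∃ g : alternatingGroup α, g • u ≠ u) :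
    ∃ g : alternatingGroup α, Lv α β u ≠ Lv α β (g • u) := by
  by_contra hcon
  push Not at hcon
  obtain ⟨Ω, hΩ⟩ := hu
  rw [mem_Lv] at hΩ
  obtain ⟨g, hg⟩ := hfix
  apply hg
  have hall : FxK (St α u) (Finset.univ : Finset α) := by
    apply fxK_of_tri
    intro a _ b _ c _ hab hac hbc
    obtain ⟨T, hT, hTc⟩ := Finset.exists_subset_card_eq (hβ.trans hΩ.1)
    obtain ⟨x, y, z, hxy, hxz, hyz, rfl⟩ := Finset.card_eq_three.mp hTc
    obtain ⟨k, hk, -, hkx, hky, hkz⟩ := exists_even_map3 (X := Finset.univ) (by simpa using h5)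
      (Finset.mem_univ x) (Finset.mem_univ y) (Finset.mem_univ z) (Finset.mem_univ a)
      (Finset.mem_univ b) (Finset.mem_univ c) hxy hxz hyz hab hac hbc
    have h1 : Ω.map (k : Perm α).toEmbedding ∈ Lv α β ((⟨k, hk⟩ : alternatingGroup α) • u) :=
      mem_Lv.mpr ⟨by rw [Finset.card_map]; exact hΩ.1, hΩ.2.smul ⟨k, hk⟩⟩
    rw [← hcon] at h1
    refine (mem_Lv.mp h1).2.tri_mem ?_ ?_ ?_ hab hac hbc
    · exact Finset.mem_map.mpr ⟨x, hT (by simp), hkx⟩
    · exact Finset.mem_map.mpr ⟨y, hT (by simp), hky⟩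
    · exact Finset.mem_map.mpr ⟨z, hT (by simp), hkz⟩
  exact coe_mem_St.mp (hall g g.2 (Finset.subset_univ _))

/-- two-step boundary in a bipartite situation -/
theorem exists_two_step {Γ : SimpleGraph V} (hconn : Γ.Preconnected) {O : Set V}
    (hO : ∀ a b, Γ.Adj a b → (a ∈ O ↔ b ∉ O)) {β : Type*} (F : V → β) {w w' : V} (hw : w ∈ O)
    (hw' : w' ∈ O) (hne : F w ≠ F w') :
    ∃ x ∈ O, ∃ x' ∈ O, ∃ v, v ∉ O ∧ Γ.Adj x v ∧ Γ.Adj v x' ∧ F x ≠ F x' := by
  obtain ⟨a, ha, b, hb, hab⟩ := exists_boundary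
    (U := {z | (z ∈ O ∧ F z = F w) ∨ (z ∉ O ∧ ∃ z' ∈ O, Γ.Adj z' z ∧ F z' = F w)}) hconn
    (a := w) (b := w') (Or.inl ⟨hw, rfl⟩) (by
      rintro (⟨_, h⟩ | ⟨h, _⟩)
      · exact hne h.symm
      · exact h hw')
  rcases ha with ⟨haO, haF⟩ | ⟨haO, z', hz'O, hz'a, hz'F⟩
  · exfalso
    apply hb
    exact Or.inr ⟨(hO a b hab).mp haO, a, haO, hab, haF⟩
  · have hbO : b ∈ O := by
      by_contra hbO
      exact haO ((hO a b hab).mpr hbO)
    refine ⟨z', hz'O, b, hbO, a, haO, hz'a, hab, ?_⟩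
    intro h
    apply hb
    exact Or.inl ⟨hbO, h.symm.trans hz'F⟩

variable {Γ : SimpleGraph V} {p : ℕ}

theorem core (hp : p.Prime) (hodd : Odd p) (h5 : 5 ≤ Fintype.card α)
    (hΓ : ∀ (g : alternatingGroup α) u v, Γ.Adj u v → Γ.Adj (g • u) (g • v))
    (hconn : Γ.Connected) (hfix : ∀ v : V, ∃ g : alternatingGroup α, g • v ≠ v)
    (het : ∀ a b c d, Γ.Adj a b → Γ.Adj c d → ∃ g : alternatingGroup α,
      (g • a = c ∧ g • b = d) ∨ (g • a = d ∧ g • b = c))
    (hno : ¬ HasBip Γ p) {β : ℕ} (hβ : 4 * p + 2 ≤ β) {w : V} {Ω : Finset α} (hΩ : β ≤ Ω.card)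
    (hw : FxK (St α w) Ω) : False := by
  have hp2 := hp.two_le
  have hLw : (Lv α β w).Nonempty := ⟨Ω, mem_Lv.mpr ⟨hΩ, hw⟩⟩
  obtain ⟨g0, hg0⟩ := exists_ne_Lv h5 (by omega) hLw (hfix w)
  -- same orbit, different `Lv` ⇒ crossing both ways
  have hcross : ∀ (β' : ℕ) (x x' : V), x' ∈ MulAction.orbit (alternatingGroup α) x →
      Lv α β' x ≠ Lv α β' x' → Cr α β' x x' ∧ Cr α β' x' x := by
    rintro β' x x' ⟨g, rfl⟩ h
    exact cross_both h
  have horb : ∀ (x y z : V), y ∈ MulAction.orbit (alternatingGroup α) x →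
      z ∈ MulAction.orbit (alternatingGroup α) x → z ∈ MulAction.orbit (alternatingGroup α) y := by
    intro x y z hy hz
    rw [← MulAction.orbit_eq_iff] at hy hz ⊢
    rw [hz, hy]
  by_cases hI : ∃ a b, Γ.Adj a b ∧ a ∈ MulAction.orbit (alternatingGroup α) w ∧
      b ∈ MulAction.orbit (alternatingGroup α) w
  · -- one orbit
    obtain ⟨a, b, hab, ha, hb⟩ := hI
    obtain ⟨x, hx, x', hx', hxx'⟩ := exists_boundary
      (U := {z | Lv α β w = Lv α β z}) hconn.preconnected (a := w) (b := g0 • w) rfl hg0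
    have hx0 : Lv α β w = Lv α β x := hx
    have hmem : x ∈ MulAction.orbit (alternatingGroup α) w ∧
        x' ∈ MulAction.orbit (alternatingGroup α) w := by
      obtain ⟨g, hg | hg⟩ := het a b x x' hab hxx'
      · rw [← hg.1, ← hg.2]
        exact ⟨MulAction.mem_orbit_of_mem_orbit g ha, MulAction.mem_orbit_of_mem_orbit g hb⟩
      · rw [← hg.1, ← hg.2]
        exact ⟨MulAction.mem_orbit_of_mem_orbit g hb, MulAction.mem_orbit_of_mem_orbit g ha⟩
    have hne : Lv α β x ≠ Lv α β x' := by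
      intro h
      apply hx'
      exact hx0.trans h
    obtain ⟨h1, h2⟩ := hcross β x x' (horb w x x' hmem.1 hmem.2) hne
    exact lemmaE3 hp hodd hΓ hno (by omega) hxx' h1 h2
  · push Not at hI
    set O : Set V := MulAction.orbit (alternatingGroup α) w with hOdef
    -- an edge at `w`
    obtain ⟨a0, ha0, b0, hb0, hab0⟩ := exists_boundary (U := ({w} : Set V)) hconn.preconnected
      (a := w) (b := g0 • w) rfl (by
        intro h
        apply hg0
        rw [Set.mem_singleton_iff] at h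
        rw [h])
    rw [Set.mem_singleton_iff] at ha0
    subst ha0
    have hinv : ∀ (u : V) (g : alternatingGroup α) (z : V),
        g • z ∈ MulAction.orbit (alternatingGroup α) u ↔
          z ∈ MulAction.orbit (alternatingGroup α) u := by
      intro u g z
      constructor
      · intro h
        have := MulAction.mem_orbit_of_mem_orbit g⁻¹ h
        rwa [inv_smul_smul] at this
      · intro h
        exact MulAction.mem_orbit_of_mem_orbit g h
    have hwO : a0 ∈ O := MulAction.mem_orbit_self _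
    have hb0O : b0 ∉ O := hI a0 b0 hab0 hwO
    have hO : ∀ a b, Γ.Adj a b → (a ∈ O ↔ b ∉ O) := by
      intro a b hab
      obtain ⟨g, hg | hg⟩ := het a0 b0 a b hab0 hab
      · rw [← hg.1, ← hg.2, hOdef, hinv, hinv, ← hOdef]
        exact iff_of_true hwO hb0O
      · rw [← hg.1, ← hg.2, hOdef, hinv, hinv, ← hOdef]
        exact iff_of_false hb0O (by simpa using hwO)
    obtain ⟨x, hx, x', hx', v, hv, hxv, hvx', hne⟩ := exists_two_step hconn.preconnected hO
      (Lv α β) (w := a0) (w' := g0 • a0) hwO ((hinv a0 g0 a0).mpr hwO) hg0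
    obtain ⟨h1, h2⟩ := hcross β x x' (horb a0 x x' hx hx') hne
    have hvx : Cr α (β - p) v x := lemmaSS hp hodd hΓ hno (by omega) hxv hvx' h1 h2
    -- the second orbit
    set O2 : Set V := MulAction.orbit (alternatingGroup α) v with hO2def
    have hvO2 : v ∈ O2 := MulAction.mem_orbit_self _
    have hxO2 : x ∉ O2 := by
      intro h
      rw [hO2def, MulAction.mem_orbit_symm] at h
      obtain ⟨g, hg⟩ := h
      apply hv
      rw [← hg]
      exact (hinv a0 g x).mpr hx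
    have hO2 : ∀ a b, Γ.Adj a b → (a ∈ O2 ↔ b ∉ O2) := by
      intro a b hab
      obtain ⟨g, hg | hg⟩ := het v x a b hxv.symm hab
      · rw [← hg.1, ← hg.2, hO2def, hinv, hinv, ← hO2def]
        exact iff_of_true hvO2 hxO2
      · rw [← hg.1, ← hg.2, hO2def, hinv, hinv, ← hO2def]
        exact iff_of_false hxO2 (by simpa using hvO2)
    have hLv : (Lv α (β - p) v).Nonempty := by
      obtain ⟨Ω', h1, h2, -⟩ := hvx
      exact ⟨Ω', mem_Lv.mpr ⟨h1, h2⟩⟩
    obtain ⟨g1, hg1⟩ := exists_ne_Lv h5 (by omega) hLv (hfix v)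
    obtain ⟨u, hu, u', hu', y, hy, huy, hyu', hne'⟩ := exists_two_step hconn.preconnected hO2
      (Lv α (β - p)) (w := v) (w' := g1 • v) hvO2 ((hinv v g1 v).mpr hvO2) hg1
    obtain ⟨h3, h4⟩ := hcross (β - p) u u' (horb v u u' hu hu') hne'
    have hyu : Cr α (β - p - p) y u := lemmaSS hp hodd hΓ hno (by omega) huy hyu' h3 h4
    have hxv' : Cr α (β - p - p) x v := by
      obtain ⟨g, hg | hg⟩ := het y u x v huy.symm hxv
      · have := hyu.smul g
        rwa [hg.1, hg.2] at this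
      · exfalso
        apply hxO2
        rw [← hg.2]
        exact (hinv v g u).mpr hu
    exact lemmaE3 hp hodd hΓ hno (by omega) hxv.symm (hvx.mono (by omega)) hxv'

/-- Every vertex of an edge-transitive graph with no isolated vertex lies in the orbit of an end
of a given edge. -/
theorem two_orbits (hconn : Γ.Connected) (hfix : ∀ v : V, ∃ g : alternatingGroup α, g • v ≠ v)
    (het : ∀ a b c d, Γ.Adj a b → Γ.Adj c d → ∃ g : alternatingGroup α,
      (g • a = c ∧ g • b = d) ∨ (g • a = d ∧ g • b = c)) :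
    ∃ a b : V, ∀ z, z ∈ MulAction.orbit (alternatingGroup α) a ∨
      z ∈ MulAction.orbit (alternatingGroup α) b := by
  have hnbr : ∀ z : V, ∃ z', Γ.Adj z z' := by
    intro z
    obtain ⟨g, hg⟩ := hfix z
    obtain ⟨a, ha, b, hb, hab⟩ := exists_boundary (U := ({z} : Set V)) hconn.preconnected
      (a := z) (b := g • z) rfl hg
    rw [Set.mem_singleton_iff] at ha
    subst ha
    exact ⟨b, hab⟩
  obtain ⟨a⟩ := hconn.nonempty
  obtain ⟨b, hab⟩ := hnbr a
  refine ⟨a, b, fun z => ?_⟩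
  obtain ⟨z', hz'⟩ := hnbr z
  obtain ⟨g, hg | hg⟩ := het a b z z' hab hz'
  · left; exact ⟨g, hg.1⟩
  · right; exact ⟨g, hg.2⟩

/-- if two vertices `z`, `z'` in one orbit are fixed by all `p`-cycles `cyc ι j`, respectively all
`q`-cycles `cyc κ j`, with `2 p ≤ q`, then some vertex has a large set. -/
theorem large_of_two {p q r r' : ℕ} (hp : p.Prime) (hq : q.Prime) (hpq : 2 * p ≤ q)
    (ι : Fin r × ZMod p ↪ α) (κ : Fin r' × ZMod q ↪ α) (hr' : 0 < r')
    (hr : Fintype.card α < r * p + p) {z z' : V} (hz : ∀ j, cyc ι j ∈ St α z)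
    (hz' : ∀ j, cyc κ j ∈ St α z') (horb : z' ∈ MulAction.orbit (alternatingGroup α) z) :
    ∃ Ω : Finset α, q ≤ Ω.card ∧ FxK (St α z) Ω := by
  obtain ⟨g, rfl⟩ := horb
  set d : Perm α := (g : Perm α)⁻¹ * cyc κ ⟨0, hr'⟩ * g with hd
  have hdz : d ∈ St α z := by
    have := hz' ⟨0, hr'⟩
    rwa [mem_St_smul] at this
  have hdc : PCyc q Finset.univ d := by
    have := (cyc_pcyc hq.two_le κ ⟨0, hr'⟩).conj (Ω' := Finset.univ) (g : Perm α)⁻¹
      (fun _ _ => Finset.mem_univ _)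
    rwa [inv_inv] at this
  obtain ⟨j, hj⟩ : ∃ j, ((cyc ι j).support ∩ d.support).Nonempty := by
    by_contra hcon
    push Not at hcon
    haveI : NeZero p := ⟨hp.ne_zero⟩
    have h1 : _root_.Disjoint d.support (Finset.univ.map ι) := by
      rw [Finset.disjoint_left]
      intro x hx hx'
      rw [Finset.mem_map] at hx'
      obtain ⟨⟨j, y⟩, -, rfl⟩ := hx'
      have h2 : ι (j, y) ∈ (cyc ι j).support ∩ d.support :=
        Finset.mem_inter.mpr ⟨(mem_support_cyc hp.two_le ι j _).mpr ⟨y, rfl⟩, hx⟩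
      rw [hcon j] at h2
      exact absurd h2 (Finset.notMem_empty _)
    have h2 := Finset.card_union_of_disjoint h1
    have h3 : (d.support ∪ Finset.univ.map ι).card ≤ Fintype.card α := Finset.card_le_univ _
    rw [h2, hdc.card, Finset.card_map, Finset.card_univ, Fintype.card_prod, Fintype.card_fin,
      ZMod.card] at h3
    omega
  have hJ := lemmaJ hp hq hpq (cyc_pcyc hp.two_le ι j) hdc (hz j) hdz hj
  refine ⟨_, ?_, hJ⟩
  rw [← hdc.card]
  exact Finset.card_le_card Finset.subset_union_right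

theorem exists_large [Finite V] {p₁ p₂ p₃ : ℕ} (hp₁ : p₁.Prime) (hp₂ : p₂.Prime) (hp₃ : p₃.Prime)
    (h5 : 5 ≤ p₁) (h12 : 2 * p₁ ≤ p₂) (h23 : 2 * p₂ ≤ p₃) (h3 : 3 * p₃ ≤ Fintype.card α)
    (hΓ : ∀ (g : alternatingGroup α) u v, Γ.Adj u v → Γ.Adj (g • u) (g • v))
    (hconn : Γ.Connected) (hfix : ∀ v : V, ∃ g : alternatingGroup α, g • v ≠ v)
    (het : ∀ a b c d, Γ.Adj a b → Γ.Adj c d → ∃ g : alternatingGroup α,
      (g • a = c ∧ g • b = d) ∨ (g • a = d ∧ g • b = c))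
    (hno : ¬ HasBip Γ p₁) : ∃ (w : V) (Ω : Finset α), p₂ ≤ Ω.card ∧ FxK (St α w) Ω := by
  have hstep : ∀ q : ℕ, q.Prime → p₁ ≤ q → 3 * q ≤ Fintype.card α →
      ∃ (r : ℕ) (ι : Fin r × ZMod q ↪ α) (z : V), 0 < r ∧ Fintype.card α < r * q + q ∧
        ∀ j, cyc ι j ∈ St α z := by
    intro q hq hpq hq3
    haveI : NeZero q := ⟨hq.ne_zero⟩
    have hr : 3 ≤ Fintype.card α / q := (Nat.le_div_iff_mul_le hq.pos).mpr hq3
    have hle : Fintype.card α / q * q ≤ Fintype.card α := Nat.div_mul_le_self _ _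
    obtain ⟨ι⟩ : Nonempty (Fin (Fintype.card α / q) × ZMod q ↪ α) := by
      apply Function.Embedding.nonempty_of_card_le
      rw [Fintype.card_prod, Fintype.card_fin, ZMod.card]
      exact hle
    obtain ⟨z, hz⟩ := exists_fixed hq (by omega) hr ι (by omega) hΓ hconn
      (fun h => hno (h.mono hpq))
    refine ⟨_, ι, z, by omega, ?_, hz⟩
    have := Nat.lt_div_mul_add (a := Fintype.card α) hq.pos
    exact this
  obtain ⟨r₁, ι₁, z₁, hr₁, hc₁, hz₁⟩ := hstep p₁ hp₁ le_rfl (by omega)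
  obtain ⟨r₂, ι₂, z₂, hr₂, hc₂, hz₂⟩ := hstep p₂ hp₂ (by omega) (by omega)
  obtain ⟨r₃, ι₃, z₃, hr₃, hc₃, hz₃⟩ := hstep p₃ hp₃ (by omega) (by omega)
  obtain ⟨a, b, hab⟩ := two_orbits hconn hfix het
  have horb : ∀ (x y z : V), y ∈ MulAction.orbit (alternatingGroup α) x →
      z ∈ MulAction.orbit (alternatingGroup α) x → z ∈ MulAction.orbit (alternatingGroup α) y := by
    intro x y z hy hz
    rw [← MulAction.orbit_eq_iff] at hy hz ⊢
    rw [hz, hy]
  have h12' : ∀ x, z₁ ∈ MulAction.orbit (alternatingGroup α) x →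
      z₂ ∈ MulAction.orbit (alternatingGroup α) x →
      ∃ (w : V) (Ω : Finset α), p₂ ≤ Ω.card ∧ FxK (St α w) Ω := by
    intro x h1 h2
    obtain ⟨Ω, h, h'⟩ := large_of_two hp₁ hp₂ h12 ι₁ ι₂ hr₂ hc₁ hz₁ hz₂ (horb x _ _ h1 h2)
    exact ⟨z₁, Ω, h, h'⟩
  have h13' : ∀ x, z₁ ∈ MulAction.orbit (alternatingGroup α) x →
      z₃ ∈ MulAction.orbit (alternatingGroup α) x →
      ∃ (w : V) (Ω : Finset α), p₂ ≤ Ω.card ∧ FxK (St α w) Ω := by
    intro x h1 h2
    obtain ⟨Ω, h, h'⟩ := large_of_two hp₁ hp₃ (by omega) ι₁ ι₃ hr₃ hc₁ hz₁ hz₃ (horb x _ _ h1 h2)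
    exact ⟨z₁, Ω, by omega, h'⟩
  have h23' : ∀ x, z₂ ∈ MulAction.orbit (alternatingGroup α) x →
      z₃ ∈ MulAction.orbit (alternatingGroup α) x →
      ∃ (w : V) (Ω : Finset α), p₂ ≤ Ω.card ∧ FxK (St α w) Ω := by
    intro x h1 h2
    obtain ⟨Ω, h, h'⟩ := large_of_two hp₂ hp₃ h23 ι₂ ι₃ hr₃ hc₂ hz₂ hz₃ (horb x _ _ h1 h2)
    exact ⟨z₂, Ω, by omega, h'⟩
  rcases hab z₁ with h1 | h1
  · rcases hab z₂ with h2 | h2
    · exact h12' a h1 h2
    · rcases hab z₃ with h3 | h3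
      · exact h13' a h1 h3
      · exact h23' b h2 h3
  · rcases hab z₂ with h2 | h2
    · rcases hab z₃ with h3 | h3
      · exact h23' a h2 h3
      · exact h13' b h1 h3
    · exact h12' b h1 h2

/-- Theorem B' -/
theorem thmB' [Finite V] {n : ℕ} (hn : Fintype.card α = n) (h800 : 800 ≤ n)
    (hΓ : ∀ (g : alternatingGroup α) u v, Γ.Adj u v → Γ.Adj (g • u) (g • v))
    (hconn : Γ.Connected) (hfix : ∀ v : V, ∃ g : alternatingGroup α, g • v ≠ v)
    (het : ∀ a b c d, Γ.Adj a b → Γ.Adj c d → ∃ g : alternatingGroup α,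
      (g • a = c ∧ g • b = d) ∨ (g • a = d ∧ g • b = c)) :
    HasBip Γ (n / 200 + 1) := by
  obtain ⟨p₁, hp₁, h1, h1'⟩ := Nat.exists_prime_lt_and_le_two_mul (n / 200) (by omega)
  obtain ⟨p₂, hp₂, h2, h2'⟩ := Nat.exists_prime_lt_and_le_two_mul (4 * p₁ + 1) (by omega)
  obtain ⟨p₃, hp₃, h3, h3'⟩ := Nat.exists_prime_lt_and_le_two_mul (2 * p₂) (by omega)
  have h5 : 5 ≤ p₁ := by omega
  have hodd : Odd p₁ := hp₁.odd_of_ne_two (by omega)
  by_contra hno'
  have hno : ¬ HasBip Γ p₁ := fun h => hno' (h.mono (by omega))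
  obtain ⟨w, Ω, hΩ, hw⟩ := exists_large hp₁ hp₂ hp₃ h5 (by omega) (by omega)
    (by rw [hn]; omega) hΓ hconn hfix het hno
  exact core hp₁ hodd (by rw [hn]; omega) hΓ hconn hfix het hno (β := p₂) (by omega) hΩ hw

end Pool.Agent.Helper32.Had
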