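import Mathlib
import Pool.Agent.Helper32.HadCore
import Pool.Agent.Helper32.HadAut
import Pool.Agent.Helper24.MinHadwiger.Upper

/-! The order of magnitude of `m(A_n)`. -/

namespace Pool.Agent.Helper32.HadFinal

open Asymptotics Filter
open Pool.Agent.Helper32.Had (HasBip reduce_edge_transitive thmB' hasBip_of_aut)

theorem thmB {n : ℕ} (h800 : 800 ≤ n) (V : Type) [Finite V]
    [MulAction (alternatingGroup (Fin n)) V] (Γ : SimpleGraph V)
    (hΓ : ∀ (g : alternatingGroup (Fin n)) u v, Γ.Adj u v → Γ.Adj (g • u) (g • v))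
    (hconn : Γ.Connected) (hfix : ∀ v : V, ∃ g : alternatingGroup (Fin n), g • v ≠ v) :
    HasBip Γ (n / 200 + 1) :=
  reduce_edge_transitive (fun V _ _ Γ hΓ hconn hfix het =>
    thmB' (by simp) h800 hΓ hconn hfix het) V Γ hΓ hconn hfix

theorem minor_of_aut {n : ℕ} (h800 : 800 ≤ n) {N : ℕ} (X : SimpleGraph (Fin N))
    (e : (X ≃g X) ≃* alternatingGroup (Fin n)) :
    Pool.Helper24.MinHadwiger.HasCliqueMinor X (n / 200 + 1) :=
  (hasBip_of_aut (by omega) (fun V _ _ Γ hΓ hconn hfix => thmB h800 V Γ hΓ hconn hfix)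
    X e).hasCliqueMinor

open Pool.Helper24.MinHadwiger

theorem four_le_card_alternating {n : ℕ} (hn : 4 ≤ n) :
    4 ≤ Nat.card (alternatingGroup (Fin n)) := by
  have h1 : Nontrivial (Fin n) := Fin.nontrivial_iff_two_le.2 (by omega)
  have h2 := two_mul_nat_card_alternatingGroup (α := Fin n)
  rw [Nat.card_perm, Nat.card_eq_fintype_card (α := Fin n), Fintype.card_fin] at h2
  have h3 : Nat.factorial 4 ≤ Nat.factorial n := Nat.factorial_le hn
  have h4 : Nat.factorial 4 = 24 := rfl
  omega

theorem upper {n : ℕ} (hn : 4 ≤ n) : minHadwiger (alternatingGroup (Fin n)) ≤ n + 2 := by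
  have := (minHadwiger_le_card_add_two (alternatingGroup (Fin n)) (Fin n)
    (four_le_card_alternating hn)).2
  simpa using this

theorem lower {n : ℕ} (h800 : 800 ≤ n) : n < 200 * minHadwiger (alternatingGroup (Fin n)) := by
  have h1 : n / 200 + 1 ≤ minHadwiger (alternatingGroup (Fin n)) := by
    unfold minHadwiger
    apply le_csInf
    · obtain ⟨N, X, hX⟩ := (minHadwiger_le_card_add_two (alternatingGroup (Fin n)) (Fin n)
        (four_le_card_alternating (by omega))).1
      exact ⟨_, N, X, hX, rfl⟩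
    · rintro k ⟨N, X, ⟨e⟩, rfl⟩
      exact le_hadwigerNumber (minor_of_aut h800 X e)
  have := Nat.lt_div_mul_add (a := n) (b := 200) (by norm_num)
  omega

theorem theta : (fun n : ℕ => (minHadwiger (alternatingGroup (Fin n)) : ℝ)) =Θ[atTop]
    (fun n : ℕ => (n : ℝ)) := by
  constructor
  · apply IsBigO.of_bound 2
    filter_upwards [eventually_ge_atTop 4] with n hn
    have h1 : ((minHadwiger (alternatingGroup (Fin n)) : ℕ) : ℝ) ≤ (n : ℝ) + 2 := by
      exact_mod_cast upper hn
    have h2 : (4 : ℝ) ≤ n := by exact_mod_cast hn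
    rw [Real.norm_natCast, Real.norm_natCast]
    linarith
  · apply IsBigO.of_bound 200
    filter_upwards [eventually_ge_atTop 800] with n hn
    have h1 : (n : ℝ) < 200 * ((minHadwiger (alternatingGroup (Fin n)) : ℕ) : ℝ) := by
      exact_mod_cast lower hn
    rw [Real.norm_natCast, Real.norm_natCast]
    exact h1.le

theorem log_isLittleO : (fun n : ℕ => Real.log (minHadwiger (alternatingGroup (Fin n)))) =o[atTop]
      (fun n : ℕ => (n : ℝ) * Real.log n) := by
  rw [isLittleO_iff]
  intro c hc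
  have hev : ∀ᶠ n : ℕ in atTop, 2 / c ≤ (n : ℝ) := by
    exact tendsto_natCast_atTop_atTop.eventually_ge_atTop (2 / c)
  filter_upwards [hev, eventually_ge_atTop 4] with n hn hn4
  have hn4' : (4 : ℝ) ≤ n := by exact_mod_cast hn4
  have hlogn : 0 ≤ Real.log n := Real.log_nonneg (by linarith)
  rw [Real.norm_eq_abs, Real.norm_eq_abs, abs_of_nonneg (by positivity : (0 : ℝ) ≤ n * Real.log n)]
  rw [abs_of_nonneg (Real.log_natCast_nonneg _)]
  have h2 : Real.log (minHadwiger (alternatingGroup (Fin n))) ≤ 2 * Real.log n := by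
    rcases Nat.eq_zero_or_pos (minHadwiger (alternatingGroup (Fin n))) with h0 | h0
    · rw [h0]
      simp only [Nat.cast_zero, Real.log_zero]
      positivity
    · have h3 : ((minHadwiger (alternatingGroup (Fin n)) : ℕ) : ℝ) ≤ (n : ℝ) ^ 2 := by
        have h4 := upper hn4
        have h5 : minHadwiger (alternatingGroup (Fin n)) ≤ n ^ 2 := by nlinarith
        exact_mod_cast h5
      have h6 := Real.log_le_log (by exact_mod_cast h0) h3
      rw [Real.log_pow] at h6
      exact_mod_cast h6
  have h7 : 2 ≤ c * n := by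
    rw [div_le_iff₀ hc] at hn
    linarith
  calc Real.log (minHadwiger (alternatingGroup (Fin n))) ≤ 2 * Real.log n := h2
    _ ≤ (c * n) * Real.log n := by gcongr
    _ = c * (n * Real.log n) := by ring

end Pool.Agent.Helper32.HadFinal
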