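import Mathlib

/-! Definitions for the mesh pattern problem MP_f17a8d_co. -/

namespace Pool.Agent.Helper32.Mesh

/-- The increasing sequence `0, f 0 + 1, ..., f (k-1) + 1, n + 1` (indexed by `0, ..., k+1`) of
grid lines, in one-based coordinates, given by the zero-based coordinates `f 0, ..., f (k-1)`. -/
def grid {k : ℕ} (n : ℕ) (f : Fin k → Fin n) (t : ℕ) : ℕ :=
  if t = 0 then 0 else if h : t - 1 < k then (f ⟨t - 1, h⟩ : ℕ) + 1 else n + 1

/-- The permutation `π` of `{1, ..., n}` (here `Fin n`, zero-based) contains the mesh pattern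
`(σ, R)`: there are positions `i 0 < ... < i (k-1)` at which `π` is order-isomorphic to `σ`, and
for every shaded box `(a, b)` in `R` no entry of `π` lies strictly between the grid lines `a` and
`a + 1` horizontally and strictly between the grid lines `b` and `b + 1` vertically. -/
def Contains {n k : ℕ} (π : Equiv.Perm (Fin n)) (σ : Equiv.Perm (Fin k))
    (R : Finset (ℕ × ℕ)) : Prop :=
  ∃ i : Fin k → Fin n, StrictMono i ∧ (∀ s t, π (i s) < π (i t) ↔ σ s < σ t) ∧
    ∀ a b : ℕ, (a, b) ∈ R → ¬ ∃ x : Fin n,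
      (grid n i a < (x : ℕ) + 1 ∧ (x : ℕ) + 1 < grid n i (a + 1)) ∧
      (grid n (fun t => π (i (σ.symm t))) b < (π x : ℕ) + 1 ∧
        (π x : ℕ) + 1 < grid n (fun t => π (i (σ.symm t))) (b + 1))

/-- The shaded boxes of the problem. -/
def shading : Finset (ℕ × ℕ) :=
  {(0, 2), (0, 3), (1, 2), (1, 3), (2, 0), (2, 1), (2, 2), (2, 3), (3, 1), (3, 2)}

/-- The underlying permutation `132` in zero-based form: `0 ↦ 0`, `1 ↦ 2`, `2 ↦ 1`. -/
def perm132 : Equiv.Perm (Fin 3) := Equiv.swap 1 2

/-- The number of permutations of `{1, ..., n}` avoiding the mesh pattern `p = (132, R)`. -/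
noncomputable def avoiders (n : ℕ) : ℕ :=
  Nat.card {π : Equiv.Perm (Fin n) // ¬ Contains π perm132 shading}

end Pool.Agent.Helper32.Mesh
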