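import Mathlib
import Pool.Agent.Helper32.MeshDefs

/-! Proofs for the mesh pattern problem MP_f17a8d_co. -/

open Finset PowerSeries
open scoped PowerSeries.WithPiTopology

namespace Pool.Agent.Helper32.Mesh

/-! ### The combinatorial reformulation -/

/-- `thr g τ i` is the least value above the threshold `g` and above all `τ x`, `x < i`. -/
def thr {r : ℕ} (g : ℕ) (τ : Equiv.Perm (Fin r)) (i : ℕ) : ℕ :=
  max g ((univ.filter (fun x : Fin r => (x : ℕ) < i)).sup (fun x => (τ x : ℕ) + 1))

/-- the entries at positions `i`, `i + 1` are `t + 1`, `t` with `t = thr g τ i`. -/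
def Occ {r : ℕ} (g : ℕ) (τ : Equiv.Perm (Fin r)) (i : ℕ) : Prop :=
  ∃ h : i + 1 < r, (τ ⟨i, by omega⟩ : ℕ) = thr g τ i + 1 ∧ (τ ⟨i + 1, h⟩ : ℕ) = thr g τ i

lemma thr_le_iff {r : ℕ} (g : ℕ) (τ : Equiv.Perm (Fin r)) (i m : ℕ) :
    thr g τ i ≤ m ↔ g ≤ m ∧ ∀ x : Fin r, (x : ℕ) < i → (τ x : ℕ) + 1 ≤ m := by
  unfold thr
  rw [max_le_iff, Finset.sup_le_iff]
  simp

lemma lt_thr_iff {r : ℕ} (g : ℕ) (τ : Equiv.Perm (Fin r)) (i m : ℕ) :
    m < thr g τ i ↔ m < g ∨ ∃ x : Fin r, (x : ℕ) < i ∧ m < (τ x : ℕ) + 1 := by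
  rw [← not_iff_not, not_lt, thr_le_iff]
  push Not
  simp

lemma grid_zero {n : ℕ} (f : Fin 3 → Fin n) : grid n f 0 = 0 := rfl
lemma grid_one {n : ℕ} (f : Fin 3 → Fin n) : grid n f 1 = (f 0 : ℕ) + 1 := rfl
lemma grid_two {n : ℕ} (f : Fin 3 → Fin n) : grid n f 2 = (f 1 : ℕ) + 1 := rfl
lemma grid_three {n : ℕ} (f : Fin 3 → Fin n) : grid n f 3 = (f 2 : ℕ) + 1 := rfl
lemma grid_four {n : ℕ} (f : Fin 3 → Fin n) : grid n f 4 = n + 1 := rfl

theorem contains_iff {n : ℕ} (π : Equiv.Perm (Fin n)) :
    Contains π perm132 shading ↔ ∃ i : ℕ, Occ 0 π (i + 1) := by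
  constructor
  · rintro ⟨i, hmono, hpat, hR⟩
    have h01 : i 0 < i 1 := hmono (by decide)
    have h12 : i 1 < i 2 := hmono (by decide)
    have hv02 : π (i 0) < π (i 2) := (hpat 0 2).2 (by decide)
    have hv21 : π (i 2) < π (i 1) := (hpat 2 1).2 (by decide)
    have hs0 : perm132.symm 0 = 0 := by decide
    have hs1 : perm132.symm 1 = 2 := by decide
    have hs2 : perm132.symm 2 = 1 := by decide
    have hR' : ∀ a b : ℕ, (a, b) ∈ shading → ∀ x : Fin n,
        (x : ℕ) + 1 ≤ grid n i a ∨ grid n i (a + 1) ≤ (x : ℕ) + 1 ∨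
        (π x : ℕ) + 1 ≤ grid n (fun t => π (i (perm132.symm t))) b ∨
        grid n (fun t => π (i (perm132.symm t))) (b + 1) ≤ (π x : ℕ) + 1 := by
      intro a b hab x
      by_contra hcon
      push Not at hcon
      exact hR a b hab ⟨x, ⟨hcon.1, hcon.2.1⟩, ⟨hcon.2.2.1, hcon.2.2.2⟩⟩
    have g0 := grid_zero i
    have g1 := grid_one i
    have g2 := grid_two i
    have g3 := grid_three i
    have g4 := grid_four i
    have k0 := grid_zero (fun t => π (i (perm132.symm t)))
    have k1 := grid_one (fun t => π (i (perm132.symm t)))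
    have k2 := grid_two (fun t => π (i (perm132.symm t)))
    have k3 := grid_three (fun t => π (i (perm132.symm t)))
    have k4 := grid_four (fun t => π (i (perm132.symm t)))
    simp only [hs0, hs1, hs2] at k1 k2 k3
    have inj : ∀ x y : Fin n, (x : ℕ) ≠ y → (π x : ℕ) ≠ π y := by
      intro x y hxy h
      exact hxy (congrArg Fin.val (π.injective (Fin.ext h)))
    have hlt0 : (i 0 : ℕ) < i 1 := h01
    have hlt1 : (i 1 : ℕ) < i 2 := h12
    have hw02 : (π (i 0) : ℕ) < π (i 2) := hv02
    have hw21 : (π (i 2) : ℕ) < π (i 1) := hv21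
    -- adjacency
    have hadj : (i 2 : ℕ) = (i 1 : ℕ) + 1 := by
      by_contra hne
      have hlt : (i 1 : ℕ) + 1 < i 2 := by omega
      let x : Fin n := ⟨(i 1 : ℕ) + 1, by have := (i 2).2; omega⟩
      have hx : (x : ℕ) = (i 1 : ℕ) + 1 := rfl
      have n0 := inj x (i 0) (by omega)
      have n1 := inj x (i 1) (by omega)
      have n2 := inj x (i 2) (by omega)
      have b0 := hR' 2 0 (by decide) x
      have b1 := hR' 2 1 (by decide) x
      have b2 := hR' 2 2 (by decide) x
      have b3 := hR' 2 3 (by decide) x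
      have := (π x).2
      simp only [Nat.reduceAdd] at b0 b1 b2 b3
      omega
    -- everything before is small
    have hpre : ∀ x : Fin n, (x : ℕ) < i 1 → (π x : ℕ) < π (i 2) := by
      intro x hx
      by_cases hx0 : (x : ℕ) = i 0
      · have : x = i 0 := Fin.ext hx0
        rw [this]; exact hw02
      have n1 := inj x (i 1) (by omega)
      have n2 := inj x (i 2) (by omega)
      have b0 := hR' 0 2 (by decide) x
      have b1 := hR' 0 3 (by decide) x
      have b2 := hR' 1 2 (by decide) x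
      have b3 := hR' 1 3 (by decide) x
      have := (π x).2
      simp only [Nat.reduceAdd] at b0 b1 b2 b3
      omega
    -- value of `i 1`
    have hval : (π (i 1) : ℕ) = (π (i 2) : ℕ) + 1 := by
      by_contra hne
      have hlt : (π (i 2) : ℕ) + 1 < n := by have := (π (i 1)).2; omega
      let x : Fin n := π.symm ⟨(π (i 2) : ℕ) + 1, hlt⟩
      have hx : (π x : ℕ) = (π (i 2) : ℕ) + 1 := by simp [x]
      have c0 : ¬ (x : ℕ) < i 1 := fun h => by have := hpre x h; omega
      have c1 : (x : ℕ) ≠ i 1 := fun h => by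
        have h' : x = i 1 := Fin.ext h
        rw [h'] at hx; omega
      have c2 : (x : ℕ) ≠ i 2 := fun h => by
        have h' : x = i 2 := Fin.ext h
        rw [h'] at hx; omega
      have b := hR' 3 2 (by decide) x
      have := x.2
      simp only [Nat.reduceAdd] at b
      omega
    refine ⟨(i 1 : ℕ) - 1, ?_⟩
    have hi1 : (i 1 : ℕ) - 1 + 1 = i 1 := by omega
    rw [hi1]
    have hthr : thr 0 π (i 1) = π (i 2) := by
      apply le_antisymm
      · rw [thr_le_iff]
        refine ⟨Nat.zero_le _, fun x hx => ?_⟩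
        have := hpre x hx
        omega
      · have hpos : 0 < (π (i 2) : ℕ) := by omega
        have : (π (i 2) : ℕ) - 1 < thr 0 π (i 1) := by
          rw [lt_thr_iff]
          right
          let x : Fin n := π.symm ⟨(π (i 2) : ℕ) - 1, by have := (π (i 2)).2; omega⟩
          have hx : (π x : ℕ) = (π (i 2) : ℕ) - 1 := by simp [x]
          refine ⟨x, ?_, by omega⟩
          by_contra hge
          have c1 : (x : ℕ) ≠ i 1 := fun h => by
            have h' : x = i 1 := Fin.ext h
            rw [h'] at hx; omega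
          have c2 : (x : ℕ) ≠ i 2 := fun h => by
            have h' : x = i 2 := Fin.ext h
            rw [h'] at hx; omega
          have n0 := inj x (i 0) (by omega)
          have b := hR' 3 1 (by decide) x
          have := x.2
          simp only [Nat.reduceAdd] at b
          omega
        omega
    have hlt : (i 1 : ℕ) + 1 < n := by have := (i 2).2; omega
    refine ⟨hlt, ?_, ?_⟩
    · rw [hthr]; exact hval
    · rw [hthr]
      have : (⟨(i 1 : ℕ) + 1, hlt⟩ : Fin n) = i 2 := Fin.ext hadj.symm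
      rw [this]
  · rintro ⟨i, h, h1, h2⟩
    set T := thr 0 π (i + 1) with hT
    have hle := (thr_le_iff 0 π (i + 1) T).1 le_rfl
    have hn : 0 < n := by omega
    have hTpos : 0 < T := by
      have := hle.2 ⟨0, hn⟩ (by simp)
      omega
    obtain ⟨x, hxi, hx⟩ : ∃ x : Fin n, (x : ℕ) < i + 1 ∧ (π x : ℕ) + 1 = T := by
      have : T - 1 < thr 0 π (i + 1) := by omega
      rw [lt_thr_iff] at this
      rcases this with h | ⟨x, hx, hx'⟩
      · omega
      · exact ⟨x, hx, by have := hle.2 x hx; omega⟩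
    let p1 : Fin n := ⟨i + 1, by omega⟩
    let p2 : Fin n := ⟨i + 1 + 1, h⟩
    have e1 : (π p1 : ℕ) = T + 1 := h1
    have e2 : (π p2 : ℕ) = T := h2
    let f : Fin 3 → Fin n := ![x, p1, p2]
    have f0 : f 0 = x := rfl
    have f1 : f 1 = p1 := rfl
    have f2 : f 2 = p2 := rfl
    have vp1 : (p1 : ℕ) = i + 1 := rfl
    have vp2 : (p2 : ℕ) = i + 1 + 1 := rfl
    refine ⟨f, ?_, ?_, ?_⟩
    · rw [Fin.strictMono_iff_lt_succ]
      intro j
      fin_cases j
      · change x < p1
        rw [Fin.lt_def]; omega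
      · change p1 < p2
        rw [Fin.lt_def]; omega
    · intro s t
      have hvx : (π x : ℕ) = T - 1 := by omega
      fin_cases s <;> fin_cases t <;>
        simp only [Fin.zero_eta, Fin.mk_one, Fin.reduceFinMk, f0, f1, f2, Fin.lt_def, e1, e2, hvx,
          lt_self_iff_false] <;>
        (constructor <;> intro hh <;> first | (exfalso; revert hh; decide) | omega | decide)
    · intro a b hab
      rintro ⟨y, ⟨hx1, hx2⟩, ⟨hy1, hy2⟩⟩
      have hs0 : perm132.symm 0 = 0 := by decide
      have hs1 : perm132.symm 1 = 2 := by decide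
      have hs2 : perm132.symm 2 = 1 := by decide
      have g0 := grid_zero f
      have g1 := grid_one f
      have g2 := grid_two f
      have g3 := grid_three f
      have g4 := grid_four f
      have k0 := grid_zero (fun t => π (f (perm132.symm t)))
      have k1 := grid_one (fun t => π (f (perm132.symm t)))
      have k2 := grid_two (fun t => π (f (perm132.symm t)))
      have k3 := grid_three (fun t => π (f (perm132.symm t)))
      have k4 := grid_four (fun t => π (f (perm132.symm t)))
      simp only [hs0, hs1, hs2, f0, f1, f2] at k1 k2 k3 g1 g2 g3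
      have inj : ∀ x y : Fin n, (x : ℕ) ≠ y → (π x : ℕ) ≠ π y := by
        intro x y hxy h
        exact hxy (congrArg Fin.val (π.injective (Fin.ext h)))
      have n1 := inj y p1
      have n2 := inj y p2
      have n0 := inj y x
      have hyT : (y : ℕ) < i + 1 → (π y : ℕ) + 1 ≤ T := fun hy => hle.2 y hy
      simp only [shading, mem_insert, Prod.mk.injEq, mem_singleton] at hab
      rcases hab with h | h | h | h | h | h | h | h | h | h <;>
        (obtain ⟨rfl, rfl⟩ := h; simp only [Nat.reduceAdd] at hx2 hy2; omega)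

/-! ### Removing the first entry -/

/-- The permutation of `{0, ..., r}` with first entry `l` whose remaining entries are
order-isomorphic to `τ`. -/
def consFun {r : ℕ} (l : Fin (r + 1)) (τ : Equiv.Perm (Fin r)) : Fin (r + 1) → Fin (r + 1) :=
  Fin.cons l (fun x => l.succAbove (τ x))

lemma consFun_injective {r : ℕ} (l : Fin (r + 1)) (τ : Equiv.Perm (Fin r)) :
    Function.Injective (consFun l τ) := by
  unfold consFun
  rw [Fin.cons_injective_iff]
  refine ⟨?_, ?_⟩
  · rintro ⟨x, hx⟩
    exact Fin.succAbove_ne _ _ hx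
  · exact Fin.succAbove_right_injective.comp τ.injective

/-- `consFun` as a permutation. -/
noncomputable def cons {r : ℕ} (l : Fin (r + 1)) (τ : Equiv.Perm (Fin r)) :
    Equiv.Perm (Fin (r + 1)) :=
  Equiv.ofBijective (consFun l τ) (Finite.injective_iff_bijective.1 (consFun_injective l τ))

@[simp] lemma cons_zero {r : ℕ} (l : Fin (r + 1)) (τ : Equiv.Perm (Fin r)) :
    cons l τ 0 = l := by
  simp [cons, consFun]

@[simp] lemma cons_succ {r : ℕ} (l : Fin (r + 1)) (τ : Equiv.Perm (Fin r)) (x : Fin r) :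
    cons l τ x.succ = l.succAbove (τ x) := by
  simp [cons, consFun]

lemma cons_injective {r : ℕ} :
    Function.Injective (fun p : Fin (r + 1) × Equiv.Perm (Fin r) => cons p.1 p.2) := by
  rintro ⟨l, τ⟩ ⟨l', τ'⟩ h
  have h0 : l = l' := by
    have := congrArg (fun π : Equiv.Perm (Fin (r + 1)) => π 0) h
    simpa using this
  subst h0
  have h1 : τ = τ' := by
    ext x
    have := congrArg (fun π : Equiv.Perm (Fin (r + 1)) => π x.succ) h
    simp only [cons_succ] at this
    exact congrArg Fin.val (Fin.succAbove_right_injective this)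
  rw [h1]

/-- The bijection `(l, τ) ↦ cons l τ`. -/
noncomputable def consEquiv (r : ℕ) :
    Fin (r + 1) × Equiv.Perm (Fin r) ≃ Equiv.Perm (Fin (r + 1)) :=
  Equiv.ofBijective (fun p => cons p.1 p.2) <| by
    rw [Fintype.bijective_iff_injective_and_card]
    refine ⟨cons_injective, ?_⟩
    simp [Fintype.card_perm, Nat.factorial_succ]

lemma succAbove_val {r : ℕ} (l : Fin (r + 1)) (v : Fin r) :
    ((l.succAbove v : Fin (r + 1)) : ℕ) = if (v : ℕ) < l then (v : ℕ) else v + 1 := by
  by_cases h : (v : ℕ) < l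
  · rw [if_pos h, Fin.succAbove_of_castSucc_lt]
    · simp
    · rw [Fin.lt_def]; simpa using h
  · rw [if_neg h, Fin.succAbove_of_le_castSucc]
    · simp
    · rw [Fin.le_def]; simpa using h

/-- The new threshold after reading `l` with threshold `g`. -/
def next (g l : ℕ) : ℕ := if l < g then g - 1 else l

lemma thr_cons {r : ℕ} (g : ℕ) (l : Fin (r + 1)) (τ : Equiv.Perm (Fin r)) (i : ℕ) :
    thr g (cons l τ) (i + 1) = thr (next g l) τ i + 1 := by
  apply le_antisymm
  · rw [thr_le_iff]
    have hle := (thr_le_iff (next g l) τ i (thr (next g l) τ i)).1 le_rfl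
    refine ⟨?_, ?_⟩
    · have := hle.1
      unfold next at this ⊢
      split_ifs at this ⊢ <;> omega
    · intro x
      refine Fin.cases ?_ (fun y => ?_) x
      · intro _
        rw [cons_zero]
        have := hle.1
        unfold next at this ⊢
        split_ifs at this ⊢ <;> omega
      · intro hy
        have hy' : (y : ℕ) < i := by simpa using hy
        have h2 := hle.2 y hy'
        rw [cons_succ, succAbove_val]
        split_ifs <;> omega
  · rw [Nat.succ_le_iff, lt_thr_iff]
    rcases lt_or_ge (next g l) (thr (next g l) τ i) with hlt | hge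
    · have h0 : thr (next g l) τ i - 1 < thr (next g l) τ i := by omega
      rw [lt_thr_iff (next g l) τ i] at h0
      rcases h0 with h0 | ⟨x, hx, hx'⟩
      · omega
      · right
        refine ⟨x.succ, by simpa using hx, ?_⟩
        rw [cons_succ, succAbove_val]
        have hnl : next g l ≤ τ x := by omega
        have : (l : ℕ) ≤ next g l := by
          unfold next; split_ifs <;> omega
        rw [if_neg (by omega)]
        omega
    · have heq : thr (next g l) τ i = next g l :=
        le_antisymm hge ((thr_le_iff _ τ i _).1 le_rfl).1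
      rw [heq]
      by_cases hl : (l : ℕ) < g
      · left
        unfold next
        rw [if_pos hl]; omega
      · right
        refine ⟨0, by simp, ?_⟩
        rw [cons_zero]
        unfold next
        rw [if_neg hl]; omega

lemma le_next (g l : ℕ) : l ≤ next g l := by
  unfold next; split_ifs <;> omega

lemma next_le_thr {r : ℕ} (g : ℕ) (τ : Equiv.Perm (Fin r)) (i : ℕ) : g ≤ thr g τ i :=
  ((thr_le_iff _ τ i _).1 le_rfl).1

lemma occ_cons_succ {r : ℕ} (g : ℕ) (l : Fin (r + 1)) (τ : Equiv.Perm (Fin r)) (i : ℕ) :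
    Occ g (cons l τ) (i + 1) ↔ Occ (next g l) τ i := by
  have hl := le_next g l
  have ht := next_le_thr (next g l) τ i
  unfold Occ
  constructor
  · rintro ⟨h, h1, h2⟩
    refine ⟨by omega, ?_, ?_⟩
    · have e : (⟨i + 1, by omega⟩ : Fin (r + 1)) = Fin.succ ⟨i, by omega⟩ := rfl
      rw [e, cons_succ, succAbove_val, thr_cons] at h1
      split_ifs at h1 <;> omega
    · have e : (⟨i + 1 + 1, h⟩ : Fin (r + 1)) = Fin.succ ⟨i + 1, by omega⟩ := rfl
      rw [e, cons_succ, succAbove_val, thr_cons] at h2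
      split_ifs at h2 <;> omega
  · rintro ⟨h, h1, h2⟩
    refine ⟨by omega, ?_, ?_⟩
    · have e : (⟨i + 1, by omega⟩ : Fin (r + 1)) = Fin.succ ⟨i, by omega⟩ := rfl
      rw [e, cons_succ, succAbove_val, thr_cons]
      split_ifs <;> omega
    · have e : (⟨i + 1 + 1, by omega⟩ : Fin (r + 1)) = Fin.succ ⟨i + 1, h⟩ := rfl
      rw [e, cons_succ, succAbove_val, thr_cons]
      split_ifs <;> omega

lemma thr_zero {r : ℕ} (g : ℕ) (τ : Equiv.Perm (Fin r)) : thr g τ 0 = g := by
  simp [thr]

lemma occ_cons_zero {r : ℕ} (g : ℕ) (l : Fin (r + 1)) (τ : Equiv.Perm (Fin r)) :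
    Occ g (cons l τ) 0 ↔ (l : ℕ) = g + 1 ∧ ∃ h : 0 < r, (τ ⟨0, h⟩ : ℕ) = g := by
  unfold Occ
  rw [thr_zero]
  constructor
  · rintro ⟨h, h1, h2⟩
    have e0 : (⟨0, by omega⟩ : Fin (r + 1)) = 0 := rfl
    have e1 : (⟨0 + 1, h⟩ : Fin (r + 1)) = Fin.succ ⟨0, by omega⟩ := rfl
    rw [e0, cons_zero] at h1
    rw [e1, cons_succ, succAbove_val] at h2
    refine ⟨h1, by omega, ?_⟩
    split_ifs at h2 <;> omega
  · rintro ⟨h1, h, h2⟩
    have e0 : (⟨0, by omega⟩ : Fin (r + 1)) = 0 := rfl
    have e1 : (⟨0 + 1, by omega⟩ : Fin (r + 1)) = Fin.succ ⟨0, h⟩ := rfl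
    refine ⟨by omega, ?_, ?_⟩
    · rw [e0, cons_zero]; exact h1
    · rw [e1, cons_succ, succAbove_val]
      split_ifs <;> omega

open Classical in
/-- `N r g` is the number of `τ` without an occurrence relative to the threshold `g`. -/
noncomputable def N (r g : ℕ) : ℕ :=
  (univ.filter (fun τ : Equiv.Perm (Fin r) => ∀ i, ¬ Occ g τ i)).card

lemma card_cons {r : ℕ} (P : Equiv.Perm (Fin (r + 1)) → Prop) [DecidablePred P] :
    (univ.filter P).card =
      ∑ l : Fin (r + 1), (univ.filter (fun τ : Equiv.Perm (Fin r) => P (cons l τ))).card := by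
  simp only [Finset.card_filter]
  rw [← Equiv.sum_comp (consEquiv r), Fintype.sum_prod_type]
  rfl

lemma forall_nat_iff (P : ℕ → Prop) : (∀ i, P i) ↔ P 0 ∧ ∀ i, P (i + 1) :=
  ⟨fun h => ⟨h 0, fun i => h (i + 1)⟩, fun h i => by cases i with
    | zero => exact h.1
    | succ i => exact h.2 i⟩

open Classical in
lemma card_first {r g : ℕ} (hg : g < r + 1) :
    (univ.filter (fun τ : Equiv.Perm (Fin (r + 1)) =>
      (∀ i, ¬ Occ (g + 1) τ i) ∧ (τ 0 : ℕ) = g)).card = N r g := by
  rw [card_cons, Finset.sum_eq_single (⟨g, hg⟩ : Fin (r + 1))]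
  · unfold N
    congr 1
    apply Finset.filter_congr
    intro τ _
    rw [forall_nat_iff, occ_cons_zero]
    simp only [occ_cons_succ, cons_zero, and_true]
    have : next (g + 1) g = g := by unfold next; rw [if_pos (by omega)]; rfl
    rw [this]
    constructor
    · exact fun h => h.2
    · exact fun h => ⟨by rintro ⟨h', _⟩; omega, h⟩
  · intro b _ hb
    rw [Finset.card_eq_zero, Finset.filter_eq_empty_iff]
    rintro τ _ ⟨_, h⟩
    rw [cons_zero] at h
    exact hb (Fin.ext h)
  · intro h; exact absurd (Finset.mem_univ _) h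

open Classical in
lemma N_succ (r g : ℕ) :
    (N (r + 1) g : ℤ) = ∑ l ∈ range (r + 1), ((N r (next g l) : ℤ) -
      if l = g + 1 then (N (r - 1) g : ℤ) else 0) := by
  rw [← Fin.sum_univ_eq_sum_range (fun l => ((N r (next g l) : ℤ) -
      if l = g + 1 then (N (r - 1) g : ℤ) else 0))]
  conv_lhs => rw [N, card_cons]
  push_cast
  apply Finset.sum_congr rfl
  intro l _
  have key : (univ.filter (fun τ : Equiv.Perm (Fin r) => ∀ i, ¬ Occ g (cons l τ) i)) =
      univ.filter (fun τ : Equiv.Perm (Fin r) =>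
        (∀ i, ¬ Occ (next g l) τ i) ∧ ¬ ((l : ℕ) = g + 1 ∧ ∃ h : 0 < r, (τ ⟨0, h⟩ : ℕ) = g)) := by
    apply Finset.filter_congr
    intro τ _
    rw [forall_nat_iff, occ_cons_zero]
    simp only [occ_cons_succ]
    rw [and_comm]
  rw [key]
  by_cases hl : (l : ℕ) = g + 1
  · rw [if_pos hl]
    obtain ⟨r', rfl⟩ : ∃ r', r = r' + 1 := ⟨r - 1, by have := l.2; omega⟩
    have hnext : next g l = g + 1 := by unfold next; rw [if_neg (by omega)]; exact hl
    have hg : g < r' + 1 := by have := l.2; omega
    rw [hnext]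
    have hsplit := Finset.card_filter_add_card_filter_not
      (s := univ.filter (fun τ : Equiv.Perm (Fin (r' + 1)) => ∀ i, ¬ Occ (g + 1) τ i))
      (p := fun τ => (τ 0 : ℕ) = g)
    rw [Finset.filter_filter, Finset.filter_filter, card_first hg] at hsplit
    have e : (univ.filter (fun τ : Equiv.Perm (Fin (r' + 1)) =>
        (∀ i, ¬ Occ (g + 1) τ i) ∧ ¬ ((l : ℕ) = g + 1 ∧
          ∃ h : 0 < r' + 1, (τ ⟨0, h⟩ : ℕ) = g))) =
        univ.filter (fun τ : Equiv.Perm (Fin (r' + 1)) =>
        (∀ i, ¬ Occ (g + 1) τ i) ∧ ¬ ((τ 0 : ℕ) = g)) := by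
      apply Finset.filter_congr
      intro τ _
      have : (∃ h : 0 < r' + 1, (τ ⟨0, h⟩ : ℕ) = g) ↔ (τ 0 : ℕ) = g :=
        ⟨fun ⟨_, h⟩ => h, fun h => ⟨by omega, h⟩⟩
      rw [this]
      simp [hl]
    rw [e]
    have hN : N (r' + 1) (g + 1) = (univ.filter (fun τ : Equiv.Perm (Fin (r' + 1)) =>
      ∀ i, ¬ Occ (g + 1) τ i)).card := rfl
    rw [hN, Nat.add_sub_cancel]
    omega
  · rw [if_neg hl]
    simp only [hl, false_and, not_false_eq_true, and_true, sub_zero]
    rfl

/-! ### The closed form -/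

/-- The `j`-th term of the closed form. -/
def T (r g j : ℕ) : ℤ :=
  if g + 2 * j ≤ r then (-1) ^ j * ((r - j).choose j : ℤ) * ((r - 2 * j).factorial : ℤ) else 0

/-- The closed form. -/
def C (r g : ℕ) : ℤ := ∑ j ∈ range (r + 1), T r g j

lemma T_eq_zero {r g j : ℕ} (h : r < j) : T r g j = 0 := by
  unfold T; rw [if_neg (by omega)]

lemma C_eq (r g K : ℕ) (hK : r + 1 ≤ K) : C r g = ∑ j ∈ range K, T r g j := by
  unfold C
  apply Finset.sum_subset
  · intro x hx; simp only [Finset.mem_range] at hx ⊢; omega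
  · intro x _ hx
    apply T_eq_zero
    simp only [Finset.mem_range] at hx; omega

lemma sum_T (r g j : ℕ) :
    ∑ l ∈ Ico g (r + 1), T r l j =
      ((r + 1 - 2 * j - g : ℕ) : ℤ) *
        ((-1) ^ j * ((r - j).choose j : ℤ) * ((r - 2 * j).factorial : ℤ)) := by
  unfold T
  rw [← Finset.sum_filter, Finset.sum_const, nsmul_eq_mul]
  congr 2
  have : (Ico g (r + 1)).filter (fun l => l + 2 * j ≤ r) = Ico g (r + 1 - 2 * j) := by
    ext l
    simp only [Finset.mem_filter, Finset.mem_Ico]
    omega
  rw [this, Nat.card_Ico]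

lemma keyS (r g j : ℕ) (hg : g ≤ r + 1) :
    (g : ℤ) * T r (g - 1) j + ∑ l ∈ Ico g (r + 1), T r l j =
      if g + 2 * j ≤ r + 1 then
        (-1) ^ j * ((r - j).choose j : ℤ) * ((r + 1 - 2 * j).factorial : ℤ) else 0 := by
  rw [sum_T]
  by_cases h : g + 2 * j ≤ r + 1
  · rw [if_pos h]
    rcases Nat.lt_or_ge r (2 * j) with h2 | h2
    · -- `2 j = r + 1`
      have hj : r + 1 = 2 * j := by omega
      have hc : (r - j).choose j = 0 := Nat.choose_eq_zero_of_lt (by omega)
      have hg0 : g = 0 := by omega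
      subst hg0
      rw [hc]; simp
    · have hf : (r + 1 - 2 * j).factorial = (r + 1 - 2 * j) * (r - 2 * j).factorial := by
        rw [show r + 1 - 2 * j = (r - 2 * j) + 1 by omega, Nat.factorial_succ]
      rw [hf]
      have hT : (g : ℤ) * T r (g - 1) j =
          (g : ℤ) * ((-1) ^ j * ((r - j).choose j : ℤ) * ((r - 2 * j).factorial : ℤ)) := by
        rcases Nat.eq_zero_or_pos g with h0 | h0
        · subst h0; simp
        · unfold T
          rw [if_pos (by omega)]
      rw [hT]
      have hcast : ((r + 1 - 2 * j - g : ℕ) : ℤ) = ((r + 1 - 2 * j : ℕ) : ℤ) - g := by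
        rw [Nat.cast_sub (by omega)]
      rw [hcast]
      push_cast
      ring
  · rw [if_neg h]
    have h0 : r + 1 - 2 * j - g = 0 := by omega
    rw [h0]
    have hT : T r (g - 1) j = 0 := by
      unfold T
      rw [if_neg (by omega)]
    rw [hT]; simp

lemma C_succ (r g : ℕ) (hg : g ≤ r + 1) :
    C (r + 1) g = (g : ℤ) * C r (g - 1) + ∑ l ∈ Ico g (r + 1), C r l -
      if g + 1 ≤ r then C (r - 1) g else 0 := by
  rw [C_eq (r + 1) g (r + 2) le_rfl, C_eq r (g - 1) (r + 2) (by omega)]
  have h1 : ∑ l ∈ Ico g (r + 1), C r l = ∑ j ∈ range (r + 2), ∑ l ∈ Ico g (r + 1), T r l j := by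
    rw [Finset.sum_comm]
    apply Finset.sum_congr rfl
    intro l _
    exact C_eq r l (r + 2) (by omega)
  rw [h1, Finset.mul_sum, ← Finset.sum_add_distrib]
  simp_rw [keyS r g _ hg]
  have h2 : (if g + 1 ≤ r then C (r - 1) g else 0) =
      ∑ j ∈ range (r + 1), (if g + 1 ≤ r then T (r - 1) g j else 0) := by
    by_cases h : g + 1 ≤ r
    · simp only [if_pos h]
      exact C_eq (r - 1) g (r + 1) (by omega)
    · simp only [if_neg h, Finset.sum_const_zero]
  rw [h2, Finset.sum_range_succ' _ (r + 1), Finset.sum_range_succ' _ (r + 1)]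
  have h3 : T (r + 1) g 0 = if g + 2 * 0 ≤ r + 1 then
      (-1) ^ 0 * ((r - 0).choose 0 : ℤ) * ((r + 1 - 2 * 0).factorial : ℤ) else 0 := by
    unfold T; simp
  rw [h3, add_sub_right_comm, ← Finset.sum_sub_distrib]
  congr 1
  apply Finset.sum_congr rfl
  intro j _
  unfold T
  by_cases h : g + 2 * (j + 1) ≤ r + 1
  · rw [if_pos h, if_pos h, if_pos (by omega), if_pos (by omega)]
    have e1 : (r + 1 - (j + 1)).choose (j + 1) = (r - (j + 1)).choose (j + 1) +
        (r - 1 - j).choose j := by
      rw [show r + 1 - (j + 1) = (r - (j + 1)) + 1 by omega, Nat.choose_succ_succ,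
        show r - 1 - j = r - (j + 1) by omega]
      ring
    rw [e1, show r - 1 - 2 * j = r + 1 - 2 * (j + 1) by omega]
    push_cast
    ring
  · rw [if_neg h, if_neg h]
    by_cases h' : g + 1 ≤ r
    · rw [if_pos h', if_neg (by omega)]; simp
    · rw [if_neg h']; simp

lemma N_zero (g : ℕ) : N 0 g = 1 := by
  classical
  unfold N
  rw [Finset.filter_true_of_mem]
  · simp
  · rintro τ _ i ⟨h, _⟩
    omega

lemma N_eq_C : ∀ r : ℕ, (∀ g ≤ r, (N r g : ℤ) = C r g) ∧ (∀ g ≤ r - 1, (N (r - 1) g : ℤ) = C (r - 1) g) := by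
  intro r
  induction r with
  | zero =>
    have h0 : ∀ g ≤ 0, (N 0 g : ℤ) = C 0 g := by
      intro g hg
      obtain rfl : g = 0 := by omega
      rw [N_zero]
      simp [C, T]
    exact ⟨h0, h0⟩
  | succ r ih =>
    refine ⟨?_, ih.1⟩
    intro g hg
    rw [N_succ, C_succ r g hg, Finset.sum_sub_distrib]
    have h1 : ∑ l ∈ range (r + 1), (N r (next g l) : ℤ) =
        (g : ℤ) * C r (g - 1) + ∑ l ∈ Ico g (r + 1), C r l := by
      rw [Finset.range_eq_Ico, ← Finset.sum_Ico_consecutive _ (Nat.zero_le g) hg]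
      congr 1
      · rw [Finset.sum_congr rfl (g := fun _ => C r (g - 1))]
        · simp
        · intro l hl
          rw [Finset.mem_Ico] at hl
          have : next g l = g - 1 := by unfold next; rw [if_pos hl.2]
          rw [this]
          exact ih.1 _ (by omega)
      · apply Finset.sum_congr rfl
        intro l hl
        rw [Finset.mem_Ico] at hl
        have : next g l = l := by unfold next; rw [if_neg (by omega)]
        rw [this]
        exact ih.1 _ (by omega)
    rw [h1]
    congr 1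
    rw [Finset.sum_ite_eq']
    by_cases h : g + 1 ≤ r
    · rw [if_pos (by simp only [Finset.mem_range]; omega), if_pos h]
      exact ih.2 _ (by omega)
    · rw [if_neg (by simp only [Finset.mem_range]; omega), if_neg h]

/-! ### The number of avoiders -/

lemma avoiders_zero : avoiders 0 = 1 := by
  classical
  unfold avoiders
  rw [Nat.card_eq_one_iff_unique]
  refine ⟨⟨fun a b => Subtype.ext (Subsingleton.elim _ _)⟩, ⟨⟨1, ?_⟩⟩⟩
  rintro ⟨i, _⟩
  exact (i 0).elim0

lemma avoiders_succ (n : ℕ) :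
    (avoiders (n + 1) : ℤ) = ∑ j ∈ range (n + 2), if 2 * j ≤ n + 1 then
        (-1) ^ j * ((n - j).choose j : ℤ) * ((n + 1 - 2 * j).factorial : ℤ) else 0 := by
  classical
  have h1 : avoiders (n + 1) = ∑ l ∈ range (n + 1), N n l := by
    unfold avoiders
    rw [Nat.card_eq_fintype_card, Fintype.card_subtype, card_cons,
      ← Fin.sum_univ_eq_sum_range (fun l => N n l)]
    apply Finset.sum_congr rfl
    intro l _
    unfold N
    congr 1
    apply Finset.filter_congr
    intro τ _
    rw [contains_iff]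
    push Not
    apply forall_congr'
    intro i
    rw [occ_cons_succ]
    have : next 0 l = l := by unfold next; rw [if_neg (by omega)]
    rw [this]
  rw [h1]
  push_cast
  have h2 : ∑ l ∈ range (n + 1), (N n l : ℤ) = ∑ l ∈ Ico 0 (n + 1), C n l := by
    rw [Finset.range_eq_Ico]
    apply Finset.sum_congr rfl
    intro l hl
    rw [Finset.mem_Ico] at hl
    exact (N_eq_C n).1 l (by omega)
  have h3 : ∑ l ∈ Ico 0 (n + 1), C n l =
      ∑ j ∈ range (n + 2), ∑ l ∈ Ico 0 (n + 1), T n l j := by
    rw [Finset.sum_comm]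
    apply Finset.sum_congr rfl
    intro l _
    exact C_eq n l (n + 2) (by omega)
  rw [h2, h3]
  apply Finset.sum_congr rfl
  intro j _
  have := keyS n 0 j (by omega)
  simpa using this

/-! ### The power series -/

/-- The power series `x / (1 + x²)`. -/
noncomputable def A : ℚ⟦X⟧ := X * (1 + X ^ 2)⁻¹

lemma one_add_mul_A : (1 + X ^ 2) * A = X := by
  unfold A
  rw [mul_left_comm, PowerSeries.mul_inv_cancel _ (by simp), mul_one]

/-- the coefficients of the powers of `x / (1 + x²)` -/
noncomputable def b (m n : ℕ) : ℚ := coeff n (A ^ m)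

lemma A_pow_succ (m : ℕ) : A ^ (m + 1) + X ^ 2 * A ^ (m + 1) = X * A ^ m := by
  calc A ^ (m + 1) + X ^ 2 * A ^ (m + 1) = ((1 + X ^ 2) * A) * A ^ m := by ring
    _ = X * A ^ m := by rw [one_add_mul_A]

lemma b_zero (n : ℕ) : b 0 n = if n = 0 then 1 else 0 := by
  unfold b
  rw [pow_zero, coeff_one]

lemma b_succ_zero (m : ℕ) : b (m + 1) 0 = 0 := by
  unfold b A
  simp

lemma b_succ_one (m : ℕ) : b (m + 1) 1 = b m 0 := by
  have h := congrArg (coeff 1) (A_pow_succ m)
  rw [map_add, coeff_X_pow_mul' , if_neg (by omega), add_zero] at h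
  rw [b, b, h, show (1 : ℕ) = 0 + 1 from rfl, coeff_succ_X_mul]

lemma b_succ_add_two (m n : ℕ) : b (m + 1) (n + 2) + b (m + 1) n = b m (n + 1) := by
  have h := congrArg (coeff (n + 2)) (A_pow_succ m)
  rw [map_add, coeff_X_pow_mul' , if_pos (by omega), Nat.add_sub_cancel,
    show n + 2 = (n + 1) + 1 from rfl, coeff_succ_X_mul] at h
  exact h

lemma b_of_lt : ∀ m n : ℕ, n < m → b m n = 0 := by
  intro m
  induction m with
  | zero => intro n h; omega
  | succ m ih =>
    intro n
    induction n using Nat.strong_induction_on with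
    | _ n ihn =>
      intro h
      match n with
      | 0 => exact b_succ_zero m
      | 1 => rw [b_succ_one]; exact ih 0 (by omega)
      | n + 2 =>
        have h1 := b_succ_add_two m n
        rw [ihn n (by omega) (by omega), ih (n + 1) (by omega)] at h1
        linarith

lemma b_odd : ∀ m j : ℕ, b m (m + 2 * j + 1) = 0 := by
  intro m
  induction m with
  | zero => intro j; rw [b_zero, if_neg (by omega)]
  | succ m ih =>
    intro j
    induction j with
    | zero =>
      have h1 := b_succ_add_two m m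
      rw [b_of_lt (m + 1) m (by omega)] at h1
      have h2 := ih 0
      simp only [Nat.mul_zero, Nat.add_zero] at h2 ⊢
      rw [h2] at h1
      linarith
    | succ j ihj =>
      have h1 := b_succ_add_two m (m + 1 + 2 * j + 1)
      rw [ihj] at h1
      have h2 := ih (j + 1)
      rw [show m + 2 * (j + 1) + 1 = m + 1 + 2 * j + 1 + 1 by ring] at h2
      rw [h2] at h1
      rw [show m + 1 + 2 * (j + 1) + 1 = m + 1 + 2 * j + 1 + 2 by ring]
      linarith

lemma b_even : ∀ m j : ℕ, b (m + 1) (m + 1 + 2 * j) = (-1) ^ j * ((m + j).choose j : ℚ) := by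
  intro m
  induction m with
  | zero =>
    intro j
    induction j with
    | zero =>
      simp only [Nat.mul_zero, Nat.add_zero]
      rw [b_succ_one, b_zero]; simp
    | succ j ihj =>
      have h1 := b_succ_add_two 0 (0 + 1 + 2 * j)
      rw [ihj, b_zero, if_neg (by omega)] at h1
      rw [show 0 + 1 + 2 * (j + 1) = 0 + 1 + 2 * j + 2 by ring]
      simp only [Nat.zero_add, Nat.choose_self, Nat.cast_one, mul_one] at h1 ⊢
      rw [pow_succ]
      linarith
  | succ m ih =>
    intro j
    induction j with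
    | zero =>
      have h1 := b_succ_add_two (m + 1) m
      rw [b_of_lt (m + 1 + 1) m (by omega)] at h1
      have h2 := ih 0
      simp only [Nat.mul_zero, Nat.add_zero, pow_zero, Nat.choose_zero_right, Nat.cast_one,
        mul_one] at h2 ⊢
      rw [h2] at h1
      rw [show m + 1 + 1 = m + 2 from rfl] at h1 ⊢
      linarith
    | succ j ihj =>
      have h1 := b_succ_add_two (m + 1) (m + 1 + 1 + 2 * j)
      rw [ihj] at h1
      have h2 := ih (j + 1)
      rw [show m + 1 + 2 * (j + 1) = m + 1 + 1 + 2 * j + 1 by ring] at h2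
      rw [h2] at h1
      rw [show m + 1 + 1 + 2 * (j + 1) = m + 1 + 1 + 2 * j + 2 by ring]
      have hc : (m + 1 + (j + 1)).choose (j + 1) =
          (m + 1 + j).choose j + (m + (j + 1)).choose (j + 1) := by
        rw [show m + 1 + (j + 1) = (m + 1 + j) + 1 by ring, Nat.choose_succ_succ,
          show m + (j + 1) = m + 1 + j by ring]
      rw [hc]
      push_cast
      rw [pow_succ] at h1 ⊢
      linarith

lemma sum_even (h : ℕ → ℚ) (hodd : ∀ j, h (2 * j + 1) = 0) (K : ℕ) :
    ∑ k ∈ range K, h k = ∑ j ∈ range K, if 2 * j < K then h (2 * j) else 0 := by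
  have himg : (range K).filter (fun k => Even k) =
      ((range K).filter (fun j => 2 * j < K)).image (fun j => 2 * j) := by
    ext k
    simp only [Finset.mem_filter, Finset.mem_range, Finset.mem_image]
    constructor
    · rintro ⟨hk, j, rfl⟩
      exact ⟨j, ⟨by omega, by omega⟩, by ring⟩
    · rintro ⟨j, ⟨h1, h2⟩, rfl⟩
      exact ⟨h2, ⟨j, by ring⟩⟩
  rw [← Finset.sum_filter]
  calc ∑ k ∈ range K, h k = ∑ k ∈ (range K).filter (fun k => Even k), h k := by
        symm
        apply Finset.sum_filter_of_ne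
        intro k _ hk
        by_contra hne
        rw [Nat.not_even_iff_odd] at hne
        obtain ⟨j, rfl⟩ := hne
        exact hk (hodd j)
    _ = ∑ j ∈ (range K).filter (fun j => 2 * j < K), h (2 * j) := by
        rw [himg, Finset.sum_image]
        intro a _ c _ hac
        simp only at hac
        omega

lemma avoiders_eq (n : ℕ) :
    (avoiders n : ℚ) = ∑ m ∈ range (n + 1), (m.factorial : ℚ) * b m n := by
  cases n with
  | zero =>
    rw [avoiders_zero]
    simp [b_zero]
  | succ n =>
    have h1 : (avoiders (n + 1) : ℚ) = ∑ j ∈ range (n + 2), if 2 * j ≤ n + 1 then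
        (-1) ^ j * ((n - j).choose j : ℚ) * ((n + 1 - 2 * j).factorial : ℚ) else 0 := by
      have := avoiders_succ n
      exact_mod_cast congrArg (Int.cast : ℤ → ℚ) this
    rw [h1, ← Finset.sum_range_reflect (fun m => (m.factorial : ℚ) * b m (n + 1))]
    have hodd : ∀ j, ((n + 1 + 1 - 1 - (2 * j + 1)).factorial : ℚ) *
        b (n + 1 + 1 - 1 - (2 * j + 1)) (n + 1) = 0 := by
      intro j
      rcases Nat.lt_or_ge (n + 1) (2 * j + 1) with hj | hj
      · rw [show n + 1 + 1 - 1 - (2 * j + 1) = 0 by omega, b_zero, if_neg (by omega), mul_zero]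
      · have := b_odd (n + 1 - (2 * j + 1)) j
        rw [show n + 1 - (2 * j + 1) + 2 * j + 1 = n + 1 by omega] at this
        rw [show n + 1 + 1 - 1 - (2 * j + 1) = n + 1 - (2 * j + 1) by omega, this, mul_zero]
    rw [sum_even (fun k => ((n + 1 + 1 - 1 - k).factorial : ℚ) * b (n + 1 + 1 - 1 - k) (n + 1))
      hodd (n + 1 + 1)]
    apply Finset.sum_congr rfl
    intro j _
    by_cases hj : 2 * j ≤ n + 1
    · rw [if_pos hj, if_pos (by omega)]
      simp only [Nat.add_sub_cancel]
      rcases Nat.lt_or_ge (2 * j) (n + 1) with hlt | hge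
      · have := b_even (n - 2 * j) j
        rw [show n - 2 * j + 1 + 2 * j = n + 1 by omega, show n - 2 * j + j = n - j by omega,
          show n - 2 * j + 1 = n + 1 - 2 * j by omega] at this
        rw [this]
        ring
      · have h0 : n + 1 - 2 * j = 0 := by omega
        rw [h0, b_zero, if_neg (by omega), Nat.choose_eq_zero_of_lt (by omega)]
        simp
    · rw [if_neg hj, if_neg (by omega)]

/-- **Main theorem.** As formal power series (coefficientwise convergent sum over `m`),
`∑ₙ |𝒮ₙ(p)| xⁿ = ∑ₘ m! (x / (1 + x²))ᵐ`, where `p = (132, R)` is the mesh pattern of the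
problem. -/
theorem main :
    HasSum (fun m : ℕ => (m.factorial : ℚ⟦X⟧) * (X * (1 + X ^ 2)⁻¹) ^ m)
      (PowerSeries.mk fun n => (avoiders n : ℚ)) := by
  rw [WithPiTopology.hasSum_iff_hasSum_coeff]
  intro n
  have hcoeff : ∀ m : ℕ, coeff n ((m.factorial : ℚ⟦X⟧) * (X * (1 + X ^ 2)⁻¹) ^ m) =
      (m.factorial : ℚ) * b m n := by
    intro m
    rw [← map_natCast (PowerSeries.C (R := ℚ)), coeff_C_mul]
    rfl
  simp_rw [hcoeff, coeff_mk]
  rw [avoiders_eq]
  apply hasSum_sum_of_ne_finset_zero
  intro m hm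
  rw [b_of_lt m n (by simpa using hm), mul_zero]

end Pool.Agent.Helper32.Mesh
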