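import Mathlib

/-! Definitions for problem MP_163e4a_co (orthogonal Grothendieck polynomials). -/

namespace Pool.Agent.Helper32.OG

open MvPolynomial

/-- The symmetric `n × n` matrix with coordinates `a`: its `(i, j)` entry is `a s(i, j)`. -/
def symMat {n : ℕ} (a : Sym2 (Fin n) → ℂ) : Matrix (Fin n) (Fin n) ℂ :=
  Matrix.of fun i j => a s(i, j)

/-- The permutation matrix of `z`, with entry `1` at `(i, z i)`. -/
def permMat {n : ℕ} (z : Equiv.Perm (Fin n)) : Matrix (Fin n) (Fin n) ℂ :=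
  Matrix.of fun i j => if z i = j then 1 else 0

/-- The upper-left `i × j` submatrix of `A`. -/
def block {n : ℕ} (A : Matrix (Fin n) (Fin n) ℂ) (i j : ℕ) :
    Matrix {k : Fin n // (k : ℕ) < i} {l : Fin n // (l : ℕ) < j} ℂ :=
  A.submatrix Subtype.val Subtype.val

/-- The variety `MX_z` of symmetric matrices `A` with
`rank A_{[i][j]} ≤ rank z_{[i][j]}` for all `i, j ∈ [n]`. -/
def MX {n : ℕ} (z : Equiv.Perm (Fin n)) : Set (Sym2 (Fin n) → ℂ) :=
  {a | ∀ i j : ℕ, i ≤ n → j ≤ n → (block (symMat a) i j).rank ≤ (block (permMat z) i j).rank}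

/-- The ideal of all polynomials in the coordinates `A_{ij} = A_{ji}` vanishing on `MX_z`. -/
noncomputable def I {n : ℕ} (z : Equiv.Perm (Fin n)) : Ideal (MvPolynomial (Sym2 (Fin n)) ℂ) :=
  vanishingIdeal ℂ (MX z)

/-- The weight of the coordinate `A_{ij}`: the exponent vector of `a_i a_j`. -/
noncomputable def wt {n : ℕ} (p : Sym2 (Fin n)) : Fin n →₀ ℕ :=
  Sym2.lift ⟨fun i j => Finsupp.single i 1 + Finsupp.single j 1, fun _ _ => add_comm _ _⟩ p

/-- The dimension of the component of weight `d` of the coordinate ring of `MX_z`. -/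
noncomputable def hilb {n : ℕ} (z : Equiv.Perm (Fin n)) (d : Fin n →₀ ℕ) : ℕ :=
  Module.finrank ℂ ((weightedHomogeneousSubmodule ℂ (wt (n := n)) d).map
    (Ideal.Quotient.mkₐ ℂ (I z)).toLinearMap)

/-- The multigraded Hilbert series of the coordinate ring of `MX_z`. -/
noncomputable def hilbSeries {n : ℕ} (z : Equiv.Perm (Fin n)) : MvPowerSeries (Fin n) ℤ :=
  fun d => (hilb z d : ℤ)

/-- `K` is the `K`-polynomial `[MX_z]_T`: it is the Hilbert series times `∏_{i ≤ j} (1 - a_i a_j)`. -/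
def IsKPoly {n : ℕ} (z : Equiv.Perm (Fin n)) (K : MvPolynomial (Fin n) ℤ) : Prop :=
  (K : MvPowerSeries (Fin n) ℤ) =
    hilbSeries z * ∏ p : Sym2 (Fin n), (1 - MvPowerSeries.monomial (wt p) (1 : ℤ))

open Classical in
/-- The `K`-polynomial `[MX_z]_T` (zero if no polynomial satisfies `IsKPoly z`). -/
noncomputable def KPoly {n : ℕ} (z : Equiv.Perm (Fin n)) : MvPolynomial (Fin n) ℤ :=
  if h : ∃ K, IsKPoly z K then h.choose else 0

/-- The codimension of `MX_z` in the `n (n + 1) / 2`-dimensional space of symmetric matrices. -/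
noncomputable def codim {n : ℕ} (z : Equiv.Perm (Fin n)) : ℕ :=
  n * (n + 1) / 2 -
    ((ringKrullDim (MvPolynomial (Sym2 (Fin n)) ℂ ⧸ I z)).unbotD 0).toNat

/-- The orthogonal Grothendieck polynomial `(-β)^{-c} [MX_z]_T |_{a_i = 1 + β x_i}`, as a
polynomial in `x_1, x_2, ...` (the variable `x_{i+1}` has index `i`) over `ℤ[β, β⁻¹]`. -/
noncomputable def GO {n : ℕ} (z : Equiv.Perm (Fin n)) : MvPolynomial ℕ (LaurentPolynomial ℤ) :=
  MvPolynomial.C ((-1) ^ codim z * LaurentPolynomial.T (-(codim z : ℤ))) *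
    aeval (fun i : Fin n => 1 + MvPolynomial.C (LaurentPolynomial.T 1) * X (i : ℕ)) (KPoly z)

/-- `1 × z`: fixes `1` and sends `1 + i` to `1 + z i`. -/
def one1 {n : ℕ} (z : Equiv.Perm (Fin n)) : Equiv.Perm (Fin (n + 1)) where
  toFun := Fin.cases 0 fun i => (z i).succ
  invFun := Fin.cases 0 fun i => (z.symm i).succ
  left_inv := Fin.cases (by simp) fun i => by simp
  right_inv := Fin.cases (by simp) fun i => by simp

/-- `1^m × z`. -/
def oneTimes {n : ℕ} (z : Equiv.Perm (Fin n)) : (m : ℕ) → Equiv.Perm (Fin (n + m))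
  | 0 => z
  | m + 1 => one1 (oneTimes z m)

end Pool.Agent.Helper32.OG
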