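import Mathlib
import Pool.Agent.Helper32.OGDefs

/-! Ranks of blocks and Schur complements. -/

set_option linter.unusedSectionVars false

namespace Pool.Agent.Helper32.OG

open MvPolynomial

/-- pivoting on an entry equal to one -/
theorem rank_pivot {m n m' n' : Type*} [Fintype m] [Fintype n] [Fintype m'] [Fintype n']
    [DecidableEq m] [DecidableEq n] (M : Matrix m n ℂ) (k : m) (l : n) (hkl : M k l = 1)
    (f : m' → m) (hf : ∀ r, r ≠ k → ∃ r', f r' = r)
    (g : n' → n) (hg : Function.Injective g) (hgl : ∀ r, g r ≠ l)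
    (hg' : ∀ r, r ≠ l → ∃ r', g r' = r) :
    M.rank = (Matrix.of fun r j => M (f r) (g j) - M (f r) l * M k (g j)).rank + 1 := by
  classical
  set M' : Matrix m' n' ℂ := Matrix.of fun r j => M (f r) (g j) - M (f r) l * M k (g j) with hM'
  let φ : (m → ℂ) →ₗ[ℂ] (m' → ℂ) :=
    { toFun := fun v r => v (f r) - M (f r) l * v k
      map_add' := by intro v w; ext r; simp only [Pi.add_apply]; ring
      map_smul' := by intro c v; ext r; simp only [Pi.smul_apply, smul_eq_mul, RingHom.id_apply]; ring }
  have hφ : ∀ v r, φ v r = v (f r) - M (f r) l * v k := fun _ _ => rfl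
  let e : Option n' ≃ n := Equiv.ofBijective (fun o => o.elim l g) (by
    constructor
    · intro a b hab
      cases a with
      | none =>
        cases b with
        | none => rfl
        | some b => exact absurd hab.symm (hgl b)
      | some a =>
        cases b with
        | none => exact absurd hab (hgl a)
        | some b => exact congrArg some (hg hab)
    · intro r
      by_cases hr : r = l
      · exact ⟨none, hr.symm⟩
      · obtain ⟨r', hr'⟩ := hg' r hr
        exact ⟨some r', hr'⟩)
  have hsum : ∀ F : n → ℂ, ∑ j, F j = F l + ∑ j, F (g j) := by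
    intro F
    rw [← e.sum_comp, Fintype.sum_option]
    rfl
  have hφM : ∀ x : n → ℂ, φ (M.mulVec x) = M'.mulVec (x ∘ g) := by
    intro x
    ext r
    rw [hφ]
    simp only [Matrix.mulVec, dotProduct]
    rw [hsum (fun j => M (f r) j * x j), hsum (fun j => M k j * x j), hkl]
    have : ∑ j, M' r j * (x ∘ g) j = ∑ j, M (f r) (g j) * x (g j) -
        M (f r) l * ∑ j, M k (g j) * x (g j) := by
      rw [Finset.mul_sum, ← Finset.sum_sub_distrib]
      apply Finset.sum_congr rfl
      intro j _
      simp only [hM', Matrix.of_apply, Function.comp]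
      ring
    rw [this]
    ring
  set R := LinearMap.range M.mulVecLin with hR
  have h1 := LinearMap.finrank_range_add_finrank_ker (φ.domRestrict R)
  have hrange : LinearMap.range (φ.domRestrict R) = LinearMap.range M'.mulVecLin := by
    ext v
    constructor
    · rintro ⟨⟨_, ⟨x, rfl⟩⟩, rfl⟩
      exact ⟨x ∘ g, (hφM x).symm⟩
    · rintro ⟨y, rfl⟩
      refine ⟨⟨M.mulVec (Function.extend g y 0), ⟨_, rfl⟩⟩, ?_⟩
      show φ (M.mulVec (Function.extend g y 0)) = M'.mulVec y
      rw [hφM, Function.extend_comp hg]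
  have hcol : ∀ r, M.mulVec (Pi.single l 1) r = M r l := by
    intro r
    rw [Matrix.mulVec_single_one]
    rfl
  have hker : Module.finrank ℂ (LinearMap.ker (φ.domRestrict R)) = 1 := by
    have hmem : φ.domRestrict R ⟨M.mulVec (Pi.single l 1), ⟨_, rfl⟩⟩ = 0 := by
      show φ (M.mulVec (Pi.single l 1)) = 0
      ext r
      rw [hφ, hcol, hcol, hkl, mul_one, sub_self]
      rfl
    refine finrank_eq_one (⟨⟨M.mulVec (Pi.single l 1), ⟨_, rfl⟩⟩, hmem⟩ :
      LinearMap.ker (φ.domRestrict R)) ?_ ?_
    · intro h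
      have h2 : M.mulVec (Pi.single l 1) = 0 := by
        have := congrArg (fun z : LinearMap.ker (φ.domRestrict R) => (z.1.1 : m → ℂ)) h
        exact this
      have h3 := congrFun h2 k
      rw [hcol, hkl] at h3
      exact one_ne_zero h3
    · rintro ⟨⟨v, hv⟩, hv'⟩
      have hv'' : φ v = 0 := hv'
      refine ⟨v k, ?_⟩
      apply Subtype.ext
      apply Subtype.ext
      show v k • M.mulVec (Pi.single l 1) = v
      ext r
      rw [Pi.smul_apply, hcol, smul_eq_mul]
      by_cases hr : r = k
      · rw [hr, hkl, mul_one]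
      · obtain ⟨r', rfl⟩ := hf r hr
        have := congrFun hv'' r'
        rw [hφ] at this
        have h3 : v (f r') = M (f r') l * v k := by
          simpa [sub_eq_zero] using this
        rw [h3]; ring
  rw [hrange, hker] at h1
  rw [Matrix.rank, Matrix.rank]
  exact h1.symm

/-- the Schur complement with respect to the diagonal entry `k` (assumed to be one) -/
def schur {N : ℕ} (A : Matrix (Fin (N + 1)) (Fin (N + 1)) ℂ) (k : Fin (N + 1)) :
    Matrix (Fin N) (Fin N) ℂ :=
  Matrix.of fun r c => A (k.succAbove r) (k.succAbove c) -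
    A (k.succAbove r) k * A k (k.succAbove c)

theorem succAbove_lt {N : ℕ} (k : Fin (N + 1)) (r : Fin N) {i : ℕ} (hk : (k : ℕ) ≤ i) :
    ((k.succAbove r : Fin (N + 1)) : ℕ) < i + 1 ↔ (r : ℕ) < i := by
  by_cases h : r.castSucc < k
  · rw [Fin.succAbove_of_castSucc_lt _ _ h]
    have : (r : ℕ) < k := h
    simp only [Fin.val_castSucc]
    omega
  · rw [Fin.succAbove_of_le_castSucc _ _ (not_lt.mp h)]
    simp only [Fin.val_succ]
    omega

theorem block_schur {N : ℕ} (A : Matrix (Fin (N + 1)) (Fin (N + 1)) ℂ) (k : Fin (N + 1))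
    (hk : A k k = 1) {i j : ℕ} (hi : (k : ℕ) ≤ i) (hj : (k : ℕ) ≤ j) :
    (block A (i + 1) (j + 1)).rank = (block (schur A k) i j).rank + 1 := by
  have h := rank_pivot (block A (i + 1) (j + 1)) ⟨k, by omega⟩ ⟨k, by omega⟩ hk
    (m' := {r : Fin N // (r : ℕ) < i}) (n' := {r : Fin N // (r : ℕ) < j})
    (fun r => ⟨k.succAbove r.1, (succAbove_lt k r.1 hi).mpr r.2⟩) ?_
    (fun r => ⟨k.succAbove r.1, (succAbove_lt k r.1 hj).mpr r.2⟩) ?_ ?_ ?_
  · rw [h]
    rfl
  · rintro ⟨r, hr⟩ hne
    have hrk : r ≠ k := fun h => hne (Subtype.ext h)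
    obtain ⟨r', rfl⟩ := Fin.exists_succAbove_eq hrk
    exact ⟨⟨r', (succAbove_lt k r' hi).mp hr⟩, rfl⟩
  · intro a b hab
    have := congrArg Subtype.val hab
    exact Subtype.ext (Fin.succAbove_right_injective this)
  · intro a h
    exact Fin.succAbove_ne k a.1 (congrArg Subtype.val h)
  · rintro ⟨r, hr⟩ hne
    have hrk : r ≠ k := fun h => hne (Subtype.ext h)
    obtain ⟨r', rfl⟩ := Fin.exists_succAbove_eq hrk
    exact ⟨⟨r', (succAbove_lt k r' hj).mp hr⟩, rfl⟩

theorem schur_permMat {N : ℕ} (w : Equiv.Perm (Fin N)) :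
    schur (permMat (one1 w)) 0 = permMat w := by
  ext r c
  simp [schur, permMat, one1, Fin.succAbove_zero]

theorem rank_one1 {N : ℕ} (w : Equiv.Perm (Fin N)) (i j : ℕ) :
    (block (permMat (one1 w)) (i + 1) (j + 1)).rank = (block (permMat w) i j).rank + 1 := by
  rw [block_schur _ 0 (by simp [permMat, one1]) (by simp) (by simp), schur_permMat]

theorem rank_block_le_left {N : ℕ} (A : Matrix (Fin N) (Fin N) ℂ) (i j : ℕ) :
    (block A i j).rank ≤ i := by
  refine (Matrix.rank_le_card_height _).trans ?_
  rw [Fintype.card_subtype]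
  calc (Finset.univ.filter (fun x : Fin N => (x : ℕ) < i)).card
      = ((Finset.univ.filter (fun x : Fin N => (x : ℕ) < i)).image (fun x : Fin N => (x : ℕ))).card :=
        (Finset.card_image_of_injective _ Fin.val_injective).symm
    _ ≤ (Finset.range i).card := by
        apply Finset.card_le_card
        intro x hx
        simp only [Finset.mem_image, Finset.mem_filter, Finset.mem_univ, true_and] at hx
        obtain ⟨y, hy, rfl⟩ := hx
        exact Finset.mem_range.mpr hy
    _ = i := Finset.card_range i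

theorem rank_block_le_right {N : ℕ} (A : Matrix (Fin N) (Fin N) ℂ) (i j : ℕ) :
    (block A i j).rank ≤ j := by
  refine (Matrix.rank_le_card_width _).trans ?_
  rw [Fintype.card_subtype]
  calc (Finset.univ.filter (fun x : Fin N => (x : ℕ) < j)).card
      = ((Finset.univ.filter (fun x : Fin N => (x : ℕ) < j)).image (fun x : Fin N => (x : ℕ))).card :=
        (Finset.card_image_of_injective _ Fin.val_injective).symm
    _ ≤ (Finset.range j).card := by
        apply Finset.card_le_card
        intro x hx
        simp only [Finset.mem_image, Finset.mem_filter, Finset.mem_univ, true_and] at hx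
        obtain ⟨y, hy, rfl⟩ := hx
        exact Finset.mem_range.mpr hy
    _ = j := Finset.card_range j

/-- the first `m` rank conditions of `1^m × z` are vacuous -/
theorem min_le_rank {n : ℕ} (z : Equiv.Perm (Fin n)) (m : ℕ) {i j : ℕ} (hij : min i j ≤ m) :
    min i j ≤ (block (permMat (oneTimes z m)) i j).rank := by
  induction m generalizing i j with
  | zero => omega
  | succ m ih =>
    rcases Nat.eq_zero_or_pos i with hi | hi
    · subst hi; simp
    · rcases Nat.eq_zero_or_pos j with hj | hj
      · subst hj; simp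
      · obtain ⟨i, rfl⟩ : ∃ i', i = i' + 1 := ⟨i - 1, by omega⟩
        obtain ⟨j, rfl⟩ : ∃ j', j = j' + 1 := ⟨j - 1, by omega⟩
        have h1 := ih (i := i) (j := j) (by omega)
        have h2 := rank_one1 (oneTimes z m) i j
        have h3 : (block (permMat (oneTimes z (m + 1))) (i + 1) (j + 1)).rank =
          (block (permMat (one1 (oneTimes z m))) (i + 1) (j + 1)).rank := rfl
        rw [h3, h2]
        omega

theorem mem_MX_iff {n : ℕ} (z : Equiv.Perm (Fin n)) {m : ℕ} {k : Fin (n + m + 1)}
    (hk : (k : ℕ) ≤ m) {a : Sym2 (Fin (n + m + 1)) → ℂ} {b : Sym2 (Fin (n + m)) → ℂ}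
    (hakk : a s(k, k) = 1) (hab : symMat b = schur (symMat a) k) :
    a ∈ MX (oneTimes z (m + 1)) ↔ b ∈ MX (oneTimes z m) := by
  have hA : symMat a k k = 1 := hakk
  have hr : ∀ i j, (block (permMat (oneTimes z (m + 1))) (i + 1) (j + 1)).rank =
      (block (permMat (oneTimes z m)) i j).rank + 1 := fun i j => rank_one1 (oneTimes z m) i j
  constructor
  · intro ha i j hi hj
    by_cases hik : (k : ℕ) ≤ i ∧ (k : ℕ) ≤ j
    · have h1 := ha (i + 1) (j + 1) (by omega) (by omega)
      rw [block_schur _ k hA hik.1 hik.2, hr, ← hab] at h1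
      omega
    · have h1 := rank_block_le_left (symMat b) i j
      have h2 := rank_block_le_right (symMat b) i j
      have h3 := min_le_rank z m (i := i) (j := j) (by omega)
      omega
  · intro hb i j hi hj
    by_cases hik : (k : ℕ) + 1 ≤ i ∧ (k : ℕ) + 1 ≤ j
    · obtain ⟨i, rfl⟩ : ∃ i', i = i' + 1 := ⟨i - 1, by omega⟩
      obtain ⟨j, rfl⟩ : ∃ j', j = j' + 1 := ⟨j - 1, by omega⟩
      rw [block_schur _ k hA (by omega) (by omega), hr, ← hab]
      have h1 := hb i j (by omega) (by omega)
      omega
    · have h1 := rank_block_le_left (symMat a) i j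
      have h2 := rank_block_le_right (symMat a) i j
      have h3 := min_le_rank z (m + 1) (i := i) (j := j) (by omega)
      have h4 : (block (permMat (oneTimes z (m + 1))) i j).rank =
        (block (permMat (oneTimes z (m + 1))) i j).rank := rfl
      omega

end Pool.Agent.Helper32.OG
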