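import Mathlib

/-! Generating functions of sets of exponents, and `K`-polynomials of ideals. -/

set_option linter.unusedSectionVars false

namespace Pool.Agent.Helper32.OG

open MvPolynomial

variable {σ ι : Type*} [Finite σ]

theorem finite_fib {w : σ → ι →₀ ℕ} (hw : ∀ s, w s ≠ 0) (d : ι →₀ ℕ) :
    {μ : σ →₀ ℕ | Finsupp.weight w μ = d}.Finite := by
  refine Set.Finite.subset (Finsupp.finite_of_nat_weight_le (fun s => Finsupp.degree (w s)) ?_
    (Finsupp.degree d)) ?_
  · intro s h
    exact hw s ((Finsupp.degree_eq_zero_iff _).mp h)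
  · intro μ hμ
    have hμ' : Finsupp.weight w μ = d := hμ
    show Finsupp.weight (fun s => Finsupp.degree (w s)) μ ≤ Finsupp.degree d
    rw [← hμ', Finsupp.weight_apply, Finsupp.weight_apply, Finsupp.sum, Finsupp.sum, map_sum]
    apply le_of_eq
    apply Finset.sum_congr rfl
    intro s _
    rw [map_nsmul]

/-- generating function of a set of exponents -/
noncomputable def gf (w : σ → ι →₀ ℕ) (U : Set (σ →₀ ℕ)) : MvPowerSeries ι ℤ :=
  fun d => (({μ | Finsupp.weight w μ = d} ∩ U).ncard : ℤ)

theorem coeff_gf (w : σ → ι →₀ ℕ) (U : Set (σ →₀ ℕ)) (d : ι →₀ ℕ) :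
    MvPowerSeries.coeff d (gf w U) = (({μ | Finsupp.weight w μ = d} ∩ U).ncard : ℤ) := rfl

theorem gf_union {w : σ → ι →₀ ℕ} (hw : ∀ s, w s ≠ 0) (U V : Set (σ →₀ ℕ)) :
    gf w (U ∪ V) = gf w U + gf w V - gf w (U ∩ V) := by
  ext d
  rw [map_sub, map_add, coeff_gf, coeff_gf, coeff_gf, coeff_gf]
  have h := Set.ncard_union_add_ncard_inter ({μ | Finsupp.weight w μ = d} ∩ U)
    ({μ | Finsupp.weight w μ = d} ∩ V) ((finite_fib hw d).subset Set.inter_subset_left)
    ((finite_fib hw d).subset Set.inter_subset_left)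
  rw [← Set.inter_union_distrib_left, ← Set.inter_inter_distrib_left] at h
  omega

theorem gf_empty (w : σ → ι →₀ ℕ) : gf w ∅ = 0 := by
  ext d
  rw [coeff_gf, Set.inter_empty, Set.ncard_empty]
  rfl

theorem gf_compl {w : σ → ι →₀ ℕ} (hw : ∀ s, w s ≠ 0) (U : Set (σ →₀ ℕ)) :
    gf w Uᶜ = gf w Set.univ - gf w U := by
  have h := gf_union hw U Uᶜ
  rw [Set.union_compl_self, Set.inter_compl_self, gf_empty] at h
  rw [h]; ring

theorem gf_shift (w : σ → ι →₀ ℕ) (g : σ →₀ ℕ) (U : Set (σ →₀ ℕ)) :
    gf w ((fun μ => g + μ) '' U) = MvPowerSeries.monomial (Finsupp.weight w g) 1 * gf w U := by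
  classical
  ext d
  rw [MvPowerSeries.coeff_monomial_mul, coeff_gf]
  by_cases h : Finsupp.weight w g ≤ d
  · rw [if_pos h, one_mul, coeff_gf]
    congr 1
    have : {μ | Finsupp.weight w μ = d} ∩ (fun μ => g + μ) '' U =
        (fun μ => g + μ) '' ({μ | Finsupp.weight w μ = d - Finsupp.weight w g} ∩ U) := by
      ext μ
      constructor
      · rintro ⟨h1, ν, hν, rfl⟩
        refine ⟨ν, ⟨?_, hν⟩, rfl⟩
        have h2 : Finsupp.weight w (g + ν) = d := h1
        rw [map_add] at h2
        show Finsupp.weight w ν = d - Finsupp.weight w g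
        rw [← h2, add_tsub_cancel_left]
      · rintro ⟨ν, ⟨h1, hν⟩, rfl⟩
        refine ⟨?_, ν, hν, rfl⟩
        have h2 : Finsupp.weight w ν = d - Finsupp.weight w g := h1
        show Finsupp.weight w (g + ν) = d
        rw [map_add, h2, add_tsub_cancel_of_le h]
    rw [this, Set.ncard_image_of_injective _ (add_right_injective g)]
  · rw [if_neg h]
    have : {μ | Finsupp.weight w μ = d} ∩ (fun μ => g + μ) '' U = ∅ := by
      ext μ
      simp only [Set.mem_inter_iff, Set.mem_empty_iff_false, iff_false, not_and]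
      rintro h1 ⟨ν, hν, rfl⟩
      apply h
      have h2 : Finsupp.weight w (g + ν) = d := h1
      rw [map_add] at h2
      rw [← h2]
      exact le_self_add
    rw [this, Set.ncard_empty]
    rfl

theorem gf_univ [Fintype σ] {w : σ → ι →₀ ℕ} (hw : ∀ s, w s ≠ 0) :
    gf w Set.univ * ∏ s, (1 - MvPowerSeries.monomial (w s) (1 : ℤ)) = 1 := by
  classical
  have key : ∀ T : Finset σ, gf w {μ | ∀ s, s ∉ T → μ s = 0} *
      ∏ s ∈ T, (1 - MvPowerSeries.monomial (w s) (1 : ℤ)) = 1 := by
    intro T
    induction T using Finset.induction_on with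
    | empty =>
      rw [Finset.prod_empty, mul_one]
      ext d
      rw [coeff_gf, MvPowerSeries.coeff_one]
      have h0 : {μ : σ →₀ ℕ | ∀ s, s ∉ (∅ : Finset σ) → μ s = 0} = {0} := by
        ext μ
        simp [Finsupp.ext_iff]
      rw [h0]
      by_cases hd : d = 0
      · rw [if_pos hd]
        have : {μ : σ →₀ ℕ | Finsupp.weight w μ = d} ∩ {0} = {0} := by
          rw [Set.inter_eq_right]
          intro μ hμ
          rw [Set.mem_singleton_iff] at hμ
          show Finsupp.weight w μ = d
          rw [hμ, hd, map_zero]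
        rw [this, Set.ncard_singleton]
        rfl
      · rw [if_neg hd]
        have : {μ : σ →₀ ℕ | Finsupp.weight w μ = d} ∩ {0} = ∅ := by
          ext μ
          simp only [Set.mem_inter_iff, Set.mem_singleton_iff, Set.mem_empty_iff_false, iff_false,
            not_and]
          rintro h1 rfl
          have h2 : Finsupp.weight w (0 : σ →₀ ℕ) = d := h1
          rw [map_zero] at h2
          exact hd h2.symm
        rw [this, Set.ncard_empty]
        rfl
    | insert s T hs ih =>
      rw [Finset.prod_insert hs, ← mul_assoc]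
      have h1 : gf w {μ | ∀ s', s' ∉ insert s T → μ s' = 0} *
          (1 - MvPowerSeries.monomial (w s) (1 : ℤ)) = gf w {μ | ∀ s', s' ∉ T → μ s' = 0} := by
        have h2 : {μ : σ →₀ ℕ | ∀ s', s' ∉ insert s T → μ s' = 0} =
            {μ | ∀ s', s' ∉ T → μ s' = 0} ∪
            (fun μ => Finsupp.single s 1 + μ) '' {μ | ∀ s', s' ∉ insert s T → μ s' = 0} := by
          ext μ
          constructor
          · intro hμ
            by_cases h : μ s = 0
            · left
              intro s' hs'
              by_cases h' : s' = s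
              · rw [h', h]
              · exact hμ s' (by simp [h', hs'])
            · right
              have hle : Finsupp.single s 1 ≤ μ := by
                rw [Finsupp.single_le_iff]; omega
              refine ⟨μ - Finsupp.single s 1, ?_, add_tsub_cancel_of_le hle⟩
              intro s' hs'
              rw [Finsupp.tsub_apply, hμ s' hs', zero_tsub]
          · rintro (hμ | ⟨ν, hν, rfl⟩)
            · intro s' hs'
              exact hμ s' (fun h => hs' (Finset.mem_insert_of_mem h))
            · intro s' hs'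
              have : s' ≠ s := by rintro rfl; exact hs' (Finset.mem_insert_self _ _)
              rw [Finsupp.add_apply, hν s' hs', Finsupp.single_eq_of_ne this]
        have h3 : {μ : σ →₀ ℕ | ∀ s', s' ∉ T → μ s' = 0} ∩
            (fun μ => Finsupp.single s 1 + μ) '' {μ | ∀ s', s' ∉ insert s T → μ s' = 0} = ∅ := by
          ext μ
          simp only [Set.mem_inter_iff, Set.mem_empty_iff_false, iff_false, not_and]
          rintro h ⟨ν, hν, rfl⟩
          have := h s hs
          rw [Finsupp.add_apply, Finsupp.single_eq_same] at this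
          omega
        have h4 := gf_union hw {μ : σ →₀ ℕ | ∀ s', s' ∉ T → μ s' = 0}
            ((fun μ => Finsupp.single s 1 + μ) '' {μ | ∀ s', s' ∉ insert s T → μ s' = 0})
        rw [← h2, h3, gf_empty, gf_shift, Finsupp.weight_single, one_smul, sub_zero] at h4
        rw [mul_sub, mul_one]
        nth_rewrite 1 [h4]
        ring
      rw [h1]
      exact ih
  have h := key Finset.univ
  have h0 : {μ : σ →₀ ℕ | ∀ s, s ∉ (Finset.univ : Finset σ) → μ s = 0} = Set.univ := by
    ext μ; simp
  rwa [h0] at h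

/-- upper set generated by a finite set -/
def up (G : Finset (σ →₀ ℕ)) : Set (σ →₀ ℕ) := {μ | ∃ g ∈ G, g ≤ μ}

theorem gf_up [Fintype σ] {w : σ → ι →₀ ℕ} (hw : ∀ s, w s ≠ 0) (G : Finset (σ →₀ ℕ)) :
    ∃ K : MvPolynomial ι ℤ, (K : MvPowerSeries ι ℤ) =
      gf w (up G) * ∏ s, (1 - MvPowerSeries.monomial (w s) (1 : ℤ)) := by
  classical
  induction hn : G.card using Nat.strong_induction_on generalizing G with
  | _ n IH =>
  rcases Finset.eq_empty_or_nonempty G with rfl | ⟨g, hg⟩
  · refine ⟨0, ?_⟩
    have : up (∅ : Finset (σ →₀ ℕ)) = ∅ := by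
      ext μ; simp [up]
    rw [this, gf_empty]
    simp
  · set G' := G.erase g with hG'
    have hc : G'.card < n := by rw [← hn]; exact Finset.card_erase_lt_of_mem hg
    obtain ⟨K1, hK1⟩ := IH _ hc G' rfl
    obtain ⟨K2, hK2⟩ := IH _ (lt_of_le_of_lt Finset.card_image_le hc)
      (G'.image (fun h => g ⊔ h)) rfl
    have h1 : up G = up G' ∪ (fun μ => g + μ) '' Set.univ := by
      ext μ
      constructor
      · rintro ⟨h, hh, hle⟩
        by_cases hgh : h = g
        · right
          exact ⟨μ - g, trivial, add_tsub_cancel_of_le (hgh ▸ hle)⟩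
        · left
          exact ⟨h, Finset.mem_erase.mpr ⟨hgh, hh⟩, hle⟩
      · rintro (⟨h, hh, hle⟩ | ⟨ν, -, rfl⟩)
        · exact ⟨h, (Finset.mem_erase.mp hh).2, hle⟩
        · exact ⟨g, hg, le_self_add⟩
    have h2 : up G' ∩ (fun μ => g + μ) '' Set.univ = up (G'.image (fun h => g ⊔ h)) := by
      ext μ
      constructor
      · rintro ⟨⟨h, hh, hle⟩, ⟨ν, -, rfl⟩⟩
        exact ⟨g ⊔ h, Finset.mem_image_of_mem _ hh, sup_le le_self_add hle⟩
      · rintro ⟨h, hh, hle⟩
        obtain ⟨h', hh', rfl⟩ := Finset.mem_image.mp hh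
        refine ⟨⟨h', hh', le_sup_right.trans hle⟩, ⟨μ - g, trivial, ?_⟩⟩
        exact add_tsub_cancel_of_le (le_sup_left.trans hle)
    refine ⟨K1 + MvPolynomial.monomial (Finsupp.weight w g) 1 - K2, ?_⟩
    rw [h1, gf_union hw, h2, gf_shift, sub_mul, add_mul, mul_assoc, gf_univ hw, mul_one, ← hK1,
      ← hK2]
    have hsub : ∀ a b : MvPolynomial ι ℤ, ((a - b : MvPolynomial ι ℤ) : MvPowerSeries ι ℤ) =
        (a : MvPowerSeries ι ℤ) - (b : MvPowerSeries ι ℤ) := fun a b =>
      map_sub (MvPolynomial.coeToMvPowerSeries.ringHom (σ := ι) (R := ℤ)) a b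
    rw [hsub, MvPolynomial.coe_add, MvPolynomial.coe_monomial]

end Pool.Agent.Helper32.OG
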