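import Mathlib
import Pool.Agent.Helper32.OGGf

/-! Standard monomials and the existence of the `K`-polynomial. -/

set_option linter.unusedSectionVars false
set_option linter.style.haveILetI false

universe u

namespace Pool.Agent.Helper32.OG

open MvPolynomial

variable {σ ι : Type*} [Finite σ]

/-- initial exponents of the homogeneous elements of an ideal -/
def inExp (m : MonomialOrder σ) (w : σ → ι →₀ ℕ) (J : Ideal (MvPolynomial σ ℂ)) :
    Set (σ →₀ ℕ) :=
  {μ | ∃ f ∈ J, f ≠ 0 ∧ IsWeightedHomogeneous w f (Finsupp.weight w μ) ∧ m.degree f = μ}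

theorem inExp_upper (m : MonomialOrder σ) (w : σ → ι →₀ ℕ) (J : Ideal (MvPolynomial σ ℂ))
    {μ ν : σ →₀ ℕ} (hμ : μ ∈ inExp m w J) (hle : μ ≤ ν) : ν ∈ inExp m w J := by
  classical
  obtain ⟨f, hf, hf0, hfh, hfd⟩ := hμ
  have hmon : (monomial (ν - μ) (1 : ℂ)) ≠ 0 := by
    rw [Ne, monomial_eq_zero]; exact one_ne_zero
  refine ⟨monomial (ν - μ) 1 * f, J.mul_mem_left _ hf, mul_ne_zero hmon hf0, ?_, ?_⟩
  · have h1 : Finsupp.weight w ν = Finsupp.weight w (ν - μ) + Finsupp.weight w μ := by
      rw [← map_add, tsub_add_cancel_of_le hle]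
    rw [h1]
    exact (isWeightedHomogeneous_monomial w _ _ rfl).mul hfh
  · rw [MonomialOrder.degree_mul hmon hf0, MonomialOrder.degree_monomial, if_neg one_ne_zero, hfd,
      tsub_add_cancel_of_le hle]

theorem exists_up_eq (m : MonomialOrder σ) (w : σ → ι →₀ ℕ) (J : Ideal (MvPolynomial σ ℂ)) :
    ∃ G : Finset (σ →₀ ℕ), inExp m w J = up G := by
  have hpwo := Set.isPWO_of_wellQuasiOrderedLE (inExp m w J)
  have hfin : {x | Minimal (fun x => x ∈ inExp m w J) x}.Finite :=
    (setOfPred_minimal_antichain _).finite_of_partiallyWellOrderedOn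
      (hpwo.mono (setOfPred_minimal_subset _))
  refine ⟨hfin.toFinset, ?_⟩
  ext μ
  constructor
  · intro hμ
    obtain ⟨g, hg, hmin⟩ := hpwo.exists_le_minimal hμ
    exact ⟨g, hfin.mem_toFinset.mpr hmin, hg⟩
  · rintro ⟨g, hg, hle⟩
    exact inExp_upper m w J (hfin.mem_toFinset.mp hg).1 hle

/-- two nonzero polynomials with the same leading term differ by something smaller -/
theorem sub_smaller (m : MonomialOrder σ) {f g : MvPolynomial σ ℂ}
    (hd : m.degree g = m.degree f) (hc : coeff (m.degree f) g = coeff (m.degree f) f) :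
    f - g = 0 ∨ m.toSyn (m.degree (f - g)) < m.toSyn (m.degree f) := by
  by_cases h : f - g = 0
  · exact Or.inl h
  · right
    have h1 : m.toSyn (m.degree (f - g)) ≤ m.toSyn (m.degree f) := by
      rw [MonomialOrder.degree_le_iff]
      intro b hb
      rw [mem_support_iff, coeff_sub] at hb
      by_cases hf : coeff b f = 0
      · have hg : coeff b g ≠ 0 := by
          intro hg; rw [hf, hg, sub_zero] at hb; exact hb rfl
        rw [← hd]
        exact m.le_degree (mem_support_iff.mpr hg)
      · exact m.le_degree (mem_support_iff.mpr hf)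
    refine lt_of_le_of_ne h1 ?_
    intro h2
    have h3 : m.degree (f - g) = m.degree f := m.toSyn.injective h2
    have h4 := m.degree_mem_support h
    rw [h3, mem_support_iff, coeff_sub, hc, sub_self] at h4
    exact h4 rfl

theorem finrank_eq_ncard (m : MonomialOrder σ) {w : σ → ι →₀ ℕ} (hw : ∀ s, w s ≠ 0)
    (J : Ideal (MvPolynomial σ ℂ)) (d : ι →₀ ℕ) :
    Module.finrank ℂ ((weightedHomogeneousSubmodule ℂ w d).map
      (Ideal.Quotient.mkₐ ℂ J).toLinearMap) =
      ({μ | Finsupp.weight w μ = d} ∩ (inExp m w J)ᶜ).ncard := by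
  classical
  set S : Set (σ →₀ ℕ) := {μ | Finsupp.weight w μ = d} ∩ (inExp m w J)ᶜ with hS
  have hSfin : S.Finite := (finite_fib hw d).subset Set.inter_subset_left
  haveI : Fintype S := hSfin.fintype
  let π : MvPolynomial σ ℂ →ₗ[ℂ] (MvPolynomial σ ℂ ⧸ J) := (Ideal.Quotient.mkₐ ℂ J).toLinearMap
  have hπ0 : ∀ f, π f = 0 ↔ f ∈ J := fun f => Ideal.Quotient.eq_zero_iff_mem
  let b : S → MvPolynomial σ ℂ ⧸ J := fun μ => π (monomial μ.1 1)
  have hli : LinearIndependent ℂ b := by
    rw [Fintype.linearIndependent_iff]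
    intro c hc
    set f : MvPolynomial σ ℂ := ∑ μ : S, c μ • monomial μ.1 1 with hf
    have hfJ : f ∈ J := by
      rw [← hπ0, hf, map_sum, ← hc]
      apply Finset.sum_congr rfl
      intro μ _
      rw [map_smul]
    have hcoeff : ∀ μ : S, coeff μ.1 f = c μ := by
      intro μ
      rw [hf, coeff_sum, Finset.sum_eq_single μ]
      · rw [coeff_smul, coeff_monomial, if_pos rfl, smul_eq_mul, mul_one]
      · intro ν _ hne
        rw [coeff_smul, coeff_monomial, if_neg (fun h => hne (Subtype.ext h)), smul_zero]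
      · intro h; exact absurd (Finset.mem_univ _) h
    have hsupp : ∀ ν, coeff ν f ≠ 0 → ν ∈ S := by
      intro ν hν
      by_contra hνS
      apply hν
      rw [hf, coeff_sum]
      apply Finset.sum_eq_zero
      intro μ _
      rw [coeff_smul, coeff_monomial, if_neg (fun h : μ.1 = ν => hνS (h ▸ μ.2)), smul_zero]
    have hf0 : f = 0 := by
      by_contra hf0
      have h1 := m.degree_mem_support hf0
      have h2 := hsupp _ (mem_support_iff.mp h1)
      apply h2.2
      refine ⟨f, hfJ, hf0, ?_, rfl⟩
      intro ν hν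
      have h3 : Finsupp.weight w ν = d := (hsupp ν hν).1
      have h4 : Finsupp.weight w (m.degree f) = d := h2.1
      rw [h3, h4]
    intro μ
    rw [← hcoeff μ, hf0, coeff_zero]
  have hspan : Submodule.span ℂ (Set.range b) =
      (weightedHomogeneousSubmodule ℂ w d).map (Ideal.Quotient.mkₐ ℂ J).toLinearMap := by
    apply le_antisymm
    · rw [Submodule.span_le]
      rintro _ ⟨μ, rfl⟩
      exact ⟨monomial μ.1 1, isWeightedHomogeneous_monomial w _ _ μ.2.1, rfl⟩
    · rintro _ ⟨f, hf, rfl⟩
      have key : ∀ (x : m.syn) (f : MvPolynomial σ ℂ), IsWeightedHomogeneous w f d →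
          m.toSyn (m.degree f) = x → π f ∈ Submodule.span ℂ (Set.range b) := by
        intro x
        induction x using WellFoundedLT.induction with
        | _ x ih =>
        intro f hf hx
        by_cases hf0 : f = 0
        · rw [hf0, map_zero]; exact Submodule.zero_mem _
        have hdeg := m.degree_mem_support hf0
        have hwd : Finsupp.weight w (m.degree f) = d := hf (mem_support_iff.mp hdeg)
        have hc0 : coeff (m.degree f) f ≠ 0 := mem_support_iff.mp hdeg
        have hrec : ∀ g : MvPolynomial σ ℂ, IsWeightedHomogeneous w g d →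
            (g = 0 ∨ m.toSyn (m.degree g) < m.toSyn (m.degree f)) →
            π g ∈ Submodule.span ℂ (Set.range b) := by
          intro g hg h
          rcases h with h | h
          · rw [h, map_zero]; exact Submodule.zero_mem _
          · exact ih _ (hx ▸ h) g hg rfl
        by_cases hin : m.degree f ∈ inExp m w J
        · obtain ⟨g, hgJ, hg0, hgh, hgd⟩ := hin
          have hcg : coeff (m.degree f) g ≠ 0 := by
            rw [← hgd]; exact mem_support_iff.mp (m.degree_mem_support hg0)
          set a : ℂ := coeff (m.degree f) f / coeff (m.degree f) g with ha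
          have ha0 : a ≠ 0 := div_ne_zero hc0 hcg
          have h1 : π f = π (f - C a * g) := by
            rw [map_sub, (hπ0 (C a * g)).mpr (J.mul_mem_left _ hgJ), sub_zero]
          rw [h1]
          apply hrec
          · exact hf.sub ((hwd ▸ hgh).C_mul a)
          · apply sub_smaller
            · rw [← smul_eq_C_mul, MonomialOrder.degree_smul_of_isRegular
                (IsRegular.of_ne_zero ha0), hgd]
            · rw [coeff_C_mul, ha, div_mul_cancel₀ _ hcg]
        · have hmem : m.degree f ∈ S := ⟨hwd, hin⟩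
          set a : ℂ := coeff (m.degree f) f with ha
          have h1 : π f = π (f - C a * monomial (m.degree f) 1) + a • b ⟨m.degree f, hmem⟩ := by
            rw [map_sub, ← smul_eq_C_mul, map_smul]
            simp [b]
          rw [h1]
          refine Submodule.add_mem _ (hrec _ ?_ ?_)
            (Submodule.smul_mem _ _ (Submodule.subset_span ⟨_, rfl⟩))
          · exact hf.sub ((isWeightedHomogeneous_monomial w _ _ hwd).C_mul a)
          · apply sub_smaller
            · rw [← smul_eq_C_mul, MonomialOrder.degree_smul_of_isRegular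
                (IsRegular.of_ne_zero hc0), MonomialOrder.degree_monomial, if_neg one_ne_zero]
            · rw [coeff_C_mul, coeff_monomial, if_pos rfl, mul_one]
      exact key _ f hf rfl
  rw [← hspan, finrank_span_eq_card hli, Set.ncard_eq_toFinset_card', Set.toFinset_card]

theorem exists_monomialOrder (σ : Type u) [Finite σ] : Nonempty (MonomialOrder.{u, u} σ) := by
  classical
  haveI := Fintype.ofFinite σ
  letI : LinearOrder σ := LinearOrder.lift' (Fintype.equivFin σ) (Fintype.equivFin σ).injective
  exact ⟨MonomialOrder.lex⟩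

/-- Hilbert series of the quotient by an ideal -/
noncomputable def hilbJ (w : σ → ι →₀ ℕ) (J : Ideal (MvPolynomial σ ℂ)) : MvPowerSeries ι ℤ :=
  fun d => ((Module.finrank ℂ ((weightedHomogeneousSubmodule ℂ w d).map
        (Ideal.Quotient.mkₐ ℂ J).toLinearMap) : ℕ) : ℤ)

/-- existence of the `K`-polynomial -/
theorem exists_kpoly {σ : Type u} {ι : Type*} [Fintype σ] {w : σ → ι →₀ ℕ} (hw : ∀ s, w s ≠ 0)
    (J : Ideal (MvPolynomial σ ℂ)) : ∃ K : MvPolynomial ι ℤ, (K : MvPowerSeries ι ℤ) =
      hilbJ w J * ∏ s, (1 - MvPowerSeries.monomial (w s) (1 : ℤ)) := by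
  obtain ⟨m⟩ := exists_monomialOrder σ
  obtain ⟨G, hG⟩ := exists_up_eq m w J
  obtain ⟨K, hK⟩ := gf_up hw G
  have h1 : hilbJ w J = gf w (inExp m w J)ᶜ := by
    funext d
    unfold hilbJ
    rw [finrank_eq_ncard m hw J d]
    rfl
  refine ⟨1 - K, ?_⟩
  rw [h1, gf_compl hw, hG, sub_mul, gf_univ hw, ← hK]
  have hsub : ∀ a b : MvPolynomial ι ℤ, ((a - b : MvPolynomial ι ℤ) : MvPowerSeries ι ℤ) =
      (a : MvPowerSeries ι ℤ) - (b : MvPowerSeries ι ℤ) := fun a b =>
    map_sub (MvPolynomial.coeToMvPowerSeries.ringHom (σ := ι) (R := ℤ)) a b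
  rw [hsub, MvPolynomial.coe_one]

end Pool.Agent.Helper32.OG
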