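import Mathlib
import Pool.Agent.Helper32.OGStd
import Pool.Agent.Helper32.OGRank

/-! The slice `A_kk = 1` and the Hilbert function. -/

set_option linter.unusedSectionVars false
set_option linter.style.haveILetI false

namespace Pool.Agent.Helper32.OG

open MvPolynomial

/-! ### Generalities -/

theorem finrank_map_eq {M N N' : Type*} [AddCommGroup M] [Module ℂ M] [AddCommGroup N]
    [Module ℂ N] [AddCommGroup N'] [Module ℂ N'] (f : M →ₗ[ℂ] N) (g : M →ₗ[ℂ] N')
    (W : Submodule ℂ M) (h : ∀ x ∈ W, f x = 0 ↔ g x = 0) :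
    Module.finrank ℂ (W.map f) = Module.finrank ℂ (W.map g) := by
  have h1 : LinearMap.range (f.domRestrict W) = W.map f := by
    rw [LinearMap.range_domRestrict]
  have h2 : LinearMap.range (g.domRestrict W) = W.map g := by
    rw [LinearMap.range_domRestrict]
  have h3 : LinearMap.ker (f.domRestrict W) = LinearMap.ker (g.domRestrict W) := by
    ext ⟨x, hx⟩
    exact h x hx
  rw [← h1, ← h2]
  exact ((LinearMap.quotKerEquivRange (f.domRestrict W)).symm.trans
    ((Submodule.quotEquivOfEq _ _ h3).trans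
      (LinearMap.quotKerEquivRange (g.domRestrict W)))).finrank_eq

theorem isWH_aeval {τ τ' ι ι' : Type*} {w : τ → ι →₀ ℕ} {w' : τ' → ι' →₀ ℕ}
    (L : (ι →₀ ℕ) →+ (ι' →₀ ℕ)) (g : τ → MvPolynomial τ' ℂ)
    (hg : ∀ s, IsWeightedHomogeneous w' (g s) (L (w s))) {f : MvPolynomial τ ℂ} {d : ι →₀ ℕ}
    (hf : IsWeightedHomogeneous w f d) : IsWeightedHomogeneous w' (aeval g f) (L d) := by
  classical
  rw [as_sum f, map_sum]
  apply IsWeightedHomogeneous.sum
  intro μ hμ
  rw [aeval_monomial]
  have hwμ : Finsupp.weight w μ = d := hf (mem_support_iff.mp hμ)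
  refine IsWeightedHomogeneous.C_mul ?_ _
  have h1 : L d = ∑ s ∈ μ.support, μ s • L (w s) := by
    rw [← hwμ, Finsupp.weight_apply, Finsupp.sum, map_sum]
    apply Finset.sum_congr rfl
    intro s _
    rw [map_nsmul]
  rw [h1, Finsupp.prod]
  exact IsWeightedHomogeneous.prod _ _ _ (fun s _ => (hg s).pow _)

theorem finite_whs {τ ι : Type*} [Finite τ] {w : τ → ι →₀ ℕ} (hw : ∀ s, w s ≠ 0) (d : ι →₀ ℕ) :
    Module.Finite ℂ (weightedHomogeneousSubmodule ℂ w d) := by
  classical
  have hle : weightedHomogeneousSubmodule ℂ w d ≤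
      Submodule.span ℂ ((fun μ => (monomial μ (1 : ℂ))) '' {μ | Finsupp.weight w μ = d}) := by
    intro f hf
    rw [as_sum f]
    apply Submodule.sum_mem
    intro μ hμ
    have h1 : monomial μ (coeff μ f) = coeff μ f • (monomial μ (1 : ℂ)) := by
      rw [smul_monomial, smul_eq_mul, mul_one]
    rw [h1]
    apply Submodule.smul_mem
    apply Submodule.subset_span
    exact ⟨μ, hf (mem_support_iff.mp hμ), rfl⟩
  haveI : Module.Finite ℂ (Submodule.span ℂ ((fun μ => (monomial μ (1 : ℂ))) ''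
      {μ | Finsupp.weight w μ = d})) :=
    FiniteDimensional.span_of_finite ℂ ((finite_fib hw d).image _)
  exact Submodule.finiteDimensional_of_le hle

theorem wt_mk {n : ℕ} (i j : Fin n) : wt s(i, j) = Finsupp.single i 1 + Finsupp.single j 1 := rfl

theorem wt_ne_zero {n : ℕ} (p : Sym2 (Fin n)) : wt p ≠ 0 := by
  induction p using Sym2.ind with
  | _ i j =>
    rw [wt_mk]
    intro h
    have := DFunLike.congr_fun h i
    rw [Finsupp.add_apply, Finsupp.single_eq_same, Finsupp.zero_apply] at this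
    omega

/-! ### The slice -/

variable {N : ℕ}

/-- the exponent vector with `k`-th entry `D` and the other entries given by `d` -/
noncomputable def ins (k : Fin (N + 1)) (D : ℕ) (d : Fin N →₀ ℕ) : Fin (N + 1) →₀ ℕ :=
  Finsupp.single k D + Finsupp.mapDomain k.succAbove d

theorem ins_self (k : Fin (N + 1)) (D : ℕ) (d : Fin N →₀ ℕ) : ins k D d k = D := by
  unfold ins
  rw [Finsupp.add_apply, Finsupp.single_eq_same, Finsupp.mapDomain_of_notMem_range _ _ (by
    rintro ⟨j, hj⟩; exact Fin.succAbove_ne k j hj), add_zero]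

theorem ins_succAbove (k : Fin (N + 1)) (D : ℕ) (d : Fin N →₀ ℕ) (j : Fin N) :
    ins k D d (k.succAbove j) = d j := by
  unfold ins
  rw [Finsupp.add_apply, Finsupp.single_eq_of_ne (Fin.succAbove_ne k j),
    Finsupp.mapDomain_apply Fin.succAbove_right_injective, zero_add]

/-- weights on `ℂ[u, B]` -/
noncomputable def wS : Fin N ⊕ Sym2 (Fin N) → Fin N →₀ ℕ :=
  Sum.elim (fun j => Finsupp.single j 1) wt

/-- the polynomial `u_i u_j` -/
noncomputable def uu (p : Sym2 (Fin N)) : MvPolynomial (Fin N ⊕ Sym2 (Fin N)) ℂ :=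
  Sym2.lift ⟨fun i j => X (Sum.inl i) * X (Sum.inl j), fun _ _ => mul_comm _ _⟩ p

theorem uu_mk (i j : Fin N) : uu s(i, j) = X (Sum.inl i) * X (Sum.inl j) := rfl

/-- image of `A_{ij}` on the slice `A_{kk} = 1` -/
noncomputable def rhoFun (k : Fin (N + 1)) (i j : Fin (N + 1)) :
    MvPolynomial (Fin N ⊕ Sym2 (Fin N)) ℂ :=
  Fin.succAboveCases k
    (Fin.succAboveCases k (1 : MvPolynomial (Fin N ⊕ Sym2 (Fin N)) ℂ)
      (fun j' => X (Sum.inl j')) j)
    (fun i' => Fin.succAboveCases k (X (Sum.inl i'))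
      (fun j' => X (Sum.inr s(i', j')) + X (Sum.inl i') * X (Sum.inl j')) j) i

theorem rhoFun_kk (k : Fin (N + 1)) : rhoFun k k k = 1 := by
  simp [rhoFun]

theorem rhoFun_kj (k : Fin (N + 1)) (j : Fin N) :
    rhoFun k k (k.succAbove j) = X (Sum.inl j) := by
  simp [rhoFun]

theorem rhoFun_jk (k : Fin (N + 1)) (j : Fin N) :
    rhoFun k (k.succAbove j) k = X (Sum.inl j) := by
  simp [rhoFun]

theorem rhoFun_ij (k : Fin (N + 1)) (i j : Fin N) :
    rhoFun k (k.succAbove i) (k.succAbove j) =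
      X (Sum.inr s(i, j)) + X (Sum.inl i) * X (Sum.inl j) := by
  simp [rhoFun]

theorem rhoFun_comm (k : Fin (N + 1)) (i j : Fin (N + 1)) : rhoFun k i j = rhoFun k j i := by
  rcases Fin.eq_self_or_eq_succAbove k i with rfl | ⟨i', rfl⟩
  · rcases Fin.eq_self_or_eq_succAbove i j with rfl | ⟨j', rfl⟩
    · rfl
    · rw [rhoFun_kj, rhoFun_jk]
  · rcases Fin.eq_self_or_eq_succAbove k j with rfl | ⟨j', rfl⟩
    · rw [rhoFun_kj, rhoFun_jk]
    · rw [rhoFun_ij, rhoFun_ij, Sym2.eq_swap, mul_comm]

/-- values of `ρ` on the variables -/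
noncomputable def rhoX (k : Fin (N + 1)) (p : Sym2 (Fin (N + 1))) :
    MvPolynomial (Fin N ⊕ Sym2 (Fin N)) ℂ :=
  Sym2.lift ⟨rhoFun k, rhoFun_comm k⟩ p

theorem rhoX_mk (k i j : Fin (N + 1)) : rhoX k s(i, j) = rhoFun k i j := rfl

/-- restriction to the slice -/
noncomputable def rho (k : Fin (N + 1)) :
    MvPolynomial (Sym2 (Fin (N + 1))) ℂ →ₐ[ℂ] MvPolynomial (Fin N ⊕ Sym2 (Fin N)) ℂ :=
  aeval (rhoX k)

/-- dropping the `k`-th exponent -/
noncomputable def dropHom (k : Fin (N + 1)) : (Fin (N + 1) →₀ ℕ) →+ (Fin N →₀ ℕ) where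
  toFun d := Finsupp.equivFunOnFinite.symm fun j => d (k.succAbove j)
  map_zero' := by ext j; simp
  map_add' a b := by ext j; simp

theorem dropHom_apply (k : Fin (N + 1)) (d : Fin (N + 1) →₀ ℕ) (j : Fin N) :
    dropHom k d j = d (k.succAbove j) := rfl

theorem dropHom_ins (k : Fin (N + 1)) (D : ℕ) (d : Fin N →₀ ℕ) : dropHom k (ins k D d) = d := by
  ext j
  rw [dropHom_apply, ins_succAbove]

theorem dropHom_single_self (k : Fin (N + 1)) (c : ℕ) : dropHom k (Finsupp.single k c) = 0 := by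
  ext j
  rw [dropHom_apply, Finsupp.single_eq_of_ne (Fin.succAbove_ne k j), Finsupp.zero_apply]

theorem dropHom_single_succAbove (k : Fin (N + 1)) (i : Fin N) (c : ℕ) :
    dropHom k (Finsupp.single (k.succAbove i) c) = Finsupp.single i c := by
  classical
  ext j
  rw [dropHom_apply, Finsupp.single_apply, Finsupp.single_apply]
  congr 1
  rw [eq_iff_iff]
  exact (Fin.succAbove_right_injective (p := k)).eq_iff

theorem isWH_rhoX (k : Fin (N + 1)) (p : Sym2 (Fin (N + 1))) :
    IsWeightedHomogeneous wS (rhoX k p) (dropHom k (wt p)) := by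
  induction p using Sym2.ind with
  | _ i j =>
    rw [rhoX_mk, wt_mk, map_add]
    have hu : ∀ j : Fin N, IsWeightedHomogeneous (R := ℂ) wS (X (Sum.inl j)) (Finsupp.single j 1) :=
      fun j => isWeightedHomogeneous_X ℂ wS (Sum.inl j)
    have hB : ∀ p : Sym2 (Fin N), IsWeightedHomogeneous (R := ℂ) wS (X (Sum.inr p)) (wt p) :=
      fun p => isWeightedHomogeneous_X ℂ wS (Sum.inr p)
    rcases Fin.eq_self_or_eq_succAbove k i with rfl | ⟨i', rfl⟩
    · rcases Fin.eq_self_or_eq_succAbove i j with rfl | ⟨j', rfl⟩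
      · rw [rhoFun_kk, dropHom_single_self, add_zero]
        exact isWeightedHomogeneous_one ℂ wS
      · rw [rhoFun_kj, dropHom_single_self, dropHom_single_succAbove, zero_add]
        exact hu j'
    · rcases Fin.eq_self_or_eq_succAbove k j with rfl | ⟨j', rfl⟩
      · rw [rhoFun_jk, dropHom_single_self, dropHom_single_succAbove, add_zero]
        exact hu i'
      · rw [rhoFun_ij, dropHom_single_succAbove, dropHom_single_succAbove]
        exact (hB s(i', j')).add ((hu i').mul (hu j'))

/-- the lifting of functions on the slice -/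
noncomputable def lamB (k : Fin (N + 1)) (p : Sym2 (Fin N)) :
    MvPolynomial (Sym2 (Fin (N + 1))) ℂ :=
  Sym2.lift ⟨fun i j => X s(k, k) * X s(k.succAbove i, k.succAbove j) -
    X s(k, k.succAbove i) * X s(k, k.succAbove j), fun i j => by
      beta_reduce
      rw [Sym2.eq_swap (a := k.succAbove i), mul_comm (X s(k, k.succAbove i))]⟩ p

theorem lamB_mk (k : Fin (N + 1)) (i j : Fin N) : lamB k s(i, j) =
    X s(k, k) * X s(k.succAbove i, k.succAbove j) -
    X s(k, k.succAbove i) * X s(k, k.succAbove j) := rfl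

/-- the lifting of functions on the slice -/
noncomputable def lam (k : Fin (N + 1)) :
    MvPolynomial (Fin N ⊕ Sym2 (Fin N)) ℂ →ₐ[ℂ] MvPolynomial (Sym2 (Fin (N + 1))) ℂ :=
  aeval (Sum.elim (fun j => X s(k, k.succAbove j)) (lamB k))

theorem rho_lam (k : Fin (N + 1)) (f : MvPolynomial (Fin N ⊕ Sym2 (Fin N)) ℂ) :
    rho k (lam k f) = f := by
  have h : (rho k).comp (lam k) = AlgHom.id ℂ _ := by
    apply MvPolynomial.algHom_ext
    intro p
    cases p with
    | inl j =>
      rw [AlgHom.comp_apply, lam, aeval_X, Sum.elim_inl, rho, aeval_X, rhoX_mk, rhoFun_kj]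
      rfl
    | inr p =>
      induction p using Sym2.ind with
      | _ i j =>
        rw [AlgHom.comp_apply, lam, aeval_X, Sum.elim_inr, lamB_mk, rho, map_sub, map_mul, map_mul,
          aeval_X, aeval_X, aeval_X, aeval_X, rhoX_mk, rhoX_mk, rhoX_mk, rhoX_mk, rhoFun_kk,
          rhoFun_ij, rhoFun_kj, rhoFun_kj]
        simp
  exact DFunLike.congr_fun h f

/-- the weight homomorphism of the lifting -/
noncomputable def liftHom (k : Fin (N + 1)) : (Fin N →₀ ℕ) →+ (Fin (N + 1) →₀ ℕ) where
  toFun d := ins k (Finsupp.degree d) d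
  map_zero' := by simp [ins]
  map_add' a b := by
    unfold ins
    rw [Finsupp.mapDomain_add, map_add, Finsupp.single_add]
    abel

theorem liftHom_apply (k : Fin (N + 1)) (d : Fin N →₀ ℕ) :
    liftHom k d = ins k (Finsupp.degree d) d := rfl

theorem liftHom_single (k : Fin (N + 1)) (j : Fin N) : liftHom k (Finsupp.single j 1) =
    Finsupp.single k 1 + Finsupp.single (k.succAbove j) 1 := by
  rw [liftHom_apply, ins, Finsupp.mapDomain_single, Finsupp.degree_single]

theorem isWH_lam (k : Fin (N + 1)) (s : Fin N ⊕ Sym2 (Fin N)) :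
    IsWeightedHomogeneous (R := ℂ) wt
      ((Sum.elim (fun j => X s(k, k.succAbove j)) (lamB k) : Fin N ⊕ Sym2 (Fin N) →
        MvPolynomial (Sym2 (Fin (N + 1))) ℂ) s) (liftHom k (wS s)) := by
  have hX : ∀ i j : Fin (N + 1), IsWeightedHomogeneous (R := ℂ) wt (X s(i, j))
      (Finsupp.single i 1 + Finsupp.single j 1) := fun i j => isWeightedHomogeneous_X ℂ wt s(i, j)
  cases s with
  | inl j =>
    show IsWeightedHomogeneous wt (X s(k, k.succAbove j)) (liftHom k (Finsupp.single j 1))
    rw [liftHom_single]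
    exact hX _ _
  | inr p =>
    induction p using Sym2.ind with
    | _ i j =>
      show IsWeightedHomogeneous wt (lamB k s(i, j)) (liftHom k (wt s(i, j)))
      rw [lamB_mk, wt_mk, map_add, liftHom_single, liftHom_single]
      have e1 : Finsupp.single k 1 + Finsupp.single (k.succAbove i) 1 +
          (Finsupp.single k 1 + Finsupp.single (k.succAbove j) 1) =
          (Finsupp.single k 1 + Finsupp.single k 1) +
          (Finsupp.single (k.succAbove i) 1 + Finsupp.single (k.succAbove j) 1) := by abel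
      refine IsWeightedHomogeneous.sub ?_ ((hX _ _).mul (hX _ _))
      rw [e1]
      exact (hX _ _).mul (hX _ _)

/-- Step 3 -/
theorem map_rho_eq (k : Fin (N + 1)) (d : Fin N →₀ ℕ) (t : ℕ) :
    (weightedHomogeneousSubmodule ℂ (wt (n := N + 1)) (ins k (Finsupp.degree d + 2 * t) d)).map
      (rho k).toLinearMap = weightedHomogeneousSubmodule ℂ wS d := by
  apply le_antisymm
  · rintro _ ⟨f, hf, rfl⟩
    have h := isWH_aeval (dropHom k) (rhoX k) (isWH_rhoX k) hf
    rw [dropHom_ins] at h
    exact h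
  · intro g hg
    refine ⟨X s(k, k) ^ t * lam k g, ?_, ?_⟩
    · have h1 : IsWeightedHomogeneous wt (lam k g) (liftHom k d) :=
        isWH_aeval (liftHom k) _ (isWH_lam k) hg
      have h2 : IsWeightedHomogeneous (R := ℂ) wt (X s(k, k) ^ t)
          (t • (Finsupp.single k 1 + Finsupp.single k 1 : Fin (N + 1) →₀ ℕ)) :=
        (isWeightedHomogeneous_X ℂ wt s(k, k)).pow t
      have h3 := h2.mul h1
      have e : t • (Finsupp.single k 1 + Finsupp.single k 1 : Fin (N + 1) →₀ ℕ) + liftHom k d =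
          ins k (Finsupp.degree d + 2 * t) d := by
        rw [liftHom_apply, ins, ins, ← Finsupp.single_add, Finsupp.smul_single, ← add_assoc,
          ← Finsupp.single_add]
        congr 2
        rw [smul_eq_mul]; ring
      rw [e] at h3
      exact h3
    · show rho k (X s(k, k) ^ t * lam k g) = g
      rw [map_mul, map_pow, rho_lam, rho, aeval_X, rhoX_mk, rhoFun_kk, one_pow, one_mul]

end Pool.Agent.Helper32.OG
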