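import Mathlib
import Pool.Agent.Helper32.OGSlice

/-! The slice `A_kk = 1` and the Hilbert function, II. -/

set_option linter.unusedSectionVars false
set_option linter.style.haveILetI false

namespace Pool.Agent.Helper32.OG

open MvPolynomial

variable {N : ℕ}

/-- the point of the slice with coordinates `u, b` -/
noncomputable def aOf (k : Fin (N + 1)) (u : Fin N → ℂ) (b : Sym2 (Fin N) → ℂ) :
    Sym2 (Fin (N + 1)) → ℂ := fun p => aeval (Sum.elim u b) (rhoX k p)

theorem aOf_kk (k : Fin (N + 1)) (u : Fin N → ℂ) (b : Sym2 (Fin N) → ℂ) :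
    aOf k u b s(k, k) = 1 := by
  rw [aOf, rhoX_mk, rhoFun_kk, map_one]

theorem aOf_kj (k : Fin (N + 1)) (u : Fin N → ℂ) (b : Sym2 (Fin N) → ℂ) (j : Fin N) :
    aOf k u b s(k, k.succAbove j) = u j := by
  rw [aOf, rhoX_mk, rhoFun_kj, aeval_X, Sum.elim_inl]

theorem aOf_jk (k : Fin (N + 1)) (u : Fin N → ℂ) (b : Sym2 (Fin N) → ℂ) (j : Fin N) :
    aOf k u b s(k.succAbove j, k) = u j := by
  rw [aOf, rhoX_mk, rhoFun_jk, aeval_X, Sum.elim_inl]

theorem aOf_ij (k : Fin (N + 1)) (u : Fin N → ℂ) (b : Sym2 (Fin N) → ℂ) (i j : Fin N) :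
    aOf k u b s(k.succAbove i, k.succAbove j) = b s(i, j) + u i * u j := by
  rw [aOf, rhoX_mk, rhoFun_ij, map_add, map_mul, aeval_X, aeval_X, aeval_X, Sum.elim_inl,
    Sum.elim_inl, Sum.elim_inr]

theorem symMat_schur (k : Fin (N + 1)) (u : Fin N → ℂ) (b : Sym2 (Fin N) → ℂ) :
    symMat b = schur (symMat (aOf k u b)) k := by
  ext i j
  show b s(i, j) = aOf k u b s(k.succAbove i, k.succAbove j) - aOf k u b s(k.succAbove i, k) *
    aOf k u b s(k, k.succAbove j)
  rw [aOf_ij, aOf_jk, aOf_kj]; ring

theorem aeval_rho (k : Fin (N + 1)) (u : Fin N → ℂ) (b : Sym2 (Fin N) → ℂ)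
    (f : MvPolynomial (Sym2 (Fin (N + 1))) ℂ) :
    aeval (Sum.elim u b) (rho k f) = aeval (aOf k u b) f := by
  have h : (aeval (R := ℂ) (Sum.elim u b)).comp (rho k) = aeval (aOf k u b) := by
    apply MvPolynomial.algHom_ext
    intro p
    rw [AlgHom.comp_apply, rho, aeval_X, aeval_X]
    rfl
  exact DFunLike.congr_fun h f

theorem weight_wt_apply {n : ℕ} (μ : Sym2 (Fin n) →₀ ℕ) (i : Fin n) :
    Finsupp.weight wt μ i = ∑ p, μ p * wt p i := by
  rw [Finsupp.weight_apply, Finsupp.sum_fintype _ _ (by intro p; simp), Finsupp.finsetSum_apply]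
  rfl

/-- scaling the `k`-th row and column by `t` -/
noncomputable def scal (k : Fin (N + 1)) (t : ℂ) (a : Sym2 (Fin (N + 1)) → ℂ) :
    Sym2 (Fin (N + 1)) → ℂ := fun p => t ^ (wt p k) * a p

theorem aeval_scal (k : Fin (N + 1)) (t : ℂ) (a : Sym2 (Fin (N + 1)) → ℂ)
    {f : MvPolynomial (Sym2 (Fin (N + 1))) ℂ} {d : Fin (N + 1) →₀ ℕ}
    (hf : IsWeightedHomogeneous wt f d) : aeval (scal k t a) f = t ^ (d k) * aeval a f := by
  rw [aeval_eq_eval, aeval_eq_eval]
  show eval (scal k t a) f = t ^ (d k) * eval a f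
  rw [eval_eq', eval_eq', Finset.mul_sum]
  apply Finset.sum_congr rfl
  intro μ hμ
  have hwμ : Finsupp.weight wt μ = d := hf (mem_support_iff.mp hμ)
  have h1 : ∏ p, (scal k t a p) ^ μ p = t ^ (d k) * ∏ p, a p ^ μ p := by
    rw [← hwμ, weight_wt_apply, ← Finset.prod_pow_eq_pow_sum, ← Finset.prod_mul_distrib]
    apply Finset.prod_congr rfl
    intro p _
    rw [scal, mul_pow, ← pow_mul, mul_comm (wt p k)]
  rw [h1]
  ring

theorem symMat_scal (k : Fin (N + 1)) (t : ℂ) (a : Sym2 (Fin (N + 1)) → ℂ)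
    (r c : Fin (N + 1)) :
    symMat (scal k t a) r c = (if r = k then t else 1) * symMat a r c * (if c = k then t else 1) := by
  show t ^ (wt s(r, c) k) * a s(r, c) = (if r = k then t else 1) * a s(r, c) *
    (if c = k then t else 1)
  rw [wt_mk, Finsupp.add_apply, Finsupp.single_apply, Finsupp.single_apply]
  by_cases hr : r = k <;> by_cases hc : c = k <;> simp [hr, hc] <;> ring

theorem scal_mem {n m : ℕ} {z : Equiv.Perm (Fin n)} (k : Fin (n + m + 1)) (t : ℂ)
    {a : Sym2 (Fin (n + m + 1)) → ℂ} (ha : a ∈ MX (oneTimes z (m + 1))) :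
    scal k t a ∈ MX (oneTimes z (m + 1)) := by
  classical
  intro i j hi hj
  refine le_trans ?_ (ha i j hi hj)
  have h1 : block (symMat (scal k t a)) i j =
      Matrix.diagonal (fun r : {r : Fin (n + m + 1) // (r : ℕ) < i} => if r.1 = k then t else 1) *
      block (symMat a) i j *
      Matrix.diagonal (fun c : {c : Fin (n + m + 1) // (c : ℕ) < j} => if c.1 = k then t else 1) := by
    ext r c
    rw [Matrix.mul_diagonal, Matrix.diagonal_mul]
    exact symMat_scal k t a r.1 c.1
  rw [h1]
  exact (Matrix.rank_mul_le_left _ _).trans (Matrix.rank_mul_le_right _ _)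

theorem pos_of_lt (k : Fin (N + 1)) {D : ℕ} {d : Fin N →₀ ℕ} (hD : Finsupp.degree d < D)
    {μ : Sym2 (Fin (N + 1)) →₀ ℕ} (hμ : Finsupp.weight wt μ = ins k D d) : μ s(k, k) ≠ 0 := by
  intro h0
  have h1 : D = ∑ p, μ p * wt p k := by
    rw [← weight_wt_apply, hμ, ins_self]
  have h2 : Finsupp.degree d = ∑ p, μ p * ∑ j, wt p (k.succAbove j) := by
    rw [Finsupp.degree_eq_sum]
    have h3 : ∀ j, d j = ∑ p, μ p * wt p (k.succAbove j) := by
      intro j
      rw [← weight_wt_apply, hμ, ins_succAbove]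
    rw [Finset.sum_congr rfl (fun j _ => h3 j), Finset.sum_comm]
    apply Finset.sum_congr rfl
    intro p _
    rw [Finset.mul_sum]
  have h4 : D ≤ Finsupp.degree d := by
    rw [h1, h2]
    apply Finset.sum_le_sum
    intro p _
    by_cases hp : p = s(k, k)
    · rw [hp, h0, zero_mul, zero_mul]
    · apply Nat.mul_le_mul_left
      induction p using Sym2.ind with
      | _ x y =>
        rw [wt_mk]
        rcases Fin.eq_self_or_eq_succAbove k x with rfl | ⟨x', rfl⟩
        · rcases Fin.eq_self_or_eq_succAbove x y with rfl | ⟨y', rfl⟩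
          · exact absurd rfl hp
          · calc (Finsupp.single x 1 + Finsupp.single (x.succAbove y') 1 : Fin (N + 1) →₀ ℕ) x = 1 := by
                  rw [Finsupp.add_apply, Finsupp.single_eq_same,
                    Finsupp.single_eq_of_ne (Fin.succAbove_ne x y').symm, add_zero]
              _ ≤ (Finsupp.single x 1 + Finsupp.single (x.succAbove y') 1 : Fin (N + 1) →₀ ℕ)
                    (x.succAbove y') := by
                  rw [Finsupp.add_apply, Finsupp.single_eq_same]; omega
              _ ≤ _ := Finset.single_le_sum (f := fun j =>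
                    (Finsupp.single x 1 + Finsupp.single (x.succAbove y') 1 : Fin (N + 1) →₀ ℕ)
                    (x.succAbove j)) (fun _ _ => Nat.zero_le _) (Finset.mem_univ y')
        · rcases Fin.eq_self_or_eq_succAbove k y with rfl | ⟨y', rfl⟩
          · calc (Finsupp.single (y.succAbove x') 1 + Finsupp.single y 1 : Fin (N + 1) →₀ ℕ) y = 1 := by
                  rw [Finsupp.add_apply, Finsupp.single_eq_same,
                    Finsupp.single_eq_of_ne (Fin.succAbove_ne y x').symm]
              _ ≤ (Finsupp.single (y.succAbove x') 1 + Finsupp.single y 1 : Fin (N + 1) →₀ ℕ)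
                    (y.succAbove x') := by
                  rw [Finsupp.add_apply, Finsupp.single_eq_same]; omega
              _ ≤ _ := Finset.single_le_sum (f := fun j =>
                    (Finsupp.single (y.succAbove x') 1 + Finsupp.single y 1 : Fin (N + 1) →₀ ℕ)
                    (y.succAbove j)) (fun _ _ => Nat.zero_le _) (Finset.mem_univ x')
          · rw [Finsupp.add_apply, Finsupp.single_eq_of_ne (Fin.succAbove_ne k x').symm,
              Finsupp.single_eq_of_ne (Fin.succAbove_ne k y').symm]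
            exact Nat.zero_le _
  omega

/-- Step 2 -/
theorem mem_I_iff {n m : ℕ} (z : Equiv.Perm (Fin n)) {k : Fin (n + m + 1)} (hk : (k : ℕ) ≤ m)
    {D : ℕ} {d : Fin (n + m) →₀ ℕ} (hD : Finsupp.degree d < D)
    {f : MvPolynomial (Sym2 (Fin (n + m + 1))) ℂ}
    (hf : IsWeightedHomogeneous wt f (ins k D d)) :
    f ∈ I (oneTimes z (m + 1)) ↔ ∀ (u : Fin (n + m) → ℂ), ∀ b ∈ MX (oneTimes z m),
      aeval (Sum.elim u b) (rho k f) = 0 := by
  constructor
  · intro h u b hb
    rw [aeval_rho]
    exact h _ ((mem_MX_iff z hk (aOf_kk k u b) (symMat_schur k u b)).mpr hb)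
  · intro h
    show ∀ a : Sym2 (Fin (n + m + 1)) → ℂ, a ∈ MX (oneTimes z (m + 1)) → aeval a f = 0
    intro a ha
    by_cases hakk : a s(k, k) = 0
    · rw [aeval_eq_eval]
      show eval a f = 0
      rw [eval_eq']
      apply Finset.sum_eq_zero
      intro μ hμ
      have h1 := pos_of_lt k hD (hf (mem_support_iff.mp hμ))
      rw [Finset.prod_eq_zero (Finset.mem_univ s(k, k)), mul_zero]
      rw [hakk, zero_pow h1]
    · obtain ⟨t, ht⟩ := IsAlgClosed.exists_pow_nat_eq (a s(k, k))⁻¹ (n := 2) (by norm_num)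
      have ht0 : t ≠ 0 := by
        rintro rfl
        rw [zero_pow two_ne_zero] at ht
        exact hakk (inv_eq_zero.mp ht.symm)
      have ha' := scal_mem k t ha
      have hkk : scal k t a s(k, k) = 1 := by
        rw [scal, wt_mk, Finsupp.add_apply, Finsupp.single_eq_same, ht, inv_mul_cancel₀ hakk]
      set a' := scal k t a with ha'def
      let u : Fin (n + m) → ℂ := fun j => a' s(k, k.succAbove j)
      let b : Sym2 (Fin (n + m)) → ℂ := fun p => Sym2.lift
        ⟨fun i j => a' s(k.succAbove i, k.succAbove j) - u i * u j, fun i j => by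
          beta_reduce
          rw [Sym2.eq_swap (a := k.succAbove i), mul_comm (u i)]⟩ p
      have hb : ∀ i j, b s(i, j) = a' s(k.succAbove i, k.succAbove j) - u i * u j :=
        fun _ _ => rfl
      have haOf : aOf k u b = a' := by
        funext p
        induction p using Sym2.ind with
        | _ x y =>
          rcases Fin.eq_self_or_eq_succAbove k x with rfl | ⟨x', rfl⟩
          · rcases Fin.eq_self_or_eq_succAbove x y with rfl | ⟨y', rfl⟩
            · rw [aOf_kk, hkk]
            · rw [aOf_kj]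
          · rcases Fin.eq_self_or_eq_succAbove k y with rfl | ⟨y', rfl⟩
            · rw [aOf_jk, Sym2.eq_swap]
            · rw [aOf_ij, hb]; ring
      have hbM : b ∈ MX (oneTimes z m) := by
        refine (mem_MX_iff z hk hkk ?_).mp ha'
        have := symMat_schur k u b
        rwa [haOf] at this
      have h1 := h u b hbM
      rw [aeval_rho, haOf, ha'def, aeval_scal k t a hf] at h1
      rcases mul_eq_zero.mp h1 with h2 | h2
      · exact absurd h2 (pow_ne_zero _ ht0)
      · exact h2

end Pool.Agent.Helper32.OG
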