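import Mathlib
import Pool.Agent.Helper32.OGSlice2

/-! The slice `A_kk = 1` and the Hilbert function, III. -/

set_option linter.unusedSectionVars false
set_option linter.style.haveILetI false

namespace Pool.Agent.Helper32.OG

open MvPolynomial

variable {N : ℕ}

/-- evaluation on `ℂ^N × Y` -/
noncomputable def ev1 (Y : Set (Sym2 (Fin N) → ℂ)) :
    MvPolynomial (Fin N ⊕ Sym2 (Fin N)) ℂ →ₗ[ℂ] ((Fin N → ℂ) × Y → ℂ) where
  toFun g x := aeval (Sum.elim x.1 x.2.1) g
  map_add' f g := by ext x; simp
  map_smul' c g := by ext x; simp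

theorem ev1_eq_zero {Y : Set (Sym2 (Fin N) → ℂ)} {g : MvPolynomial (Fin N ⊕ Sym2 (Fin N)) ℂ} :
    ev1 Y g = 0 ↔ ∀ (u : Fin N → ℂ), ∀ b ∈ Y, aeval (Sum.elim u b) g = 0 := by
  constructor
  · intro h u b hb
    exact congrFun h (u, ⟨b, hb⟩)
  · intro h
    ext x
    exact h x.1 x.2.1 x.2.2

/-- the product decomposition of the polynomials of weight `d` in `u, B` -/
noncomputable def TT (d : Fin N →₀ ℕ) :
    ((x : {x // x ∈ Finset.HasAntidiagonal.antidiagonal d}) →
      weightedHomogeneousSubmodule ℂ (wt (n := N)) x.1.2) →ₗ[ℂ]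
      MvPolynomial (Fin N ⊕ Sym2 (Fin N)) ℂ where
  toFun g := ∑ x : {x // x ∈ Finset.HasAntidiagonal.antidiagonal d},
    rename Sum.inl (monomial x.1.1 (1 : ℂ)) * rename Sum.inr (g x).1
  map_add' f g := by
    rw [← Finset.sum_add_distrib]
    apply Finset.sum_congr rfl
    intro x _
    rw [Pi.add_apply, Submodule.coe_add, map_add, mul_add]
  map_smul' c g := by
    rw [RingHom.id_apply, Finset.smul_sum]
    apply Finset.sum_congr rfl
    intro x _
    rw [Pi.smul_apply, Submodule.coe_smul, map_smul, mul_smul_comm]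

theorem TT_apply (d : Fin N →₀ ℕ) (g : (x : {x // x ∈ Finset.HasAntidiagonal.antidiagonal d}) →
      weightedHomogeneousSubmodule ℂ (wt (n := N)) x.1.2) :
    TT d g = ∑ x : {x // x ∈ Finset.HasAntidiagonal.antidiagonal d},
    rename Sum.inl (monomial x.1.1 (1 : ℂ)) * rename Sum.inr (g x).1 := rfl

theorem rename_eq {τ τ' : Type*} (g : τ → τ') (f : MvPolynomial τ ℂ) :
    rename g f = aeval (fun p => (X (g p) : MvPolynomial τ' ℂ)) f := by
  have : (rename g : MvPolynomial τ ℂ →ₐ[ℂ] MvPolynomial τ' ℂ) = aeval (fun p => X (g p)) := by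
    apply MvPolynomial.algHom_ext
    intro i
    rw [rename_X, aeval_X]
  exact DFunLike.congr_fun this f

theorem isWH_rename_inr {f : MvPolynomial (Sym2 (Fin N)) ℂ} {e : Fin N →₀ ℕ}
    (hf : IsWeightedHomogeneous wt f e) :
    IsWeightedHomogeneous wS (rename (Sum.inr : _ → Fin N ⊕ Sym2 (Fin N)) f) e := by
  have h := isWH_aeval (w' := wS) (AddMonoidHom.id _)
    (fun p => (X (Sum.inr p) : MvPolynomial (Fin N ⊕ Sym2 (Fin N)) ℂ))
    (fun p => isWeightedHomogeneous_X ℂ wS (Sum.inr p)) hf
  rw [rename_eq]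
  exact h

theorem isWH_rename_inl (v : Fin N →₀ ℕ) :
    IsWeightedHomogeneous wS (rename (Sum.inl : _ → Fin N ⊕ Sym2 (Fin N)) (monomial v (1 : ℂ))) v := by
  have h0 : IsWeightedHomogeneous (fun j : Fin N => (Finsupp.single j 1 : Fin N →₀ ℕ))
      (monomial v (1 : ℂ)) v := by
    apply isWeightedHomogeneous_monomial
    rw [Finsupp.weight_apply]
    conv_rhs => rw [← Finsupp.sum_single v]
    apply Finsupp.sum_congr
    intro j _
    rw [Finsupp.smul_single, smul_eq_mul, mul_one]
  have h := isWH_aeval (w' := wS) (AddMonoidHom.id _)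
    (fun p => (X (Sum.inl p) : MvPolynomial (Fin N ⊕ Sym2 (Fin N)) ℂ))
    (fun p => isWeightedHomogeneous_X ℂ wS (Sum.inl p)) h0
  rw [rename_eq]
  exact h

theorem range_TT (d : Fin N →₀ ℕ) :
    LinearMap.range (TT d) = weightedHomogeneousSubmodule ℂ wS d := by
  classical
  apply le_antisymm
  · rintro _ ⟨g, rfl⟩
    rw [TT_apply]
    apply Submodule.sum_mem
    rintro x _
    have h1 := (isWH_rename_inl x.1.1).mul (isWH_rename_inr (g x).2)
    rwa [Finset.HasAntidiagonal.mem_antidiagonal.mp x.2] at h1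
  · intro f hf
    rw [as_sum f]
    apply Submodule.sum_mem
    intro κ hκ
    set v : Fin N →₀ ℕ := κ.comapDomain Sum.inl Sum.inl_injective.injOn with hv
    set ν : Sym2 (Fin N) →₀ ℕ := κ.comapDomain Sum.inr Sum.inr_injective.injOn with hν
    have hκ' : κ = Finsupp.mapDomain Sum.inl v + Finsupp.mapDomain Sum.inr ν := by
      ext s
      cases s with
      | inl j =>
        rw [Finsupp.add_apply, Finsupp.mapDomain_apply Sum.inl_injective,
          Finsupp.mapDomain_of_notMem_range _ _ (by rintro ⟨p, hp⟩; cases hp), add_zero]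
        rfl
      | inr p =>
        rw [Finsupp.add_apply, Finsupp.mapDomain_apply Sum.inr_injective,
          Finsupp.mapDomain_of_notMem_range _ _ (by rintro ⟨p, hp⟩; cases hp), zero_add]
        rfl
    have hwκ : v + Finsupp.weight wt ν = d := by
      have h1 : Finsupp.weight wS κ = d := hf (mem_support_iff.mp hκ)
      rw [hκ', map_add] at h1
      have h2 : Finsupp.weight wS (Finsupp.mapDomain Sum.inl v) = v := by
        rw [Finsupp.weight_apply, Finsupp.sum_mapDomain_index (by simp)
          (by intros; rw [add_smul])]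
        conv_rhs => rw [← Finsupp.sum_single v]
        apply Finsupp.sum_congr
        intro j _
        show v j • Finsupp.single j 1 = _
        rw [Finsupp.smul_single, smul_eq_mul, mul_one]
      have h3 : Finsupp.weight wS (Finsupp.mapDomain Sum.inr ν) = Finsupp.weight wt ν := by
        rw [Finsupp.weight_apply, Finsupp.weight_apply, Finsupp.sum_mapDomain_index (by simp)
          (by intros; rw [add_smul])]
        rfl
      rwa [h2, h3] at h1
    let x0 : {x // x ∈ Finset.HasAntidiagonal.antidiagonal d} :=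
      ⟨(v, Finsupp.weight wt ν), Finset.HasAntidiagonal.mem_antidiagonal.mpr hwκ⟩
    refine ⟨Pi.single x0 ⟨monomial ν (coeff κ f), isWeightedHomogeneous_monomial wt _ _ rfl⟩, ?_⟩
    rw [TT_apply, Finset.sum_eq_single x0]
    · rw [Pi.single_eq_same]
      show rename Sum.inl (monomial v (1 : ℂ)) * rename Sum.inr (monomial ν (coeff κ f)) = _
      rw [rename_monomial, rename_monomial, monomial_mul, one_mul, ← hκ']
    · intro x _ hx
      rw [Pi.single_eq_of_ne hx, Submodule.coe_zero, map_zero, mul_zero]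
    · intro h; exact absurd (Finset.mem_univ _) h

theorem ev1_TT (Y : Set (Sym2 (Fin N) → ℂ)) (d : Fin N →₀ ℕ)
    (g : (x : {x // x ∈ Finset.HasAntidiagonal.antidiagonal d}) →
      weightedHomogeneousSubmodule ℂ (wt (n := N)) x.1.2) :
    ev1 Y (TT d g) = 0 ↔ ∀ x, (g x).1 ∈ vanishingIdeal ℂ Y := by
  classical
  have haev : ∀ (u : Fin N → ℂ) (b : Sym2 (Fin N) → ℂ), aeval (Sum.elim u b) (TT d g) =
      eval u (∑ x : {x // x ∈ Finset.HasAntidiagonal.antidiagonal d}, monomial x.1.1 (aeval b (g x).1)) := by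
    intro u b
    rw [TT_apply, map_sum, map_sum]
    apply Finset.sum_congr rfl
    intro x _
    rw [map_mul, aeval_rename, aeval_rename, Sum.elim_comp_inl, Sum.elim_comp_inr, aeval_monomial,
      eval_monomial, map_one, one_mul, mul_comm]
  rw [ev1_eq_zero]
  constructor
  · intro h x b hb
    have h1 : (∑ x : {x // x ∈ Finset.HasAntidiagonal.antidiagonal d}, monomial x.1.1 (aeval b (g x).1)) =
        (0 : MvPolynomial (Fin N) ℂ) := by
      apply MvPolynomial.funext
      intro u
      rw [← haev, h u b hb, map_zero]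
    have h2 := congrArg (coeff x.1.1) h1
    rw [coeff_sum, Finset.sum_eq_single x, coeff_monomial, if_pos rfl, coeff_zero] at h2
    · exact h2
    · intro y _ hy
      rw [coeff_monomial, if_neg]
      intro hxy
      apply hy
      apply Subtype.ext
      have e1 := Finset.HasAntidiagonal.mem_antidiagonal.mp x.2
      have e2 := Finset.HasAntidiagonal.mem_antidiagonal.mp y.2
      rw [hxy] at e2
      exact Prod.ext hxy (add_left_cancel (e2.trans e1.symm))
    · intro h; exact absurd (Finset.mem_univ _) h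
  · intro h u b hb
    rw [haev]
    have : (∑ x : {x // x ∈ Finset.HasAntidiagonal.antidiagonal d}, monomial x.1.1 (aeval b (g x).1)) =
        (0 : MvPolynomial (Fin N) ℂ) := by
      apply Finset.sum_eq_zero
      intro x _
      rw [h x b hb, monomial_zero]
    rw [this, map_zero]

/-- Step 4 -/
theorem finrank_slice (w : Equiv.Perm (Fin N)) (d : Fin N →₀ ℕ) :
    Module.finrank ℂ ((weightedHomogeneousSubmodule ℂ wS d).map (ev1 (MX w))) =
      ∑ x ∈ Finset.HasAntidiagonal.antidiagonal d, hilb w x.2 := by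
  classical
  haveI : ∀ x : {x // x ∈ Finset.HasAntidiagonal.antidiagonal d},
      Module.Finite ℂ (weightedHomogeneousSubmodule ℂ (wt (n := N)) x.1.2) :=
    fun x => finite_whs wt_ne_zero _
  let π : MvPolynomial (Sym2 (Fin N)) ℂ →ₗ[ℂ] (MvPolynomial (Sym2 (Fin N)) ℂ ⧸ I w) :=
    (Ideal.Quotient.mkₐ ℂ (I w)).toLinearMap
  have hπ0 : ∀ f, π f = 0 ↔ f ∈ I w := fun f => Ideal.Quotient.eq_zero_iff_mem
  let Ψ : ((x : {x // x ∈ Finset.HasAntidiagonal.antidiagonal d}) →
      weightedHomogeneousSubmodule ℂ (wt (n := N)) x.1.2) →ₗ[ℂ]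
      ((x : {x // x ∈ Finset.HasAntidiagonal.antidiagonal d}) →
        (weightedHomogeneousSubmodule ℂ (wt (n := N)) x.1.2).map π) :=
    { toFun := fun g x => ⟨π (g x).1, Submodule.mem_map_of_mem (g x).2⟩
      map_add' := by
        intro f g
        funext x
        apply Subtype.ext
        show π ((f x).1 + (g x).1) = π (f x).1 + π (g x).1
        rw [map_add]
      map_smul' := by
        intro c g
        funext x
        apply Subtype.ext
        show π (c • (g x).1) = c • π (g x).1
        rw [map_smul] }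
  have hΨ : ∀ g x, ((Ψ g x : (weightedHomogeneousSubmodule ℂ (wt (n := N)) x.1.2).map π) :
      MvPolynomial (Sym2 (Fin N)) ℂ ⧸ I w) = π (g x).1 := fun _ _ => rfl
  have hsurj : LinearMap.range Ψ = ⊤ := by
    rw [LinearMap.range_eq_top]
    intro y
    choose g hg hgy using fun x => (y x).2
    refine ⟨fun x => ⟨g x, hg x⟩, ?_⟩
    funext x
    apply Subtype.ext
    exact hgy x
  rw [← range_TT, ← Submodule.map_top, ← Submodule.map_comp]
  have h1 := finrank_map_eq ((ev1 (MX w)).comp (TT d)) Ψ ⊤ (by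
    intro g _
    rw [LinearMap.comp_apply, ev1_TT]
    constructor
    · intro h
      funext x
      apply Subtype.ext
      rw [hΨ]
      exact (hπ0 _).mpr (h x)
    · intro h x
      have := congrFun h x
      have h2 : π (g x).1 = 0 := by
        rw [← hΨ, this]; rfl
      exact (hπ0 _).mp h2)
  rw [h1, Submodule.map_top, hsurj, finrank_top, Module.finrank_pi_fintype]
  rw [← Finset.sum_coe_sort (Finset.HasAntidiagonal.antidiagonal d) (fun x => hilb w x.2)]
  rfl

/-- The Hilbert function for large `k`-th exponent. -/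
theorem hilb_large {n m : ℕ} (z : Equiv.Perm (Fin n)) {k : Fin (n + m + 1)} (hk : (k : ℕ) ≤ m)
    (d : Fin (n + m) →₀ ℕ) {t : ℕ} (ht : 0 < t) :
    hilb (oneTimes z (m + 1)) (ins k (Finsupp.degree d + 2 * t) d) =
      ∑ x ∈ Finset.HasAntidiagonal.antidiagonal d, hilb (oneTimes z m) x.2 := by
  rw [← finrank_slice, ← map_rho_eq k d t, ← Submodule.map_comp]
  apply finrank_map_eq
  intro f hf
  rw [LinearMap.comp_apply]
  have h1 := mem_I_iff z hk (D := Finsupp.degree d + 2 * t) (d := d) (by omega) hf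
  have h2 : (Ideal.Quotient.mkₐ ℂ (I (oneTimes z (m + 1)))).toLinearMap f = 0 ↔
      f ∈ I (oneTimes z (m + 1)) := Ideal.Quotient.eq_zero_iff_mem
  rw [h2, ev1_eq_zero]
  exact h1

theorem degree_wt {n : ℕ} (p : Sym2 (Fin n)) : Finsupp.degree (wt p) = 2 := by
  induction p using Sym2.ind with
  | _ i j => rw [wt_mk, map_add, Finsupp.degree_single, Finsupp.degree_single]

theorem degree_ins (k : Fin (N + 1)) (D : ℕ) (d : Fin N →₀ ℕ) :
    Finsupp.degree (ins k D d) = D + Finsupp.degree d := by
  rw [ins, map_add, Finsupp.degree_single]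
  congr 1
  rw [Finsupp.degree_eq_sum, Finsupp.degree_eq_sum]
  rw [Fin.sum_univ_succAbove _ k, Finsupp.mapDomain_of_notMem_range _ _ (by
    rintro ⟨j, hj⟩; exact Fin.succAbove_ne k j hj), zero_add]
  apply Finset.sum_congr rfl
  intro j _
  rw [Finsupp.mapDomain_apply Fin.succAbove_right_injective]

theorem hilb_odd {n : ℕ} (z : Equiv.Perm (Fin n)) {d : Fin n →₀ ℕ}
    (hd : Finsupp.degree d % 2 = 1) : hilb z d = 0 := by
  have h0 : weightedHomogeneousSubmodule ℂ (wt (n := n)) d = ⊥ := by
    rw [eq_bot_iff]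
    intro f hf
    rw [Submodule.mem_bot]
    by_contra hf0
    obtain ⟨μ, hμ⟩ := support_nonempty.mpr hf0
    have h1 : Finsupp.weight wt μ = d := hf (mem_support_iff.mp hμ)
    have h2 : Finsupp.degree d = 2 * Finsupp.degree μ := by
      rw [← h1, Finsupp.weight_apply, Finsupp.sum, map_sum, Finsupp.degree_apply, Finset.mul_sum]
      apply Finset.sum_congr rfl
      intro p _
      rw [map_nsmul, degree_wt, smul_eq_mul, mul_comm]
    omega
  unfold hilb
  rw [h0, Submodule.map_bot, finrank_bot]

end Pool.Agent.Helper32.OG
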