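import Mathlib
import Pool.Agent.Helper32.OGSlice3

/-! Specialisation `a_k = 1` of the `K`-polynomial. -/

set_option linter.unusedSectionVars false
set_option linter.style.haveILetI false

namespace Pool.Agent.Helper32.OG

open MvPolynomial

variable {N : ℕ}

theorem coe_sub' {ι : Type*} (a b : MvPolynomial ι ℤ) :
    ((a - b : MvPolynomial ι ℤ) : MvPowerSeries ι ℤ) =
    (a : MvPowerSeries ι ℤ) - (b : MvPowerSeries ι ℤ) :=
  map_sub (MvPolynomial.coeToMvPowerSeries.ringHom (σ := ι) (R := ℤ)) a b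

theorem coe_prod' {ι κ : Type*} (s : Finset κ) (f : κ → MvPolynomial ι ℤ) :
    ((∏ x ∈ s, f x : MvPolynomial ι ℤ) : MvPowerSeries ι ℤ) =
    ∏ x ∈ s, (f x : MvPowerSeries ι ℤ) :=
  map_prod (MvPolynomial.coeToMvPowerSeries.ringHom (σ := ι) (R := ℤ)) f s

theorem isKPoly_KPoly {n : ℕ} (z : Equiv.Perm (Fin n)) : IsKPoly z (KPoly z) := by
  classical
  have h : ∃ K, IsKPoly z K := exists_kpoly wt_ne_zero (I z)
  unfold KPoly
  rw [dif_pos h]
  exact h.choose_spec

/-- summation over the `k`-th exponent -/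
def HasL (k : Fin (N + 1)) (F : MvPowerSeries (Fin (N + 1)) ℤ) (G : MvPowerSeries (Fin N) ℤ) :
    Prop := ∀ d, ∃ T0, ∀ T ≥ T0,
      ∑ t ∈ Finset.range T, MvPowerSeries.coeff (ins k t d) F = MvPowerSeries.coeff d G

theorem HasL.unique {k : Fin (N + 1)} {F : MvPowerSeries (Fin (N + 1)) ℤ}
    {G G' : MvPowerSeries (Fin N) ℤ} (h : HasL k F G) (h' : HasL k F G') : G = G' := by
  ext d
  obtain ⟨T, hT⟩ := h d
  obtain ⟨T', hT'⟩ := h' d
  rw [← hT (max T T') (le_max_left _ _), ← hT' (max T T') (le_max_right _ _)]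

theorem HasL.add {k : Fin (N + 1)} {F F' : MvPowerSeries (Fin (N + 1)) ℤ}
    {G G' : MvPowerSeries (Fin N) ℤ} (h : HasL k F G) (h' : HasL k F' G') :
    HasL k (F + F') (G + G') := by
  intro d
  obtain ⟨T, hT⟩ := h d
  obtain ⟨T', hT'⟩ := h' d
  refine ⟨max T T', fun t ht => ?_⟩
  rw [map_add, ← hT t ((le_max_left _ _).trans ht), ← hT' t ((le_max_right _ _).trans ht),
    ← Finset.sum_add_distrib]
  rfl

theorem HasL.zero {k : Fin (N + 1)} : HasL k 0 0 := by
  intro d
  exact ⟨0, fun T _ => by simp⟩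

theorem ins_le_iff (k : Fin (N + 1)) (p : Fin (N + 1) →₀ ℕ) (t : ℕ) (d : Fin N →₀ ℕ) :
    p ≤ ins k t d ↔ p k ≤ t ∧ dropHom k p ≤ d := by
  constructor
  · intro h
    refine ⟨?_, ?_⟩
    · have := h k
      rwa [ins_self] at this
    · intro j
      have := h (k.succAbove j)
      rwa [ins_succAbove] at this
  · rintro ⟨h1, h2⟩ i
    rcases Fin.eq_self_or_eq_succAbove k i with rfl | ⟨j, rfl⟩
    · rw [ins_self]; exact h1
    · rw [ins_succAbove]; exact h2 j

theorem ins_sub (k : Fin (N + 1)) (p : Fin (N + 1) →₀ ℕ) (t : ℕ) (d : Fin N →₀ ℕ) :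
    ins k t d - p = ins k (t - p k) (d - dropHom k p) := by
  ext i
  rcases Fin.eq_self_or_eq_succAbove k i with rfl | ⟨j, rfl⟩
  · rw [Finsupp.tsub_apply, ins_self, ins_self]
  · rw [Finsupp.tsub_apply, ins_succAbove, ins_succAbove]; rfl

theorem HasL.mul_monomial {k : Fin (N + 1)} {F : MvPowerSeries (Fin (N + 1)) ℤ}
    {G : MvPowerSeries (Fin N) ℤ} (h : HasL k F G) (p : Fin (N + 1) →₀ ℕ) (c : ℤ) :
    HasL k (F * MvPowerSeries.monomial p c) (G * MvPowerSeries.monomial (dropHom k p) c) := by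
  classical
  intro d
  by_cases hd : dropHom k p ≤ d
  · obtain ⟨T0, hT0⟩ := h (d - dropHom k p)
    refine ⟨T0 + p k, fun T hT => ?_⟩
    rw [MvPowerSeries.coeff_mul_monomial, if_pos hd, ← hT0 (T - p k) (by omega), Finset.sum_mul]
    obtain ⟨S, rfl⟩ : ∃ S, T = p k + S := ⟨T - p k, by omega⟩
    rw [add_tsub_cancel_left, Finset.sum_range_add]
    have h0 : ∑ t ∈ Finset.range (p k),
        MvPowerSeries.coeff (ins k t d) (F * MvPowerSeries.monomial p c) = 0 := by
      apply Finset.sum_eq_zero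
      intro t ht
      rw [MvPowerSeries.coeff_mul_monomial, if_neg]
      rw [ins_le_iff]
      rintro ⟨h1, _⟩
      rw [Finset.mem_range] at ht
      omega
    rw [h0, zero_add]
    apply Finset.sum_congr rfl
    intro t _
    rw [MvPowerSeries.coeff_mul_monomial, if_pos ((ins_le_iff k p _ d).mpr ⟨by omega, hd⟩),
      ins_sub, add_tsub_cancel_left]
  · refine ⟨0, fun T _ => ?_⟩
    rw [MvPowerSeries.coeff_mul_monomial, if_neg hd]
    apply Finset.sum_eq_zero
    intro t _
    rw [MvPowerSeries.coeff_mul_monomial, if_neg]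
    rw [ins_le_iff]
    rintro ⟨_, h2⟩
    exact hd h2

/-- the values of the specialisation `a_k = 1` -/
noncomputable def spv (k : Fin (N + 1)) : Fin (N + 1) → MvPolynomial (Fin N) ℤ :=
  Fin.insertNth (α := fun _ => MvPolynomial (Fin N) ℤ) k 1 (fun j => X j)

theorem spv_self (k : Fin (N + 1)) : spv k k = 1 :=
  Fin.insertNth_apply_same (α := fun _ => MvPolynomial (Fin N) ℤ) k 1 (fun j => X j)

theorem spv_succAbove (k : Fin (N + 1)) (j : Fin N) : spv k (k.succAbove j) = X j :=
  Fin.insertNth_apply_succAbove (α := fun _ => MvPolynomial (Fin N) ℤ) k 1 (fun j => X j) j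

/-- the specialisation `a_k = 1` -/
noncomputable def sp (k : Fin (N + 1)) (P : MvPolynomial (Fin (N + 1)) ℤ) :
    MvPolynomial (Fin N) ℤ :=
  aeval (spv k) P

theorem sp_monomial (k : Fin (N + 1)) (p : Fin (N + 1) →₀ ℕ) (c : ℤ) :
    sp k (monomial p c) = monomial (dropHom k p) c := by
  unfold sp
  rw [aeval_monomial, Finsupp.prod_fintype _ _ (by intro i; rw [pow_zero]),
    Fin.prod_univ_succAbove _ k, monomial_eq, Finsupp.prod_fintype _ _ (by intro i; rw [pow_zero])]
  rw [spv_self, one_pow, one_mul]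
  congr 1
  apply Finset.prod_congr rfl
  intro j _
  rw [spv_succAbove]
  rfl

theorem HasL.mul_poly {k : Fin (N + 1)} {F : MvPowerSeries (Fin (N + 1)) ℤ}
    {G : MvPowerSeries (Fin N) ℤ} (h : HasL k F G) (P : MvPolynomial (Fin (N + 1)) ℤ) :
    HasL k (F * (P : MvPowerSeries (Fin (N + 1)) ℤ)) (G * (sp k P : MvPowerSeries (Fin N) ℤ)) := by
  induction P using MvPolynomial.induction_on' with
  | monomial p c =>
    rw [sp_monomial, MvPolynomial.coe_monomial, MvPolynomial.coe_monomial]
    exact h.mul_monomial p c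
  | add P Q hP hQ =>
    have h1 : sp k (P + Q) = sp k P + sp k Q := map_add _ _ _
    rw [h1, MvPolynomial.coe_add, MvPolynomial.coe_add, mul_add, mul_add]
    exact hP.add hQ

theorem HasL.one {k : Fin (N + 1)} : HasL k 1 1 := by
  classical
  intro d
  refine ⟨1, fun T hT => ?_⟩
  obtain ⟨S, rfl⟩ : ∃ S, T = 1 + S := ⟨T - 1, by omega⟩
  rw [Finset.sum_range_add, Finset.sum_range_one]
  have h0 : ∑ x ∈ Finset.range S, MvPowerSeries.coeff (ins k (1 + x) d)
      (1 : MvPowerSeries (Fin (N + 1)) ℤ) = 0 := by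
    apply Finset.sum_eq_zero
    intro t _
    rw [MvPowerSeries.coeff_one, if_neg]
    intro h
    have := DFunLike.congr_fun h k
    rw [ins_self, Finsupp.zero_apply] at this
    omega
  rw [h0, add_zero, MvPowerSeries.coeff_one, MvPowerSeries.coeff_one]
  congr 1
  rw [eq_iff_iff]
  constructor
  · intro h
    ext j
    have := DFunLike.congr_fun h (k.succAbove j)
    rwa [ins_succAbove] at this
  · rintro rfl
    ext i
    rcases Fin.eq_self_or_eq_succAbove k i with rfl | ⟨j, rfl⟩
    · rw [ins_self]; rfl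
    · rw [ins_succAbove]; rfl

/-- decomposition of the unordered pairs -/
theorem prod_sym2 {M : Type*} [CommMonoid M] (k : Fin (N + 1)) (f : Sym2 (Fin (N + 1)) → M) :
    ∏ p, f p = f s(k, k) * ((∏ j, f s(k, k.succAbove j)) *
      ∏ q : Sym2 (Fin N), f (Sym2.map k.succAbove q)) := by
  let e : Option (Fin N ⊕ Sym2 (Fin N)) → Sym2 (Fin (N + 1)) := fun o =>
    o.elim s(k, k) (Sum.elim (fun j => s(k, k.succAbove j)) (fun q => Sym2.map k.succAbove q))
  have hinj : Function.Injective (Sym2.map k.succAbove) :=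
    Sym2.map.injective Fin.succAbove_right_injective
  have hk : ∀ q : Sym2 (Fin N), k ∉ Sym2.map k.succAbove q := by
    intro q h
    rw [Sym2.mem_map] at h
    obtain ⟨j, _, hj⟩ := h
    exact Fin.succAbove_ne k j hj
  have hbij : Function.Bijective e := by
    constructor
    · intro a b hab
      rcases a with _ | a | a <;> rcases b with _ | b | b
      · rfl
      · exfalso
        have h1 : s(k, k) = s(k, k.succAbove b) := hab
        rw [Sym2.eq_iff] at h1
        rcases h1 with h1 | h1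
        · exact Fin.succAbove_ne k b h1.2.symm
        · exact Fin.succAbove_ne k b h1.1.symm
      · exfalso
        have h1 : s(k, k) = Sym2.map k.succAbove b := hab
        exact hk b (h1 ▸ Sym2.mem_mk_left k k)
      · exfalso
        have h1 : s(k, k.succAbove a) = s(k, k) := hab
        rw [Sym2.eq_iff] at h1
        rcases h1 with h1 | h1
        · exact Fin.succAbove_ne k a h1.2
        · exact Fin.succAbove_ne k a h1.2
      · have h1 : s(k, k.succAbove a) = s(k, k.succAbove b) := hab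
        rw [Sym2.eq_iff] at h1
        rcases h1 with h1 | h1
        · rw [Fin.succAbove_right_injective h1.2]
        · exact absurd h1.1.symm (Fin.succAbove_ne k b)
      · exfalso
        have h1 : s(k, k.succAbove a) = Sym2.map k.succAbove b := hab
        exact hk b (h1 ▸ Sym2.mem_mk_left k _)
      · exfalso
        have h1 : Sym2.map k.succAbove a = s(k, k) := hab
        exact hk a (h1.symm ▸ Sym2.mem_mk_left k k)
      · exfalso
        have h1 : Sym2.map k.succAbove a = s(k, k.succAbove b) := hab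
        exact hk a (h1.symm ▸ Sym2.mem_mk_left k _)
      · have h1 : Sym2.map k.succAbove a = Sym2.map k.succAbove b := hab
        rw [hinj h1]
    · intro p
      induction p using Sym2.ind with
      | _ x y =>
        rcases Fin.eq_self_or_eq_succAbove k x with rfl | ⟨x', rfl⟩
        · rcases Fin.eq_self_or_eq_succAbove x y with rfl | ⟨y', rfl⟩
          · exact ⟨none, rfl⟩
          · exact ⟨some (Sum.inl y'), rfl⟩
        · rcases Fin.eq_self_or_eq_succAbove k y with rfl | ⟨y', rfl⟩
          · exact ⟨some (Sum.inl x'), Sym2.eq_swap⟩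
          · exact ⟨some (Sum.inr s(x', y')), rfl⟩
  rw [← hbij.prod_comp f, Fintype.prod_option, Fintype.prod_sum_type]
  rfl

theorem dropHom_wt_kj (k : Fin (N + 1)) (j : Fin N) :
    dropHom k (wt s(k, k.succAbove j)) = Finsupp.single j 1 := by
  rw [wt_mk, map_add, dropHom_single_self, dropHom_single_succAbove, zero_add]

theorem dropHom_wt_map (k : Fin (N + 1)) (q : Sym2 (Fin N)) :
    dropHom k (wt (Sym2.map k.succAbove q)) = wt q := by
  induction q using Sym2.ind with
  | _ i j =>
    rw [Sym2.map_mk, wt_mk, wt_mk, map_add, dropHom_single_succAbove, dropHom_single_succAbove]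

/-- the power series with all coefficients one -/
def allOnes (N : ℕ) : MvPowerSeries (Fin N) ℤ := fun _ => 1

theorem allOnes_mul : allOnes N *
    ∏ j : Fin N, (1 - MvPowerSeries.monomial (Finsupp.single j 1) (1 : ℤ)) = 1 := by
  have h := gf_univ (w := fun j : Fin N => (Finsupp.single j 1 : Fin N →₀ ℕ)) (by
    intro s h
    have := DFunLike.congr_fun h s
    rw [Finsupp.single_eq_same, Finsupp.zero_apply] at this
    omega)
  have h1 : gf (fun j : Fin N => (Finsupp.single j 1 : Fin N →₀ ℕ)) Set.univ =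
      allOnes N := by
    funext d
    have h2 : {μ : Fin N →₀ ℕ | Finsupp.weight (fun j : Fin N => (Finsupp.single j 1 : Fin N →₀ ℕ)) μ
        = d} ∩ Set.univ = {d} := by
      ext μ
      rw [Set.inter_univ, Set.mem_singleton_iff]
      have h3 : Finsupp.weight (fun j : Fin N => (Finsupp.single j 1 : Fin N →₀ ℕ)) μ = μ := by
        rw [Finsupp.weight_apply]
        conv_rhs => rw [← Finsupp.sum_single μ]
        apply Finsupp.sum_congr
        intro j _
        rw [Finsupp.smul_single, smul_eq_mul, mul_one]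
      show Finsupp.weight (fun j : Fin N => (Finsupp.single j 1 : Fin N →₀ ℕ)) μ = d ↔ μ = d
      rw [h3]
    show (({μ : Fin N →₀ ℕ | Finsupp.weight (fun j : Fin N => (Finsupp.single j 1 : Fin N →₀ ℕ)) μ
        = d} ∩ Set.univ).ncard : ℤ) = 1
    rw [h2, Set.ncard_singleton]
    rfl
  rwa [h1] at h

/-- The specialisation theorem: `[MX_{1^{m+1} × z}]_{a_k = 1} = [MX_{1^m × z}]` for `k ≤ m + 1`. -/
theorem sp_KPoly {n m : ℕ} (z : Equiv.Perm (Fin n)) {k : Fin (n + m + 1)} (hk : (k : ℕ) ≤ m) :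
    sp k (KPoly (oneTimes z (m + 1))) = KPoly (oneTimes z m) := by
  classical
  -- the power series
  set H' : MvPowerSeries (Fin (n + m + 1)) ℤ := hilbSeries (oneTimes z (m + 1)) with hH'
  set H'' : MvPowerSeries (Fin (n + m)) ℤ := hilbSeries (oneTimes z m) with hH''
  set G0 : MvPowerSeries (Fin (n + m)) ℤ := allOnes (n + m) * H''
    with hG0
  have hG0c : ∀ d, MvPowerSeries.coeff d G0 =
      ((∑ x ∈ Finset.HasAntidiagonal.antidiagonal d, hilb (oneTimes z m) x.2 : ℕ) : ℤ) := by
    intro d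
    rw [hG0, MvPowerSeries.coeff_mul, Nat.cast_sum]
    apply Finset.sum_congr rfl
    intro x _
    show (1 : ℤ) * (hilb (oneTimes z m) x.2 : ℤ) = _
    rw [one_mul]
  have hF : HasL k (H' * (1 - MvPowerSeries.monomial (wt s(k, k)) (1 : ℤ))) G0 := by
    intro d
    have hc : ∀ t, MvPowerSeries.coeff (ins k t d)
        (H' * (1 - MvPowerSeries.monomial (wt s(k, k)) (1 : ℤ))) =
        (hilb (oneTimes z (m + 1)) (ins k t d) : ℤ) -
          (if 2 ≤ t then (hilb (oneTimes z (m + 1)) (ins k (t - 2) d) : ℤ) else 0) := by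
      intro t
      rw [mul_sub, mul_one, map_sub, MvPowerSeries.coeff_mul_monomial, mul_one]
      have h1 : wt s(k, k) k = 2 := by
        rw [wt_mk, Finsupp.add_apply, Finsupp.single_eq_same]
      have h2 : dropHom k (wt s(k, k)) = 0 := by
        rw [wt_mk, map_add, dropHom_single_self, add_zero]
      have h3 : (wt s(k, k) ≤ ins k t d) ↔ 2 ≤ t := by
        rw [ins_le_iff, h1, h2]
        constructor
        · rintro ⟨h, _⟩; exact h
        · intro h; exact ⟨h, fun _ => Nat.zero_le _⟩
      rw [ins_sub, h1, h2, tsub_zero]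
      by_cases ht : 2 ≤ t
      · rw [if_pos (h3.mpr ht), if_pos ht]; rfl
      · rw [if_neg (fun h => ht (h3.mp h)), if_neg ht]; rfl
    have hsum : ∀ T, ∑ t ∈ Finset.range (T + 2), MvPowerSeries.coeff (ins k t d)
        (H' * (1 - MvPowerSeries.monomial (wt s(k, k)) (1 : ℤ))) =
        (hilb (oneTimes z (m + 1)) (ins k (T + 1) d) : ℤ) +
        (hilb (oneTimes z (m + 1)) (ins k T d) : ℤ) := by
      intro T
      induction T with
      | zero =>
        rw [Finset.sum_range_succ, Finset.sum_range_one, hc, hc]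
        simp
        ring
      | succ T ih =>
        rw [show T + 1 + 2 = (T + 2) + 1 by ring, Finset.sum_range_succ, ih, hc,
          if_pos (by omega), show T + 2 - 2 = T by omega, show T + 1 + 1 = T + 2 by ring]
        ring
    refine ⟨Finsupp.degree d + 4, fun T hT => ?_⟩
    obtain ⟨S, rfl⟩ : ∃ S, T = S + 2 := ⟨T - 2, by omega⟩
    rw [hsum, hG0c]
    rcases Nat.mod_two_eq_zero_or_one (S + Finsupp.degree d) with hpar | hpar
    · have h1 : hilb (oneTimes z (m + 1)) (ins k (S + 1) d) = 0 := by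
        apply hilb_odd
        rw [degree_ins]; omega
      obtain ⟨t, ht⟩ : ∃ t, S = Finsupp.degree d + 2 * t := ⟨(S - Finsupp.degree d) / 2, by omega⟩
      have h2 := hilb_large z hk d (t := t) (by omega)
      rw [h1, ht, h2]
      simp
    · have h1 : hilb (oneTimes z (m + 1)) (ins k S d) = 0 := by
        apply hilb_odd
        rw [degree_ins]; omega
      obtain ⟨t, ht⟩ : ∃ t, S + 1 = Finsupp.degree d + 2 * t :=
        ⟨(S + 1 - Finsupp.degree d) / 2, by omega⟩
      have h2 := hilb_large z hk d (t := t) (by omega)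
      rw [h1, ht, h2]
      simp
  -- the remaining factors
  let P : MvPolynomial (Fin (n + m + 1)) ℤ :=
    (∏ j, (1 - monomial (wt s(k, k.succAbove j)) (1 : ℤ))) *
      ∏ q : Sym2 (Fin (n + m)), (1 - monomial (wt (Sym2.map k.succAbove q)) (1 : ℤ))
  have hK' : ((KPoly (oneTimes z (m + 1)) : MvPolynomial (Fin (n + m + 1)) ℤ) :
      MvPowerSeries (Fin (n + m + 1)) ℤ) =
      H' * (1 - MvPowerSeries.monomial (wt s(k, k)) (1 : ℤ)) *
        (P : MvPowerSeries (Fin (n + m + 1)) ℤ) := by
    have h1 : ((KPoly (oneTimes z (m + 1)) : MvPolynomial (Fin (n + m + 1)) ℤ) :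
        MvPowerSeries (Fin (n + m + 1)) ℤ) = H' * ∏ p : Sym2 (Fin (n + m + 1)),
          (1 - MvPowerSeries.monomial (wt p) (1 : ℤ)) := isKPoly_KPoly (oneTimes z (m + 1))
    rw [h1]
    rw [prod_sym2 k (fun p : Sym2 (Fin (n + m + 1)) =>
      (1 - MvPowerSeries.monomial (wt p) (1 : ℤ) : MvPowerSeries (Fin (n + m + 1)) ℤ)), mul_assoc]
    congr 2
    show _ = (((∏ j, (1 - monomial (wt s(k, k.succAbove j)) (1 : ℤ))) *
      ∏ q : Sym2 (Fin (n + m)), (1 - monomial (wt (Sym2.map k.succAbove q)) (1 : ℤ)) :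
      MvPolynomial (Fin (n + m + 1)) ℤ) : MvPowerSeries (Fin (n + m + 1)) ℤ)
    rw [MvPolynomial.coe_mul, coe_prod', coe_prod']
    congr 1
    · apply Finset.prod_congr rfl
      intro j _
      rw [coe_sub', MvPolynomial.coe_one, MvPolynomial.coe_monomial]
    · apply Finset.prod_congr rfl
      intro j _
      rw [coe_sub', MvPolynomial.coe_one, MvPolynomial.coe_monomial]
  have hspP : ((sp k P : MvPolynomial (Fin (n + m)) ℤ) : MvPowerSeries (Fin (n + m)) ℤ) =
      (∏ j : Fin (n + m), (1 - MvPowerSeries.monomial (Finsupp.single j 1) (1 : ℤ))) *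
      ∏ q : Sym2 (Fin (n + m)), (1 - MvPowerSeries.monomial (wt q) (1 : ℤ)) := by
    have h1 : sp k P = (∏ j, (1 - monomial (Finsupp.single j 1) (1 : ℤ))) *
        ∏ q : Sym2 (Fin (n + m)), (1 - monomial (wt q) (1 : ℤ)) := by
      have hsp : ∀ p, sp k (1 - monomial p (1 : ℤ)) = 1 - monomial (dropHom k p) 1 := by
        intro p
        have h2 : sp k (1 - monomial p (1 : ℤ)) = sp k 1 - sp k (monomial p 1) := map_sub _ _ _
        have h3 : sp k (1 : MvPolynomial (Fin (n + m + 1)) ℤ) = 1 := map_one _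
        rw [h2, h3, sp_monomial]
      have h4 : sp k P = (∏ j, sp k (1 - monomial (wt s(k, k.succAbove j)) (1 : ℤ))) *
        ∏ q : Sym2 (Fin (n + m)), sp k (1 - monomial (wt (Sym2.map k.succAbove q)) (1 : ℤ)) := by
        unfold sp
        rw [map_mul, map_prod, map_prod]
      rw [h4]
      congr 1
      · apply Finset.prod_congr rfl
        intro j _
        rw [hsp, dropHom_wt_kj]
      · apply Finset.prod_congr rfl
        intro q _
        rw [hsp, dropHom_wt_map]
    rw [h1, MvPolynomial.coe_mul, coe_prod', coe_prod']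
    congr 1
    · apply Finset.prod_congr rfl
      intro j _
      rw [coe_sub', MvPolynomial.coe_one, MvPolynomial.coe_monomial]
    · apply Finset.prod_congr rfl
      intro j _
      rw [coe_sub', MvPolynomial.coe_one, MvPolynomial.coe_monomial]
  have h1 := hF.mul_poly P
  rw [← hK'] at h1
  have h2 := (HasL.one (k := k)).mul_poly (KPoly (oneTimes z (m + 1)))
  rw [one_mul, one_mul] at h2
  have h3 := h2.unique h1
  have h4 : ((KPoly (oneTimes z m) : MvPolynomial (Fin (n + m)) ℤ) :
      MvPowerSeries (Fin (n + m)) ℤ) = G0 * (sp k P : MvPowerSeries (Fin (n + m)) ℤ) := by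
    have h5 := isKPoly_KPoly (oneTimes z m)
    unfold IsKPoly at h5
    rw [h5, hspP, hG0, ← hH'']
    calc H'' * ∏ p : Sym2 (Fin (n + m)), (1 - MvPowerSeries.monomial (wt p) (1 : ℤ))
        = (allOnes (n + m) *
            ∏ j : Fin (n + m), (1 - MvPowerSeries.monomial (Finsupp.single j 1) (1 : ℤ))) *
          (H'' * ∏ p : Sym2 (Fin (n + m)), (1 - MvPowerSeries.monomial (wt p) (1 : ℤ))) := by
            rw [allOnes_mul, one_mul]
      _ = _ := by ring
  apply MvPolynomial.coe_injective
  rw [h3, h4]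

end Pool.Agent.Helper32.OG
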