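import Mathlib
import Pool.Agent.Helper32.OGSpec

/-! The codimension of `MX_{1^m × z}` does not increase with `m`. -/

set_option linter.unusedSectionVars false
set_option linter.style.haveILetI false

namespace Pool.Agent.Helper32.OG

open MvPolynomial

variable {N : ℕ}

theorem mem_I {n : ℕ} (z : Equiv.Perm (Fin n)) (f : MvPolynomial (Sym2 (Fin n)) ℂ) :
    f ∈ I z ↔ ∀ a ∈ MX z, aeval a f = 0 := Iff.rfl

theorem eval_sumAlg (u : Fin N → ℂ) (b : Sym2 (Fin N) → ℂ)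
    (g : MvPolynomial (Fin N ⊕ Sym2 (Fin N)) ℂ) :
    eval u (MvPolynomial.map (aeval (R := ℂ) b : MvPolynomial (Sym2 (Fin N)) ℂ →ₐ[ℂ] ℂ).toRingHom
      (sumAlgEquiv ℂ (Fin N) (Sym2 (Fin N)) g)) = aeval (Sum.elim u b) g := by
  induction g using MvPolynomial.induction_on with
  | C c =>
    rw [sumAlgEquiv_C_inl, map_C, eval_C, algHom_C]
    show aeval (R := ℂ) b (C c) = _
    rw [algHom_C]
  | add p q hp hq => rw [map_add, map_add, map_add, map_add, hp, hq]
  | mul_X p s hp =>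
    rw [map_mul, map_mul, map_mul, map_mul, hp, aeval_X]
    congr 1
    cases s with
    | inl j => rw [sumAlgEquiv_X_inl, map_X, eval_X, Sum.elim_inl]
    | inr p =>
      rw [sumAlgEquiv_X_inr, map_C, eval_C, Sum.elim_inr]
      show aeval (R := ℂ) b (X p) = _
      rw [aeval_X]

/-- the restriction to the slice, with coefficients in the coordinate ring of `MX_w` -/
noncomputable def phi (k : Fin (N + 1)) (w : Equiv.Perm (Fin N)) :
    MvPolynomial (Sym2 (Fin (N + 1))) ℂ →+*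
      MvPolynomial (Fin N) (MvPolynomial (Sym2 (Fin N)) ℂ ⧸ I w) :=
  (MvPolynomial.map (Ideal.Quotient.mk (I w))).comp
    ((sumAlgEquiv ℂ (Fin N) (Sym2 (Fin N)) : _ →+* _).comp (rho k).toRingHom)

theorem phi_apply (k : Fin (N + 1)) (w : Equiv.Perm (Fin N))
    (f : MvPolynomial (Sym2 (Fin (N + 1))) ℂ) :
    phi k w f = MvPolynomial.map (Ideal.Quotient.mk (I w))
      (sumAlgEquiv ℂ (Fin N) (Sym2 (Fin N)) (rho k f)) := rfl

theorem phi_surjective (k : Fin (N + 1)) (w : Equiv.Perm (Fin N)) :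
    Function.Surjective (phi k w) := by
  intro g
  obtain ⟨g1, hg1⟩ := MvPolynomial.map_surjective (Ideal.Quotient.mk (I w))
    Ideal.Quotient.mk_surjective g
  refine ⟨lam k ((sumAlgEquiv ℂ (Fin N) (Sym2 (Fin N))).symm g1), ?_⟩
  rw [phi_apply, rho_lam, AlgEquiv.apply_symm_apply, hg1]

theorem phi_eq_zero {n m : ℕ} (z : Equiv.Perm (Fin n)) {k : Fin (n + m + 1)} (hk : (k : ℕ) ≤ m)
    {f : MvPolynomial (Sym2 (Fin (n + m + 1))) ℂ} (hf : f ∈ I (oneTimes z (m + 1))) :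
    phi k (oneTimes z m) f = 0 := by
  rw [phi_apply]
  ext v
  rw [coeff_map, coeff_zero, Ideal.Quotient.eq_zero_iff_mem, mem_I]
  intro b hb
  have h1 : MvPolynomial.map (aeval (R := ℂ) b :
      MvPolynomial (Sym2 (Fin (n + m))) ℂ →ₐ[ℂ] ℂ).toRingHom
      (sumAlgEquiv ℂ (Fin (n + m)) (Sym2 (Fin (n + m))) (rho k f)) = 0 := by
    apply MvPolynomial.funext
    intro u
    rw [eval_sumAlg, aeval_rho, map_zero]
    exact hf _ ((mem_MX_iff z hk (aOf_kk k u b) (symMat_schur k u b)).mpr hb)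
  have h2 := congrArg (coeff v) h1
  rw [coeff_map, coeff_zero] at h2
  exact h2

/-- restriction of a polynomial to the curve `t ↦ scal k t a` -/
noncomputable def curve (k : Fin (N + 1)) (a : Sym2 (Fin (N + 1)) → ℂ) :
    MvPolynomial (Sym2 (Fin (N + 1))) ℂ →ₐ[ℂ] Polynomial ℂ :=
  aeval (fun p => Polynomial.X ^ (wt p k) * Polynomial.C (a p))

theorem eval_curve (k : Fin (N + 1)) (a : Sym2 (Fin (N + 1)) → ℂ) (t : ℂ)
    (f : MvPolynomial (Sym2 (Fin (N + 1))) ℂ) :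
    Polynomial.eval t (curve k a f) = aeval (scal k t a) f := by
  have h : (Polynomial.aeval (R := ℂ) t).comp (curve k a) = aeval (scal k t a) := by
    apply MvPolynomial.algHom_ext
    intro p
    rw [AlgHom.comp_apply, curve, aeval_X, aeval_X, map_mul, map_pow, Polynomial.aeval_X,
      Polynomial.aeval_C]
    rfl
  have h2 := DFunLike.congr_fun h f
  rw [← h2]
  rfl

theorem scal_one (k : Fin (N + 1)) (a : Sym2 (Fin (N + 1)) → ℂ) : scal k 1 a = a := by
  funext p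
  rw [scal, one_pow, one_mul]

theorem mem_I_of_mul {n m : ℕ} (z : Equiv.Perm (Fin n)) (k : Fin (n + m + 1))
    {f : MvPolynomial (Sym2 (Fin (n + m + 1))) ℂ}
    (hf : f * (X s(k, k) - 1) ∈ I (oneTimes z (m + 1))) : f ∈ I (oneTimes z (m + 1)) := by
  show ∀ a : Sym2 (Fin (n + m + 1)) → ℂ, a ∈ MX (oneTimes z (m + 1)) → aeval a f = 0
  intro a ha
  have h1 : ∀ t : ℂ, aeval (scal k t a) f * (t ^ 2 * a s(k, k) - 1) = 0 := by
    intro t
    have h2 : aeval (scal k t a) (f * (X s(k, k) - 1)) = (0 : ℂ) := hf _ (scal_mem k t ha)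
    rw [map_mul, map_sub, aeval_X, map_one] at h2
    have h3 : scal k t a s(k, k) = t ^ 2 * a s(k, k) := by
      rw [scal, wt_mk, Finsupp.add_apply, Finsupp.single_eq_same]
    rwa [h3] at h2
  have h4 : curve k a f * (Polynomial.X ^ 2 * Polynomial.C (a s(k, k)) - 1) = 0 := by
    apply Polynomial.funext
    intro t
    rw [Polynomial.eval_mul, eval_curve, Polynomial.eval_zero, ← h1 t]
    congr 1
    rw [Polynomial.eval_sub, Polynomial.eval_mul, Polynomial.eval_pow, Polynomial.eval_X,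
      Polynomial.eval_C, Polynomial.eval_one]
  have h5 : (Polynomial.X ^ 2 * Polynomial.C (a s(k, k)) - 1 : Polynomial ℂ) ≠ 0 := by
    intro h
    have h6 := congrArg (Polynomial.eval 0) h
    rw [Polynomial.eval_sub, Polynomial.eval_mul, Polynomial.eval_pow, Polynomial.eval_X,
      Polynomial.eval_C, Polynomial.eval_one, Polynomial.eval_zero] at h6
    norm_num at h6
  have h7 : curve k a f = 0 := by
    rcases mul_eq_zero.mp h4 with h | h
    · exact h
    · exact absurd h h5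
  have h8 := eval_curve k a 1 f
  rw [h7, Polynomial.eval_zero, scal_one] at h8
  exact h8.symm

theorem dim_lift {R S : Type*} [CommRing R] [CommRing S] (I' : Ideal R) (φ : R →+* S)
    (hφ : Function.Surjective φ) (h1 : ∀ f ∈ I', φ f = 0) (x : R) (hx : φ x = 0)
    (h2 : ∀ f, f * x ∈ I' → f ∈ I') : ringKrullDim S + 1 ≤ ringKrullDim (R ⧸ I') := by
  have hf : Function.Surjective (Ideal.Quotient.lift I' φ h1) :=
    Ideal.Quotient.lift_surjective_of_surjective _ _ hφ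
  have hr : Ideal.Quotient.mk I' x ∈ nonZeroDivisors (R ⧸ I') := by
    rw [mem_nonZeroDivisors_iff_right]
    intro y hy
    obtain ⟨g, rfl⟩ := Ideal.Quotient.mk_surjective y
    rw [← map_mul, Ideal.Quotient.eq_zero_iff_mem] at hy
    rw [Ideal.Quotient.eq_zero_iff_mem]
    exact h2 g hy
  exact ringKrullDim_succ_le_of_surjective (Ideal.Quotient.lift I' φ h1) hf hr
    (by rw [Ideal.Quotient.lift_mk, hx])

theorem dim_succ_aux (k : Fin (N + 1)) (w : Equiv.Perm (Fin N))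
    (I' : Ideal (MvPolynomial (Sym2 (Fin (N + 1))) ℂ)) (h1 : ∀ f ∈ I', phi k w f = 0)
    (h2 : ∀ f, f * (X s(k, k) - 1) ∈ I' → f ∈ I') :
    ringKrullDim (MvPolynomial (Sym2 (Fin N)) ℂ ⧸ I w) + (N : WithBot ℕ∞) + 1 ≤
      ringKrullDim (MvPolynomial (Sym2 (Fin (N + 1))) ℂ ⧸ I') := by
  have hr0 : phi k w (X s(k, k) - 1) = 0 := by
    rw [phi_apply, map_sub, map_one]
    have : rho k (X s(k, k)) = 1 := by
      rw [rho, aeval_X, rhoX_mk, rhoFun_kk]
    rw [this, sub_self, map_zero, map_zero]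
  have h3 := dim_lift (S := MvPolynomial (Fin N) (MvPolynomial (Sym2 (Fin N)) ℂ ⧸ I w)) I' (phi k w)
    (phi_surjective k w) h1 _ hr0 h2
  have h4 : ringKrullDim (MvPolynomial (Fin N) (MvPolynomial (Sym2 (Fin N)) ℂ ⧸ I w)) =
      ringKrullDim (MvPolynomial (Sym2 (Fin N)) ℂ ⧸ I w) + (N : WithBot ℕ∞) := by
    rw [MvPolynomial.ringKrullDim_of_isNoetherianRing, Nat.card_eq_fintype_card, Fintype.card_fin]
  rw [← h4]
  exact h3

theorem dim_succ {n m : ℕ} (z : Equiv.Perm (Fin n)) :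
    ringKrullDim (MvPolynomial (Sym2 (Fin (n + m))) ℂ ⧸ I (oneTimes z m)) +
      ((n + m : ℕ) : WithBot ℕ∞) + 1 ≤
      ringKrullDim (MvPolynomial (Sym2 (Fin (n + m + 1))) ℂ ⧸ I (oneTimes z (m + 1))) :=
  dim_succ_aux (0 : Fin (n + m + 1)) (oneTimes z m) (I (oneTimes z (m + 1)))
    (fun _ hf => phi_eq_zero z (Nat.zero_le _) hf) (fun _ hf => mem_I_of_mul z _ hf)

theorem I_ne_top {n : ℕ} (z : Equiv.Perm (Fin n)) : I z ≠ ⊤ := by
  intro h
  have h1 : (1 : MvPolynomial (Sym2 (Fin n)) ℂ) ∈ I z := by rw [h]; trivial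
  have h0 : (fun _ => 0 : Sym2 (Fin n) → ℂ) ∈ MX z := by
    intro i j _ _
    have h2 : block (symMat (fun _ => 0 : Sym2 (Fin n) → ℂ)) i j = 0 := by
      ext r c; rfl
    rw [h2, Matrix.rank_zero]
    exact Nat.zero_le _
  have h2 := (mem_I z 1).mp h1 _ h0
  rw [map_one] at h2
  exact one_ne_zero h2

theorem exists_dim {n : ℕ} (z : Equiv.Perm (Fin n)) :
    ∃ D : ℕ, ringKrullDim (MvPolynomial (Sym2 (Fin n)) ℂ ⧸ I z) = (D : WithBot ℕ∞) := by
  haveI : Nontrivial (MvPolynomial (Sym2 (Fin n)) ℂ ⧸ I z) :=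
    Ideal.Quotient.nontrivial_iff.mpr (I_ne_top z)
  have h1 : ringKrullDim (MvPolynomial (Sym2 (Fin n)) ℂ ⧸ I z) ≤
      ringKrullDim (MvPolynomial (Sym2 (Fin n)) ℂ) := ringKrullDim_quotient_le _
  rw [MvPolynomial.ringKrullDim_of_isNoetherianRing, ringKrullDim_eq_zero_of_field, zero_add] at h1
  have h0 : 0 ≤ ringKrullDim (MvPolynomial (Sym2 (Fin n)) ℂ ⧸ I z) :=
    ringKrullDim_nonneg_of_nontrivial
  generalize ringKrullDim (MvPolynomial (Sym2 (Fin n)) ℂ ⧸ I z) = D at h0 h1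
  match D, h0, h1 with
  | ⊥, h0, _ => simp at h0
  | ((⊤ : ℕ∞) : WithBot ℕ∞), _, h1 =>
    exfalso
    have h2 : (⊤ : ℕ∞) ≤ ((Nat.card (Sym2 (Fin n)) : ℕ) : ℕ∞) := WithBot.coe_le_coe.mp h1
    rw [top_le_iff] at h2
    exact ENat.natCast_ne_top _ h2
  | (((D : ℕ) : ℕ∞) : WithBot ℕ∞), _, _ => exact ⟨D, rfl⟩

theorem codim_eq {n : ℕ} (z : Equiv.Perm (Fin n)) {D : ℕ}
    (h : ringKrullDim (MvPolynomial (Sym2 (Fin n)) ℂ ⧸ I z) = (D : WithBot ℕ∞)) :
    codim z = n * (n + 1) / 2 - D := by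
  unfold codim
  rw [h]
  rfl

theorem codim_anti {n m : ℕ} (z : Equiv.Perm (Fin n)) :
    codim (oneTimes z (m + 1)) ≤ codim (oneTimes z m) := by
  obtain ⟨D, hD⟩ := exists_dim (oneTimes z m)
  obtain ⟨D', hD'⟩ := exists_dim (oneTimes z (m + 1))
  rw [codim_eq _ hD, codim_eq _ hD']
  have h := dim_succ (m := m) z
  rw [hD] at h
  have h1 : ((D : WithBot ℕ∞) + ((n + m : ℕ) : WithBot ℕ∞) + 1) ≤ (D' : WithBot ℕ∞) := by
    rw [← hD']; exact h
  have h2 : D + (n + m) + 1 ≤ D' := by exact_mod_cast h1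
  have h3 : (n + (m + 1)) * (n + (m + 1) + 1) / 2 = (n + m) * (n + m + 1) / 2 + (n + m + 1) := by
    have : (n + (m + 1)) * (n + (m + 1) + 1) = (n + m) * (n + m + 1) + (n + m + 1) * 2 := by ring
    rw [this, Nat.add_mul_div_right _ _ (by norm_num)]
  rw [h3]
  omega

theorem codim_eventually {n : ℕ} (z : Equiv.Perm (Fin n)) :
    ∃ M, ∀ m ≥ M, codim (oneTimes z m) = codim (oneTimes z M) := by
  have hanti : Antitone fun m => codim (oneTimes z m) := antitone_nat_of_succ_le fun m => codim_anti z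
  obtain ⟨M, hM⟩ := WellFoundedLT.antitone_chain_condition (α := ℕ) hanti
  exact ⟨M, fun m hm => (hM m hm).symm⟩

end Pool.Agent.Helper32.OG
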