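import Mathlib
import Pool.Agent.Helper32.OGCodim

/-! Convergence of the orthogonal Grothendieck polynomials. -/

set_option linter.unusedSectionVars false
set_option linter.style.haveILetI false

namespace Pool.Agent.Helper32.OG

open MvPolynomial

/-- the coefficient ring -/
abbrev Lau := LaurentPolynomial ℤ

/-- setting `x_i = 0` for `i ≥ N0` -/
noncomputable def tau (N0 : ℕ) : MvPolynomial ℕ Lau →ₐ[Lau] MvPolynomial ℕ Lau :=
  aeval (fun i => if i < N0 then X i else 0)

theorem coeff_tau {N0 : ℕ} {e : ℕ →₀ ℕ} (he : ∀ i ∈ e.support, i < N0) (Q : MvPolynomial ℕ Lau) :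
    coeff e (tau N0 Q) = coeff e Q := by
  classical
  induction Q using MvPolynomial.induction_on' with
  | monomial μ c =>
    by_cases hμ : ∀ i ∈ μ.support, i < N0
    · have h1 : tau N0 (monomial μ c) = monomial μ c := by
        rw [tau, aeval_monomial, monomial_eq, Finsupp.prod, Finsupp.prod]
        congr 1
        apply Finset.prod_congr rfl
        intro i hi
        rw [if_pos (hμ i hi)]
      rw [h1]
    · push Not at hμ
      obtain ⟨i, hi, hi2⟩ := hμ
      have h1 : tau N0 (monomial μ c) = 0 := by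
        rw [tau, aeval_monomial, Finsupp.prod, Finset.prod_eq_zero hi, mul_zero]
        rw [if_neg (by omega), zero_pow (Finsupp.mem_support_iff.mp hi)]
      rw [h1, coeff_zero, coeff_monomial, if_neg]
      rintro rfl
      exact absurd (he i hi) (by omega)
  | add p q hp hq => rw [map_add, coeff_add, coeff_add, hp, hq]

/-- evaluation of `[MX_{1^m × z}]_T` -/
noncomputable def AA {n : ℕ} (z : Equiv.Perm (Fin n)) (b : ℕ → MvPolynomial ℕ Lau) (m : ℕ) :
    MvPolynomial ℕ Lau :=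
  aeval (fun i : Fin (n + m) => b (i : ℕ)) (KPoly (oneTimes z m))

theorem AA_succ {n : ℕ} (z : Equiv.Perm (Fin n)) {b : ℕ → MvPolynomial ℕ Lau} {N0 : ℕ}
    (hb : ∀ i, N0 ≤ i → b i = 1) {m : ℕ} (hm : N0 ≤ m) : AA z b (m + 1) = AA z b m := by
  let k : Fin (n + m + 1) := ⟨N0, by omega⟩
  have hk : (k : ℕ) ≤ m := hm
  unfold AA
  rw [← sp_KPoly z hk]
  have h : (aeval (fun i : Fin (n + m) => b (i : ℕ)) : MvPolynomial (Fin (n + m)) ℤ →ₐ[ℤ] _).comp
      (aeval (spv k) : MvPolynomial (Fin (n + m + 1)) ℤ →ₐ[ℤ] _) =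
      (aeval (fun i : Fin (n + m + 1) => b (i : ℕ)) :
        MvPolynomial (Fin (n + m + 1)) ℤ →ₐ[ℤ] MvPolynomial ℕ Lau) := by
    apply MvPolynomial.algHom_ext
    intro i
    rw [AlgHom.comp_apply, aeval_X, aeval_X]
    rcases Fin.eq_self_or_eq_succAbove k i with rfl | ⟨j, rfl⟩
    · rw [spv_self, map_one]
      exact (hb N0 le_rfl).symm
    · rw [spv_succAbove, aeval_X]
      by_cases hj : (j : ℕ) < N0
      · rw [Fin.succAbove_of_castSucc_lt _ _ (by exact hj), Fin.val_castSucc]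
      · have hj2 : N0 ≤ (j : ℕ) := by omega
        rw [Fin.succAbove_of_le_castSucc _ _ (by exact hj2), Fin.val_succ, hb _ hj2,
          hb _ (by omega)]
  exact (DFunLike.congr_fun h (KPoly (oneTimes z (m + 1)))).symm

theorem AA_const {n : ℕ} (z : Equiv.Perm (Fin n)) {b : ℕ → MvPolynomial ℕ Lau} {N0 : ℕ}
    (hb : ∀ i, N0 ≤ i → b i = 1) {m : ℕ} (hm : N0 ≤ m) : AA z b m = AA z b N0 := by
  induction m, hm using Nat.le_induction with
  | base => rfl
  | succ m hm ih => rw [AA_succ z hb hm, ih]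

theorem coeff_GO {n : ℕ} (z : Equiv.Perm (Fin n)) {N0 : ℕ} {e : ℕ →₀ ℕ}
    (he : ∀ i ∈ e.support, i < N0) (m : ℕ) :
    (GO (oneTimes z m)).coeff e =
      ((-1) ^ codim (oneTimes z m) * LaurentPolynomial.T (-(codim (oneTimes z m) : ℤ))) *
      (AA z (fun i => 1 + MvPolynomial.C (LaurentPolynomial.T 1) * if i < N0 then X i else 0)
        m).coeff e := by
  unfold GO
  rw [coeff_C_mul, ← coeff_tau he]
  congr 1
  congr 1
  have h : ((tau N0).restrictScalars ℤ).comp
      (aeval (fun i : Fin (n + m) => 1 + MvPolynomial.C (LaurentPolynomial.T 1) * X (i : ℕ)) :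
        MvPolynomial (Fin (n + m)) ℤ →ₐ[ℤ] MvPolynomial ℕ Lau) =
      aeval (fun i : Fin (n + m) => 1 + MvPolynomial.C (LaurentPolynomial.T 1) *
        if (i : ℕ) < N0 then X (i : ℕ) else 0) := by
    apply MvPolynomial.algHom_ext
    intro i
    rw [AlgHom.comp_apply, aeval_X, aeval_X]
    show tau N0 _ = _
    rw [map_add, map_one, map_mul, tau, aeval_X, algHom_C]
    rfl
  exact DFunLike.congr_fun h (KPoly (oneTimes z m))

theorem converges {n : ℕ} (z : Equiv.Perm (Fin n)) (e : ℕ →₀ ℕ) : ∃ M : ℕ, ∀ m ≥ M,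
    (GO (oneTimes z m)).coeff e = (GO (oneTimes z M)).coeff e := by
  obtain ⟨M1, hM1⟩ := codim_eventually z
  obtain ⟨N0, hN0⟩ : ∃ N0, ∀ i ∈ e.support, i < N0 :=
    ⟨e.support.sup id + 1, fun i hi => Nat.lt_succ_of_le (Finset.le_sup (f := id) hi)⟩
  refine ⟨max N0 M1, fun m hm => ?_⟩
  have hb : ∀ i, N0 ≤ i → (fun i => 1 + MvPolynomial.C (LaurentPolynomial.T 1) *
      if i < N0 then X i else 0 : ℕ → MvPolynomial ℕ Lau) i = 1 := by
    intro i hi
    show 1 + MvPolynomial.C (LaurentPolynomial.T 1) * (if i < N0 then X i else 0) = 1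
    rw [if_neg (by omega), mul_zero, add_zero]
  rw [coeff_GO z hN0, coeff_GO z hN0, AA_const z hb ((le_max_left _ _).trans hm),
    AA_const z hb (le_max_left _ _), hM1 m ((le_max_right _ _).trans hm),
    hM1 (max N0 M1) (le_max_right _ _)]

end Pool.Agent.Helper32.OG
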