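import Mathlib

set_option autoImplicit false

namespace Pool.Agent.Helper32.Spl

/-- `T` is a triangulation of the plane set `D`: the members of `T` are the vertex sets of finitely
many nondegenerate closed triangles, any two triangles meet in the convex hull of their common
vertices (a common edge, a common vertex, or not at all), and the union of the triangles is `D`. -/
structure Triangulates (T : Finset (Finset (ℝ × ℝ))) (D : Set (ℝ × ℝ)) : Prop where
  card_eq : ∀ t ∈ T, t.card = 3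
  indep : ∀ t ∈ T, AffineIndependent ℝ (Subtype.val : ↥(t : Set (ℝ × ℝ)) → ℝ × ℝ)
  meet : ∀ t ∈ T, ∀ s ∈ T, convexHull ℝ (t : Set (ℝ × ℝ)) ∩ convexHull ℝ (s : Set (ℝ × ℝ)) =
    convexHull ℝ ((t : Set (ℝ × ℝ)) ∩ (s : Set (ℝ × ℝ)))
  cover : (⋃ t ∈ T, convexHull ℝ (t : Set (ℝ × ℝ))) = D

/-- The vertices of the triangulation. -/
def vertices (T : Finset (Finset (ℝ × ℝ))) : Set (ℝ × ℝ) := {v | ∃ t ∈ T, v ∈ t}

/-- The edges of the triangulation, as two-element sets of vertices. -/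
def edges (T : Finset (Finset (ℝ × ℝ))) : Set (Finset (ℝ × ℝ)) :=
  {e | e.card = 2 ∧ ∃ t ∈ T, e ⊆ t}

/-- The vertices that do not lie on the boundary of `D`. -/
def interiorVertices (T : Finset (Finset (ℝ × ℝ))) (D : Set (ℝ × ℝ)) : Set (ℝ × ℝ) :=
  {v | v ∈ vertices T ∧ v ∉ frontier D}

/-- The edges whose closed segment is not contained in the boundary of `D`. -/
def interiorEdges (T : Finset (Finset (ℝ × ℝ))) (D : Set (ℝ × ℝ)) : Set (Finset (ℝ × ℝ)) :=
  {e | e ∈ edges T ∧ ¬ convexHull ℝ (e : Set (ℝ × ℝ)) ⊆ frontier D}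

/-- The slopes at `v`: the distinct lines through `v` that contain an edge incident to `v`. -/
def slopes (T : Finset (Finset (ℝ × ℝ))) (v : ℝ × ℝ) : Set (AffineSubspace ℝ (ℝ × ℝ)) :=
  {L | ∃ w, ∃ e ∈ edges T, v ∈ e ∧ w ∈ e ∧ w ≠ v ∧ L = line[ℝ, v, w]}

/-- The singular vertices: interior vertices with exactly two slopes. -/
def singularVertices (T : Finset (Finset (ℝ × ℝ))) (D : Set (ℝ × ℝ)) : Set (ℝ × ℝ) :=
  {v | v ∈ interiorVertices T D ∧ (slopes T v).ncard = 2}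

/-- The spline space: functions `s : D → ℝ` of class `C^r` on `D` which on each triangle agree with
a polynomial in two variables of total degree at most `d`. -/
def splineSpace (r d : ℕ) (T : Finset (Finset (ℝ × ℝ))) (D : Set (ℝ × ℝ)) :
    Submodule ℝ (D → ℝ) where
  carrier := {s | (∃ f : ℝ × ℝ → ℝ, ContDiffOn ℝ r f D ∧ ∀ x : D, f x = s x) ∧
    ∀ t ∈ T, ∃ p : MvPolynomial (Fin 2) ℝ, p.totalDegree ≤ d ∧
      ∀ x : D, (x : ℝ × ℝ) ∈ convexHull ℝ (t : Set (ℝ × ℝ)) →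
        s x = MvPolynomial.eval ![(x : ℝ × ℝ).1, (x : ℝ × ℝ).2] p}
  add_mem' := by
    rintro s s' ⟨⟨f, hf, hfs⟩, hp⟩ ⟨⟨f', hf', hfs'⟩, hp'⟩
    refine ⟨⟨fun x => f x + f' x, hf.add hf', fun x => ?_⟩, fun t ht => ?_⟩
    · simp only [Pi.add_apply, hfs x, hfs' x]
    · obtain ⟨p, hd, he⟩ := hp t ht
      obtain ⟨p', hd', he'⟩ := hp' t ht
      refine ⟨p + p', (MvPolynomial.totalDegree_add _ _).trans (max_le hd hd'), fun x hx => ?_⟩
      simp only [Pi.add_apply, he x hx, he' x hx, map_add]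
  zero_mem' := ⟨⟨fun _ => 0, contDiffOn_const, fun _ => rfl⟩,
    fun t _ => ⟨0, by simp, fun x _ => by simp⟩⟩
  smul_mem' := by
    rintro c s ⟨⟨f, hf, hfs⟩, hp⟩
    refine ⟨⟨fun x => c • f x, hf.const_smul c, fun x => ?_⟩, fun t ht => ?_⟩
    · simp only [Pi.smul_apply, hfs x]
    · obtain ⟨p, hd, he⟩ := hp t ht
      refine ⟨c • p, (MvPolynomial.totalDegree_smul_le _ _).trans hd, fun x hx => ?_⟩
      simp only [Pi.smul_apply, he x hx, MvPolynomial.smul_eval, smul_eq_mul]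

end Pool.Agent.Helper32.Spl
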