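import Pool.Agent.Helper32.SplDefs
import Pool.Agent.Helper35.Spl.Dim

set_option autoImplicit false

namespace Pool.Agent.Helper32.Spl

open Pool.Agent.Helper35.Spl MvPolynomial

/-! ## Geometry of the domain -/

theorem Om_eq : convexHull ℝ ({P 0, P 1, P 2} : Set (ℝ × ℝ)) = Om := by
  apply Set.Subset.antisymm
  · apply convexHull_min _ Om_convex
    intro x hx
    simp only [Set.mem_insert_iff, Set.mem_singleton_iff] at hx
    rcases hx with rfl | rfl | rfl
    · exact P_Om 0
    · exact P_Om 1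
    · exact P_Om 2
  · rintro x ⟨h1, h2, h3⟩
    have hN := NN_pos
    have hconv := convex_convexHull ℝ ({P 0, P 1, P 2} : Set (ℝ × ℝ))
    have := hconv.sum_mem (t := (Finset.univ : Finset (Fin 3)))
      (w := ![1 - (x.1 + x.2) / NN, x.1 / NN, x.2 / NN]) (z := ![P 0, P 1, P 2])
      (by
        intro i _
        fin_cases i
        · simp only [Fin.zero_eta, Matrix.cons_val_zero, sub_nonneg]
          rw [div_le_one hN]
          exact h3
        · simpa using div_nonneg h1 hN.le
        · simpa using div_nonneg h2 hN.le)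
      (by
        simp only [Fin.sum_univ_three, Matrix.cons_val_zero, Matrix.cons_val_one, Matrix.cons_val]
        ring)
      (by
        intro i _
        apply subset_convexHull
        fin_cases i <;> simp)
    simp only [Fin.sum_univ_three, Matrix.cons_val_zero, Matrix.cons_val_one, Matrix.cons_val] at this
    have e : x = (1 - (x.1 + x.2) / (NN : ℝ)) • P 0 + (x.1 / (NN : ℝ)) • P 1 + (x.2 / (NN : ℝ)) • P 2 := by
      rw [P0, P1, P2]
      ext
      · simp only [Prod.fst_add, Prod.smul_fst, smul_eq_mul]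
        field_simp
        ring
      · simp only [Prod.snd_add, Prod.smul_snd, smul_eq_mul]
        field_simp
        ring
    rw [e]
    exact this

theorem corners_indep : AffineIndependent ℝ ![P 0, P 1, P 2] := by
  have hN := NN_pos
  rw [affineIndependent_iff_of_fintype]
  intro w hw hw2
  rw [Finset.weightedVSub_eq_linear_combination _ hw] at hw2
  simp only [Fin.sum_univ_three, Matrix.cons_val_zero, Matrix.cons_val_one, Matrix.cons_val] at hw hw2
  have hx := congrArg Prod.fst hw2
  have hy := congrArg Prod.snd hw2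
  rw [P0, P1, P2] at hx hy
  simp only [Prod.fst_add, Prod.snd_add, Prod.smul_fst, Prod.smul_snd, smul_eq_mul, Prod.fst_zero,
    Prod.snd_zero, mul_zero, zero_add, add_zero] at hx hy
  have h1' : w 1 = 0 := (mul_eq_zero.1 hx).resolve_right hN.ne'
  have h2' : w 2 = 0 := (mul_eq_zero.1 hy).resolve_right hN.ne'
  have h0' : w 0 = 0 := by rw [h1', h2'] at hw; linarith
  intro i
  fin_cases i
  · exact h0'
  · exact h1'
  · exact h2'

theorem triang : Triangulates TT Om where
  card_eq t ht := by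
    obtain ⟨i, rfl⟩ := mem_TT.1 ht
    exact card_triP i
  indep t ht := by
    obtain ⟨i, rfl⟩ := mem_TT.1 ht
    exact affInd i
  meet t ht s hs := by
    obtain ⟨i, rfl⟩ := mem_TT.1 ht
    obtain ⟨j, rfl⟩ := mem_TT.1 hs
    exact conv_inter i j
  cover := union_eq.symm

theorem card_TT : TT.card = 31 := by
  simp [TT]

theorem not_frontier {x : ℝ × ℝ} (hx : x ∈ Om) : x ∉ frontier Om ↔ x ∈ interior Om := by
  rw [frontier, Om_closed.closure_eq, Set.mem_sdiff]
  tauto

theorem vertices_eq : interiorVertices TT Om = {v : ℝ × ℝ | (∃ t ∈ TT, v ∈ t) ∧ v ∈ interior Om} := by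
  ext v
  simp only [interiorVertices, vertices, Set.mem_ofPred_eq]
  constructor
  · rintro ⟨⟨t, ht, hv⟩, h⟩
    refine ⟨⟨t, ht, hv⟩, (not_frontier ?_).1 h⟩
    obtain ⟨i, rfl⟩ := mem_TT.1 ht
    exact conv_sub_Om i (subset_convexHull ℝ _ hv)
  · rintro ⟨⟨t, ht, hv⟩, h⟩
    exact ⟨⟨t, ht, hv⟩, (not_frontier (interior_subset h)).2 h⟩

theorem edges_eq : interiorEdges TT Om = {e : Finset (ℝ × ℝ) | e.card = 2 ∧ (∃ t ∈ TT, e ⊆ t) ∧
      ∀ a ∈ e, ∀ b ∈ e, a ≠ b → midpoint ℝ a b ∈ interior Om} := by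
  ext e
  simp only [interiorEdges, edges, Set.mem_ofPred_eq, and_assoc]
  refine and_congr_right fun hc => and_congr_right fun ht => ?_
  obtain ⟨t, ht, het⟩ := ht
  obtain ⟨i, rfl⟩ := mem_TT.1 ht
  have hsub : convexHull ℝ (e : Set (ℝ × ℝ)) ⊆ Om :=
    (convexHull_mono (Finset.coe_subset.2 het)).trans (conv_sub_Om i)
  obtain ⟨a, b, hab, rfl⟩ := Finset.card_eq_two.1 hc
  have hcoe : (({a, b} : Finset (ℝ × ℝ)) : Set (ℝ × ℝ)) = {a, b} := by simp
  rw [hcoe] at hsub ⊢
  have ha : a ∈ Om := hsub (subset_convexHull ℝ _ (by simp))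
  have hb : b ∈ Om := hsub (subset_convexHull ℝ _ (by simp))
  constructor
  · intro h
    obtain ⟨y, hy, hyf⟩ := Set.not_subset.1 h
    have hyi : y ∈ interior Om := (not_frontier (hsub hy)).1 hyf
    have key : midpoint ℝ a b ∈ interior Om := by
      rw [convexHull_pair, segment_eq_image_lineMap] at hy
      obtain ⟨θ, ⟨h0, h1⟩, rfl⟩ := hy
      rcases lt_trichotomy θ (1 / 2) with hlt | heq | hgt
      · -- the midpoint lies between `y` and `b`
        apply Om_convex.openSegment_interior_self_subset_interior hyi hb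
        rw [openSegment_eq_image_lineMap]
        refine ⟨(1 / 2 - θ) / (1 - θ), ⟨div_pos (by linarith) (by linarith), ?_⟩, ?_⟩
        · rw [div_lt_one (by linarith)]
          linarith
        · have hne : (1 - θ) ≠ 0 := by linarith
          rw [midpoint_eq_smul_add, AffineMap.lineMap_apply_module, AffineMap.lineMap_apply_module]
          ext
          · simp only [Prod.fst_add, Prod.smul_fst, smul_eq_mul, invOf_eq_inv]
            field_simp
            ring
          · simp only [Prod.snd_add, Prod.smul_snd, smul_eq_mul, invOf_eq_inv]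
            field_simp
            ring
      · subst heq
        have : AffineMap.lineMap a b (1 / 2 : ℝ) = midpoint ℝ a b := by
          rw [midpoint, invOf_eq_inv, one_div]
        rw [← this]
        exact hyi
      · apply Om_convex.openSegment_interior_self_subset_interior hyi ha
        rw [openSegment_eq_image_lineMap]
        refine ⟨(θ - 1 / 2) / θ, ⟨div_pos (by linarith) (by linarith), ?_⟩, ?_⟩
        · rw [div_lt_one (by linarith)]
          linarith
        · have hne : θ ≠ 0 := by linarith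
          rw [midpoint_eq_smul_add, AffineMap.lineMap_apply_module, AffineMap.lineMap_apply_module]
          ext
          · simp only [Prod.fst_add, Prod.smul_fst, smul_eq_mul, invOf_eq_inv]
            field_simp
            ring
          · simp only [Prod.snd_add, Prod.smul_snd, smul_eq_mul, invOf_eq_inv]
            field_simp
            ring
    intro x hx y hy hxy
    simp only [Finset.mem_insert, Finset.mem_singleton] at hx hy
    rcases hx with rfl | rfl <;> rcases hy with rfl | rfl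
    · exact absurd rfl hxy
    · exact key
    · rw [midpoint_comm]; exact key
    · exact absurd rfl hxy
  · intro h hsub'
    have hm := h a (by simp) b (by simp) hab
    have hm2 : midpoint ℝ a b ∈ convexHull ℝ ({a, b} : Set (ℝ × ℝ)) := by
      rw [convexHull_pair]
      exact midpoint_mem_segment a b
    have := hsub' hm2
    exact ((not_frontier (interior_subset hm)).2 hm) this

theorem line_cr {a b c : ℝ × ℝ} (h : line[ℝ, a, b] = line[ℝ, a, c]) :
    cr a b c = 0 := by
  have h1 : c ∈ line[ℝ, a, b] := by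
    rw [h]
    exact right_mem_affineSpan_pair ℝ a c
  rw [mem_affineSpan_pair_iff_exists_lineMap_eq] at h1
  obtain ⟨r, rfl⟩ := h1
  rw [AffineMap.lineMap_apply_module]
  simp only [cr, Prod.fst_add, Prod.smul_fst, Prod.snd_add, Prod.smul_snd, smul_eq_mul]
  ring

theorem no_two_slopes (v : ℝ × ℝ) (hv : v ∈ vertices TT) : (slopes TT v).ncard ≠ 2 := by
  intro h2
  obtain ⟨s, hs, hxs⟩ := hv
  obtain ⟨t, rfl⟩ := mem_TT.1 hs
  rw [triP, Finset.mem_map] at hxs
  obtain ⟨m, -, rfl⟩ := hxs
  obtain ⟨⟨⟨t1, hm1, hn1⟩, ⟨t2, hm2, hn2⟩, ⟨t3, hm3, hn3⟩⟩, h12, h13, h23⟩ := fact_nb m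
  have c12 := cr_ne h12
  have c13 := cr_ne h13
  have c23 := cr_ne h23
  have n1 : nb1 m ≠ m := by
    intro h; rw [h] at c12; exact c12 (cr_self1 _ _)
  have n2 : nb2 m ≠ m := by
    intro h; rw [h] at c12; exact c12 (cr_self2 _ _)
  have n3 : nb3 m ≠ m := by
    intro h; rw [h] at c13; exact c13 (cr_self2 _ _)
  have hmem : ∀ (n : Fin 18) (t : Fin 31), m ∈ triS t → n ∈ triS t → n ≠ m →
      line[ℝ, P m, P n] ∈ slopes TT (P m) := by
    intro n t hm hn hne
    refine ⟨P n, {P m, P n}, ⟨?_, triP t, mem_TT.2 ⟨_, rfl⟩, ?_⟩, by simp, by simp, ?_, rfl⟩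
    · rw [Finset.card_pair]
      intro h
      exact hne (P_inj h).symm
    · intro x hx
      simp only [Finset.mem_insert, Finset.mem_singleton] at hx
      rcases hx with rfl | rfl
      · exact Finset.mem_map_of_mem Pe hm
      · exact Finset.mem_map_of_mem Pe hn
    · intro h
      exact hne (P_inj h)
  have q1 := hmem _ _ hm1 hn1 n1
  have q2 := hmem _ _ hm2 hn2 n2
  have q3 := hmem _ _ hm3 hn3 n3
  obtain ⟨L1, L2, -, hL⟩ := Set.ncard_eq_two.1 h2
  have hPe : Pe m = P m := rfl
  rw [hPe] at hL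
  rw [hL] at q1 q2 q3
  simp only [Set.mem_insert_iff, Set.mem_singleton_iff] at q1 q2 q3
  rcases q1 with q1 | q1 <;> rcases q2 with q2 | q2 <;> rcases q3 with q3 | q3
  · exact c12 (line_cr (q1.trans q2.symm))
  · exact c12 (line_cr (q1.trans q2.symm))
  · exact c13 (line_cr (q1.trans q3.symm))
  · exact c23 (line_cr (q2.trans q3.symm))
  · exact c23 (line_cr (q2.trans q3.symm))
  · exact c13 (line_cr (q1.trans q3.symm))
  · exact c12 (line_cr (q1.trans q2.symm))
  · exact c12 (line_cr (q1.trans q2.symm))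

theorem singular_empty : singularVertices TT Om = ∅ := by
  rw [Set.eq_empty_iff_forall_notMem]
  rintro v ⟨hv, h2⟩
  exact no_two_slopes v hv.1 h2

/-! ## Finite-dimensionality -/

theorem exists_tri (x : Om) : ∃ t : Fin 31, (x : ℝ × ℝ) ∈
    convexHull ℝ ((triP t : Finset (ℝ × ℝ)) : Set (ℝ × ℝ)) := cover x.2

/-- A triangle containing the point. -/
noncomputable def tau (x : Om) : Fin 31 := (exists_tri x).choose

theorem tau_spec (x : Om) : (x : ℝ × ℝ) ∈
    convexHull ℝ ((triP (tau x) : Finset (ℝ × ℝ)) : Set (ℝ × ℝ)) := (exists_tri x).choose_spec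

/-- Piecewise evaluation. -/
noncomputable def pw : (Fin 31 → MvPolynomial (Fin 2) ℝ) →ₗ[ℝ] (Om → ℝ) where
  toFun p x := eval ![(x : ℝ × ℝ).1, (x : ℝ × ℝ).2] (p (tau x))
  map_add' p q := by
    funext x
    simp only [Pi.add_apply, map_add]
  map_smul' c p := by
    funext x
    simp only [Pi.smul_apply, smul_eval, smul_eq_mul, RingHom.id_apply]

/-- Piecewise evaluation on polynomials of bounded degree. -/
noncomputable def pwd (d : ℕ) : (Fin 31 → restrictTotalDegree (Fin 2) ℝ d) →ₗ[ℝ] (Om → ℝ) where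
  toFun p x := eval ![(x : ℝ × ℝ).1, (x : ℝ × ℝ).2] (p (tau x) : MvPolynomial (Fin 2) ℝ)
  map_add' p q := by
    funext x
    simp only [Pi.add_apply, Submodule.coe_add, map_add]
  map_smul' c p := by
    funext x
    simp only [Pi.smul_apply, Submodule.coe_smul, smul_eval, smul_eq_mul, RingHom.id_apply]

theorem spline_le (r d : ℕ) : splineSpace r d TT Om ≤ LinearMap.range (pwd d) := by
  rintro s ⟨-, hs⟩
  have h : ∀ i : Fin 31, ∃ p : MvPolynomial (Fin 2) ℝ, p.totalDegree ≤ d ∧
      ∀ x : Om, (x : ℝ × ℝ) ∈ convexHull ℝ ((triP i : Finset (ℝ × ℝ)) : Set (ℝ × ℝ)) →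
        s x = eval ![(x : ℝ × ℝ).1, (x : ℝ × ℝ).2] p := fun i => hs _ (mem_TT.2 ⟨i, rfl⟩)
  choose p hd he using h
  refine ⟨fun i => ⟨p i, (mem_restrictTotalDegree (Fin 2) d _).2 (hd i)⟩, ?_⟩
  funext x
  exact (he (tau x) x (tau_spec x)).symm

theorem spline_fin (r d : ℕ) : FiniteDimensional ℝ (splineSpace r d TT Om) :=
  Submodule.finiteDimensional_of_le (spline_le r d)

/-! ## Derivatives -/

/-- The derivative of a polynomial function of two variables. -/
noncomputable def dP (p : MvPolynomial (Fin 2) ℝ) (x : ℝ × ℝ) : ℝ × ℝ →L[ℝ] ℝ :=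
  (eval ![x.1, x.2] (pderiv 0 p)) • ContinuousLinearMap.fst ℝ ℝ ℝ
    + (eval ![x.1, x.2] (pderiv 1 p)) • ContinuousLinearMap.snd ℝ ℝ ℝ

theorem hasFDeriv (p : MvPolynomial (Fin 2) ℝ) (x : ℝ × ℝ) :
    HasFDerivAt (fun y : ℝ × ℝ => eval ![y.1, y.2] p) (dP p x) x := by
  induction p using MvPolynomial.induction_on with
  | C a =>
    have e : (fun y : ℝ × ℝ => eval ![y.1, y.2] (C a : MvPolynomial (Fin 2) ℝ)) = fun _ => a := by
      funext y; simp
    rw [e]
    have e2 : dP (C a) x = 0 := by simp [dP]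
    rw [e2]
    exact hasFDerivAt_const a x
  | add p q hp hq =>
    have e : (fun y : ℝ × ℝ => eval ![y.1, y.2] (p + q))
        = fun y => eval ![y.1, y.2] p + eval ![y.1, y.2] q := by
      funext y; simp
    rw [e]
    have e2 : dP (p + q) x = dP p x + dP q x := by
      simp only [dP, map_add, add_smul]
      abel
    rw [e2]
    exact hp.add hq
  | mul_X p i hp =>
    have e : (fun y : ℝ × ℝ => eval ![y.1, y.2] (p * X i))
        = fun y => eval ![y.1, y.2] p * (![y.1, y.2] : Fin 2 → ℝ) i := by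
      funext y; simp
    rw [e]
    fin_cases i
    · have h1 : HasFDerivAt (fun y : ℝ × ℝ => y.1) (ContinuousLinearMap.fst ℝ ℝ ℝ) x :=
        hasFDerivAt_fst
      refine HasFDerivAt.congr_fderiv (hp.mul h1) ?_
      apply ContinuousLinearMap.ext
      rintro ⟨a, b⟩
      simp [dP, pderiv_X]
      ring
    · have h1 : HasFDerivAt (fun y : ℝ × ℝ => y.2) (ContinuousLinearMap.snd ℝ ℝ ℝ) x :=
        hasFDerivAt_snd
      refine HasFDerivAt.congr_fderiv (hp.mul h1) ?_
      apply ContinuousLinearMap.ext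
      rintro ⟨a, b⟩
      simp [dP, pderiv_X]
      ring

theorem cont_eval (p : MvPolynomial (Fin 2) ℝ) :
    Continuous (fun y : ℝ × ℝ => eval ![y.1, y.2] p) :=
  continuous_iff_continuousAt.2 fun x => (hasFDeriv p x).continuousAt

theorem cont_dP (p : MvPolynomial (Fin 2) ℝ) : Continuous (dP p) :=
  ((cont_eval (pderiv 0 p)).smul continuous_const).add
    ((cont_eval (pderiv 1 p)).smul continuous_const)

/-- The closed triangles. -/
def KK (i : Fin 31) : Set (ℝ × ℝ) := convexHull ℝ ((triP i : Finset (ℝ × ℝ)) : Set (ℝ × ℝ))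

theorem KK_closed (i : Fin 31) : IsClosed (KK i) :=
  ((triP i).finite_toSet.isCompact_convexHull ℝ).isClosed

theorem Om_iUnion : Om = ⋃ i, KK i := by
  ext x
  simp only [Set.mem_iUnion]
  constructor
  · exact fun hx => cover hx
  · rintro ⟨i, hi⟩
    exact conv_sub_Om i hi

theorem Om_unique : UniqueDiffOn ℝ Om := by
  apply uniqueDiffOn_convex Om_convex
  rw [interior_Om]
  refine ⟨(1, 1), ?_⟩
  norm_num [NN]

open Classical in
/-- A selection of triangles. -/
noncomputable def sel (x : ℝ × ℝ) : Fin 31 := if h : x ∈ Om then tau ⟨x, h⟩ else 0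

theorem sel_coe (x : Om) : sel x = tau x := by
  rw [sel, dif_pos x.2]

theorem sel_spec {x : ℝ × ℝ} (hx : x ∈ Om) : x ∈ KK (sel x) := by
  rw [sel, dif_pos hx]
  exact tau_spec ⟨x, hx⟩

theorem match_sel {n : Dat} (hn : ∀ e, condE n e = 0) {i : Fin 31} {x : ℝ × ℝ} (hx : x ∈ KK i) :
    eval ![x.1, x.2] (q n (sel x)) = eval ![x.1, x.2] (q n i) ∧ dP (q n (sel x)) x = dP (q n i) x := by
  have hO : x ∈ Om := conv_sub_Om i hx
  obtain ⟨h1, h2⟩ := match_all hn (sel x) i (conv_common _ _ x (sel_spec hO) hx)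
  refine ⟨h1, ?_⟩
  rw [dP, dP, h2 0, h2 1]

theorem fderiv_piece {n : Dat} (hn : ∀ e, condE n e = 0) {x : ℝ × ℝ} (i : Fin 31) :
    HasFDerivWithinAt (fun y : ℝ × ℝ => eval ![y.1, y.2] (q n (sel y))) (dP (q n (sel x)) x)
      (KK i) x := by
  by_cases hx : x ∈ KK i
  · rw [(match_sel hn hx).2]
    exact (hasFDeriv (q n i) x).hasFDerivWithinAt.congr (fun y hy => (match_sel hn hy).1)
      (match_sel hn hx).1
  · apply HasFDerivWithinAt.of_notMem_closure
    rwa [(KK_closed i).closure_eq]

theorem fderiv_Om {n : Dat} (hn : ∀ e, condE n e = 0) {x : ℝ × ℝ} :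
    HasFDerivWithinAt (fun y : ℝ × ℝ => eval ![y.1, y.2] (q n (sel y))) (dP (q n (sel x)) x)
      Om x := by
  have key : ∀ s : Finset (Fin 31),
      HasFDerivWithinAt (fun y : ℝ × ℝ => eval ![y.1, y.2] (q n (sel y))) (dP (q n (sel x)) x)
        (⋃ i ∈ s, KK i) x := by
    intro s
    induction s using Finset.induction_on with
    | empty =>
      apply HasFDerivWithinAt.of_notMem_closure
      simp
    | insert a s _ ih =>
      rw [Finset.set_biUnion_insert]
      exact (fderiv_piece hn a).union ih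
  have := key Finset.univ
  simp only [Finset.mem_univ, Set.iUnion_true] at this
  rwa [Om_iUnion]

theorem cdiff {n : Dat} (hn : ∀ e, condE n e = 0) :
    ContDiffOn ℝ ((1 : ℕ) : WithTop ℕ∞) (fun y : ℝ × ℝ => eval ![y.1, y.2] (q n (sel y))) Om := by
  have h1 : (((1 : ℕ) : WithTop ℕ∞)) = 0 + 1 := by simp
  rw [h1, contDiffOn_succ_iff_hasFDerivWithinAt_of_uniqueDiffOn Om_unique]
  refine ⟨by simp, fun x => dP (q n (sel x)) x, ?_, fun x _ => fderiv_Om hn⟩
  rw [contDiffOn_zero, Om_iUnion]
  apply LocallyFinite.continuousOn_iUnion (locallyFinite_of_finite _) KK_closed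
  intro i
  exact (cont_dP (q n i)).continuousOn.congr fun y hy => (match_sel hn hy).2

/-! ## The injection -/

/-- The polynomial pieces as a linear map. -/
noncomputable def QL : Dat →ₗ[ℝ] (Fin 31 → MvPolynomial (Fin 2) ℝ) where
  toFun n t := q n t
  map_add' n m := by
    funext t
    simp only [q, qP, bz, Prod.fst_add, Prod.snd_add, Pi.add_apply, mul_add, add_mul, C_add]
    ring
  map_smul' c n := by
    funext t
    simp only [q, qP, bz, Prod.smul_fst, Prod.smul_snd, Pi.smul_apply, smul_eq_mul,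
      RingHom.id_apply, smul_eq_C_mul, mul_add, C_add, C_mul]
    ring

theorem cond_of_ker {n : Dat} (hn : n ∈ LinearMap.ker condL) : ∀ e, condE n e = 0 := by
  apply condE_all
  intro j
  exact congrFun (LinearMap.mem_ker.1 hn) j

theorem pw_mem {n : Dat} (hn : n ∈ LinearMap.ker condL) : pw (QL n) ∈ splineSpace 1 3 TT Om := by
  have hc := cond_of_ker hn
  refine ⟨⟨_, cdiff hc, ?_⟩, ?_⟩
  · intro x
    show eval _ (q n (sel x)) = eval _ (q n (tau x))
    rw [sel_coe]
  · intro t ht
    obtain ⟨i, rfl⟩ := mem_TT.1 ht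
    refine ⟨q n i, qP_deg _ _ _ _ _ _ _, ?_⟩
    intro x hx
    show eval _ (q n (tau x)) = _
    rw [← sel_coe]
    exact (match_sel hc hx).1

theorem poly_zero {K : Set (ℝ × ℝ)} (hK : (interior K).Nonempty) {p : MvPolynomial (Fin 2) ℝ}
    (hp : ∀ x ∈ K, eval ![x.1, x.2] p = 0) : p = 0 := by
  obtain ⟨x, hx⟩ := hK
  obtain ⟨ε, hε, hb⟩ := Metric.mem_nhds_iff.1 (mem_interior_iff_mem_nhds.1 hx)
  apply funext_set (s := ![Metric.ball x.1 ε, Metric.ball x.2 ε])
  · intro i
    fin_cases i
    · simp only [Fin.zero_eta, Matrix.cons_val_zero, Real.ball_eq_Ioo]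
      exact Set.Ioo_infinite (by linarith)
    · simp only [Fin.mk_one, Matrix.cons_val_one, Matrix.cons_val, Real.ball_eq_Ioo]
      exact Set.Ioo_infinite (by linarith)
  · intro y hy
    have h0 := hy 0 (Set.mem_univ _)
    have h1 := hy 1 (Set.mem_univ _)
    simp only [Matrix.cons_val_zero, Matrix.cons_val_one] at h0 h1
    have hmem : ((y 0, y 1) : ℝ × ℝ) ∈ Metric.ball x ε := by
      rw [← Prod.mk.eta (p := x), ← ball_prod_same]
      exact ⟨h0, h1⟩
    have := hp _ (hb hmem)
    have e : (![y 0, y 1] : Fin 2 → ℝ) = y := by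
      funext i
      fin_cases i <;> rfl
    simp only at this
    rw [e] at this
    rw [this, map_zero]

theorem KK_interior (i : Fin 31) : (interior (KK i)).Nonempty := by
  rw [KK, interior_convexHull_nonempty_iff_affineSpan_eq_top]
  have h := (affInd i).affineSpan_eq_top_iff_card_eq_finrank_add_one
  rw [Subtype.range_coe] at h
  rw [h]
  have h3 := card_triP i
  simp [h3]

theorem pw_inj {n : Dat} (hn : n ∈ LinearMap.ker condL) (h : pw (QL n) = 0) : n = 0 := by
  have hc := cond_of_ker hn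
  have hq : ∀ i, q n i = 0 := by
    intro i
    apply poly_zero (KK_interior i)
    intro x hx
    have hO : x ∈ Om := conv_sub_Om i hx
    have := congrFun h ⟨x, hO⟩
    have h2 : eval ![x.1, x.2] (q n (tau ⟨x, hO⟩)) = 0 := this
    rw [← sel_coe ⟨x, hO⟩] at h2
    rw [← (match_sel hc hx).1]
    exact h2
  apply Phi_inj
  rw [map_zero]
  funext t
  exact hq (idx t)

theorem dim_spline : 41 ≤ Module.finrank ℝ (splineSpace 1 3 TT Om) := by
  have := spline_fin 1 3
  let Ψ : LinearMap.ker condL →ₗ[ℝ] splineSpace 1 3 TT Om :=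
    LinearMap.codRestrict _ ((pw.comp QL).comp (LinearMap.ker condL).subtype)
      (fun n => pw_mem n.2)
  have hΨ : Function.Injective Ψ := by
    rw [← LinearMap.ker_eq_bot, LinearMap.ker_eq_bot']
    intro n hn
    have : pw (QL n.1) = 0 := congrArg Subtype.val hn
    exact Subtype.ext (pw_inj n.2 this)
  exact ker_dim.trans (LinearMap.finrank_le_finrank_of_injective hΨ)

end Pool.Agent.Helper32.Spl
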